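import Pool.Agent.W920.FD.Stm
import Pool.Agent.H671R2.PolyAuto

set_option autoImplicit false

/-! The final assembly. -/

namespace Pool.Agent.W920.FD

open Pool.Agent.NPC Pool.Agent.H558R2 Pool.Agent.H622R3.SM Pool.Agent.W920.FC

namespace TFINAL

theorem gd_mono {p q : Polynomial ℕ} {S : ℕ} {g : Reg → ℝ} (h : ∀ x, p.eval x ≤ q.eval x) :
    ∀ v, Gd p S g v → Gd q S g v := by
  intro v hv lam hl
  obtain ⟨E, z, h1, h2, h3, h4⟩ := hv lam hl
  exact ⟨E, z, h1, h2.trans (Nat.pow_le_pow_right (by norm_num) (h _)),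
    h3.trans (Nat.pow_le_pow_right (by norm_num) (h _)), h4⟩

theorem base_start {m n : ℕ} (A : Matrix (Fin m) (Fin n) ℝ) (b : Fin m → ℝ) :
    Base (start A b) := by
  constructor
  · rfl
  · rfl

theorem two_le_bitLength (q : ℚ) : 2 ≤ bitLength q := by
  unfold bitLength
  have h : 1 ≤ Nat.size q.den := Nat.size_pos.2 q.den_pos
  omega

theorem le_inputLength {m n : ℕ} (hm : 1 ≤ m) (A : Matrix (Fin m) (Fin n) ℚ)
    (b : Fin m → ℚ) : m + n ≤ inputLength A b := by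
  unfold inputLength
  have h1 : m * (n * 2) ≤ ∑ i, ∑ j, bitLength (A i j) := by
    calc m * (n * 2) = ∑ i : Fin m, ∑ j : Fin n, 2 := by simp
      _ ≤ _ := Finset.sum_le_sum fun i _ => Finset.sum_le_sum fun j _ => two_le_bitLength _
  have h2 : m * 2 ≤ ∑ i, bitLength (b i) := by
    calc m * 2 = ∑ i : Fin m, 2 := by simp
      _ ≤ _ := Finset.sum_le_sum fun i _ => two_le_bitLength _
  have h3 : n ≤ m * (n * 2) := by nlinarith
  omega

/-- The results of phase 1. -/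
abbrev Rs : Type := List (Cand × List (List ℤ × ℕ))
/-- The context types. -/
abbrev X1 : Type := List Unit × List Unit
/-- The context types. -/
abbrev X2 : Type := X1 × Rs
/-- The context types. -/
abbrev X3 : Type := X2 × S2
/-- The context types. -/
abbrev X4 : Type := X3 × List (List ℤ × List ℤ)

/-- The first result. -/
def hd1 (res : Rs) : Cand × List (List ℤ × ℕ) := (res.head?).getD (([], []), [])

theorem poly_hd1 {α : Type} [TEnc α] (f : α → Rs) (hf : Poly f) : Poly (fun a => hd1 (f a)) := by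
  unfold hd1
  fun_prop

/-- The last phase. -/
def G4 (k m n : ℕ) (res : Rs) (Lad : List (List ℤ × List ℤ)) : TT Bool :=
  T4 (V1 k m n (hd1 res)) m n (R1 k m n) Lad

/-- The third phase. -/
def H3 (k m n : ℕ) (res : Rs) (s : S2) : TT (List (List ℤ × List ℤ)) :=
  T3 (V1 k m n (hd1 res)) (Q1 k (m + n)) s.1

/-- The second phase. -/
def H2 (k m n : ℕ) (res : Rs) : TT S2 :=
  stages (V1 k m n (hd1 res)) (E1 k (m + n)) (N1 k (m + n))

/-- The last two phases. -/
def G3 (k m n : ℕ) (res : Rs) (s : S2) : TT Bool :=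
  bnd (H3 k m n res s) fun Lad => G4 k m n res Lad

/-- The last three phases. -/
def G2 (k m n : ℕ) (res : Rs) : TT Bool := bnd (H2 k m n res) fun s => G3 k m n res s

theorem TA_eq (k m n : ℕ) : TA k m n = bnd (T1 k m n (E0 k (m + n))) fun res => G2 k m n res := rfl

theorem c4 (k : ℕ) (hQV : S_QV k) (hQ4 : S_Q4) :
    PT (fun p : X4 => G4 k p.1.1.1.1.length p.1.1.1.2.length p.1.1.2 p.2) := by
  have i0 : Poly (fun p : X4 => p.1.1.1) :=
    Pool.Agent.NPC.Poly.fst (Pool.Agent.NPC.Poly.fst (Pool.Agent.NPC.Poly.fst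
      Pool.Agent.NPC.Poly.id))
  have i1 : Poly (fun p : X4 => p.1.1.1.1) := Pool.Agent.NPC.Poly.fst i0
  have i2 : Poly (fun p : X4 => p.1.1.1.2) := Pool.Agent.NPC.Poly.snd i0
  have i3 : Poly (fun p : X4 => p.1.1.2) :=
    Pool.Agent.NPC.Poly.snd (Pool.Agent.NPC.Poly.fst (Pool.Agent.NPC.Poly.fst
      Pool.Agent.NPC.Poly.id))
  have i4 : Poly (fun p : X4 => p.2) := Pool.Agent.NPC.Poly.snd Pool.Agent.NPC.Poly.id
  have i5 : Poly (fun p : X4 => hd1 p.1.1.2) := poly_hd1 _ i3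
  obtain ⟨-, -, hV1, -, -, -, -, hR1⟩ := hQV X4 (fun p => p.1.1.1.1) (fun p => p.1.1.1.2) i1 i2
  exact hQ4 X4 (fun p => p.1.1.1.1) (fun p => p.1.1.1.2)
    (fun p => V1 k p.1.1.1.1.length p.1.1.1.2.length (hd1 p.1.1.2))
    (fun p => R1 k p.1.1.1.1.length p.1.1.1.2.length) (fun p => p.2) i1 i2 (hV1 _ i5) hR1 i4

theorem d3 (k : ℕ) (hQV : S_QV k) (hQ3 : S_Q3) :
    PT (fun p : X3 => H3 k p.1.1.1.length p.1.1.2.length p.1.2 p.2) := by
  have i0 : Poly (fun p : X3 => p.1.1) :=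
    Pool.Agent.NPC.Poly.fst (Pool.Agent.NPC.Poly.fst Pool.Agent.NPC.Poly.id)
  have i1 : Poly (fun p : X3 => p.1.1.1) := Pool.Agent.NPC.Poly.fst i0
  have i2 : Poly (fun p : X3 => p.1.1.2) := Pool.Agent.NPC.Poly.snd i0
  have i3 : Poly (fun p : X3 => p.1.2) :=
    Pool.Agent.NPC.Poly.snd (Pool.Agent.NPC.Poly.fst Pool.Agent.NPC.Poly.id)
  have i4 : Poly (fun p : X3 => p.2.1) :=
    Pool.Agent.NPC.Poly.fst (Pool.Agent.NPC.Poly.snd Pool.Agent.NPC.Poly.id)
  have i5 : Poly (fun p : X3 => hd1 p.1.2) := poly_hd1 _ i3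
  obtain ⟨-, -, hV1, -, -, -, hq, -⟩ := hQV X3 (fun p => p.1.1.1) (fun p => p.1.1.2) i1 i2
  exact hQ3 X3 (fun p => V1 k p.1.1.1.length p.1.1.2.length (hd1 p.1.2))
    (fun p => Q1 k (p.1.1.1.length + p.1.1.2.length)) (fun p => p.2.1) (hV1 _ i5) hq i4

theorem d2 (k : ℕ) (hQV : S_QV k) (hQS : S_QS) (hV : S_V1ORD) :
    PT (fun p : X2 => H2 k p.1.1.length p.1.2.length p.2) := by
  have i0 : Poly (fun p : X2 => p.1) := Pool.Agent.NPC.Poly.fst Pool.Agent.NPC.Poly.id
  have i1 : Poly (fun p : X2 => p.1.1) := Pool.Agent.NPC.Poly.fst i0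
  have i2 : Poly (fun p : X2 => p.1.2) := Pool.Agent.NPC.Poly.snd i0
  have i3 : Poly (fun p : X2 => p.2) := Pool.Agent.NPC.Poly.snd Pool.Agent.NPC.Poly.id
  have i5 : Poly (fun p : X2 => hd1 p.2) := poly_hd1 _ i3
  obtain ⟨-, -, hV1, -, hE, hN, -, -⟩ := hQV X2 (fun p => p.1.1) (fun p => p.1.2) i1 i2
  refine hQS X2 (fun p => V1 k p.1.1.length p.1.2.length (hd1 p.2))
    (fun p => E1 k (p.1.1.length + p.1.2.length)) (fun p => N1 k (p.1.1.length + p.1.2.length))
    (hV1 _ i5) hE hN ?_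
  intro p
  rw [(hV k p.1.1.length p.1.2.length (hd1 p.2)).2.2.2]
  unfold E1
  omega

theorem d1 (k : ℕ) (hQ1 : S_Q1 k) :
    PT (fun p : X1 => T1 k p.1.length p.2.length (E0 k (p.1.length + p.2.length))) := by
  have i1 : Poly (fun p : X1 => p.1) := Pool.Agent.NPC.Poly.fst Pool.Agent.NPC.Poly.id
  have i2 : Poly (fun p : X1 => p.2) := Pool.Agent.NPC.Poly.snd Pool.Agent.NPC.Poly.id
  exact hQ1 X1 (fun p => p.1) (fun p => p.2) i1 i2

theorem bndPT (hPT : S_PT) {α β γ : Type} [TEnc α] [TEnc β] [TEnc γ] (T : α → TT β)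
    (f : α → β → TT γ) (F : α → TT γ) (hF : ∀ a, F a = bnd (T a) (f a)) (h1 : PT T)
    (h2 : PT (fun p : α × β => f p.1 p.2)) : PT F := by
  have : F = fun a => bnd (T a) (f a) := funext hF
  rw [this]
  exact hPT.2.1 α β γ T f h1 h2

theorem c3 (k : ℕ) (hPT : S_PT) (hQV : S_QV k) (hQ3 : S_Q3) (hQ4 : S_Q4) :
    PT (fun p : X3 => G3 k p.1.1.1.length p.1.1.2.length p.1.2 p.2) :=
  bndPT hPT (fun p : X3 => H3 k p.1.1.1.length p.1.1.2.length p.1.2 p.2)
    (fun p Lad => G4 k p.1.1.1.length p.1.1.2.length p.1.2 Lad) _ (fun _ => rfl) (d3 k hQV hQ3)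
    (c4 k hQV hQ4)

theorem c2 (k : ℕ) (hPT : S_PT) (hQV : S_QV k) (hQS : S_QS) (hV : S_V1ORD) (hQ3 : S_Q3)
    (hQ4 : S_Q4) : PT (fun p : X2 => G2 k p.1.1.length p.1.2.length p.2) :=
  bndPT hPT (fun p : X2 => H2 k p.1.1.length p.1.2.length p.2)
    (fun p s => G3 k p.1.1.length p.1.2.length p.2 s) _ (fun _ => rfl) (d2 k hQV hQS hV)
    (c3 k hPT hQV hQ3 hQ4)

/-- The control is polynomial. -/
theorem ctrl (k : ℕ) (hPT : S_PT) (hQ1 : S_Q1 k) (hQV : S_QV k) (hQS : S_QS) (hV : S_V1ORD)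
    (hQ3 : S_Q3) (hQ4 : S_Q4) :
    PT (fun p : List Unit × List Unit => TA k p.1.length p.2.length) :=
  bndPT hPT (fun p : X1 => T1 k p.1.length p.2.length (E0 k (p.1.length + p.2.length)))
    (fun p res => G2 k p.1.length p.2.length res) _ (fun _ => TA_eq _ _ _) (d1 k hQ1)
    (c2 k hPT hQV hQS hV hQ3 hQ4)

end TFINAL

open TFINAL

theorem t_FINAL (k : ℕ) (hRUN : Pool.Agent.W920.FC.S_RUN) (hBND : S_BND) (hMONO : S_MONO) (hPT : S_PT)
    (hCTRL : S_CTRL) (hBITS : S_BITS) (hFEAS : S_FEAS) (hP1 : S_P1 k) (hV1ORD : S_V1ORD)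
    (hVOK1 : S_VOK1 k) (hW1 : S_W1) (hSTGS : S_STGS) (hGD : S_GD) (hP3 : S_P3) (hP4 : S_P4)
    (hBF : S_BF) (hPB : S_PB k) (hQ1 : S_Q1 k) (hQV : S_QV k) (hQS : S_QS) (hQ3 : S_Q3)
    (hQ4 : S_Q4) : S_FINAL k := by
  refine ⟨?_, ?_, ?_⟩
  · exact hCTRL (TA k) (ctrl k hPT hQ1 hQV hQS hV1ORD hQ3 hQ4)
  · -- no oracle
    intro m n h w
    unfold alg algOf
    cases TA k m n h <;> simp
  · obtain ⟨q1, h1'⟩ := hP1
    obtain ⟨qv, hv⟩ := hVOK1
    obtain ⟨qb, hb⟩ := hPB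
    obtain ⟨q2, h2⟩ := hSTGS qv qb
    obtain ⟨q3, h3⟩ := hP3 qv qb
    obtain ⟨q4, h4⟩ := hP4 qv (2 * qb + 2 * qb + 1)
    set qs : Polynomial ℕ := q1 + (q2 + (q3 + q4)) with hqs
    have e1 : ∀ x, q1.eval x ≤ qs.eval x := fun x => by
      simp only [hqs, Polynomial.eval_add]; omega
    have e2 : ∀ x, q2.eval x ≤ qs.eval x := fun x => by
      simp only [hqs, Polynomial.eval_add]; omega
    have e3 : ∀ x, q3.eval x ≤ qs.eval x := fun x => by
      simp only [hqs, Polynomial.eval_add]; omega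
    have e4 : ∀ x, q4.eval x ≤ qs.eval x := fun x => by
      simp only [hqs, Polynomial.eval_add]; omega
    refine ⟨qs + 1 + (2 * qs.comp (3 * Polynomial.X) + 3), ?_⟩
    intro m n hm hn A b hC
    set g : Reg → ℝ := start A b with hg
    have hbase : Base g := base_start A b
    obtain ⟨b1, b2, b3, b4, b5, b6, b7, b8, b9, b10, b11, b12, b13, b14, b15, b16⟩ := hb m n
    obtain ⟨res, r1, hgood⟩ := h1' m n A b hC
    set x : Cand × List (List ℤ × ℕ) := (res.head?).getD (([], []), []) with hx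
    have hrec : RecOK k m n x := hgood.2.2.1
    have hvok := hv m n g x hbase hrec
    have hlen : (V1 k m n x).2.length = N1 k (m + n) := (hV1ORD k m n x).2.2.2
    have hE : h1 k (m + n) + 2 * (V1 k m n x).2.length + 4 ≤ E1 k (m + n) := by
      rw [hlen]; exact le_rfl
    obtain ⟨s, hinv, r2⟩ := h2 (m + n) g (V1 k m n x) (w1 k m n g x) (E1 k (m + n)) (h1 k (m + n))
      (N1 k (m + n)) hbase hvok hE b5 b4
    have hinv' : Inv2 (V1 k m n x).2.length (E1 k (m + n)) (h1 k (m + n)) (w1 k m n g x)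
        (V1 k m n x).2.length s := by
      rw [← hlen] at hinv; exact hinv
    have hG2 : Good2 (V1 k m n x).2.length (h1 k (m + n)) (P1 k (m + n))
        ((P1 k (m + n) + 1) * N1 k (m + n)) (w1 k m n g x) s.1 := by
      have := hGD _ _ _ _ _ hinv'
      rw [hlen] at this ⊢
      exact this
    obtain ⟨Lad, hG3, r3⟩ := h3 (m + n) g (V1 k m n x) (w1 k m n g x) (h1 k (m + n))
      (P1 k (m + n)) ((P1 k (m + n) + 1) * N1 k (m + n)) (Q1 k (m + n)) s.1 hbase hvok hG2 rfl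
      b10 b7
    have hZ : (V1 k m n x).2.length * ((V1 k m n x).2.length * (2 * Q1 k (m + n) + 1)) =
        Z1 k (m + n) := by
      rw [hlen]; rfl
    rw [hZ] at hG3
    have hw0 : w1 k m n g x 0 = 1 := (hW1 k m n g x hbase).1
    have hB : 2 * ((P1 k (m + n) + 1) * N1 k (m + n)) + 2 * Q1 k (m + n) + 1 ≤
        (2 * qb + 2 * qb + 1).eval (m + n) := by
      simp only [Polynomial.eval_add, Polynomial.eval_mul, Polynomial.eval_ofNat,
        Polynomial.eval_one]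
      omega
    have hR : R1 k m n ≤ (2 * qb + 2 * qb + 1).eval (m + n) := by
      simp only [Polynomial.eval_add, Polynomial.eval_mul, Polynomial.eval_ofNat,
        Polynomial.eval_one]
      omega
    obtain ⟨ans, r4, hs, hc⟩ := h4 m n g (V1 k m n x) (w1 k m n g x) (h1 k (m + n))
      (Z1 k (m + n)) (2 * ((P1 k (m + n) + 1) * N1 k (m + n)) + 2 * Q1 k (m + n) + 1)
      (R1 k m n) Lad hbase hvok hw0 hG3 hB rfl hR
    have r1' := hMONO _ g _ _ _ _ _ _ (gd_mono (S := m + n) (g := g) e1) le_rfl r1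
    have r2' := hMONO _ g _ _ _ _ _ _ (gd_mono (S := m + n) (g := g) e2) le_rfl r2
    have r3' := hMONO _ g _ _ _ _ _ _ (gd_mono (S := m + n) (g := g) e3) le_rfl r3
    have r4' := hMONO _ g _ _ _ _ _ _ (gd_mono (S := m + n) (g := g) e4) le_rfl r4
    have r : Runs g (Gd qs (m + n) g) (TA k m n) ans
        (q1.eval (m + n) + (q2.eval (m + n) + (q3.eval (m + n) + q4.eval (m + n)))) := by
      unfold TA
      refine hBND _ _ g _ _ _ res ans _ _ r1' ?_
      rw [← hx]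
      unfold TB
      refine hBND _ _ g _ _ _ s ans _ _ r2' ?_
      exact hBND _ _ g _ _ _ Lad ans _ _ r3' r4'
    have hfuel : q1.eval (m + n) + (q2.eval (m + n) + (q3.eval (m + n) + q4.eval (m + n))) + 1 ≤
        (qs + 1 + (2 * qs.comp (3 * Polynomial.X) + 3)).eval (m + n) := by
      simp only [hqs, Polynomial.eval_add, Polynomial.eval_one]
      omega
    obtain ⟨nums, steps, hrun, hsteps, hG⟩ := hRUN (TA k) m n g _ ans _ r ∅ _ hfuel
    refine ⟨ans, nums, steps, hrun, ?_, by omega, ?_⟩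
    · rw [← hFEAS m n A b]
      constructor
      · exact hs
      · intro hf
        apply hc
        have hf' := (hFEAS m n A b).1 hf
        have hL := hG3.2.2.2.2
        rw [hlen] at hL ⊢
        exact hBF k m n A b x Lad hm hgood hL hf'
    · intro A' b' hA hb' v hv'
      have hA2 : (fun i j => ((A' i j : ℚ) : ℝ)) = (A : Fin m → Fin n → ℝ) := by
        funext i j
        exact hA i j
      have hb2 : (fun i => ((b' i : ℚ) : ℝ)) = b := by
        funext i
        exact hb' i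
      have hRB := hBITS.2 m n A' b'
      rw [hA2, hb2] at hRB
      have hQ := hG v hv' _ hRB
      obtain ⟨q, hq, hq2⟩ := hBITS.1 _ _ hQ
      refine ⟨q, hq, hq2.trans ?_⟩
      have hL := le_inputLength hm A' b'
      have hmono := eval_mono qs (show m + n + 2 * inputLength A' b' ≤ 3 * inputLength A' b' by
        omega)
      simp only [Polynomial.eval_add, Polynomial.eval_mul, Polynomial.eval_comp,
        Polynomial.eval_X, Polynomial.eval_ofNat]
      omega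

end Pool.Agent.W920.FD
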