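import Pool.Agent.W920.FD.Stm

set_option autoImplicit false

/-!
# Project FD: the equations of the Gram matrix, of Faddeev-LeVerrier and of the scalar product
-/

namespace Pool.Agent.W920.FD

open Pool.Agent.NPC Pool.Agent.H558R2 Pool.Agent.H622R3.SM Pool.Agent.W920.FC

namespace TEQM

lemma mem2 : ([2] : Reg) ∈ baseReg := by
  simp [baseReg]

lemma mem3 : ([3] : Reg) ∈ baseReg := by
  simp [baseReg]

lemma mem0 (i j : ℕ) : ([0, i, j] : Reg) ∈ baseReg := by
  simp [baseReg]

lemma mem1 (i : ℕ) : ([1, i] : Reg) ∈ baseReg := by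
  simp [baseReg]

section

variable (p : Pa)

lemma v2 (h : p.OK) : vr p [2] = 1 := (h.2.1 [2] mem2).trans h.1.1
lemma v3 (h : p.OK) : vr p [3] = 0 := (h.2.1 [3] mem3).trans h.1.2
lemma v0 (h : p.OK) (i j : ℕ) : vr p [0, i, j] = p.g [0, i, j] := h.2.1 [0, i, j] (mem0 i j)
lemma v1 (h : p.OK) (i : ℕ) : vr p [1, i] = p.g [1, i] := h.2.1 [1, i] (mem1 i)
lemma v35 (j : ℕ) : vr p [35, j] = p.W j := rfl
lemma v36 (i j : ℕ) : vr p [36, i, j] = Rv p.m p.n p.g i j := rfl
lemma v37 (i j : ℕ) : vr p [37, i, j] = Rv p.m p.n p.g i j * p.W j := rfl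
lemma v38 (j l i : ℕ) : vr p [38, j, l, i] =
    (Rv p.m p.n p.g i j * p.W j) * (Rv p.m p.n p.g i l * p.W l) := rfl
lemma v39 (j l i : ℕ) : vr p [39, j, l, i] = ∑ i' ∈ Finset.range i,
    (Rv p.m p.n p.g i' j * p.W j) * (Rv p.m p.n p.g i' l * p.W l) := rfl
lemma v4 (i j : ℕ) : vr p [4, i, j] = ent p.G i j := rfl
lemma v6 (k i j : ℕ) : vr p [6, k, i, j] = ent (flN p.G k) i j := rfl
lemma v40 (t : ℕ) : vr p [40, t] = (t : ℝ) := rfl
lemma v41 (l : ℕ) : vr p [41, l] = ent (flN p.G p.r) p.j l * (p.y.getD l 0 : ℕ) := rfl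
lemma v42 (l : ℕ) : vr p [42, l] =
    ∑ l' ∈ Finset.range l, ent (flN p.G p.r) p.j l' * (p.y.getD l' 0 : ℕ) := rfl

lemma good_ent (h : p.OK) (i j : ℕ) : Eqn (vr p) (entProg p.m p.n i j) := by
  unfold entProg
  by_cases h1 : j < p.m
  · rw [if_pos h1]
    by_cases h2 : i = j
    · rw [if_pos h2]
      refine ⟨?_, by simp⟩
      simp only [Op.eval]
      rw [v36, v2 p h, v3 p h, Rv, if_pos h1, if_pos h2, add_zero]
    · rw [if_neg h2]
      refine ⟨?_, by simp⟩
      simp only [Op.eval]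
      rw [v36, v3 p h, Rv, if_pos h1, if_neg h2, add_zero]
  · rw [if_neg h1]
    by_cases h2 : j < p.m + p.n
    · rw [if_pos h2]
      refine ⟨?_, by simp⟩
      simp only [Op.eval]
      rw [v36, v3 p h, v0 p h, Rv, if_neg h1, if_pos h2, zero_sub]
    · rw [if_neg h2]
      by_cases h3 : j < p.m + (p.n + p.n)
      · rw [if_pos h3]
        refine ⟨?_, by simp⟩
        simp only [Op.eval]
        rw [v36, v3 p h, v0 p h, Rv, if_neg h1, if_neg h2, if_pos h3, add_zero]
      · rw [if_neg h3]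
        refine ⟨?_, by simp⟩
        simp only [Op.eval]
        rw [v36, v3 p h, v1 p h, Rv, if_neg h1, if_neg h2, if_neg h3, add_zero]

lemma good_mat (h : p.OK) : ∀ I ∈ matProg p.m p.n, Eqn (vr p) I := by
  intro I hI
  unfold matProg at hI
  simp only [List.mem_flatMap, List.mem_range, List.mem_cons, List.not_mem_nil, or_false] at hI
  obtain ⟨i, -, j, -, rfl | rfl⟩ := hI
  · exact good_ent p h i j
  · refine ⟨?_, by simp⟩
    simp only [Op.eval]
    rw [v37, v36, v35]

lemma good_gram (h : p.OK) : ∀ I ∈ gramProg p.m p.n p.drop, Eqn (vr p) I := by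
  intro I hI
  unfold gramProg at hI
  simp only [List.mem_flatMap, List.mem_range, List.mem_cons, List.mem_append, List.not_mem_nil,
    or_false, List.cons_append] at hI
  obtain ⟨j, hj, l, hl, rfl | ⟨i, -, rfl | rfl⟩ | rfl⟩ := hI
  · refine ⟨?_, by simp⟩
    simp only [Op.eval]
    rw [v39, v3 p h, Finset.range_zero, Finset.sum_empty, add_zero]
  · refine ⟨?_, by simp⟩
    simp only [Op.eval]
    rw [v38, v37, v37]
  · refine ⟨?_, by simp⟩
    simp only [Op.eval]
    rw [v39, v39, v38, Finset.sum_range_succ]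
  · refine ⟨?_, by simp⟩
    simp only [Op.eval]
    have e : ent p.G j l = p.G ⟨j, hj⟩ ⟨l, hl⟩ := by
      unfold ent
      rw [dif_pos ⟨hj, hl⟩]
    rw [v4, v39, e, Pa.G, GMat]
    congr 1
    by_cases hd : (decide (j = l) && p.drop.getD j false) = true
    · rw [if_pos hd, if_pos hd, v2 p h]
    · rw [if_neg hd, if_neg hd, v3 p h]

lemma good_num (h : p.OK) (T : ℕ) : ∀ I ∈ numProg T, Eqn (vr p) I := by
  intro I hI
  unfold numProg at hI
  simp only [List.mem_cons, List.mem_map, List.mem_range] at hI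
  rcases hI with rfl | ⟨t, -, rfl⟩
  · refine ⟨?_, by simp⟩
    simp only [Op.eval]
    rw [v40, v3 p h, Nat.cast_zero, add_zero]
  · refine ⟨?_, by simp⟩
    simp only [Op.eval]
    rw [v40, v40, v2 p h, Nat.cast_succ]

lemma good_dot (h : p.OK) : ∀ I ∈ dotProg (cK p.m p.n) p.r p.j p.y, Eqn (vr p) I := by
  intro I hI
  unfold dotProg at hI
  simp only [List.mem_cons, List.mem_flatMap, List.mem_range, List.not_mem_nil, or_false] at hI
  rcases hI with rfl | ⟨l, -, rfl | rfl⟩
  · refine ⟨?_, by simp⟩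
    simp only [Op.eval]
    rw [v42, v3 p h, Finset.range_zero, Finset.sum_empty, add_zero]
  · refine ⟨?_, by simp⟩
    simp only [Op.eval]
    rw [v41, v6, v40]
  · refine ⟨?_, by simp⟩
    simp only [Op.eval]
    rw [v42, v42, v41, Finset.sum_range_succ]

end

lemma ent_mk {K : ℕ} (M : Matrix (Fin K) (Fin K) ℝ) (i j : ℕ) (hi : i < K) (hj : j < K) :
    ent M i j = M ⟨i, hi⟩ ⟨j, hj⟩ := by
  unfold ent
  rw [dif_pos ⟨hi, hj⟩]

lemma ent_mul {K : ℕ} (A B : Matrix (Fin K) (Fin K) ℝ) (i j : ℕ) (hi : i < K) (hj : j < K) :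
    ∑ l ∈ Finset.range K, ent A i l * ent B l j = (A * B) ⟨i, hi⟩ ⟨j, hj⟩ := by
  rw [Finset.sum_range, Matrix.mul_apply]
  refine Finset.sum_congr rfl fun l _ => ?_
  rw [ent_mk A i l hi l.2, ent_mk B l j l.2 hj]

lemma sum_trace {K : ℕ} (A B : Matrix (Fin K) (Fin K) ℝ) :
    ∑ i ∈ Finset.range K, ∑ l ∈ Finset.range K, ent A i l * ent B l i =
      Matrix.trace (A * B) := by
  rw [Finset.sum_range]
  unfold Matrix.trace
  refine Finset.sum_congr rfl fun i _ => ?_
  rw [ent_mul A B i i i.2 i.2]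
  rfl

section

variable (p : Pa) (hb : p.OK)

lemma v5 (k : ℕ) : vr p [5, k] = (k : ℝ) := rfl
lemma v7 (k i j l : ℕ) : vr p [7, k, i, j, l] = ent p.G i l * ent (flN p.G k) l j := rfl
lemma v8 (k i j l : ℕ) : vr p [8, k, i, j, l] = ∑ l' ∈ Finset.range l,
    ent p.G i l' * ent (flN p.G k) l' j := rfl
lemma v9 (k i : ℕ) : vr p [9, k, i] = ∑ i' ∈ Finset.range i,
    ∑ l ∈ Finset.range (cK p.m p.n), ent p.G i' l * ent (flN p.G k) l i' := rfl
lemma v10 (k : ℕ) : vr p [10, k] =
    (∑ i ∈ Finset.range (cK p.m p.n), ∑ l ∈ Finset.range (cK p.m p.n),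
      ent p.G i l * ent (flN p.G k) l i) / ((k : ℝ) + 1) := rfl

include hb in
lemma good_initProg : ∀ I ∈ initProg (cK p.m p.n), Eqn (vr p) I := by
  intro I hI
  unfold initProg at hI
  simp only [List.mem_cons, List.mem_flatMap, List.mem_map, List.mem_range] at hI
  rcases hI with rfl | ⟨i, hi, j, hj, rfl⟩
  · refine ⟨?_, by simp⟩
    simp only [Op.eval]
    rw [v5, v3 p hb]
    simp
  · refine ⟨?_, by simp⟩
    simp only [Op.eval]
    rw [v6, v3 p hb, ent_mk _ _ _ hi hj]
    have e : flN p.G 0 = 1 := rfl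
    rw [e, Matrix.one_apply]
    by_cases hij : i = j
    · subst hij
      rw [if_pos rfl, if_pos rfl, v2 p hb]
      norm_num
    · rw [if_neg hij, if_neg (by simpa using hij), v3 p hb]
      norm_num

include hb in
lemma good_prodProg (k : ℕ) : ∀ I ∈ prodProg (cK p.m p.n) k, Eqn (vr p) I := by
  intro I hI
  unfold prodProg at hI
  simp only [List.mem_cons, List.mem_flatMap, List.mem_range, List.not_mem_nil, or_false] at hI
  obtain ⟨i, hi, j, hj, rfl | ⟨l, hl, rfl | rfl⟩⟩ := hI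
  · refine ⟨?_, by simp⟩
    simp only [Op.eval]
    rw [v8, v3 p hb]
    simp
  · refine ⟨?_, by simp⟩
    simp only [Op.eval]
    rw [v7, v4, v6]
  · refine ⟨?_, by simp⟩
    simp only [Op.eval]
    rw [v8, v8, v7, Finset.sum_range_succ]

include hb in
lemma good_traceProg (k : ℕ) : ∀ I ∈ traceProg (cK p.m p.n) k, Eqn (vr p) I := by
  intro I hI
  unfold traceProg at hI
  simp only [List.mem_cons, List.mem_append, List.mem_map, List.mem_range, List.not_mem_nil,
    or_false, List.cons_append] at hI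
  rcases hI with rfl | ⟨i, hi, rfl⟩ | rfl | rfl
  · refine ⟨?_, by simp⟩
    simp only [Op.eval]
    rw [v9, v3 p hb]
    simp
  · refine ⟨?_, by simp⟩
    simp only [Op.eval]
    rw [v9, v9, v8, Finset.sum_range_succ]
  · refine ⟨?_, by simp⟩
    simp only [Op.eval]
    rw [v5, v5, v2 p hb]
    push_cast
    ring
  · refine ⟨?_, fun _ => ?_⟩
    · simp only [Op.eval]
      rw [v10, v9, v5]
      push_cast
      rfl
    · simp only
      rw [v5]
      positivity

include hb in
lemma good_nextProg (k : ℕ) : ∀ I ∈ nextProg (cK p.m p.n) k, Eqn (vr p) I := by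
  intro I hI
  unfold nextProg at hI
  simp only [List.mem_flatMap, List.mem_map, List.mem_range] at hI
  obtain ⟨i, hi, j, hj, rfl⟩ := hI
  refine ⟨?_, by simp⟩
  simp only [Op.eval]
  rw [v6, v8, ent_mk _ _ _ hi hj, ent_mul _ _ i j hi hj]
  have e : flN p.G (k + 1) = p.G * flN p.G k -
      (Matrix.trace (p.G * flN p.G k) / ((k : ℝ) + 1)) • 1 := rfl
  rw [e, Matrix.sub_apply, Matrix.smul_apply, smul_eq_mul, Matrix.one_apply]
  by_cases hij : i = j
  · subst hij
    rw [if_pos rfl, if_pos rfl, v10, sum_trace]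
    ring
  · rw [if_neg hij, if_neg (by simpa using hij), v3 p hb]
    ring

end

end TEQM

/-- The equations of the Gram matrix, of Faddeev-LeVerrier and of the scalar product. -/
theorem t_EQM : S_EQM := by
  intro p h
  refine ⟨?_, ?_, ?_⟩
  · intro I hI
    rcases List.mem_append.mp hI with hI | hI
    · exact TEQM.good_mat p h I hI
    · exact TEQM.good_gram p h I hI
  · intro I hI
    unfold flProg at hI
    simp only [List.mem_append, List.mem_flatMap, List.mem_range] at hI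
    rcases hI with hI | ⟨k, hk, hI | hI | hI⟩
    · exact TEQM.good_initProg p h I hI
    · exact TEQM.good_prodProg p h k I hI
    · exact TEQM.good_traceProg p h k I hI
    · exact TEQM.good_nextProg p h k I hI
  · intro T I hI
    rcases List.mem_append.mp hI with hI | hI
    · exact TEQM.good_num p h T I hI
    · exact TEQM.good_dot p h I hI

end Pool.Agent.W920.FD
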