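import Pool.Agent.W920.FD.Stm

set_option autoImplicit false

/-!
# Project FD, part FN: the end of a stage, semantically
-/

namespace Pool.Agent.W920.FD

open Pool.Agent.NPC Pool.Agent.H558R2 Pool.Agent.H622R3.SM Pool.Agent.W920.FC

namespace TFN

/-- The value of an entry of a mapped range. -/
lemma getD_map_range {α : Type} (N : ℕ) (f : ℕ → α) (l : ℕ) (d : α) (h : l < N) :
    ((List.range N).map f).getD l d = f l := by
  simp [List.getD, h]

/-- The estimate of a new form. -/
lemma key (X x q v a P2 H : ℝ) (hX : 0 < X) (hq : 0 ≤ q) (hP : 0 < P2) (hH : 0 < H)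
    (h1 : a * X ≤ P2 * x) (h2 : P2 * x ≤ (a + 1) * X) (h3 : q * (2 * H) ≤ P2)
    (h4 : |q * a - P2 * v| * (2 * H) ≤ P2) : |q * x - v * X| ≤ X / H := by
  have e1 : P2 * (q * x - v * X) = q * (P2 * x - a * X) + (q * a - P2 * v) * X := by ring
  have h5 : P2 * |q * x - v * X| ≤ q * X + |q * a - P2 * v| * X := by
    rw [← abs_of_pos hP, ← abs_mul, e1, abs_of_pos hP]
    refine (abs_add_le _ _).trans ?_
    rw [abs_mul, abs_mul, abs_of_nonneg hq, abs_of_pos hX]
    have h6 : |P2 * x - a * X| ≤ X := by
      rw [abs_le]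
      constructor <;> linarith
    have := mul_le_mul_of_nonneg_left h6 hq
    linarith
  rw [le_div_iff₀ hH]
  have h7 : q * X * (2 * H) ≤ P2 * X := by
    have := mul_le_mul_of_nonneg_right h3 hX.le
    linarith
  have h8 : |q * a - P2 * v| * X * (2 * H) ≤ P2 * X := by
    have := mul_le_mul_of_nonneg_right h4 hX.le
    linarith
  have h9 : P2 * |q * x - v * X| * (2 * H) ≤ 2 * (P2 * X) := by
    have := mul_le_mul_of_nonneg_right h5 (by positivity : (0 : ℝ) ≤ 2 * H)
    linarith
  have h10 : P2 * (|q * x - v * X| * H) ≤ P2 * X := by linarith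
  exact le_of_mul_le_mul_left h10 hP

/-- The approximation of the maximal form is exact. -/
lemma exact (q P H : ℕ) (v : ℤ)
    (h : ((q : ℤ) * ((2 ^ P : ℕ) : ℤ) - 2 ^ P * v).natAbs * 2 ^ (H + 2) ≤ 2 ^ P) : v = q := by
  by_contra hne
  have e : (q : ℤ) * ((2 ^ P : ℕ) : ℤ) - 2 ^ P * v = 2 ^ P * ((q : ℤ) - v) := by
    push_cast
    ring
  rw [e, Int.natAbs_mul] at h
  have h1 : 1 ≤ ((q : ℤ) - v).natAbs := by omega
  have h2 : ((2 : ℤ) ^ P).natAbs = 2 ^ P := by
    rw [Int.natAbs_pow]
    rfl
  rw [h2] at h
  have h3 : 2 ^ P * 1 < 2 ^ P * ((q : ℤ) - v).natAbs * 2 ^ (H + 2) := by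
    rw [mul_assoc]
    refine Nat.mul_lt_mul_of_pos_left ?_ (by positivity)
    have h4 : 1 < 2 ^ (H + 2) := Nat.one_lt_two_pow (by omega)
    calc 1 < 2 ^ (H + 2) := h4
      _ = 1 * 2 ^ (H + 2) := (one_mul _).symm
      _ ≤ _ := Nat.mul_le_mul_right _ h1
  omega

/-- The sign times the number. -/
lemma sg_mul (x : ℝ) (c : ℤ) (h : c = (SignType.sign x : ℤ)) : (c : ℝ) * x = |x| := by
  rcases lt_trichotomy x 0 with hx | hx | hx
  · rw [h, sign_neg hx, abs_of_neg hx]
    simp
  · rw [hx]
    simp
  · rw [h, sign_pos hx, abs_of_pos hx]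
    simp

/-- The square of the sign. -/
lemma sg_sq (x : ℝ) (c : ℤ) (h : c = (SignType.sign x : ℤ)) (hx : x ≠ 0) : (c : ℝ) * c = 1 := by
  rcases lt_or_gt_of_ne hx with hx | hx
  · rw [h, sign_neg hx]
    simp
  · rw [h, sign_pos hx]
    simp

/-- The sign is small. -/
lemma sg_abs (x : ℝ) (c : ℤ) (h : c = (SignType.sign x : ℤ)) : c.natAbs ≤ 1 := by
  rcases lt_trichotomy x 0 with hx | hx | hx
  · rw [h, sign_neg hx]
    simp
  · rw [h, hx]
    simp
  · rw [h, sign_pos hx]
    simp

/-- The sign vanishes. -/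
lemma sg_zero (x : ℝ) (c : ℤ) (h : c = (SignType.sign x : ℤ)) : c = 0 ↔ x = 0 := by
  rcases lt_trichotomy x 0 with hx | hx | hx
  · rw [h, sign_neg hx]
    simp [hx.ne]
  · rw [h, hx]
    simp
  · rw [h, sign_pos hx]
    simp [hx.ne']

/-- A new form, for a sign `c`. -/
lemma newform (x y q v : ℝ) (c d : ℤ) (hc : c = (SignType.sign x : ℤ))
    (hd : d = (SignType.sign y : ℤ)) :
    |q * x + (-(c * d * v)) * y| = if x = 0 then 0 else abs (q * |x| - v * |y|) := by
  split_ifs with hx
  · have : c = 0 := (sg_zero x c hc).2 hx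
    rw [this, hx]
    simp
  · have h1 : (d : ℝ) * y = |y| := sg_mul y d hd
    have h2 : (c : ℝ) * c = 1 := sg_sq x c hc hx
    have h3 : (c : ℝ) * x = |x| := sg_mul x c hc
    have e : q * x + (-(c * d * v)) * y = c * (q * |x| - v * |y|) := by
      rw [← h1, ← h3]
      have : (c : ℝ) * (q * (c * x) - v * (d * y)) = (c * c) * (q * x) - c * d * v * y := by ring
      rw [this, h2]
      ring
    rw [e, abs_mul]
    have h4 : |(c : ℝ)| = 1 := by
      have : |(c : ℝ)| * |(c : ℝ)| = 1 := by
        rw [← abs_mul, h2, abs_one]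
      nlinarith [abs_nonneg (c : ℝ)]
    rw [h4, one_mul]

/-- The representation, after a stage. -/
lemma ext (N r H P : ℕ) (w : ℕ → ℝ) (c c' : ℕ → ℝ) (v : ℕ → ℕ → ℤ) (x x' : ℕ → ℝ)
    (D D' : ℝ) (u : ℕ → ℤ)
    (hv : ∀ i < r, ∀ l < N, (v i l).natAbs ≤ 2 ^ P) (hu : ∀ l < N, (u l).natAbs ≤ 2 ^ P)
    (hc : ∀ i < r, c' i = c i)
    (h1 : ∀ l < N, w l = ∑ i ∈ Finset.range r, c i * v i l + x l / D)
    (h2 : ∀ i < r, ∀ l < N, |w l - ∑ i' ∈ Finset.range (i + 1), c i' * v i' l| ≤ c i / 2 ^ (H + 1))
    (h3 : ∀ l < N, x l / D = c' r * u l + x' l / D')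
    (h4 : ∀ l < N, |x' l / D'| ≤ c' r / 2 ^ (H + 1)) :
    (∀ i < r + 1, ∀ l < N, (if i < r then v i l else u l : ℤ).natAbs ≤ 2 ^ P) ∧
      (∀ l < N, w l = ∑ i ∈ Finset.range (r + 1), c' i * ((if i < r then v i l else u l : ℤ) : ℝ) +
        x' l / D') ∧
      ∀ i < r + 1, ∀ l < N,
        |w l - ∑ i' ∈ Finset.range (i + 1), c' i' * ((if i' < r then v i' l else u l : ℤ) : ℝ)| ≤
          c' i / 2 ^ (H + 1) := by
  have hs : ∀ t ≤ r, ∀ l, ∑ i ∈ Finset.range t, c' i * ((if i < r then v i l else u l : ℤ) : ℝ) =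
      ∑ i ∈ Finset.range t, c i * v i l := by
    intro t ht l
    refine Finset.sum_congr rfl fun i hi => ?_
    have hi' : i < r := lt_of_lt_of_le (Finset.mem_range.1 hi) ht
    rw [if_pos hi', hc i hi']
  refine ⟨?_, ?_, ?_⟩
  · intro i _ l hl
    split_ifs with h
    · exact hv i h l hl
    · exact hu l hl
  · intro l hl
    rw [Finset.sum_range_succ, hs r le_rfl l, if_neg (lt_irrefl r), h1 l hl, h3 l hl]
    ring
  · intro i hi l hl
    rcases Nat.lt_succ_iff_lt_or_eq.1 hi with h | h
    · rw [hs (i + 1) h l, hc i h]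
      exact h2 i h l hl
    · subst h
      rw [Finset.sum_range_succ, hs i le_rfl l, if_neg (lt_irrefl i)]
      have e : w l - (∑ i' ∈ Finset.range i, c i' * (v i' l : ℝ) + c' i * (u l : ℝ)) =
          x' l / D' := by
        have a1 := h1 l hl
        have a2 := h3 l hl
        linarith
      rw [e]
      exact h4 l hl

end TFN

open TFN in
theorem t_FN : S_SDA → S_BD → S_LIN → S_FN := by
  intro hSDA hBD hLIN N E h w j s sg best a hN1 hE hInv hsl hsg hb hmax ha
  obtain ⟨hBd, hD, hrec, hcard, hlen0, v, piv, hv1, hv2, hv3, hpiv⟩ := hInv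
  have hsg1 : ∀ x ∈ sg, x.natAbs ≤ 1 := by
    intro x hx
    obtain ⟨l, hl, rfl⟩ := List.mem_iff_getElem.1 hx
    have h1 := hsg l (hsl ▸ hl)
    rw [List.getD_eq_getElem _ _ hl] at h1
    exact sg_abs _ _ h1
  have hBd' := hBD N E j s sg best a (by omega) hsl hsg1 hBd
  by_cases hall : sg.all (fun x => decide (x = 0)) = true
  · have hfin : finish N E s sg best a = s := by
      unfold finish
      rw [if_pos hall]
    rw [hfin] at hBd' ⊢
    have hz : ∀ l < N, evF N w (s.2.1.getD l []) = 0 := by
      intro l hl'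
      have h1 := hsg l hl'
      refine (sg_zero _ _ h1).1 ?_
      have h2 : sg.getD l 0 ∈ sg := by
        rw [List.getD_eq_getElem _ _ (hsl ▸ hl')]
        exact List.getElem_mem _
      have h3 := List.all_eq_true.1 hall _ h2
      exact of_decide_eq_true h3
    refine ⟨hBd', hD, hrec, ?_, Or.inr hz, v, piv, hv1, hv2, hv3, hpiv⟩
    have : (Finset.range N).filter
        (fun l => evF N w (s.2.1.getD l []) = 0) = Finset.range N :=
      Finset.filter_true_of_mem fun l hl => hz l (Finset.mem_range.1 hl)
    rw [this, Finset.card_range]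
    exact min_le_right _ _
  · have hx : evF N w (s.2.1.getD best []) ≠ 0 := by
      intro h0
      apply hall
      rw [List.all_eq_true]
      intro x hx
      obtain ⟨l, hl, rfl⟩ := List.mem_iff_getElem.1 hx
      have h1 := hsg l (hsl ▸ hl)
      have h2 := hmax l (hsl ▸ hl)
      rw [h0, abs_zero] at h2
      have h3 := abs_nonpos_iff.1 h2
      rw [List.getD_eq_getElem _ _ hl] at h1
      exact decide_eq_true ((sg_zero _ _ h1).2 h3)
    have hlenj : s.1.length = j := by
      rcases hlen0 with h | h
      · exact h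
      · exact absurd (h best hb) hx
    specialize ha hx
    -- the approximation
    set a' : List ℕ := (List.range N).map fun l => if l = best then 2 ^ ((N + 1) * E)
      else a.getD l 0 with ha'
    obtain ⟨s1, s2, s3, s4, s5⟩ := hSDA N E h a' hN1 hE
    have ha'' : ∀ l < N, a'.getD l 0 = if l = best then 2 ^ ((N + 1) * E) else a.getD l 0 :=
      fun l hl => getD_map_range N _ l 0 hl
    have s6 := s5 (by
      intro l hl
      rw [ha'' l hl]
      split_ifs with h
      · exact le_rfl
      · exact (ha l hl h).1.le)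
    have hfin : finish N E s sg best a =
        (s.1 ++ [(fcomb N (sg.getD best 0) (s.2.1.getD best []) 0 [],
          s.2.2 * (sda N E a').1)],
        ((List.range N).map fun l => fcomb N ((sda N E a').1 : ℤ) (s.2.1.getD l [])
          (-(sg.getD l 0 * sg.getD best 0 * (sda N E a').2.getD l 0))
          (s.2.1.getD best []), s.2.2 * (sda N E a').1)) := by
      unfold finish
      rw [if_neg hall]
    rw [hfin] at hBd' ⊢
    clear hfin hBD hall
    generalize sda N E a' = sd at s1 s2 s3 s4 s6 hBd' ⊢
    obtain ⟨q, vec⟩ := sd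
    dsimp only at s1 s2 s3 s4 s6 hBd' ⊢
    obtain ⟨recs, F, D⟩ := s
    dsimp only at hBd hD hrec hcard hlen0 hlenj hv1 hv2 hv3 hpiv hsg hmax ha hx hBd' ⊢
    -- the values
    have hX : 0 < |evF N w (F.getD best [])| := abs_pos.2 hx
    have hC : evF N w (fcomb N (sg.getD best 0) (F.getD best []) 0 []) =
        |evF N w (F.getD best [])| := by
      rw [(hLIN N w _ _ _ _).1, sg_mul _ _ (hsg best hb)]
      simp
    have hF : ∀ l < N, evF N w (((List.range N).map fun l => fcomb N (q : ℤ) (F.getD l [])
          (-(sg.getD l 0 * sg.getD best 0 * vec.getD l 0)) (F.getD best [])).getD l []) =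
        (q : ℝ) * evF N w (F.getD l []) +
          (-((sg.getD l 0 : ℝ) * sg.getD best 0 * vec.getD l 0)) * evF N w (F.getD best []) := by
      intro l hl
      rw [getD_map_range N _ l [] hl, (hLIN N w _ _ _ _).1]
      push_cast
      ring
    have hq0 : (0 : ℝ) < q := by
      exact_mod_cast (by omega : 0 < q)
    have hD0 : (0 : ℝ) < D := by
      exact_mod_cast (by omega : 0 < D)
    have hvb : vec.getD best 0 = (q : ℤ) := by
      have := s6 best hb
      rw [ha'' best hb, if_pos rfl] at this
      exact exact q _ _ _ this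
    have hF0 : ∀ l < N, evF N w (F.getD l []) = 0 ∨ l = best →
        evF N w (((List.range N).map fun l => fcomb N (q : ℤ) (F.getD l [])
          (-(sg.getD l 0 * sg.getD best 0 * vec.getD l 0)) (F.getD best [])).getD l []) = 0 := by
      intro l hl h
      rw [hF l hl, ← abs_eq_zero, newform _ _ _ _ _ _ (hsg l hl) (hsg best hb)]
      split_ifs with h0
      · rfl
      · rcases h with h | h
        · exact absurd h h0
        · subst h
          rw [hvb]
          simp
    have hFle : ∀ l < N,
        |evF N w (((List.range N).map fun l => fcomb N (q : ℤ) (F.getD l [])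
          (-(sg.getD l 0 * sg.getD best 0 * vec.getD l 0)) (F.getD best [])).getD l [])| ≤
        |evF N w (F.getD best [])| / 2 ^ (h + 1) := by
      intro l hl
      by_cases hlb : l = best
      · rw [hF0 l hl (Or.inr hlb), abs_zero]
        positivity
      rw [hF l hl, newform _ _ _ _ _ _ (hsg l hl) (hsg best hb)]
      split_ifs with h0
      · positivity
      · obtain ⟨_, a2, a3⟩ := ha l hl hlb
        have a4 := s6 l hl
        rw [ha'' l hl, if_neg hlb] at a4
        have e2 : (2 : ℝ) ^ (h + 2) = 2 * 2 ^ (h + 1) := by ring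
        refine key _ _ _ _ (a.getD l 0 : ℝ) (2 ^ ((N + 1) * E)) _ hX hq0.le
          (pow_pos two_pos _) (pow_pos two_pos _) a2 a3 ?_ ?_
        · rw [← e2]
          exact_mod_cast s4
        · rw [← e2]
          have a5 : ((((q : ℤ) * ((a.getD l 0 : ℕ) : ℤ) - 2 ^ ((N + 1) * E) *
              vec.getD l 0).natAbs : ℕ) : ℝ) * 2 ^ (h + 2) ≤ 2 ^ ((N + 1) * E) := by
            exact_mod_cast a4
          rw [Nat.cast_natAbs] at a5
          push_cast at a5
          exact a5
    have hlen : (recs ++ [(fcomb N (sg.getD best 0) (F.getD best []) 0 [], D * q)]).length =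
        recs.length + 1 := by
      simp
    refine ⟨hBd', ?_, ?_, ?_, ?_, ?_⟩
    · exact Nat.one_le_iff_ne_zero.2 (Nat.mul_ne_zero (by omega) (by omega))
    · intro b hb'
      rcases List.mem_append.1 hb' with hb' | hb'
      · exact hrec b hb'
      · rw [List.mem_singleton] at hb'
        subst hb'
        dsimp only
        refine ⟨Nat.one_le_iff_ne_zero.2 (Nat.mul_ne_zero (by omega) (by omega)), ?_⟩
        rw [hC]
        exact hX
    · have h1 : best ∉ (Finset.range N).filter fun l => evF N w (F.getD l []) = 0 := by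
        rw [Finset.mem_filter]
        exact fun h => hx h.2
      have h2 : min (j + 1) N ≤ min j N + 1 := by omega
      refine h2.trans ((Nat.succ_le_succ hcard).trans ?_)
      rw [Nat.succ_eq_add_one, ← Finset.card_insert_of_notMem h1]
      refine Finset.card_le_card fun l hl => ?_
      rw [Finset.mem_insert, Finset.mem_filter, Finset.mem_range] at hl
      rw [Finset.mem_filter, Finset.mem_range]
      rcases hl with hl | hl
      · subst hl
        exact ⟨hb, hF0 l hb (Or.inr rfl)⟩
      · exact ⟨hl.1, hF0 l hl.1 (Or.inl hl.2)⟩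
    · left
      dsimp only
      rw [hlen, hlenj]
    · dsimp only
      rw [hlen]
      have hold : ∀ i < recs.length,
          (recs ++ [(fcomb N (sg.getD best 0) (F.getD best []) 0 [], D * q)]).getD i ([], 0) =
            recs.getD i ([], 0) := by
        intro i hi
        exact List.getD_append _ _ _ _ hi
      have hnew : (recs ++ [(fcomb N (sg.getD best 0) (F.getD best []) 0 [], D * q)]).getD
          recs.length ([], 0) = (fcomb N (sg.getD best 0) (F.getD best []) 0 [], D * q) := by
        rw [List.getD_append_right _ _ _ _ le_rfl]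
        simp
      have hDq : (((D * q : ℕ) : ℝ)) = D * q := by
        push_cast
        ring
      have hsqb : sg.getD best 0 ≠ 0 := fun h0 => hx ((sg_zero _ _ (hsg best hb)).1 h0)
      obtain ⟨k1, k2, k3⟩ := ext N recs.length h ((N + 1) * E) w
        (fun i => scl N w recs i)
        (fun i => scl N w (recs ++ [(fcomb N (sg.getD best 0) (F.getD best []) 0 [],
          D * q)]) i)
        v (fun l => evF N w (F.getD l []))
        (fun l => evF N w (((List.range N).map fun l => fcomb N (q : ℤ) (F.getD l [])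
          (-(sg.getD l 0 * sg.getD best 0 * vec.getD l 0)) (F.getD best [])).getD l []))
        D ((D * q : ℕ) : ℝ) (fun l => sg.getD l 0 * vec.getD l 0) hv1 (by
          intro l hl
          rw [Int.natAbs_mul]
          calc (sg.getD l 0).natAbs * (vec.getD l 0).natAbs
              ≤ 1 * (vec.getD l 0).natAbs := Nat.mul_le_mul_right _ (sg_abs _ _ (hsg l hl))
            _ = (vec.getD l 0).natAbs := one_mul _
            _ ≤ 2 ^ ((N + 1) * E) := s2 l hl) (by
          intro i hi
          show scl N w _ i = scl N w recs i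
          unfold scl
          rw [hold i hi]) hv2 hv3 (by
          intro l hl
          show evF N w (F.getD l []) / D = scl N w _ recs.length * _ + _
          unfold scl
          rw [hnew]
          rw [hC, hF l hl, hDq, ← sg_mul _ _ (hsg best hb)]
          push_cast
          field_simp
          ring) (by
          intro l hl
          show _ ≤ scl N w _ recs.length / 2 ^ (h + 1)
          unfold scl
          rw [hnew]
          rw [hC, hDq, abs_div, abs_of_pos (mul_pos hD0 hq0), div_right_comm]
          exact div_le_div_of_nonneg_right (hFle l hl) (mul_pos hD0 hq0).le)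
      refine ⟨fun i l => if i < recs.length then v i l else sg.getD l 0 * vec.getD l 0,
        fun i => if i < recs.length then piv i else best, k1, k2, k3, ?_⟩
      intro i hi
      dsimp only
      by_cases hir : i < recs.length
      · obtain ⟨p1, p2, p3, p4⟩ := hpiv i hir
        rw [if_pos hir, if_pos hir]
        refine ⟨p1, p2, hF0 _ p1 (Or.inl p3), ?_⟩
        intro i' hi' hii'
        by_cases hi'r : i' < recs.length
        · rw [if_pos hi'r]
          exact p4 i' hi'r hii'
        · rw [if_neg hi'r, (sg_zero _ _ (hsg (piv i) p1)).2 p3, zero_mul]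
      · rw [if_neg hir, if_neg hir]
        refine ⟨hb, ?_, hF0 _ hb (Or.inr rfl), ?_⟩
        · rw [hvb]
          exact mul_ne_zero hsqb (by omega)
        · intro i' hi' hii'
          omega

end Pool.Agent.W920.FD
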