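import Pool.Agent.W920.FD.Stm

set_option autoImplicit false

/-!
# FORD: order of the forms and ratios (after helper912)
-/

namespace Pool.Agent.W920.FD

open Pool.Agent.NPC Pool.Agent.H558R2 Pool.Agent.H622R3.SM Pool.Agent.W920.FC

namespace TFORD

theorem mem_wr {P : List Instr} {r : Reg} : r ∈ wr P ↔ ∃ I ∈ P, I.dst = r := Iff.rfl

theorem wr_nil : wr [] = ∅ := by
  ext r; simp [mem_wr]

theorem wr_append (P Q : List Instr) : wr (P ++ Q) = wr P ∪ wr Q := by
  ext r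
  simp only [mem_wr, List.mem_append, Set.mem_union]
  constructor
  · rintro ⟨I, hI | hI, rfl⟩
    · exact Or.inl ⟨I, hI, rfl⟩
    · exact Or.inr ⟨I, hI, rfl⟩
  · rintro (⟨I, hI, rfl⟩ | ⟨I, hI, rfl⟩)
    · exact ⟨I, Or.inl hI, rfl⟩
    · exact ⟨I, Or.inr hI, rfl⟩

theorem wr_cons (I : Instr) (P : List Instr) : wr (I :: P) = {I.dst} ∪ wr P := by
  ext r
  simp only [mem_wr, List.mem_cons, Set.mem_union, Set.mem_singleton_iff]
  constructor
  · rintro ⟨J, rfl | hJ, rfl⟩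
    · exact Or.inl rfl
    · exact Or.inr ⟨J, hJ, rfl⟩
  · rintro (rfl | ⟨J, hJ, rfl⟩)
    · exact ⟨I, Or.inl rfl, rfl⟩
    · exact ⟨J, Or.inr hJ, rfl⟩

theorem mem_wr_range {N : ℕ} {B : ℕ → List Instr} {r : Reg} :
    r ∈ wr ((List.range N).flatMap B) ↔ ∃ i < N, r ∈ wr (B i) := by
  simp only [mem_wr, List.mem_flatMap, List.mem_range]
  constructor
  · rintro ⟨I, ⟨i, hi, hI⟩, rfl⟩
    exact ⟨i, hi, I, hI, rfl⟩
  · rintro ⟨i, hi, I, hI, rfl⟩
    exact ⟨I, ⟨i, hi, hI⟩, rfl⟩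

theorem ord_append (S : Set Reg) (P Q : List Instr) :
    Ord S (P ++ Q) ↔ Ord S P ∧ Ord (S ∪ wr P) Q := by
  induction P generalizing S with
  | nil =>
    have h0 : Pool.Agent.H622R3.SM.Ord S [] := trivial
    simp [h0, wr_nil]
  | cons I P ih =>
    simp only [List.cons_append, Pool.Agent.H622R3.SM.Ord, ih, wr_cons]
    have h : insert I.dst S ∪ wr P = S ∪ ({I.dst} ∪ wr P) := by
      ext r; simp only [Set.mem_union, Set.mem_insert_iff, Set.mem_singleton_iff]; tauto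
    rw [h]
    tauto

theorem ord_cons (S : Set Reg) (I : Instr) (P : List Instr) :
    Ord S (I :: P) ↔ I.fst ∈ S ∧ I.snd ∈ S ∧ I.dst ∉ S ∧ Ord (S ∪ {I.dst}) P := by
  rw [Set.union_singleton]
  rfl

/-- programs given by a range -/
theorem ord_range (S : Set Reg) (B : ℕ → List Instr) (N : ℕ)
    (h : ∀ i < N, Ord (S ∪ {r | ∃ j < i, r ∈ wr (B j)}) (B i)) :
    Ord S ((List.range N).flatMap B) := by
  induction N with
  | zero => exact trivial
  | succ N ih =>
    rw [List.range_succ, List.flatMap_append, ord_append]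
    refine ⟨ih fun i hi => h i (by omega), ?_⟩
    have h1 : wr ((List.range N).flatMap B) = {r | ∃ j < N, r ∈ wr (B j)} := by
      ext r; exact mem_wr_range
    rw [h1]
    simpa using h N (by omega)

theorem zipIdx_eq {α β : Type} (l : List α) (d : α) (f : α × ℕ → List β) :
    l.zipIdx.flatMap f = (List.range l.length).flatMap fun i => f (l.getD i d, i) := by
  have h : l.zipIdx = (List.range l.length).map fun i => (l.getD i d, i) := by
    refine List.ext_getElem (by simp) fun i h1 h2 => ?_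
    simp only [List.length_zipIdx] at h1
    simp [List.getD_eq_getElem?_getD, List.getElem?_eq_getElem h1]
  rw [h, List.flatMap_map]

theorem map_range_eq {β : Type} (N : ℕ) (f : ℕ → β) :
    (List.range N).map f = (List.range N).flatMap fun i => [f i] := by
  rw [List.map_eq_flatMap]

/-! ### Base -/

theorem b3 : ([3] : Reg) ∈ baseReg := by simp [baseReg]

/-! ### Forms -/

/-- the part of `mulProg` for the bits -/
def mb (hd c l : ℕ) (q : Reg) (a : ℤ) (t : ℕ) : List Instr :=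
  [(⟨Op.add, [hd + 2, c, l, t], [hd + 1, c, l, t], [hd + 1, c, l, t]⟩ : Instr),
    ⟨Op.add, [hd + 1, c, l, t + 1], [hd + 2, c, l, t],
      if a.natAbs.bits.reverse.getD t false then q else [3]⟩]

theorem mul_eq (hd c l : ℕ) (q : Reg) (a : ℤ) : mulP hd c l q a =
    (⟨Op.add, [hd + 1, c, l, 0], [3], [3]⟩ : Instr) ::
      (List.range a.natAbs.bits.length).flatMap (mb hd c l q a) := by
  unfold mulP
  rw [zipIdx_eq _ false, List.length_reverse]
  rfl

theorem wr_mb (hd c l : ℕ) (q : Reg) (a : ℤ) (t : ℕ) (r : Reg) :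
    r ∈ wr (mb hd c l q a t) ↔ r = [hd + 2, c, l, t] ∨ r = [hd + 1, c, l, t + 1] := by
  unfold mb
  rw [wr_cons, wr_cons, wr_nil]
  simp [or_comm]

theorem wr_mul (hd c l : ℕ) (q : Reg) (a : ℤ) (r : Reg) : r ∈ wr (mulP hd c l q a) ↔
    (∃ t ≤ a.natAbs.bits.length, r = [hd + 1, c, l, t]) ∨
      ∃ t < a.natAbs.bits.length, r = [hd + 2, c, l, t] := by
  rw [mul_eq, wr_cons]
  simp only [Set.mem_union, Set.mem_singleton_iff, mem_wr_range, wr_mb]
  constructor
  · rintro (h | ⟨t, ht, h | h⟩)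
    · exact Or.inl ⟨0, by omega, h⟩
    · exact Or.inr ⟨t, ht, h⟩
    · exact Or.inl ⟨t + 1, by omega, h⟩
  · rintro (⟨t, ht, h⟩ | ⟨t, ht, h⟩)
    · rcases t with _ | t
      · exact Or.inl h
      · exact Or.inr ⟨t, by omega, Or.inr h⟩
    · exact Or.inr ⟨t, ht, Or.inl h⟩

theorem ord_mul (hd c l : ℕ) (q : Reg) (a : ℤ) (S : Set Reg) (hb : baseReg ⊆ S) (h31 : q ∈ S)
    (h33 : ∀ t, ([hd + 1, c, l, t] : Reg) ∉ S) (h34 : ∀ t, ([hd + 2, c, l, t] : Reg) ∉ S) :
    Ord S (mulP hd c l q a) := by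
  rw [mul_eq, ord_cons]
  refine ⟨hb b3, hb b3, h33 0, ?_⟩
  refine ord_range _ _ _ fun t ht => ?_
  have hX3 : ([hd + 1, c, l, t + 1] : Reg) ∉ {r | ∃ j < t, r ∈ wr (mb hd c l q a j)} := by
    rintro ⟨j, hj, h⟩
    rw [wr_mb] at h
    simp at h
    omega
  have hX4 : ([hd + 2, c, l, t] : Reg) ∉ {r | ∃ j < t, r ∈ wr (mb hd c l q a j)} := by
    rintro ⟨j, hj, h⟩
    rw [wr_mb] at h
    simp at h
    omega
  have hr : ([hd + 1, c, l, t] : Reg) ∈ S ∪ {([hd + 1, c, l, 0] : Reg)} ∪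
      {r | ∃ j < t, r ∈ wr (mb hd c l q a j)} := by
    rcases t with _ | t
    · exact Or.inl (Or.inr rfl)
    · exact Or.inr ⟨t, by omega, by rw [wr_mb]; exact Or.inr rfl⟩
  unfold mb
  rw [ord_cons, ord_cons]
  refine ⟨hr, hr, ?_, Or.inr rfl, ?_, ?_, trivial⟩
  · rintro ((h | h) | h)
    · exact h34 _ h
    · simp at h
    · exact hX4 h
  · left; left; left
    split_ifs
    · exact h31
    · exact hb b3
  · rintro (((h | h) | h) | h)
    · exact h33 _ h
    · simp at h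
    · exact hX3 h
    · simp at h

/-- a block of `formProg` -/
def fb (hd c : ℕ) (regs : List Reg) (C : List ℤ) (l : ℕ) : List Instr :=
  mulP hd c l (regs.getD l [3]) (C.getD l 0) ++
      [if C.getD l 0 < 0 then
        (⟨Op.sub, [hd, c, l + 1], [hd, c, l],
          [hd + 1, c, l, (C.getD l 0).natAbs.bits.length]⟩ : Instr)
      else ⟨Op.add, [hd, c, l + 1], [hd, c, l], [hd + 1, c, l, (C.getD l 0).natAbs.bits.length]⟩]

theorem form_eq (hd c : ℕ) (regs : List Reg) (C : List ℤ) : formP hd c regs C =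
    (⟨Op.add, [hd, c, 0], [3], [3]⟩ : Instr) :: (List.range regs.length).flatMap (fb hd c regs C) := rfl

theorem wr_fb (hd c : ℕ) (regs : List Reg) (C : List ℤ) (l : ℕ) (r : Reg) : r ∈ wr (fb hd c regs C l) ↔
    r ∈ wr (mulP hd c l (regs.getD l [3]) (C.getD l 0)) ∨ r = [hd, c, l + 1] := by
  unfold fb
  rw [wr_append, wr_cons, wr_nil]
  split_ifs <;> simp [or_comm]

theorem wr_form_sub (hd c : ℕ) (regs : List Reg) (C : List ℤ) (r : Reg) (hr : r ∈ wr (formP hd c regs C)) :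
    ∃ t, r = hd :: c :: t ∨ r = (hd + 1) :: c :: t ∨ r = (hd + 2) :: c :: t := by
  rw [form_eq, wr_cons] at hr
  simp only [Set.mem_union, Set.mem_singleton_iff, mem_wr_range, wr_fb, wr_mul] at hr
  rcases hr with h | ⟨l, hl, (⟨t, ht, h⟩ | ⟨t, ht, h⟩) | h⟩
  · exact ⟨[0], Or.inl h⟩
  · exact ⟨[l, t], Or.inr (Or.inl h)⟩
  · exact ⟨[l, t], Or.inr (Or.inr h)⟩
  · exact ⟨[l + 1], Or.inl h⟩

theorem wr_form_res (hd c : ℕ) (regs : List Reg) (C : List ℤ) : [hd, c, regs.length] ∈ wr (formP hd c regs C) := by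
  rw [form_eq, wr_cons]
  simp only [Set.mem_union, Set.mem_singleton_iff, mem_wr_range, wr_fb]
  rcases hN : regs.length with _ | N
  · exact Or.inl rfl
  · exact Or.inr ⟨N, by omega, Or.inr rfl⟩

theorem ord_form (hd c : ℕ) (regs : List Reg) (C : List ℤ) (S : Set Reg) (hb : baseReg ⊆ S)
    (h31 : ∀ l < regs.length, (regs.getD l [3]) ∈ S)
    (hS : ∀ r ∈ S, ∀ t, r ≠ hd :: c :: t ∧ r ≠ (hd + 1) :: c :: t ∧ r ≠ (hd + 2) :: c :: t) :
    Ord S (formP hd c regs C) := by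
  have h32' : ∀ t, (hd :: c :: t : Reg) ∉ S := fun t h => (hS _ h t).1 rfl
  have h33' : ∀ t, ((hd + 1) :: c :: t : Reg) ∉ S := fun t h => (hS _ h t).2.1 rfl
  have h34' : ∀ t, ((hd + 2) :: c :: t : Reg) ∉ S := fun t h => (hS _ h t).2.2 rfl
  rw [form_eq, ord_cons]
  refine ⟨hb b3, hb b3, h32' _, ?_⟩
  refine ord_range _ _ _ fun l hl => ?_
  set X : Set Reg := {r | ∃ j < l, r ∈ wr (fb hd c regs C j)} with hX
  have hX3 : ∀ t, ([hd + 1, c, l, t] : Reg) ∉ X := by
    rintro t ⟨j, hj, h⟩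
    rw [wr_fb, wr_mul] at h
    simp at h
    omega
  have hX4 : ∀ t, ([hd + 2, c, l, t] : Reg) ∉ X := by
    rintro t ⟨j, hj, h⟩
    rw [wr_fb, wr_mul] at h
    simp at h
    omega
  have hX2 : ([hd, c, l + 1] : Reg) ∉ X := by
    rintro ⟨j, hj, h⟩
    rw [wr_fb, wr_mul] at h
    simp at h
    omega
  have hr : ([hd, c, l] : Reg) ∈ S ∪ {([hd, c, 0] : Reg)} ∪ X := by
    rcases l with _ | l
    · exact Or.inl (Or.inr rfl)
    · exact Or.inr ⟨l, by omega, by rw [wr_fb]; exact Or.inr rfl⟩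
  unfold fb
  rw [ord_append]
  refine ⟨?_, ?_⟩
  · refine ord_mul hd c l _ _ _ (fun r hr => Or.inl (Or.inl (hb hr))) (Or.inl (Or.inl (h31 l hl)))
      ?_ ?_
    · rintro t ((h | h) | h)
      · exact h33' _ h
      · simp at h
      · exact hX3 t h
    · rintro t ((h | h) | h)
      · exact h34' _ h
      · simp at h
      · exact hX4 t h
  · have hm : ([hd + 1, c, l, (C.getD l 0).natAbs.bits.length] : Reg) ∈
        wr (mulP hd c l (regs.getD l [3]) (C.getD l 0)) := by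
      rw [wr_mul]
      exact Or.inl ⟨_, le_rfl, rfl⟩
    have hd : ([hd, c, l + 1] : Reg) ∉ S ∪ {([hd, c, 0] : Reg)} ∪ X ∪
        wr (mulP hd c l (regs.getD l [3]) (C.getD l 0)) := by
      rintro (((h | h) | h) | h)
      · exact h32' _ h
      · simp at h
      · exact hX2 h
      · rw [wr_mul] at h
        simp at h
    rw [ord_cons]
    split_ifs
    · exact ⟨Or.inl hr, Or.inr hm, hd, trivial⟩
    · exact ⟨Or.inl hr, Or.inr hm, hd, trivial⟩

/-! ### Ratios -/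


/-- a block of `ratProg` -/
def rb (regs : List Reg) (L : List (List ℤ × List ℤ)) (j : ℕ) : List Instr :=
  formP 32 (2 * j) regs (L.getD j ([], [])).1 ++
    (formP 32 (2 * j + 1) regs (L.getD j ([], [])).2 ++
      [(⟨Op.div, [35, j], [32, 2 * j, regs.length], [32, 2 * j + 1, regs.length]⟩ : Instr)])

theorem rat_eq (regs : List Reg) (L : List (List ℤ × List ℤ)) :
    ratP regs L = (List.range L.length).flatMap (rb regs L) := by
  unfold ratP
  rw [zipIdx_eq _ ([], [])]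
  rfl

theorem wr_rb (regs : List Reg) (L : List (List ℤ × List ℤ)) (j : ℕ) (r : Reg)
    (h : r ∈ wr (rb regs L j)) : (∃ c t, (c = 2 * j ∨ c = 2 * j + 1) ∧
      (r = 32 :: c :: t ∨ r = 33 :: c :: t ∨ r = 34 :: c :: t)) ∨ r = [35, j] := by
  unfold rb at h
  rw [wr_append, wr_append, wr_cons, wr_nil] at h
  simp only [Set.mem_union, Set.mem_singleton_iff, Set.mem_empty_iff_false, or_false] at h
  rcases h with h | h | h
  · obtain ⟨t, ht⟩ := wr_form_sub _ _ _ _ _ h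
    exact Or.inl ⟨_, t, Or.inl rfl, ht⟩
  · obtain ⟨t, ht⟩ := wr_form_sub _ _ _ _ _ h
    exact Or.inl ⟨_, t, Or.inr rfl, ht⟩
  · exact Or.inr h

theorem ord_rat (regs : List Reg) (L : List (List ℤ × List ℤ)) (S : Set Reg) (hb : baseReg ⊆ S)
    (h31 : ∀ l < regs.length, regs.getD l [3] ∈ S) (hS : ∀ r ∈ S, r.headD 0 < 32 ∨ 35 < r.headD 0) :
    Ord S (ratP regs L) := by
  rw [rat_eq]
  refine ord_range _ _ _ fun j hj => ?_
  set X : Set Reg := {r | ∃ i < j, r ∈ wr (rb regs L i)} with hX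
  have hXc : ∀ r ∈ X, ∀ c t, (c = 2 * j ∨ c = 2 * j + 1) →
      r ≠ 32 :: c :: t ∧ r ≠ 33 :: c :: t ∧ r ≠ 34 :: c :: t := by
    rintro r ⟨i, hi, h⟩ c t hc
    rcases wr_rb regs L i r h with ⟨c', t', hc', h | h | h⟩ | h
    all_goals
      subst h
      refine ⟨?_, ?_, ?_⟩ <;> intro h' <;> simp at h' <;> omega
  have hX5 : ([35, j] : Reg) ∉ X := by
    rintro ⟨i, hi, h⟩
    rcases wr_rb regs L i _ h with ⟨c', t', hc', h | h | h⟩ | h <;> simp at h
    omega
  have hSc : ∀ r ∈ S, ∀ c t, r ≠ 32 :: c :: t ∧ r ≠ 33 :: c :: t ∧ r ≠ 34 :: c :: t := by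
    intro r hr c t
    have h := hS r hr
    refine ⟨?_, ?_, ?_⟩ <;> rintro rfl <;> simp at h
  unfold rb
  rw [ord_append, ord_append, ord_cons]
  refine ⟨?_, ?_, ?_, ?_, ?_, trivial⟩
  · refine ord_form _ _ _ _ _ (fun r hr => Or.inl (hb hr)) (fun l hl => Or.inl (h31 l hl)) ?_
    rintro r (h | h) t
    · exact hSc r h _ t
    · exact hXc r h _ t (Or.inl rfl)
  · refine ord_form _ _ _ _ _ (fun r hr => Or.inl (Or.inl (hb hr)))
      (fun l hl => Or.inl (Or.inl (h31 l hl))) ?_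
    rintro r ((h | h) | h) t
    · exact hSc r h _ t
    · exact hXc r h _ t (Or.inr rfl)
    · obtain ⟨t', ht'⟩ := wr_form_sub _ _ _ _ _ h
      rcases ht' with rfl | rfl | rfl <;> refine ⟨?_, ?_, ?_⟩ <;> intro h' <;> simp at h'
  · exact Or.inl (Or.inr (wr_form_res _ _ _ _))
  · exact Or.inr (wr_form_res _ _ _ _)
  · rintro (((h | h) | h) | h)
    · have := hS _ h
      simp at this
    · exact hX5 h
    · obtain ⟨t', ht'⟩ := wr_form_sub _ _ _ _ _ h
      simp at ht'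
    · obtain ⟨t', ht'⟩ := wr_form_sub _ _ _ _ _ h
      simp at ht'

end TFORD

open TFORD in
theorem t_FORD : S_FORD := by
  have key : ∀ (regs : List Reg) (S : Set Reg), baseReg ⊆ S → (∀ r ∈ regs, r ∈ S) →
      ∀ l < regs.length, regs.getD l [3] ∈ S := by
    intro regs S hb h l hl
    rw [List.getD_eq_getElem _ _ hl]
    exact h _ (List.getElem_mem hl)
  constructor
  · intro hd c regs C S hb h31 hS
    exact ⟨ord_form hd c regs C S hb (key regs S hb h31) hS, wr_form_sub hd c regs C,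
      wr_form_res hd c regs C⟩
  · intro regs L S hb h31 hS
    refine ⟨ord_rat regs L S hb (key regs S hb h31) hS, ?_, ?_⟩
    · intro r hr
      rw [rat_eq, mem_wr_range] at hr
      obtain ⟨j, -, hr⟩ := hr
      rcases wr_rb regs L j r hr with ⟨c, t, -, rfl | rfl | rfl⟩ | rfl <;> simp
    · intro j hj
      rw [rat_eq, mem_wr_range]
      refine ⟨j, hj, ?_⟩
      unfold rb
      rw [wr_append, wr_append, wr_cons]
      exact Or.inr (Or.inr (Or.inl rfl))

end Pool.Agent.W920.FD
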