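import Pool.Agent.W920.FD.Stm

set_option autoImplicit false

/-!
# Programs for forms: equations, sizes and lengths
-/

namespace Pool.Agent.W920.FD

open Pool.Agent.NPC Pool.Agent.H558R2 Pool.Agent.H622R3.SM Pool.Agent.W920.FC

namespace TFORM

theorem eqn_add {V : Reg → ℝ} {d a b : Reg} (h : V d = V a + V b) : Eqn V ⟨Op.add, d, a, b⟩ :=
  ⟨h, fun h => by cases h⟩

theorem eqn_sub {V : Reg → ℝ} {d a b : Reg} (h : V d = V a - V b) : Eqn V ⟨Op.sub, d, a, b⟩ :=
  ⟨h, fun h => by cases h⟩

theorem zipIdx_getD {α : Type} (l : List α) (d : α) (q : α × ℕ) (hq : q ∈ l.zipIdx) :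
    q.2 < l.length ∧ l.getD q.2 d = q.1 := by
  obtain ⟨a, i⟩ := q
  rw [List.mk_mem_zipIdx_iff_getElem?] at hq
  obtain ⟨h1, h2⟩ := List.getElem?_eq_some_iff.1 hq
  exact ⟨h1, by rw [List.getD_eq_getElem?_getD, hq]; rfl⟩

/-- The division step. -/
theorem div_step (a n t : ℕ) (ht : t < n) :
    a / 2 ^ (n - (t + 1)) = 2 * (a / 2 ^ (n - t)) + (a / 2 ^ (n - (t + 1))) % 2 := by
  have e : n - t = (n - (t + 1)) + 1 := by omega
  rw [e, pow_succ, ← Nat.div_div_eq_div_mul]
  omega

section

variable {X : Reg → ℝ} {hd c : ℕ} {regs : List Reg} {w : ℕ → ℝ} {C : List ℤ}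

theorem mul_eqs (h : FormVal X hd c regs.length w C) (h3 : X [3] = 0)
    (hw : ∀ l < regs.length, X (regs.getD l [3]) = w l) (l : ℕ) (hl : l < regs.length) :
    ∀ I ∈ mulP hd c l (regs.getD l [3]) (C.getD l 0), Eqn X I := by
  intro I hI
  unfold mulP at hI
  rw [List.mem_cons, List.mem_flatMap] at hI
  rcases hI with rfl | ⟨q, hq, hI⟩
  · apply eqn_add
    rw [(h.2 l hl 0).1, h3, Nat.div_eq_of_lt]
    · simp
    · rw [Nat.sub_zero, Nat.size_eq_bits_len]
      exact Nat.lt_size_self _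
  · obtain ⟨h1, h2⟩ := zipIdx_getD _ false q hq
    rw [List.length_reverse] at h1
    simp only [List.mem_cons, List.not_mem_nil, or_false] at hI
    rcases hI with rfl | rfl
    · apply eqn_add
      rw [(h.2 l hl q.2).2, (h.2 l hl q.2).1]
      ring
    · apply eqn_add
      have e1 : (q.1 = true) ↔ (C.getD l 0).natAbs /
          2 ^ (((C.getD l 0).natAbs.bits).length - (q.2 + 1)) % 2 = 1 := by
        rw [← h2, List.getD_eq_getElem?_getD, List.getElem?_reverse h1]
        have e2 := Nat.testBit_eq_inth (C.getD l 0).natAbs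
          (((C.getD l 0).natAbs.bits).length - 1 - q.2)
        have e4 : ((C.getD l 0).natAbs.bits).length - 1 - q.2 =
          ((C.getD l 0).natAbs.bits).length - (q.2 + 1) := by omega
        rw [e4] at e2 ⊢
        have e3 : (((C.getD l 0).natAbs.bits)[((C.getD l 0).natAbs.bits).length -
          (q.2 + 1)]?).getD false = (C.getD l 0).natAbs.bits.getI
            (((C.getD l 0).natAbs.bits).length - (q.2 + 1)) := by
          rw [List.getI_eq_getElem?_getD]
          rfl
        rw [e3, ← e2, Nat.testBit_eq_decide_div_mod_eq, decide_eq_true_iff]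
      have e5 := div_step (C.getD l 0).natAbs ((C.getD l 0).natAbs.bits).length q.2 h1
      rw [(h.2 l hl (q.2 + 1)).1, (h.2 l hl q.2).2]
      rcases hb : q.1 with _ | _
      · have e6 : ¬ ((C.getD l 0).natAbs /
          2 ^ (((C.getD l 0).natAbs.bits).length - (q.2 + 1)) % 2 = 1) := by
          rw [← e1, hb]; simp
        rw [if_neg (by simp), h3, e5]
        have e7 : ((C.getD l 0).natAbs /
          2 ^ (((C.getD l 0).natAbs.bits).length - (q.2 + 1)) % 2) = 0 := by omega
        rw [e7]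
        push_cast
        ring
      · have e7 := e1.1 hb
        rw [if_pos rfl, hw l hl, e5, e7]
        push_cast
        ring

theorem form_eqs (h : FormVal X hd c regs.length w C) (h3 : X [3] = 0)
    (hw : ∀ l < regs.length, X (regs.getD l [3]) = w l) :
    ∀ I ∈ formP hd c regs C, Eqn X I := by
  intro I hI
  unfold formP at hI
  rw [List.mem_cons, List.mem_flatMap] at hI
  rcases hI with rfl | ⟨l, hl, hI⟩
  · apply eqn_add
    rw [h.1 0 (Nat.zero_le _), h3]
    simp
  · rw [List.mem_range] at hl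
    rw [List.mem_append] at hI
    rcases hI with hI | hI
    · exact mul_eqs h h3 hw l hl I hI
    · rw [List.mem_singleton] at hI
      have e : X [hd + 1, c, l, (C.getD l 0).natAbs.bits.length] =
        ((C.getD l 0).natAbs : ℝ) * w l := by
        rw [(h.2 l hl _).1, Nat.sub_self, pow_zero, Nat.div_one]
      by_cases hn : C.getD l 0 < 0
      · rw [if_pos hn] at hI
        subst hI
        apply eqn_sub
        rw [e, h.1 (l + 1) (by omega), h.1 l (by omega), Finset.sum_range_succ]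
        have e1 : (((C.getD l 0).natAbs : ℕ) : ℝ) = -((C.getD l 0 : ℤ) : ℝ) := by
          have : (((C.getD l 0).natAbs : ℕ) : ℤ) = -(C.getD l 0) := by omega
          rw [← Int.cast_neg, ← this, Int.cast_natCast]
        rw [e1]
        ring
      · rw [if_neg hn] at hI
        subst hI
        apply eqn_add
        rw [e, h.1 (l + 1) (by omega), h.1 l (by omega), Finset.sum_range_succ]
        have e1 : (((C.getD l 0).natAbs : ℕ) : ℝ) = ((C.getD l 0 : ℤ) : ℝ) := by
          have : (((C.getD l 0).natAbs : ℕ) : ℤ) = (C.getD l 0) := by omega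
          rw [← Int.cast_natCast, this]
        rw [e1]

end

/-! ### Sizes -/

/-- The registers written. -/
theorem form_dst {hd c : ℕ} {regs : List Reg} {C : List ℤ} {I : Instr}
    (hI : I ∈ formP hd c regs C) : (∃ l ≤ regs.length, I.dst = [hd, c, l]) ∨
      (∃ l < regs.length, ∃ t, I.dst = [hd + 1, c, l, t]) ∨
      ∃ l < regs.length, ∃ t, I.dst = [hd + 2, c, l, t] := by
  unfold formP at hI
  rw [List.mem_cons, List.mem_flatMap] at hI
  rcases hI with rfl | ⟨l, hl, hI⟩
  · exact Or.inl ⟨0, Nat.zero_le _, rfl⟩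
  · rw [List.mem_range] at hl
    rw [List.mem_append] at hI
    rcases hI with hI | hI
    · unfold mulP at hI
      rw [List.mem_cons, List.mem_flatMap] at hI
      rcases hI with rfl | ⟨q, -, hI⟩
      · exact Or.inr (Or.inl ⟨l, hl, 0, rfl⟩)
      · simp only [List.mem_cons, List.not_mem_nil, or_false] at hI
        rcases hI with rfl | rfl
        · exact Or.inr (Or.inr ⟨l, hl, q.2, rfl⟩)
        · exact Or.inr (Or.inl ⟨l, hl, q.2 + 1, rfl⟩)
    · rw [List.mem_singleton] at hI
      left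
      refine ⟨l + 1, hl, ?_⟩
      rw [hI]
      split_ifs <;> rfl

theorem getD_small (B : ℕ) (C : List ℤ) (h : SmallL B C) (l : ℕ) : (C.getD l 0).natAbs ≤ 2 ^ B := by
  rcases lt_or_ge l C.length with hl | hl
  · rw [List.getD_eq_getElem _ _ hl]
    exact h _ (List.getElem_mem hl)
  · rw [List.getD_eq_default _ _ hl]
    simp

theorem sum_size {w : ℕ → ℝ} {C : List ℤ} {D B β N : ℕ} (hC : SmallL B C)
    (hw : ∀ l < N, ∃ z : ℤ, z.natAbs ≤ 2 ^ β ∧ w l * D = z) (l : ℕ) (hl : l ≤ N) :
    ∃ z : ℤ, z.natAbs ≤ l * 2 ^ (B + β) ∧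
      (∑ i ∈ Finset.range l, (C.getD i 0 : ℝ) * w i) * D = z := by
  induction l with
  | zero => exact ⟨0, by simp, by simp⟩
  | succ l ih =>
    obtain ⟨z, hz, hz'⟩ := ih (by omega)
    obtain ⟨y, hy, hy'⟩ := hw l (by omega)
    refine ⟨z + C.getD l 0 * y, ?_, ?_⟩
    · refine (Int.natAbs_add_le _ _).trans ?_
      rw [add_mul, one_mul, Int.natAbs_mul, pow_add]
      rw [pow_add] at hz
      exact Nat.add_le_add hz (Nat.mul_le_mul (getD_small B C hC l) hy)
    · rw [Finset.sum_range_succ, add_mul, hz', mul_assoc, hy']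
      push_cast
      ring

theorem form_size {X : Reg → ℝ} {hd c : ℕ} {regs : List Reg} {w : ℕ → ℝ} {C : List ℤ} {D B β : ℕ}
    (h : FormVal X hd c regs.length w C) (hC : SmallL B C)
    (hw : ∀ l < regs.length, ∃ z : ℤ, z.natAbs ≤ 2 ^ β ∧ w l * D = z) (I : Instr)
    (hI : I ∈ formP hd c regs C) : ∃ z : ℤ, z.natAbs ≤ 2 ^ (B + β + regs.length + 2) ∧
      X I.dst * D = z := by
  rcases form_dst hI with ⟨l, hl, e⟩ | ⟨l, hl, t, e⟩ | ⟨l, hl, t, e⟩
  · rw [e, h.1 l hl]
    obtain ⟨z, hz, hz'⟩ := sum_size hC hw l hl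
    refine ⟨z, hz.trans ?_, hz'⟩
    calc l * 2 ^ (B + β) ≤ 2 ^ (regs.length + 2) * 2 ^ (B + β) := by
          refine Nat.mul_le_mul_right _ (hl.trans ?_)
          exact (Nat.lt_two_pow_self).le.trans (Nat.pow_le_pow_right (by norm_num) (by omega))
      _ = 2 ^ (B + β + regs.length + 2) := by rw [← pow_add]; congr 1; omega
  · rw [e, (h.2 l hl t).1]
    obtain ⟨y, hy, hy'⟩ := hw l hl
    obtain ⟨a, ha⟩ : ∃ a : ℕ, a = (C.getD l 0).natAbs /
      2 ^ (((C.getD l 0).natAbs.bits).length - t) := ⟨_, rfl⟩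
    have ha' : a ≤ 2 ^ B := by
      rw [ha]
      exact (Nat.div_le_self _ _).trans (getD_small B C hC l)
    rw [← ha]
    refine ⟨a * y, ?_, ?_⟩
    · rw [Int.natAbs_mul, Int.natAbs_natCast]
      calc a * y.natAbs ≤ 2 ^ B * 2 ^ β := Nat.mul_le_mul ha' hy
        _ = 2 ^ (B + β) := by rw [pow_add]
        _ ≤ 2 ^ (B + β + regs.length + 2) := Nat.pow_le_pow_right (by norm_num) (by omega)
    · rw [mul_assoc, hy']
      push_cast
      ring
  · rw [e, (h.2 l hl t).2]
    obtain ⟨y, hy, hy'⟩ := hw l hl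
    obtain ⟨a, ha⟩ : ∃ a : ℕ, a = (C.getD l 0).natAbs /
      2 ^ (((C.getD l 0).natAbs.bits).length - t) := ⟨_, rfl⟩
    have ha' : a ≤ 2 ^ B := by
      rw [ha]
      exact (Nat.div_le_self _ _).trans (getD_small B C hC l)
    rw [← ha]
    refine ⟨2 * (a * y), ?_, ?_⟩
    · rw [Int.natAbs_mul, Int.natAbs_mul, Int.natAbs_natCast]
      calc (2 : ℤ).natAbs * (a * y.natAbs) ≤ 2 * (2 ^ B * 2 ^ β) :=
            Nat.mul_le_mul le_rfl (Nat.mul_le_mul ha' hy)
        _ = 2 ^ (B + β + 1) := by rw [pow_succ, pow_add]; ring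
        _ ≤ 2 ^ (B + β + regs.length + 2) := Nat.pow_le_pow_right (by norm_num) (by omega)
    · rw [mul_assoc, mul_assoc, hy']
      push_cast
      ring

/-! ### Lengths -/

theorem len_le {α β : Type} (l : List α) (f : α → List β) (c : ℕ)
    (h : ∀ a ∈ l, (f a).length ≤ c) : (l.flatMap f).length ≤ l.length * c := by
  induction l with
  | nil => simp
  | cons a l ih =>
    rw [List.flatMap_cons, List.length_append, List.length_cons]
    have h1 := h a (by simp)
    have h2 := ih (fun b hb => h b (by simp [hb]))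
    have : (l.length + 1) * c = l.length * c + c := by ring
    omega

theorem len_fr {β : Type} (m : ℕ) (f : ℕ → List β) (c : ℕ) (h : ∀ a, (f a).length ≤ c) :
    ((List.range m).flatMap f).length ≤ m * c := by
  have := len_le (List.range m) f c (fun a _ => h a)
  rwa [List.length_range] at this

theorem l_mul (hd c l : ℕ) (r : Reg) (a : ℤ) (B : ℕ) (h : a.natAbs ≤ 2 ^ B) :
    (mulP hd c l r a).length ≤ 2 * B + 3 := by
  unfold mulP
  rw [List.length_cons]
  have h1 : a.natAbs.bits.length ≤ B + 1 := by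
    rw [Nat.size_eq_bits_len, Nat.size_le]
    calc a.natAbs ≤ 2 ^ B := h
      _ < 2 ^ (B + 1) := Nat.pow_lt_pow_right (by norm_num) (by omega)
  have h2 := len_le a.natAbs.bits.reverse.zipIdx (fun p =>
      [(⟨Op.add, [hd + 2, c, l, p.2], [hd + 1, c, l, p.2], [hd + 1, c, l, p.2]⟩ : Instr),
        ⟨Op.add, [hd + 1, c, l, p.2 + 1], [hd + 2, c, l, p.2], if p.1 then r else [3]⟩]) 2
        (fun a _ => by simp)
  rw [List.length_zipIdx, List.length_reverse] at h2
  omega

theorem l_form (hd c : ℕ) (regs : List Reg) (C : List ℤ) (B : ℕ) (h : SmallL B C) :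
    (formP hd c regs C).length ≤ 1 + regs.length * (2 * B + 4) := by
  unfold formP
  rw [List.length_cons, add_comm]
  refine Nat.add_le_add_left (len_fr _ _ _ (fun l => ?_)) 1
  rw [List.length_append]
  have h1 := l_mul hd c l (regs.getD l [3]) (C.getD l 0) B (getD_small B C h l)
  simp only [List.length_cons, List.length_nil]
  omega

end TFORM

theorem t_FORM : S_FORM :=
  ⟨fun _ _ _ _ _ _ h h3 hw => TFORM.form_eqs h h3 hw,
    fun _ _ _ _ _ _ _ _ _ h hC hw I hI => TFORM.form_size h hC hw I hI,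
    fun hd c regs C B h => TFORM.l_form hd c regs C B h⟩

end Pool.Agent.W920.FD
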