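import Pool.Agent.W920.FD.Stm

set_option autoImplicit false

/-!
# Project FD: from the invariant to the scales (helper320)
-/

namespace Pool.Agent.W920.FD

open Pool.Agent.NPC Pool.Agent.H558R2 Pool.Agent.H622R3.SM Pool.Agent.W920.FC

namespace TGD

theorem getD_mem {α : Type} (L : List α) (i : ℕ) (d : α) (h : i < L.length) : L.getD i d ∈ L := by
  rw [List.getD_eq_getElem _ _ h]
  exact List.getElem_mem h

theorem good (hF : S_FT) (N E h : ℕ) (w : ℕ → ℝ) (s : S2) (hI : Inv2 N E h w N s) :
    Good2 N h ((N + 1) * E) (((N + 1) * E + 1) * N) w s.1 := by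
  obtain ⟨⟨hb1, hb2, hb3, hb4, hb5⟩, h1, hrec, hcard, -, v, piv, hv1, hv2, hv3, -⟩ := hI
  refine ⟨hb1, fun a ha => ?_, hrec, ?_⟩
  · have h2 := hb2 a ha
    exact ⟨h2.2.1, h2.2.2.trans (Nat.pow_le_pow_right (by norm_num)
      (Nat.mul_le_mul_right _ (Nat.le_succ _)))⟩
  have hfil : ((Finset.range N).filter fun l => evF N w (s.2.1.getD l []) = 0)
      = Finset.range N := by
    apply Finset.eq_of_subset_of_card_le (Finset.filter_subset _ _)
    rw [Finset.card_range]
    rw [min_self] at hcard
    exact hcard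
  have hz : ∀ l < N, evF N w (s.2.1.getD l []) = 0 := by
    intro l hl
    have : l ∈ ((Finset.range N).filter fun l => evF N w (s.2.1.getD l []) = 0) := by
      rw [hfil]; exact Finset.mem_range.mpr hl
    exact (Finset.mem_filter.mp this).2
  have hw : ∀ l < N, w l = ∑ i ∈ Finset.range s.1.length, scl N w s.1 i * v i l := by
    intro l hl
    have h := hv2 l hl
    rw [hz l hl, zero_div, add_zero] at h
    exact h
  intro y hy
  rcases hF N h ((N + 1) * E) s.1.length (fun i => scl N w s.1 i) v w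
    (fun i hi => by
      have hm := getD_mem s.1 i ([], 0) hi
      have h2 := hrec _ hm
      have h3 : (0 : ℝ) < ((s.1.getD i ([], 0)).2 : ℝ) := by exact_mod_cast h2.1
      exact div_pos h2.2 h3)
    hv1 hw hv3 y hy with h0 | ⟨i, hi, h1, h2⟩
  · exact Or.inl h0
  · exact Or.inr ⟨s.1.getD i ([], 0), getD_mem s.1 i ([], 0) hi, h1, h2⟩

end TGD

theorem t_GD : S_FT → S_GD := fun hF N E h w s hI => TGD.good hF N E h w s hI

end Pool.Agent.W920.FD
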