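import Pool.Agent.W920.FD.Stm

set_option autoImplicit false

/-!
# Queries for forms and for ratios have their values
-/

namespace Pool.Agent.W920.FD

open Pool.Agent.NPC Pool.Agent.H558R2 Pool.Agent.H622R3.SM Pool.Agent.W920.FC

namespace THVFR

theorem mem_wr {P : List Instr} {r : Reg} : r ∈ wr P ↔ ∃ I ∈ P, I.dst = r := Iff.rfl

theorem wr_nil : wr [] = ∅ := by
  ext r; simp [mem_wr]

theorem wr_cons (I : Instr) (P : List Instr) : wr (I :: P) = {I.dst} ∪ wr P := by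
  ext r
  simp only [mem_wr, List.mem_cons, Set.mem_union, Set.mem_singleton_iff]
  constructor
  · rintro ⟨J, rfl | hJ, rfl⟩
    · exact Or.inl rfl
    · exact Or.inr ⟨J, hJ, rfl⟩
  · rintro (rfl | ⟨J, hJ, rfl⟩)
    · exact ⟨I, Or.inl rfl, rfl⟩
    · exact ⟨J, Or.inr hJ, rfl⟩

theorem ord_append (S : Set Reg) (P Q : List Instr) :
    Ord S (P ++ Q) ↔ Ord S P ∧ Ord (S ∪ wr P) Q := by
  induction P generalizing S with
  | nil =>
    have h0 : Pool.Agent.H622R3.SM.Ord S [] := trivial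
    simp [h0, wr_nil]
  | cons I P ih =>
    simp only [List.cons_append, Pool.Agent.H622R3.SM.Ord, ih, wr_cons]
    have h : insert I.dst S ∪ wr P = S ∪ ({I.dst} ∪ wr P) := by
      ext r; simp only [Set.mem_union, Set.mem_insert_iff, Set.mem_singleton_iff]; tauto
    rw [h]
    tauto

/-- the operands of a well ordered program -/
theorem ord_oper (S : Set Reg) (P : List Instr) (h : Ord S P) :
    ∀ I ∈ P, I.fst ∈ S ∪ wr P ∧ I.snd ∈ S ∪ wr P := by
  induction P generalizing S with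
  | nil => intro I hI; cases hI
  | cons J P ih =>
    obtain ⟨h1, h2, _, h4⟩ := h
    intro I hI
    rcases List.mem_cons.1 hI with hI | hI
    · subst hI
      exact ⟨Or.inl h1, Or.inl h2⟩
    · have h5 : insert J.dst S ∪ wr P ⊆ S ∪ wr (J :: P) := by
        rw [wr_cons]
        intro r hr
        rcases hr with (hr | hr) | hr
        · exact Or.inr (Or.inl hr)
        · exact Or.inl hr
        · exact Or.inr (Or.inr hr)
      exact ⟨h5 (ih _ h4 I hI).1, h5 (ih _ h4 I hI).2⟩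

lemma vr_base (p : Pa) (r : Reg) (hr : r ∈ baseReg) : vr p r = p.U r := by
  have hr' : r.headD 0 < 4 := hr
  unfold vr
  split <;> first | rfl | (exfalso; simp at hr')

lemma vr_pre (p : Pa) (r : Reg) (hr : PreHd r) : vr p r = p.U r := by
  have hr' : r.headD 0 = 30 ∨ r.headD 0 = 31 ∨ r.headD 0 = 52 ∨ r.headD 0 = 53 ∨
    r.headD 0 = 54 := hr
  unfold vr
  split <;> first | rfl | (exfalso; simp at hr')

lemma QB_mono {β β' : ℕ} (h : β ≤ β') {v : ℝ} (hv : QB β v) : QB β' v := by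
  obtain ⟨E, z, h1, h2, h3, h4⟩ := hv
  have h5 : 2 ^ β ≤ 2 ^ β' := Nat.pow_le_pow_right (by norm_num) h
  exact ⟨E, z, h1, h2.trans h5, h3.trans h5, h4⟩

lemma QB_sub {β : ℕ} {x y : ℝ} (hx : QB β x) (hy : QB β y) : QB (2 * β + 1) (x - y) := by
  obtain ⟨E, z, h1, h2, h3, h4⟩ := hx
  obtain ⟨E', z', h1', h2', h3', h4'⟩ := hy
  have hp : 2 ^ β * 2 ^ β = 2 ^ (2 * β) := by rw [← pow_add]; congr 1; ring
  have hp' : 2 ^ (2 * β + 1) = 2 * (2 ^ β * 2 ^ β) := by rw [hp, pow_succ]; ring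
  refine ⟨E * E', z * E' - z' * E, Nat.mul_pos h1 h1', ?_, ?_, ?_⟩
  · have := Nat.mul_le_mul h2 h2'
    omega
  · have a1 : (z * E' - z' * E).natAbs ≤ (z * E').natAbs + (z' * E).natAbs := Int.natAbs_sub_le _ _
    rw [Int.natAbs_mul, Int.natAbs_mul, Int.natAbs_natCast, Int.natAbs_natCast] at a1
    have a2 := Nat.mul_le_mul h3 h2'
    have a3 := Nat.mul_le_mul h3' h2
    omega
  · push_cast
    linear_combination (E' : ℝ) * h4 - (E : ℝ) * h4'

/-- the common polynomial -/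
noncomputable def qq (qs qV pB qp : Polynomial ℕ) : Polynomial ℕ :=
  2 * qs.comp (qV + pB + qV) + 1 + qp + qV

lemma qq_eval (qs qV pB qp : Polynomial ℕ) (x : ℕ) : (qq qs qV pB qp).eval x =
    2 * qs.eval (qV.eval x + pB.eval x + qV.eval x) + 1 + qp.eval x + qV.eval x := by
  unfold qq
  simp [Polynomial.eval_comp]

lemma qq_len (qs qV pB qp : Polynomial ℕ) (x : ℕ) : qp.eval x ≤ (qq qs qV pB qp).eval x := by
  rw [qq_eval]; omega

lemma qq_V (qs qV pB qp : Polynomial ℕ) (x : ℕ) : qV.eval x ≤ (qq qs qV pB qp).eval x := by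
  rw [qq_eval]; omega

lemma qq_sm (qs qV pB qp : Polynomial ℕ) (S lam N : ℕ) (hN : N ≤ qV.eval S) :
    2 * qs.eval (N + pB.eval S + qV.eval (S + lam)) + 1 ≤ (qq qs qV pB qp).eval (S + lam) := by
  rw [qq_eval]
  have h1 : pB.eval S ≤ pB.eval (S + lam) := eval_mono pB (by omega)
  have h0 : qV.eval S ≤ qV.eval (S + lam) := eval_mono qV (by omega)
  have h2 : qs.eval (N + pB.eval S + qV.eval (S + lam)) ≤
      qs.eval (qV.eval (S + lam) + pB.eval (S + lam) + qV.eval (S + lam)) :=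
    eval_mono qs (by omega)
  omega

/-- small lists -/
lemma small_mono {B B' : ℕ} (h : B ≤ B') {C : List ℤ} (hC : SmallL B C) : SmallL B' C :=
  fun x hx => (hC x hx).trans (Nat.pow_le_pow_right (by norm_num) h)

lemma smallP_mono {B B' : ℕ} (h : B ≤ B') {L : List (List ℤ × List ℤ)} (hL : SmallP B L) :
    SmallP B' L :=
  fun u hu => ⟨small_mono h (hL u hu).1, small_mono h (hL u hu).2⟩

/-- the parameters are fine -/
lemma ok (q : Polynomial ℕ) (S : ℕ) (m n : ℕ) (g : Reg → ℝ) (V : VS) (w : ℕ → ℝ) (U : Reg → ℝ)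
    (L : List (List ℤ × List ℤ)) (drop : List Bool) (y : List ℕ) (r j : ℕ) (hg : Base g)
    (hV : VOK q S g V w) (hU1 : ∀ r ∈ baseReg, U r = g r)
    (hU2 : ∀ l < V.2.length, U (V.2.getD l [3]) = w l) :
    Pa.OK ⟨m, n, g, V, w, U, L, drop, y, r, j⟩ := by
  obtain ⟨_, a2, a3, _⟩ := hV
  refine ⟨hg, hU1, ?_, hU2⟩
  intro r' hr'
  rcases a3 r' hr' with h | h
  · exact Or.inl h
  · exact Or.inr (a2 r' h)

/-- the equations of the program of the vector -/
lemma eq_V (q : Polynomial ℕ) (S : ℕ) (g : Reg → ℝ) (w : ℕ → ℝ) (p : Pa) (hV : VOK q S g p.V w)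
    (I : Instr) (hI : I ∈ p.V.1) (hE : Eqn p.U I) : Eqn (vr p) I ∧ vr p I.dst = p.U I.dst := by
  obtain ⟨a1, a2, _⟩ := hV
  have h1 : ∀ r ∈ baseReg ∪ wr p.V.1, vr p r = p.U r := by
    rintro r (hr | hr)
    · exact vr_base p r hr
    · exact vr_pre p r (a2 r hr)
  have h2 := ord_oper baseReg p.V.1 a1 I hI
  have h3 : vr p I.dst = p.U I.dst := h1 _ (Or.inr ⟨I, hI, rfl⟩)
  refine ⟨⟨?_, ?_⟩, h3⟩
  · rw [h3, h1 _ h2.1, h1 _ h2.2]
    exact hE.1
  · intro h
    rw [h1 _ h2.2]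
    exact hE.2 h

/-- the registers before the program of the forms -/
lemma hd_bd (q : Polynomial ℕ) (S : ℕ) (g : Reg → ℝ) (V : VS) (w : ℕ → ℝ) (hV : VOK q S g V w) :
    ∀ r ∈ baseReg ∪ wr V.1, r.headD 0 < 32 ∨ 35 < r.headD 0 := by
  obtain ⟨_, a2, _⟩ := hV
  rintro r (hr | hr)
  · have hr' : r.headD 0 < 4 := hr
    omega
  · have := a2 r hr
    unfold PreHd at this
    omega

theorem hvf (h1 : S_FORD) (h2 : S_EQR) (h3 : S_SZ1) (h4 : S_LEN) : S_HVF := by
  intro qV pB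
  obtain ⟨qs, hqs⟩ := h3
  obtain ⟨qp, hqp⟩ := h4 (qV + pB)
  refine ⟨qq qs qV pB qp, ?_⟩
  intro S g V w C hg hV hC
  obtain ⟨a1, a2, a3, a4, a5, a6, ⟨U, hU1, hU2, hU3⟩, a8⟩ := id hV
  have e1 : (qV + pB).eval S = qV.eval S + pB.eval S := Polynomial.eval_add
  refine ⟨?_, ((hqp S V (by omega) (by omega)).1 C (small_mono (by omega) hC)).trans
    (qq_len _ _ _ _ _)⟩
  have hOK : Pa.OK ⟨0, 0, g, V, w, U, [(C, [])], [], [], 0, 0⟩ :=
    ok qV S 0 0 g V w U _ _ _ _ _ hg hV hU1 hU3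
  set p : Pa := ⟨0, 0, g, V, w, U, [(C, [])], [], [], 0, 0⟩ with hp
  have b2 := hd_bd qV S g V w hV
  obtain ⟨f1, f2, f3⟩ := h1.1 32 0 V.2 C (baseReg ∪ wr V.1) Set.subset_union_left
    (fun r hr => a3 r hr) (by
      intro r hr t
      have := b2 r hr
      refine ⟨?_, ?_, ?_⟩ <;> rintro rfl <;> simp at this)
  have hSm : SmallP (pB.eval S) p.L := by
    intro u hu
    have : u = (C, []) := by simpa [hp] using hu
    subst this
    exact ⟨hC, fun x hx => by simp at hx⟩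
  refine ⟨?_, vr p, fun r hr => (vr_base p r hr).trans (hU1 r hr), ?_, ?_, ?_⟩
  · exact (ord_append _ _ _).mpr ⟨a1, f1⟩
  · intro I hI
    rcases List.mem_append.mp hI with hI | hI
    · obtain ⟨c1, c2⟩ := eq_V qV S g w p hV I hI (hU2 I hI).1
      refine ⟨c1.1, c1.2, ?_⟩
      rw [c2]
      intro lam hl
      exact QB_mono (qq_V _ _ _ _ _) ((hU2 I hI).2 lam hl)
    · have c1 : Eqn (vr p) I := (h2 p hOK).1 0 I hI
      refine ⟨c1.1, c1.2, ?_⟩
      intro lam hl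
      obtain ⟨D, hD⟩ := a8 lam hl
      have c2 := (hqs p (pB.eval S) (qV.eval (S + lam)) D hOK hD hSm).1 0 I hI
      refine QB_mono ?_ c2
      have := qq_sm qs qV pB qp S lam V.2.length a5
      have e2 : p.V.2.length = V.2.length := rfl
      rw [e2]
      omega
  · obtain ⟨I, hI, e⟩ := f3
    exact Or.inr ⟨I, List.mem_append.mpr (Or.inr hI), e⟩
  · rfl

theorem hvr (h1 : S_FORD) (h2 : S_EQR) (h3 : S_SZ1) (h4 : S_LEN) : S_HVR := by
  intro qV pB
  obtain ⟨qs, hqs⟩ := h3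
  obtain ⟨qp, hqp⟩ := h4 (qV + pB)
  refine ⟨qq qs qV pB qp, ?_⟩
  intro S g V w u v hg hV hC hu hv
  obtain ⟨a1, a2, a3, a4, a5, a6, ⟨U, hU1, hU2, hU3⟩, a8⟩ := id hV
  have e1 : (qV + pB).eval S = qV.eval S + pB.eval S := Polynomial.eval_add
  refine ⟨?_, ((hqp S V (by omega) (by omega)).2.1 u v (smallP_mono (by omega) hC)).trans
    (qq_len _ _ _ _ _)⟩
  have hOK : Pa.OK ⟨0, 0, g, V, w, U, [u, v], [], [], 0, 0⟩ :=
    ok qV S 0 0 g V w U _ _ _ _ _ hg hV hU1 hU3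
  set p : Pa := ⟨0, 0, g, V, w, U, [u, v], [], [], 0, 0⟩ with hp
  have b2 := hd_bd qV S g V w hV
  obtain ⟨f1, f2, f3⟩ := h1.2 V.2 [u, v] (baseReg ∪ wr V.1) Set.subset_union_left
    (fun r hr => a3 r hr) b2
  have hne : ∀ w' ∈ p.L, evF p.V.2.length p.w w'.2 ≠ 0 := by
    intro w' hw
    have : w' = u ∨ w' = v := by simpa [hp] using hw
    rcases this with rfl | rfl
    · exact hu
    · exact hv
  have g0 := f3 0 (by simp)
  have g1 := f3 1 (by simp)
  have hS : ∀ lam, RB lam g → ∀ I ∈ ratP V.2 [u, v],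
      QB (qs.eval (V.2.length + pB.eval S + qV.eval (S + lam))) (vr p I.dst) := by
    intro lam hl I hI
    obtain ⟨D, hD⟩ := a8 lam hl
    exact (hqs p (pB.eval S) (qV.eval (S + lam)) D hOK hD hC).2 hne I hI
  have hW : ∀ lam, RB lam g → ∀ j < 2,
      QB (qs.eval (V.2.length + pB.eval S + qV.eval (S + lam))) (vr p [35, j]) := by
    intro lam hl j hj
    obtain ⟨I, hI, e⟩ := f3 j hj
    have := hS lam hl I hI
    rw [e] at this
    exact this
  refine ⟨?_, vr p, fun r hr => (vr_base p r hr).trans (hU1 r hr), ?_, ?_, ?_⟩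
  · refine (ord_append _ _ _).mpr ⟨a1, (ord_append _ _ _).mpr ⟨f1, ?_, ?_, ?_, trivial⟩⟩
    · exact Or.inr g0
    · exact Or.inr g1
    · rintro (hr | hr)
      · rcases hr with hr | hr
        · have hr' : ([20] : Reg).headD 0 < 4 := hr
          simp at hr'
        · have := a2 _ hr
          unfold PreHd at this
          simp at this
      · have := f2 _ hr
        simp at this
  · intro I hI
    rcases List.mem_append.mp hI with hI | hI
    · obtain ⟨c1, c2⟩ := eq_V qV S g w p hV I hI (hU2 I hI).1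
      refine ⟨c1.1, c1.2, ?_⟩
      rw [c2]
      intro lam hl
      exact QB_mono (qq_V _ _ _ _ _) ((hU2 I hI).2 lam hl)
    · rcases List.mem_append.mp hI with hI | hI
      · have c1 : Eqn (vr p) I := (h2 p hOK).2 hne I hI
        refine ⟨c1.1, c1.2, ?_⟩
        intro lam hl
        refine QB_mono ?_ (hS lam hl I hI)
        have := qq_sm qs qV pB qp S lam V.2.length a5
        omega
      · have c0 : I = (⟨Op.sub, [20], [35, 0], [35, 1]⟩ : Instr) := List.mem_singleton.mp hI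
        subst c0
        refine ⟨rfl, (fun h => by cases h), ?_⟩
        intro lam hl
        exact QB_mono (qq_sm qs qV pB qp S lam V.2.length a5)
          (QB_sub (hW lam hl 0 (by norm_num)) (hW lam hl 1 (by norm_num)))
  · refine Or.inr ⟨⟨Op.sub, [20], [35, 0], [35, 1]⟩, ?_, rfl⟩
    exact List.mem_append.mpr (Or.inr (List.mem_append.mpr (Or.inr (List.mem_singleton.mpr rfl))))
  · rfl

end THVFR

theorem t_HVFR : S_FORD → S_EQR → S_SZ1 → S_LEN → S_HVF ∧ S_HVR :=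
  fun h1 h2 h3 h4 => ⟨THVFR.hvf h1 h2 h3 h4, THVFR.hvr h1 h2 h3 h4⟩

end Pool.Agent.W920.FD
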