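import Pool.Agent.W920.FD.Stm

set_option autoImplicit false

/-!
# Project FD, part HVP: the queries of the perceptron algorithm have their values
-/

namespace Pool.Agent.W920.FD

open Pool.Agent.NPC Pool.Agent.H558R2 Pool.Agent.H622R3.SM Pool.Agent.W920.FC

namespace THVP

theorem fa_map {α β γ : Type} (R : β → γ → Prop) (l : List α) (f : α → β) (g : α → γ)
    (h : ∀ x ∈ l, R (f x) (g x)) : List.Forall₂ R (l.map f) (l.map g) := by
  induction l with
  | nil => exact List.Forall₂.nil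
  | cons a l ih =>
    exact List.Forall₂.cons (h a List.mem_cons_self) (ih fun x hx => h x (List.mem_cons_of_mem _ hx))

theorem fa_app {β γ : Type} (R : β → γ → Prop) {a : List β} {b : List γ} {c : List β} {d : List γ}
    (h1 : List.Forall₂ R a b) (h2 : List.Forall₂ R c d) : List.Forall₂ R (a ++ c) (b ++ d) := by
  induction h1 with
  | nil => exact h2
  | cons h _ ih => exact List.Forall₂.cons h ih

theorem fa_flatMap {α β γ : Type} (R : β → γ → Prop) (l : List α) (f : α → List β) (g : α → List γ)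
    (h : ∀ x ∈ l, List.Forall₂ R (f x) (g x)) : List.Forall₂ R (l.flatMap f) (l.flatMap g) := by
  induction l with
  | nil => exact List.Forall₂.nil
  | cons a l ih =>
    rw [List.flatMap_cons, List.flatMap_cons]
    exact fa_app R (h a List.mem_cons_self) (ih fun x hx => h x (List.mem_cons_of_mem _ hx))

theorem wr_app (P Q : List Instr) : wr (P ++ Q) = wr P ∪ wr Q := by
  ext r
  constructor
  · rintro ⟨I, hI, h⟩
    rcases List.mem_append.mp hI with h1 | h1
    · exact Or.inl ⟨I, h1, h⟩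
    · exact Or.inr ⟨I, h1, h⟩
  · rintro (⟨I, hI, h⟩ | ⟨I, hI, h⟩)
    · exact ⟨I, List.mem_append.mpr (Or.inl hI), h⟩
    · exact ⟨I, List.mem_append.mpr (Or.inr hI), h⟩

/-- on the base registers, the values are those of `U` -/
theorem vr_base (p : Pa) (r : Reg) (hr : r ∈ baseReg) : vr p r = p.U r := by
  have hr' : r.headD 0 < 4 := hr
  unfold vr
  split <;> first | rfl | (exfalso; simp at hr')

/-- on the registers of the program of the vector, the values are those of `U` -/
theorem vr_pre (p : Pa) (r : Reg) (hr : PreHd r) : vr p r = p.U r := by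
  unfold PreHd at hr
  unfold vr
  split <;> first | rfl | (exfalso; simp at hr)

/-- the operands of a well ordered program -/
theorem ord_opd (S : Set Reg) (P : List Instr) (h : Ord S P) : ∀ I ∈ P,
    I.fst ∈ S ∪ wr P ∧ I.snd ∈ S ∪ wr P := by
  induction P generalizing S with
  | nil => intro I hI; simp at hI
  | cons J P ih =>
    obtain ⟨h1, h2, h3, h4⟩ := h
    have hsub : insert J.dst S ∪ wr P ⊆ S ∪ wr (J :: P) := by
      rintro r ((rfl | hr) | ⟨I, hI, e⟩)
      · exact Or.inr ⟨J, List.mem_cons_self, rfl⟩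
      · exact Or.inl hr
      · exact Or.inr ⟨I, List.mem_cons_of_mem _ hI, e⟩
    intro I hI
    rcases List.mem_cons.mp hI with rfl | hI
    · exact ⟨Or.inl h1, Or.inl h2⟩
    · exact ⟨hsub (ih _ h4 I hI).1, hsub (ih _ h4 I hI).2⟩

/-- enlarging the set of the registers read -/
theorem ord_mono (P : List Instr) : ∀ (S S' : Set Reg), Ord S P → S ⊆ S' →
    (∀ I ∈ P, I.dst ∈ S' → I.dst ∈ S) → Ord S' P := by
  induction P with
  | nil => intro S S' _ _ _; trivial
  | cons J P ih =>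
    intro S S' h hs hd
    obtain ⟨h1, h2, h3, h4⟩ := h
    refine ⟨hs h1, hs h2, fun h => h3 (hd J List.mem_cons_self h), ?_⟩
    refine ih _ _ h4 (Set.insert_subset_insert hs) ?_
    intro I hI hI'
    rcases hI' with e | hI'
    · exact Or.inl e
    · exact Or.inr (hd I (List.mem_cons_of_mem _ hI) hI')

theorem dot_hd (K T r j : ℕ) (y : List ℕ) : ∀ I ∈ numProg T ++ dotProg K r j y,
    I.dst.headD 0 ≤ 42 := by
  intro I hI
  rcases List.mem_append.mp hI with h | h
  · unfold numProg at h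
    rcases List.mem_cons.mp h with rfl | h
    · simp
    · obtain ⟨t, _, rfl⟩ := List.mem_map.mp h
      simp
  · unfold dotProg at h
    rcases List.mem_cons.mp h with rfl | h
    · simp
    · obtain ⟨l, _, h⟩ := List.mem_flatMap.mp h
      simp only [List.mem_cons, List.not_mem_nil, or_false] at h
      rcases h with rfl | rfl <;> simp

theorem qb_mono {β β' : ℕ} {v : ℝ} (h : β ≤ β') (hv : QB β v) : QB β' v := by
  obtain ⟨E, z, h1, h2, h3, h4⟩ := hv
  have : 2 ^ β ≤ 2 ^ β' := Nat.pow_le_pow_right (by norm_num) h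
  exact ⟨E, z, h1, h2.trans this, h3.trans this, h4⟩

theorem rb_mono {β β' : ℕ} {g : Reg → ℝ} (h : β ≤ β') (hv : RB β g) : RB β' g := by
  obtain ⟨D, h1, h2, h3⟩ := hv
  have : 2 ^ β ≤ 2 ^ β' := Nat.pow_le_pow_right (by norm_num) h
  refine ⟨D, h1, h2.trans this, fun r hr => ?_⟩
  obtain ⟨z, hz1, hz2⟩ := h3 r hr
  exact ⟨z, hz1.trans this, hz2⟩

theorem cd_mono {N : ℕ} {w : ℕ → ℝ} {D β β' : ℕ} (h : β ≤ β') (hv : CD N w D β) : CD N w D β' := by
  obtain ⟨h1, h2, h3⟩ := hv
  have : 2 ^ β ≤ 2 ^ β' := Nat.pow_le_pow_right (by norm_num) h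
  refine ⟨h1, h2.trans this, fun l hl => ?_⟩
  obtain ⟨z, hz1, hz2⟩ := h3 l hl
  exact ⟨z, hz1.trans this, hz2⟩

theorem pe_mono (p : Polynomial ℕ) {a b : ℕ} (h : a ≤ b) : p.eval a ≤ p.eval b := by
  rw [Polynomial.eval_eq_sum, Polynomial.eval_eq_sum]
  unfold Polynomial.sum
  apply Finset.sum_le_sum
  intro i _
  exact Nat.mul_le_mul_left _ (Nat.pow_le_pow_left h i)

/-- the common part: order, and the registers written -/
theorem ord_per (hO1 : S_ORD1) (hO2 : S_ORD2) (hF : S_FORD) (m n : ℕ) (V : VS)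
    (L : List (List ℤ × List ℤ)) (drop : List Bool) (hL : L.length = cK m n)
    (hV : Ord baseReg V.1) (hw : ∀ r ∈ wr V.1, PreHd r)
    (hV2 : ∀ r ∈ V.2, r ∈ baseReg ∨ r ∈ wr V.1) :
    Ord baseReg (perP V m n L drop) ∧
    (∀ r ∈ baseReg ∪ wr (perP V m n L drop), r.headD 0 < 40 ∨ 42 < r.headD 0) ∧
    (∀ r ≤ cK m n, ∀ i < cK m n, ∀ j < cK m n, [6, r, i, j] ∈ wr (perP V m n L drop)) ∧
    (∀ k' < cK m n, [10, k'] ∈ wr (perP V m n L drop)) := by
  obtain ⟨o1, o2, o3, o4⟩ := hO1
  obtain ⟨p1, p2, p3⟩ := hO2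
  have hb0 : ∀ r ∈ baseReg, r.headD 0 < 4 := fun r hr => hr
  have hw' : ∀ r ∈ wr V.1, r.headD 0 = 30 ∨ r.headD 0 = 31 ∨ r.headD 0 = 52 ∨ r.headD 0 = 53 ∨
    r.headD 0 = 54 := fun r hr => hw r hr
  obtain ⟨r1, r2, r3⟩ := hF.2 V.2 L (baseReg ∪ wr V.1) Set.subset_union_left hV2 (by
      rintro r (hr | hr)
      · have := hb0 r hr; omega
      · have := hw' r hr; omega)
  obtain ⟨g1, g2, g3⟩ := p1 m n drop ((baseReg ∪ wr V.1) ∪ wr (ratP V.2 L))
    (fun r hr => Or.inl (Or.inl hr)) (fun j hj => Or.inr (r3 j (by rw [hL]; exact hj))) (by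
      rintro r ((hr | hr) | hr)
      · have := hb0 r hr; omega
      · have := hw' r hr; omega
      · have := r2 r hr; omega)
  obtain ⟨f1, f2, f3, f4⟩ := p2 (cK m n) (((baseReg ∪ wr V.1) ∪
    wr (ratP V.2 L)) ∪ wr (matProg m n ++ gramProg m n drop))
    (fun r hr => Or.inl (Or.inl (Or.inl hr))) (fun i hi j hj => Or.inr (g3 i hi j hj)) (by
      rintro r (((hr | hr) | hr) | hr)
      · have := hb0 r hr; omega
      · have := hw' r hr; omega
      · have := r2 r hr; omega
      · have := g2 r hr; omega)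
  have hE : perP V m n L drop = V.1 ++ (ratP V.2 L ++
      ((matProg m n ++ gramProg m n drop) ++ flProg (cK m n))) := by
    unfold perP
    rw [List.append_assoc (matProg m n)]
  rw [hE]
  refine ⟨?_, ?_, ?_, ?_⟩
  · rw [o1]
    refine ⟨hV, ?_⟩
    rw [o1]
    refine ⟨r1, ?_⟩
    rw [o1]
    exact ⟨g1, f1⟩
  · rintro r (hr | hr)
    · have := hb0 r hr; omega
    · rw [wr_app, wr_app, wr_app _ (flProg (cK m n))] at hr
      rcases hr with hr | hr | hr | hr
      · have := hw' r hr; omega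
      · have := r2 r hr; omega
      · have := g2 r hr; omega
      · have := f2 r hr; omega
  · intro r hr i hi j hj
    rw [wr_app, wr_app, wr_app _ (flProg (cK m n))]
    exact Or.inr (Or.inr (Or.inr (f3 r hr i hi j hj)))
  · intro k' hk'
    rw [wr_app, wr_app, wr_app _ (flProg (cK m n))]
    exact Or.inr (Or.inr (Or.inr (f4 k' hk')))

end THVP

open THVP in
theorem t_HVP : S_ORD1 → S_ORD2 → S_FORD → S_EQR → S_EQM → S_SZ1 → S_SZ2 → S_SZ3 → S_SZ4 →
    S_LEN → S_HVP := by
  intro hO1 hO2 hF hER hEM hS1 hS2 hS3 hS4 hPL qV pB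
  obtain ⟨q1, hq1⟩ := hS1
  obtain ⟨q2, hq2⟩ := hS2
  obtain ⟨q3, hq3⟩ := hS3
  obtain ⟨q4, hq4⟩ := hS4
  obtain ⟨q5, hq5⟩ := hPL (qV + pB)
  obtain ⟨P1, hP1⟩ : ∃ P : Polynomial ℕ, ∀ x, P.eval x =
      x + qV.eval x + pB.eval x + (qV.eval x + x) :=
    ⟨Polynomial.X + qV + pB + (qV + Polynomial.X), fun x => by
      rw [Polynomial.eval_add, Polynomial.eval_add, Polynomial.eval_add, Polynomial.eval_add,
        Polynomial.eval_X]⟩
  obtain ⟨P3, hP3⟩ : ∃ P : Polynomial ℕ, ∀ x, P.eval x = q2.eval (P1.eval x) + x :=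
    ⟨q2.comp P1 + Polynomial.X, fun x => by
      rw [Polynomial.eval_add, Polynomial.eval_X, Polynomial.eval_comp]⟩
  obtain ⟨P4, hP4⟩ : ∃ P : Polynomial ℕ, ∀ x, P.eval x =
      P3.eval x + P3.eval x + q3.eval (x + P3.eval x) :=
    ⟨P3 + P3 + q3.comp (Polynomial.X + P3), fun x => by
      rw [Polynomial.eval_add, Polynomial.eval_add, Polynomial.eval_comp, Polynomial.eval_add,
        Polynomial.eval_X]⟩
  obtain ⟨KK, hKK⟩ : ∃ P : Polynomial ℕ, ∀ x, P.eval x = x + x + 1 :=
    ⟨Polynomial.X + Polynomial.X + 1, fun x => by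
      rw [Polynomial.eval_add, Polynomial.eval_add, Polynomial.eval_X, Polynomial.eval_one]⟩
  obtain ⟨Q, hQ⟩ : ∃ P : Polynomial ℕ, ∀ x, P.eval x =
      qV.eval x + q1.eval (P1.eval x) + q3.eval (x + P3.eval x) + q4.eval (x + P4.eval x) +
        (KK.eval x + (KK.eval x + 1) * KK.eval x) * (q5.eval x + 1) :=
    ⟨qV + q1.comp P1 + q3.comp (Polynomial.X + P3) + q4.comp (Polynomial.X + P4) +
      (KK + (KK + 1) * KK) * (q5 + 1), fun x => by
        rw [Polynomial.eval_add, Polynomial.eval_add, Polynomial.eval_add, Polynomial.eval_add,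
          Polynomial.eval_comp,
          Polynomial.eval_comp, Polynomial.eval_comp, Polynomial.eval_mul, Polynomial.eval_add,
          Polynomial.eval_add, Polynomial.eval_add, Polynomial.eval_mul, Polynomial.eval_add,
          Polynomial.eval_add, Polynomial.eval_X, Polynomial.eval_one]⟩
  refine ⟨Q, ?_⟩
  intro m n g V w L drop y hB hVOK hSm hLen hev hy
  obtain ⟨v1, v2, v3, v4, v5, v6, ⟨U, u1, u2, u3⟩, v7⟩ := hVOK
  obtain ⟨hord, hhd, h6, h10⟩ := ord_per hO1 hO2 hF m n V L drop hLen v1 v2 v3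
  have hOK : ∀ r j : ℕ, (⟨m, n, g, V, w, U, L, drop, y, r, j⟩ : Pa).OK := by
    intro r j
    refine ⟨hB, u1, ?_, u3⟩
    intro r hr
    rcases v3 r hr with h | h
    · exact Or.inl h
    · exact Or.inr (v2 r h)
  -- the part `V.1`
  have hvr : ∀ (r j : ℕ), ∀ s ∈ baseReg ∪ wr V.1,
      vr ⟨m, n, g, V, w, U, L, drop, y, r, j⟩ s = U s := by
    rintro r j s (hs | hs)
    · exact vr_base _ s hs
    · exact vr_pre _ s (v2 s hs)
  have hV1 : ∀ (r j : ℕ), ∀ I ∈ V.1, Eqn (vr ⟨m, n, g, V, w, U, L, drop, y, r, j⟩) I ∧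
      Gd qV (m + n) g (vr ⟨m, n, g, V, w, U, L, drop, y, r, j⟩ I.dst) := by
    intro r j I hI
    obtain ⟨⟨e1, e2⟩, e3⟩ := u2 I hI
    obtain ⟨o1, o2⟩ := ord_opd _ _ v1 I hI
    have o3 : I.dst ∈ baseReg ∪ wr V.1 := Or.inr ⟨I, hI, rfl⟩
    refine ⟨⟨?_, ?_⟩, ?_⟩
    · rw [hvr r j _ o1, hvr r j _ o2, hvr r j _ o3]
      exact e1
    · rw [hvr r j _ o2]
      exact e2
    · rw [hvr r j _ o3]
      exact e3
  -- sizes
  have hsz : ∀ (r j lam : ℕ), r ≤ cK m n → RB lam g →
      (∀ I ∈ perP V m n L drop, QB (Q.eval (m + n + lam))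
        (vr ⟨m, n, g, V, w, U, L, drop, y, r, j⟩ I.dst)) ∧
      (∀ I ∈ numProg (cT m n) ++ dotProg (cK m n) r j y, QB (Q.eval (m + n + lam))
        (vr ⟨m, n, g, V, w, U, L, drop, y, r, j⟩ I.dst)) := by
    intro r j lam hr hRB
    obtain ⟨D, hD⟩ := v7 lam hRB
    have hV1' := hV1 r j
    have hOK' := hOK r j
    set p : Pa := ⟨m, n, g, V, w, U, L, drop, y, r, j⟩ with hp
    set x : ℕ := m + n + lam with hx
    set β0 : ℕ := qV.eval x + x with hβ0
    have hD' : CD p.V.2.length p.w D β0 := cd_mono (by omega) hD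
    have hRB' : RB β0 p.g := rb_mono (by omega) hRB
    have hVl : V.2.length ≤ qV.eval x := v5.trans (pe_mono qV (by omega))
    have hxB : m + n + V.2.length + pB.eval (m + n) + β0 ≤ P1.eval x := by
      have : pB.eval (m + n) ≤ pB.eval x := pe_mono pB (by omega)
      rw [hP1]
      omega
    obtain ⟨s1, s3⟩ := hq1 p (pB.eval (m + n)) β0 D hOK' hD' hSm
    obtain ⟨E, hE1', hE2', hE3'⟩ := hq2 p (pB.eval (m + n)) β0 D hOK' hD' hRB' hSm hLen hev
    have hb2 : q2.eval (m + n + V.2.length + pB.eval (m + n) + β0) ≤ q2.eval (P1.eval x) :=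
      pe_mono q2 hxB
    set β : ℕ := P3.eval x with hβ
    have hβ1 : q2.eval (m + n + V.2.length + pB.eval (m + n) + β0) ≤ β := by
      rw [hβ, hP3]
      omega
    have hβ2 : lam ≤ β := by
      rw [hβ, hP3]
      omega
    have hpow : 2 ^ q2.eval (m + n + V.2.length + pB.eval (m + n) + β0) ≤ 2 ^ β :=
      Nat.pow_le_pow_right (by norm_num) hβ1
    obtain ⟨s4, s5⟩ := hq3 p β E hOK' (rb_mono hβ2 hRB) hE1' (hE2'.trans hpow) (by
      intro i hi j' hj'
      obtain ⟨z, hz1, hz2⟩ := hE3' i hi j' hj'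
      exact ⟨z, hz1.trans hpow, hz2⟩)
    set β4 : ℕ := P4.eval x with hβ4
    have hβ4e : β4 = β + β + q3.eval (x + β) := by
      rw [hβ4, hP4, hβ]
    have h34 : q3.eval (m + n + β) ≤ q3.eval (x + β) := pe_mono q3 (by omega)
    have hEE : E * E ≤ 2 ^ β4 := by
      have h1 : E ≤ 2 ^ β := hE2'.trans hpow
      calc E * E ≤ 2 ^ β * 2 ^ β := Nat.mul_le_mul h1 h1
        _ = 2 ^ (β + β) := by rw [pow_add]
        _ ≤ 2 ^ β4 := Nat.pow_le_pow_right (by norm_num) (by omega)
    obtain ⟨s6, s7⟩ := hq4 p β4 (E * E) hOK' (Nat.mul_pos hE1' hE1') hEE (by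
      intro i j'
      obtain ⟨z, hz1, hz2⟩ := s5 i j'
      exact ⟨z, hz1.trans (Nat.pow_le_pow_right (by norm_num) (by
        show q3.eval (m + n + β) ≤ β4
        omega)), hz2⟩) hy
    have hQe := hQ x
    have hQV : qV.eval x ≤ Q.eval x := by
      rw [hQe]
      omega
    have hQ1 : q1.eval (V.2.length + pB.eval (m + n) + β0) ≤ Q.eval x := by
      have : q1.eval (V.2.length + pB.eval (m + n) + β0) ≤ q1.eval (P1.eval x) :=
        pe_mono q1 (by omega)
      rw [hQe]
      omega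
    have hQ3 : q3.eval (m + n + β) ≤ Q.eval x := by
      have : q3.eval (m + n + β) ≤ q3.eval (x + P3.eval x) := pe_mono q3 (by omega)
      rw [hQe]
      omega
    have hQ4 : q4.eval (m + n + β4) ≤ Q.eval x := by
      have : q4.eval (m + n + β4) ≤ q4.eval (x + P4.eval x) := pe_mono q4 (by omega)
      rw [hQe]
      omega
    constructor
    · intro I hI
      unfold perP at hI
      rcases List.mem_append.mp hI with hI | hI
      · exact qb_mono hQV ((hV1' I hI).2 lam hRB)
      · rcases List.mem_append.mp hI with hI | hI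
        · exact qb_mono hQ1 (s3 hev I hI)
        · rw [← List.append_assoc] at hI
          rcases List.mem_append.mp hI with hI | hI
          · exact qb_mono hQ3 (s4 I hI)
          · exact qb_mono hQ4 (s6 I hI)
    · intro I hI
      exact qb_mono hQ4 (s7 hr I hI)
  -- equations
  have heq : ∀ (r j : ℕ), ∀ I ∈ perP V m n L drop,
      Eqn (vr ⟨m, n, g, V, w, U, L, drop, y, r, j⟩) I := by
    intro r j I hI
    have hV1' := hV1 r j
    have hOK' := hOK r j
    set p : Pa := ⟨m, n, g, V, w, U, L, drop, y, r, j⟩ with hp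
    unfold perP at hI
    rcases List.mem_append.mp hI with hI | hI
    · exact (hV1' I hI).1
    · rcases List.mem_append.mp hI with hI | hI
      · exact (hER p hOK').2 hev I hI
      · rw [← List.append_assoc] at hI
        rcases List.mem_append.mp hI with hI | hI
        · exact (hEM p hOK').1 I hI
        · exact (hEM p hOK').2.1 I hI
  have hbase : ∀ (r j : ℕ), ∀ s ∈ baseReg,
      vr ⟨m, n, g, V, w, U, L, drop, y, r, j⟩ s = g s := by
    intro r j s hs
    rw [vr_base _ s hs]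
    exact u1 s hs
  have hc : ∀ k' < cK m n, HasVal g (Gd Q (m + n) g) (cQ V m n L drop k')
      (cVal (GMat m n g (fun j => rt V.2.length w (L.getD j ([], []))) drop) k') := by
    intro k' hk'
    refine ⟨hord, vr ⟨m, n, g, V, w, U, L, drop, y, 0, 0⟩, hbase 0 0, ?_,
      Or.inr (h10 k' hk'), rfl⟩
    intro I hI
    obtain ⟨e1, e2⟩ := heq 0 0 I hI
    exact ⟨e1, e2, fun lam hlam => (hsz 0 0 lam (Nat.zero_le _) hlam).1 I hI⟩
  have hd : ∀ r < cK m n + 1, ∀ j < cK m n, HasVal g (Gd Q (m + n) g) (dQ V m n L drop y r j)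
      (dVal (GMat m n g (fun j => rt V.2.length w (L.getD j ([], []))) drop) y r j) := by
    intro r hr j hj
    obtain ⟨t1, t2⟩ := hO2.2.2 (cK m n) (cT m n) r j y
      {s | s ∈ baseReg ∪ wr (perP V m n L drop) ∧ s.headD 0 < 40}
      (fun s hs => ⟨Or.inl hs, by
        have : s.headD 0 < 4 := hs
        omega⟩)
      (fun l hl => ⟨Or.inr (h6 r (by omega) j hj l hl), by simp⟩) hy (fun s hs => hs.2)
    refine ⟨?_, vr ⟨m, n, g, V, w, U, L, drop, y, r, j⟩, hbase r j, ?_, Or.inr ?_, rfl⟩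
    · show Ord baseReg (perP V m n L drop ++ (numProg (cT m n) ++ dotProg (cK m n) r j y))
      rw [hO1.1]
      refine ⟨hord, ord_mono _ _ _ t1 (fun s hs => hs.1) ?_⟩
      intro I hI hI'
      refine ⟨hI', ?_⟩
      have a1 := dot_hd _ _ _ _ _ I hI
      have a2 := hhd _ hI'
      omega
    · intro I hI
      have hI' : I ∈ perP V m n L drop ++ (numProg (cT m n) ++ dotProg (cK m n) r j y) := hI
      rcases List.mem_append.mp hI' with h | h
      · obtain ⟨e1, e2⟩ := heq r j I h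
        exact ⟨e1, e2, fun lam hlam => (hsz r j lam (by omega) hlam).1 I h⟩
      · obtain ⟨e1, e2⟩ := (hEM ⟨m, n, g, V, w, U, L, drop, y, r, j⟩ (hOK r j)).2.2 (cT m n) I h
        exact ⟨e1, e2, fun lam hlam => (hsz r j lam (by omega) hlam).2 I h⟩
    · obtain ⟨I, hI, hd⟩ := t2
      exact ⟨I, List.mem_append.mpr (Or.inr hI), hd⟩
  constructor
  · unfold perQs perVals
    apply fa_app
    · apply fa_map
      intro k' hk'
      exact hc k' (List.mem_range.mp hk')
    · apply fa_flatMap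
      intro r hr
      apply fa_map
      intro j hj
      exact hd r (List.mem_range.mp hr) j (List.mem_range.mp hj)
  · have hVq : V.1.length ≤ (qV + pB).eval (m + n) := by
      rw [Polynomial.eval_add]
      omega
    have hVq2 : V.2.length ≤ (qV + pB).eval (m + n) := by
      rw [Polynomial.eval_add]
      omega
    have hSm' : SmallP ((qV + pB).eval (m + n)) L := by
      have hp : 2 ^ pB.eval (m + n) ≤ 2 ^ (qV + pB).eval (m + n) :=
        Nat.pow_le_pow_right (by norm_num) (by rw [Polynomial.eval_add]; omega)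
      intro u hu
      exact ⟨fun x hx => ((hSm u hu).1 x hx).trans hp, fun x hx => ((hSm u hu).2 x hx).trans hp⟩
    have hq5' := (hq5 (m + n) V hVq hVq2).2.2
    have hlen : ∀ x ∈ (perQs V m n L drop y).map fun q => q.1.length + 1,
        x ≤ q5.eval (m + n) + 1 := by
      intro x hx
      obtain ⟨q, hq, rfl⟩ := List.mem_map.mp hx
      unfold perQs at hq
      rcases List.mem_append.mp hq with hq | hq
      · obtain ⟨k', _, rfl⟩ := List.mem_map.mp hq
        have := (hq5' m n L drop y k' 0 0 le_rfl hLen hSm').1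
        omega
      · obtain ⟨r, _, hq⟩ := List.mem_flatMap.mp hq
        obtain ⟨j, _, rfl⟩ := List.mem_map.mp hq
        have := (hq5' m n L drop y 0 r j le_rfl hLen hSm').2
        omega
    have h1 := List.sum_le_card_nsmul _ _ hlen
    have h2 : ((perQs V m n L drop y).map fun q => q.1.length + 1).length =
        cK m n + (cK m n + 1) * cK m n := by
      unfold perQs
      simp
    rw [h2, smul_eq_mul] at h1
    refine h1.trans ?_
    have hK : cK m n ≤ KK.eval (m + n) := by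
      rw [hKK]
      unfold cK
      omega
    rw [hQ]
    refine le_trans ?_ (Nat.le_add_left _ _)
    gcongr

end Pool.Agent.W920.FD
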