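import Pool.Agent.W920.FD.Stm

set_option autoImplicit false

/-! The initial weights. -/

namespace Pool.Agent.W920.FD

open Pool.Agent.NPC Pool.Agent.H558R2 Pool.Agent.H622R3.SM Pool.Agent.W920.FC

namespace TI0

theorem sum_le_mul (c : ℕ) : ∀ l : List ℕ, (∀ j, l.getD j 0 ≤ c) → l.sum ≤ l.length * c
  | [], _ => by simp
  | x :: l, h => by
    have h0 := h 0
    have ih := sum_le_mul c l (fun j => by simpa using h (j + 1))
    simp only [List.getD_cons_zero] at h0
    simp only [List.sum_cons, List.length_cons]
    linarith [Nat.succ_mul l.length c]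

theorem getD_zeros (M j : ℕ) : ((List.range M).map fun _ => 0).getD j 0 = 0 := by
  rw [List.getD_eq_getElem?_getD, List.getElem?_map]
  cases (List.range M)[j]? <;> rfl

end TI0

theorem t_I0 : S_I0 := by
  intro N h Z B m n g w Lad hG
  refine ⟨⟨by simp, fun j => by rw [TI0.getD_zeros]; omega⟩, ?_, ?_⟩
  · intro x hx j hj
    have hw : Wt N m n w Lad ((List.range (m + (n + n))).map fun _ => 0) j =
        rt N w (Lad.getD 0 ([], [1])) := by
      unfold Wt wts
      rw [List.getD_append _ _ _ _ (by simpa using hj), List.getD_eq_getElem _ _ (by simpa using hj)]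
      simp only [List.getElem_map, List.getElem_range]
      rw [TI0.getD_zeros]
    rw [hw]
    rcases hx.2.2.2 j hj with h0 | ⟨u, hu, hu1, hu2⟩
    · rw [h0]
      cases hL : Lad with
      | nil =>
        simp [rt, evF]
      | cons a L =>
        have ha := hG.2.2.1 a (by rw [hL]; simp)
        simp only [List.getD_cons_zero]
        exact (div_pos ha.1 ha.2).le
    · cases hL : Lad with
      | nil => rw [hL] at hu; simp at hu
      | cons a L =>
        simp only [List.getD_cons_zero]
        refine hu2.trans ?_
        have hp := hG.2.2.2.1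
        rw [hL] at hp hu
        rcases List.mem_cons.1 hu with rfl | hu
        · exact le_rfl
        · exact (List.pairwise_cons.1 hp).1 u hu
  · intro idx hidx
    have := TI0.sum_le_mul Lad.length idx hidx.2
    rwa [hidx.1] at this

end Pool.Agent.W920.FD
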