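import Pool.Agent.W920.FD.Stm

set_option autoImplicit false
set_option linter.all false

namespace Pool.Agent.W920.FD

open Pool.Agent.NPC Pool.Agent.H558R2 Pool.Agent.H622R3.SM Pool.Agent.W920.FC

namespace TLEN

theorem len_le {α β : Type} (l : List α) (f : α → List β) (c : ℕ)
    (h : ∀ a ∈ l, (f a).length ≤ c) : (l.flatMap f).length ≤ l.length * c := by
  induction l with
  | nil => simp
  | cons a l ih =>
    rw [List.flatMap_cons, List.length_append, List.length_cons]
    have h1 := h a (by simp)
    have h2 := ih (fun b hb => h b (by simp [hb]))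
    have : (l.length + 1) * c = l.length * c + c := by ring
    omega

theorem len_fr {β : Type} (m : ℕ) (f : ℕ → List β) (c : ℕ) (h : ∀ a, (f a).length ≤ c) :
    ((List.range m).flatMap f).length ≤ m * c := by
  have := len_le (List.range m) f c (fun a _ => h a)
  rwa [List.length_range] at this

theorem l_rat (hF : S_FORM) (regs : List Reg) (L : List (List ℤ × List ℤ)) (B : ℕ)
    (h : SmallP B L) :
    (ratP regs L).length ≤ L.length * (2 * (1 + regs.length * (2 * B + 4)) + 1) := by
  unfold ratP
  have h1 := len_le L.zipIdx (fun p => formP 32 (2 * p.2) regs p.1.1 ++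
    (formP 32 (2 * p.2 + 1) regs p.1.2 ++
    [(⟨Op.div, [35, p.2], [32, 2 * p.2, regs.length], [32, 2 * p.2 + 1, regs.length]⟩ : Instr)]))
    (2 * (1 + regs.length * (2 * B + 4)) + 1) (fun p hp => by
      have hm := List.fst_mem_of_mem_zipIdx hp
      have a1 := hF.2.2 32 (2 * p.2) regs p.1.1 B (h _ hm).1
      have a2 := hF.2.2 32 (2 * p.2 + 1) regs p.1.2 B (h _ hm).2
      simp only [List.length_append, List.length_cons, List.length_nil]
      omega)
  rwa [List.length_zipIdx] at h1

theorem l_mat (m n : ℕ) : (matProg m n).length ≤ m * (cK m n * 2) := by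
  unfold matProg
  exact len_fr m _ _ (fun i => len_fr _ _ _ (fun j => by simp))

theorem l_gram (m n : ℕ) (drop : List Bool) :
    (gramProg m n drop).length ≤ cK m n * (cK m n * (2 * m + 2)) := by
  unfold gramProg
  refine len_fr _ _ _ (fun i => len_fr _ _ _ (fun j => ?_))
  rw [List.length_append, List.length_cons]
  have h1 := len_fr m (fun i' =>
      [(⟨Op.mul, [38, i, j, i'], [37, i', i], [37, i', j]⟩ : Instr),
        ⟨Op.add, [39, i, j, i' + 1], [39, i, j, i'], [38, i, j, i']⟩]) 2 (fun a => by simp)
  simp only [List.length_cons, List.length_nil]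
  omega

theorem l_fl (K : ℕ) : (flProg K).length ≤ (K * K + 1) + K * (K * (K * (K * 2 + 1)) + (K + 3 + K * K)) := by
  unfold flProg
  rw [List.length_append]
  refine Nat.add_le_add ?_ (len_fr K _ _ (fun k => ?_))
  · unfold initProg
    rw [List.length_cons]
    exact Nat.add_le_add_right (len_fr K _ K (fun i => by rw [List.length_map, List.length_range])) 1
  · rw [List.length_append, List.length_append]
    refine Nat.add_le_add ?_ (Nat.add_le_add ?_ ?_)
    · unfold prodProg
      refine len_fr K _ _ (fun i => len_fr K _ _ fun j => ?_)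
      rw [List.length_cons]
      exact Nat.add_le_add_right (len_fr K _ 2 (fun l => le_rfl)) 1
    · unfold traceProg
      simp only [List.length_append, List.length_cons, List.length_map, List.length_range,
        List.length_nil]
      omega
    · unfold nextProg
      exact len_fr K _ K (fun i => by rw [List.length_map, List.length_range])

theorem l_num (T : ℕ) : (numProg T).length ≤ T + 1 := by
  unfold numProg
  simp

theorem l_dot (K r j : ℕ) (y : List ℕ) : (dotProg K r j y).length ≤ 2 * K + 1 := by
  unfold dotProg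
  rw [List.length_cons]
  have := len_fr K (fun l =>
    [(⟨Op.mul, [41, l], [6, r, j, l], [40, y.getD l 0]⟩ : Instr),
      ⟨Op.add, [42, l + 1], [42, l], [41, l]⟩]) 2 (fun a => by simp)
  omega

/-- the bound -/
def Gb (A s N K B : ℕ) : ℕ := A + (1 + N * (2 * B + 4)) +
  (2 * (2 * (1 + N * (2 * B + 4)) + 1) + 1) + K * (2 * (1 + N * (2 * B + 4)) + 1) + s * (K * 2) +
  K * (K * (2 * s + 2)) + ((K * K + 1) + K * (K * (K * (K * 2 + 1)) + (K + 3 + K * K))) +
  (4 * (K * (K * K)) + 1) + (2 * K + 1)

theorem Gb_mono (A s N K B A' s' N' K' : ℕ) (h0 : A ≤ A') (h1 : s ≤ s') (h2 : N ≤ N')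
    (h3 : K ≤ K') : Gb A s N K B ≤ Gb A' s' N' K' B := by
  unfold Gb
  gcongr

/-- the polynomial -/
noncomputable def Gq (pB : Polynomial ℕ) : Polynomial ℕ :=
  let s : Polynomial ℕ := Polynomial.X
  let N : Polynomial ℕ := pB
  let K : Polynomial ℕ := 2 * Polynomial.X + 1
  let B : Polynomial ℕ := pB
  pB + (1 + N * (2 * B + 4)) +
  (2 * (2 * (1 + N * (2 * B + 4)) + 1) + 1) + K * (2 * (1 + N * (2 * B + 4)) + 1) + s * (K * 2) +
  K * (K * (2 * s + 2)) + ((K * K + 1) + K * (K * (K * (K * 2 + 1)) + (K + 3 + K * K))) +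
  (4 * (K * (K * K)) + 1) + (2 * K + 1)

theorem Gq_eval (pB : Polynomial ℕ) (s : ℕ) :
    (Gq pB).eval s = Gb (pB.eval s) s (pB.eval s) (2 * s + 1) (pB.eval s) := by
  simp only [Gq, Gb, Polynomial.eval_add, Polynomial.eval_mul, Polynomial.eval_pow,
    Polynomial.eval_X, Polynomial.eval_one, Polynomial.eval_natCast, Polynomial.eval_ofNat,
    Nat.cast_id]

end TLEN

open TLEN in
theorem t_LEN : S_FORM → S_LEN := by
  intro hF pB
  refine ⟨Gq pB, fun S V hV1 hV2 => ?_⟩
  refine ⟨fun C hC => ?_, fun u v huv => ?_, fun m n L drop y k' r j hS hL hB => ?_⟩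
  · have hG : Gb V.1.length 0 V.2.length 0 (pB.eval S) ≤ (Gq pB).eval S := by
      rw [Gq_eval]
      exact Gb_mono _ _ _ _ _ _ _ _ _ hV1 (Nat.zero_le _) hV2 (Nat.zero_le _)
    refine le_trans ?_ hG
    show (V.1 ++ formP 32 0 V.2 C).length ≤ _
    rw [List.length_append]
    have h1 := hF.2.2 32 0 V.2 C _ hC
    unfold Gb
    omega
  · have hG : Gb V.1.length 0 V.2.length 0 (pB.eval S) ≤ (Gq pB).eval S := by
      rw [Gq_eval]
      exact Gb_mono _ _ _ _ _ _ _ _ _ hV1 (Nat.zero_le _) hV2 (Nat.zero_le _)
    refine le_trans ?_ hG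
    show (V.1 ++ (ratP V.2 [u, v] ++ [(⟨Op.sub, [20], [35, 0], [35, 1]⟩ : Instr)])).length ≤ _
    rw [List.length_append, List.length_append]
    have h1 := l_rat hF V.2 [u, v] _ huv
    simp only [List.length_cons, List.length_nil] at h1 ⊢
    unfold Gb
    omega
  · have hG : Gb V.1.length m V.2.length (cK m n) (pB.eval S) ≤ (Gq pB).eval S := by
      rw [Gq_eval]
      refine Gb_mono _ _ _ _ _ _ _ _ _ hV1 (by omega) hV2 ?_
      unfold cK
      omega
    have hp : (perP V m n L drop).length ≤ V.1.length +
        (cK m n * (2 * (1 + V.2.length * (2 * pB.eval S + 4)) + 1) + (m * (cK m n * 2) +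
          (cK m n * (cK m n * (2 * m + 2)) + ((cK m n * cK m n + 1) +
            cK m n * (cK m n * (cK m n * (cK m n * 2 + 1)) + (cK m n + 3 + cK m n * cK m n)))))) := by
      unfold perP
      rw [List.length_append, List.length_append, List.length_append, List.length_append]
      have h1 := l_rat hF V.2 L _ hB
      rw [hL] at h1
      exact Nat.add_le_add le_rfl (Nat.add_le_add h1 (Nat.add_le_add (l_mat m n)
        (Nat.add_le_add (l_gram m n drop) (l_fl _))))
    constructor
    · refine le_trans ?_ hG
      show (perP V m n L drop).length ≤ _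
      unfold Gb
      omega
    · refine le_trans ?_ hG
      show (perP V m n L drop ++ (numProg (cT m n) ++ dotProg (cK m n) r j y)).length ≤ _
      rw [List.length_append, List.length_append]
      have h1 := l_num (cT m n)
      have h2 := l_dot (cK m n) r j y
      have h3 : cT m n = 4 * (cK m n * (cK m n * cK m n)) := rfl
      rw [h3] at h1 ⊢
      unfold Gb
      omega

end Pool.Agent.W920.FD
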