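import Pool.Agent.W920.FD.Stm

set_option autoImplicit false

/-!
# The minors are small integer forms of the monomials
-/

namespace Pool.Agent.W920.FD

open Pool.Agent.NPC Pool.Agent.H558R2 Pool.Agent.H622R3.SM Pool.Agent.W920.FC

namespace TMIN

/-- integer combinations of the numbers `w l` with coefficients of total size at most `c` -/
def Rep (N : ℕ) (w : ℕ → ℝ) (c : ℕ) (x : ℝ) : Prop :=
  ∃ y : ℕ → ℤ, ∑ l ∈ Finset.range N, (y l).natAbs ≤ c ∧
    x = ∑ l ∈ Finset.range N, (y l : ℝ) * w l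

variable {N : ℕ} {w : ℕ → ℝ}

theorem Rep.zero (c : ℕ) : Rep N w c 0 := ⟨fun _ => 0, by simp, by simp⟩

theorem Rep.add {c d : ℕ} {x x' : ℝ} (h : Rep N w c x) (h' : Rep N w d x') :
    Rep N w (c + d) (x + x') := by
  obtain ⟨y, h1, h2⟩ := h
  obtain ⟨y', h1', h2'⟩ := h'
  refine ⟨fun l => y l + y' l, ?_, ?_⟩
  · calc ∑ l ∈ Finset.range N, (y l + y' l).natAbs
        ≤ ∑ l ∈ Finset.range N, ((y l).natAbs + (y' l).natAbs) :=
          Finset.sum_le_sum fun l _ => Int.natAbs_add_le _ _
      _ = _ := Finset.sum_add_distrib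
      _ ≤ c + d := add_le_add h1 h1'
  · rw [h2, h2', ← Finset.sum_add_distrib]
    apply Finset.sum_congr rfl
    intro l _
    push_cast
    ring

theorem Rep.neg {c : ℕ} {x : ℝ} (h : Rep N w c x) : Rep N w c (-x) := by
  obtain ⟨y, h1, h2⟩ := h
  refine ⟨fun l => - y l, by simpa using h1, ?_⟩
  rw [h2, ← Finset.sum_neg_distrib]
  apply Finset.sum_congr rfl
  intro l _
  push_cast
  ring

theorem Rep.mono {c d : ℕ} (hcd : c ≤ d) {x : ℝ} (h : Rep N w c x) : Rep N w d x := by
  obtain ⟨y, h1, h2⟩ := h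
  exact ⟨y, h1.trans hcd, h2⟩

theorem Rep.sum {ι : Type} (C : ℕ) (S : Finset ι) (f : ι → ℝ) (h : ∀ i ∈ S, Rep N w C (f i)) :
    Rep N w (S.card * C) (∑ i ∈ S, f i) := by
  classical
  induction S using Finset.induction_on with
  | empty => simpa using Rep.zero 0
  | insert a S ha ih =>
    rw [Finset.sum_insert ha, Finset.card_insert_of_notMem ha, add_mul, one_mul, add_comm]
    rw [add_comm (f a)]
    rw [add_comm C]
    exact (ih fun i hi => h i (Finset.mem_insert_of_mem hi)).add
      (h a (Finset.mem_insert_self a S))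

theorem fact_le (m : ℕ) : m.factorial ≤ 2 ^ (m * m) := by
  calc m.factorial ≤ m ^ m := Nat.factorial_le_pow m
    _ ≤ (2 ^ m) ^ m := Nat.pow_le_pow_left Nat.lt_two_pow_self.le m
    _ = 2 ^ (m * m) := by rw [pow_mul]

theorem colform {m n : ℕ} (A : Matrix (Fin m) (Fin n) ℝ) (b : Fin m → ℝ)
    (o : Option (Fin (m + (n + n)))) (c : ℕ) (h : colN m n o = some c) :
    ∃ (hc : c < n) (s : ℝ), (s = 1 ∨ s = -1) ∧ ∀ r, wmat A b r o = s * A r ⟨c, hc⟩ := by
  rcases o with _ | p
  · simp [colN] at h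
  · obtain ⟨q, rfl⟩ := (colEquiv m n).surjective p
    have hw : ∀ r, wmat A b r (some (colEquiv m n q)) = colEntry A r q := by
      intro r
      show colEntry A r ((colEquiv m n).symm (colEquiv m n q)) = _
      rw [Equiv.symm_apply_apply]
    rcases q with r' | c' | c'
    · exfalso
      have hv : ((colEquiv m n (Sum.inl r') : Fin (m + (n + n))) : ℕ) = r' := by
        simp [colEquiv]
      simp [colN, hv] at h
    · have hv : ((colEquiv m n (Sum.inr (Sum.inl c')) : Fin (m + (n + n))) : ℕ) = m + c' := by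
        simp [colEquiv]
      have hc : (c' : ℕ) = c := by
        have h1 : ¬ (m + (c' : ℕ) < m) := by omega
        have h2 : m + (c' : ℕ) < m + n := by omega
        simp only [colN, Option.bind_some, hv, h1, h2, if_true, if_false] at h
        simpa using h
      subst hc
      refine ⟨c'.2, -1, Or.inr rfl, fun r => ?_⟩
      rw [hw]
      simp [colEntry]
    · have hv : ((colEquiv m n (Sum.inr (Sum.inr c')) : Fin (m + (n + n))) : ℕ) =
          m + (n + c') := by
        simp [colEquiv]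
        omega
      have hc : (c' : ℕ) = c := by
        have h1 : ¬ (m + (n + (c' : ℕ)) < m) := by omega
        have h2 : ¬ (m + (n + (c' : ℕ)) < m + n) := by omega
        simp only [colN, Option.bind_some, hv, h1, h2, if_false] at h
        have h3 : m + (n + (c' : ℕ)) - m - n = c := by simpa using h
        omega
      subst hc
      refine ⟨c'.2, 1, Or.inl rfl, fun r => ?_⟩
      rw [hw]
      simp [colEntry]

theorem dd_eq_zero {m n : ℕ} (A : Matrix (Fin m) (Fin n) ℝ) (b : Fin m → ℝ)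
    (β : Fin m → Option (Fin (m + (n + n)))) (i j : Fin m) (c : ℕ)
    (hi : colN m n (β i) = some c) (hj : colN m n (β j) = some c) (hij : i ≠ j) :
    dd (wmat A b) β = 0 := by
  obtain ⟨hc, s, hs, h1⟩ := colform A b (β i) c hi
  obtain ⟨_, s', hs', h2⟩ := colform A b (β j) c hj
  unfold dd
  rw [← Matrix.exists_mulVec_eq_zero_iff]
  refine ⟨Pi.single i s - Pi.single j s', ?_, ?_⟩
  · intro h0
    have h3 := congrFun h0 i
    simp only [Pi.sub_apply, Pi.single_eq_same, Pi.single_eq_of_ne hij, Pi.zero_apply,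
      sub_zero] at h3
    rcases hs with hs | hs <;> rw [hs] at h3 <;> norm_num at h3
  · rw [Matrix.mulVec_sub, Matrix.mulVec_single, Matrix.mulVec_single]
    ext r
    simp only [Pi.sub_apply, Pi.smul_apply, Matrix.col_apply, Matrix.of_apply, h1, h2,
      MulOpposite.smul_eq_mul_unop, MulOpposite.unop_op, Pi.zero_apply]
    rcases hs with hs | hs <;> rcases hs' with hs' | hs' <;> rw [hs, hs'] <;> ring

end TMIN

open TMIN

theorem t_MIN : S_MINP → S_MIN := by
  intro hP k m n A b x hm hx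
  classical
  refine ⟨(((∏ r ∈ Finset.range x.2.length, (x.2.getD r ([], 0)).2 : ℕ) : ℝ)) ^ m, ?_, ?_⟩
  · apply pow_pos
    rw [Nat.cast_pos]
    apply Finset.prod_pos
    intro r hr
    rw [Finset.mem_range] at hr
    have h1 : x.2.getD r ([], 0) ∈ x.2 := by
      rw [List.getD_eq_getElem _ _ hr]
      exact List.getElem_mem hr
    exact (hx.2.2.1.2 _ h1).2.1
  intro β hβ
  set c : ℝ := (((∏ r ∈ Finset.range x.2.length, (x.2.getD r ([], 0)).2 : ℕ) : ℝ)) ^ m with hcdef
  by_cases hcol : ∀ i j c, colN m n (β i) = some c → colN m n (β j) = some c → i = j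
  swap
  · push Not at hcol
    obtain ⟨i, j, c', hi, hj, hij⟩ := hcol
    rw [dd_eq_zero A b β i j c' hi hj hij, mul_zero]
    obtain ⟨y, h1, h2⟩ := Rep.zero (N := N1 k (m + n)) (w := w1 k m n (start A b) x)
      (2 ^ h1 k (m + n))
    exact ⟨y, h1, h2⟩
  have hterm : ∀ σ : Equiv.Perm (Fin m), Rep (N1 k (m + n)) (w1 k m n (start A b) x)
      (2 ^ (m * (k + P0 k (m + n) * (k * k + 1)))) (c * ∏ j, wmat A b (σ j) (β j)) := by
    intro σ
    obtain ⟨y, h1, h2⟩ := hP k m n A b x hm hx β hβ hcol σ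
    exact ⟨y, h1, h2⟩
  have hdet : Rep (N1 k (m + n)) (w1 k m n (start A b) x) (2 ^ h1 k (m + n))
      (c * dd (wmat A b) β) := by
    unfold dd
    rw [Matrix.det_apply, Finset.mul_sum]
    have h1 : Rep (N1 k (m + n)) (w1 k m n (start A b) x)
        ((Finset.univ : Finset (Equiv.Perm (Fin m))).card *
          2 ^ (m * (k + P0 k (m + n) * (k * k + 1))))
        (∑ σ : Equiv.Perm (Fin m), c * (Equiv.Perm.sign σ •
          ∏ i, (Matrix.of fun i j => wmat A b i (β j)) (σ i) i)) := by
      apply Rep.sum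
      intro σ _
      simp only [Matrix.of_apply]
      rcases Int.units_eq_one_or (Equiv.Perm.sign σ) with h2 | h2
      · rw [h2, one_smul]; exact hterm σ
      · rw [h2, Units.neg_smul, one_smul, mul_neg]; exact (hterm σ).neg
    refine h1.mono ?_
    rw [Finset.card_univ, Fintype.card_perm, Fintype.card_fin]
    calc m.factorial * 2 ^ (m * (k + P0 k (m + n) * (k * k + 1)))
        ≤ 2 ^ (m * m) * 2 ^ (m * (k + P0 k (m + n) * (k * k + 1))) :=
          Nat.mul_le_mul_right _ (fact_le m)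
      _ = 2 ^ (m * m + m * (k + P0 k (m + n) * (k * k + 1))) := by rw [pow_add]
      _ ≤ 2 ^ Pool.Agent.W920.FD.h1 k (m + n) := by
          apply Nat.pow_le_pow_right (by norm_num)
          unfold Pool.Agent.W920.FD.h1
          have h3 : m ≤ m + n := Nat.le_add_right _ _
          exact add_le_add (Nat.mul_le_mul h3 h3) (Nat.mul_le_mul_right _ h3)
  obtain ⟨y, h1, h2⟩ := hdet
  exact ⟨y, h1, h2⟩

end Pool.Agent.W920.FD
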