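import Pool.Agent.W920.FD.Stm

set_option autoImplicit false

/-!
# One product of the Leibniz formula of a minor (helper239)
-/

namespace Pool.Agent.W920.FD

open Pool.Agent.NPC Pool.Agent.H558R2 Pool.Agent.H622R3.SM Pool.Agent.W920.FC

namespace TMINP

/-- monomials -/
noncomputable def mvv (B : ℕ → ℝ) (F : ℕ → ℕ → ℝ) (K : ℕ) (e : ℕ → ℕ) : ℝ :=
  B (e 0) * ∏ t ∈ Finset.range K, F t (e (t + 1))

section
variable {B : ℕ → ℝ} {F : ℕ → ℕ → ℝ} {K : ℕ}

theorem mv_upd0 {e : ℕ → ℕ} (h : B (e 0) = 1) (d : ℕ) :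
    mvv B F K (Function.update e 0 d) = B d * mvv B F K e := by
  unfold mvv
  rw [Function.update_self, h, one_mul]
  refine congrArg _ (Finset.prod_congr rfl ?_)
  intro t _
  rw [Function.update_of_ne (Nat.succ_ne_zero t)]

theorem mv_upd {e : ℕ → ℕ} {t : ℕ} (ht : t < K) {d : ℕ} {z : ℝ}
    (h : F t d = z * F t (e (t + 1))) :
    mvv B F K (Function.update e (t + 1) d) = z * mvv B F K e := by
  unfold mvv
  rw [Function.update_of_ne (Nat.succ_ne_zero t).symm,
    ← Finset.mul_prod_erase _ _ (Finset.mem_range.2 ht),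
    ← Finset.mul_prod_erase (Finset.range K) (fun t => F t (e (t + 1))) (Finset.mem_range.2 ht)]
  have h2 : ∏ s ∈ (Finset.range K).erase t, F s (Function.update e (t + 1) d (s + 1)) =
      ∏ s ∈ (Finset.range K).erase t, F s (e (s + 1)) := by
    apply Finset.prod_congr rfl
    intro s hs
    have h3 : s + 1 ≠ t + 1 := fun h4 => Finset.ne_of_mem_erase hs (Nat.succ.inj h4)
    rw [Function.update_of_ne h3]
  rw [h2, Function.update_self, h]
  ring

/-- integer combinations of monomials whose exponents satisfy `Q`, the coefficients having total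
size at most `c` -/
def RepE (B : ℕ → ℝ) (F : ℕ → ℕ → ℝ) (K : ℕ) (Q : (ℕ → ℕ) → Prop) (c : ℕ) (x : ℝ) : Prop :=
  ∃ L : List (ℤ × (ℕ → ℕ)), (∀ p ∈ L, Q p.2) ∧ (L.map fun p => p.1.natAbs).sum ≤ c ∧
    x = (L.map fun p => (p.1 : ℝ) * mvv B F K p.2).sum

variable {Q Q' : (ℕ → ℕ) → Prop}

theorem RepE.zero (c : ℕ) : RepE B F K Q c 0 := ⟨[], by simp, by simp, by simp⟩

theorem RepE.single {e : ℕ → ℕ} (he : Q e) (a : ℤ) :
    RepE B F K Q a.natAbs (a * mvv B F K e) :=
  ⟨[(a, e)], by simpa using he, by simp, by simp⟩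

theorem RepE.mono {c d : ℕ} (hcd : c ≤ d) {x : ℝ} (h : RepE B F K Q c x) : RepE B F K Q d x := by
  obtain ⟨L, h1, h2, h3⟩ := h
  exact ⟨L, h1, h2.trans hcd, h3⟩

theorem RepE.add {c d : ℕ} {x y : ℝ} (h : RepE B F K Q c x) (h' : RepE B F K Q d y) :
    RepE B F K Q (c + d) (x + y) := by
  obtain ⟨L, h1, h2, h3⟩ := h
  obtain ⟨L', h1', h2', h3'⟩ := h'
  refine ⟨L ++ L', ?_, ?_, ?_⟩
  · intro p hp
    rcases List.mem_append.1 hp with hp | hp
    · exact h1 p hp
    · exact h1' p hp
  · rw [List.map_append, List.sum_append]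
    exact add_le_add h2 h2'
  · rw [List.map_append, List.sum_append, h3, h3']

theorem RepE.smul (a : ℤ) {c : ℕ} {x : ℝ} (h : RepE B F K Q c x) :
    RepE B F K Q (a.natAbs * c) (a * x) := by
  obtain ⟨L, h1, h2, h3⟩ := h
  refine ⟨L.map fun p => (a * p.1, p.2), ?_, ?_, ?_⟩
  · intro p hp
    obtain ⟨p', hp', rfl⟩ := List.mem_map.1 hp
    exact h1 p' hp'
  · rw [List.map_map]
    have : ((fun p : ℤ × (ℕ → ℕ) => p.1.natAbs) ∘ fun p => (a * p.1, p.2)) =
        fun p : ℤ × (ℕ → ℕ) => a.natAbs * p.1.natAbs := by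
      funext p; simp [Int.natAbs_mul]
    rw [this, List.sum_map_mul_left]
    exact Nat.mul_le_mul_left _ h2
  · rw [List.map_map, h3]
    have : ((fun p : ℤ × (ℕ → ℕ) => (p.1 : ℝ) * mvv B F K p.2) ∘ fun p => (a * p.1, p.2)) =
        fun p : ℤ × (ℕ → ℕ) => (a : ℝ) * ((p.1 : ℝ) * mvv B F K p.2) := by
      funext p
      simp only [Function.comp]
      push_cast
      ring
    rw [this, List.sum_map_mul_left]

theorem RepE.sum {c : ℕ} (ρ : ℕ) (f : ℕ → ℝ) (h : ∀ r < ρ, RepE B F K Q c (f r)) :
    RepE B F K Q (ρ * c) (∑ r ∈ Finset.range ρ, f r) := by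
  induction ρ with
  | zero => simpa using RepE.zero 0
  | succ ρ ih =>
    rw [Finset.sum_range_succ, Nat.succ_mul]
    exact (ih fun r hr => h r (hr.trans (Nat.lt_succ_self ρ))).add (h ρ (Nat.lt_succ_self ρ))

theorem RepE.bind {c c' : ℕ} {x z : ℝ}
    (h : ∀ e, Q e → RepE B F K Q' c' (z * mvv B F K e)) (hx : RepE B F K Q c x) :
    RepE B F K Q' (c * c') (z * x) := by
  obtain ⟨L, h1, h2, rfl⟩ := hx
  have key : ∀ L : List (ℤ × (ℕ → ℕ)), (∀ p ∈ L, Q p.2) →
      RepE B F K Q' ((L.map fun p => p.1.natAbs).sum * c')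
        (z * (L.map fun p => (p.1 : ℝ) * mvv B F K p.2).sum) := by
    intro L
    induction L with
    | nil => intro _; simpa using RepE.zero 0
    | cons p L ih =>
      intro hL
      rw [List.map_cons, List.map_cons, List.sum_cons, List.sum_cons, add_mul, mul_add]
      have h3 := (h p.2 (hL p List.mem_cons_self)).smul p.1
      rw [show (p.1 : ℝ) * (z * mvv B F K p.2) = z * ((p.1 : ℝ) * mvv B F K p.2) by ring] at h3
      exact h3.add (ih fun q hq => hL q (List.mem_cons_of_mem _ hq))
  exact (key L h1).mono (Nat.mul_le_mul_right _ h2)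

/-- integer combinations of the numbers `w l` with coefficients of total size at most `c` -/
def Rep (N : ℕ) (w : ℕ → ℝ) (c : ℕ) (x : ℝ) : Prop :=
  ∃ y : ℕ → ℤ, ∑ l ∈ Finset.range N, (y l).natAbs ≤ c ∧
    x = ∑ l ∈ Finset.range N, (y l : ℝ) * w l

variable {N : ℕ} {w : ℕ → ℝ}

theorem Rep.zero (c : ℕ) : Rep N w c 0 := ⟨fun _ => 0, by simp, by simp⟩

theorem Rep.add {c d : ℕ} {x x' : ℝ} (h : Rep N w c x) (h' : Rep N w d x') :
    Rep N w (c + d) (x + x') := by
  obtain ⟨y, h1, h2⟩ := h
  obtain ⟨y', h1', h2'⟩ := h'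
  refine ⟨fun l => y l + y' l, ?_, ?_⟩
  · calc ∑ l ∈ Finset.range N, (y l + y' l).natAbs
        ≤ ∑ l ∈ Finset.range N, ((y l).natAbs + (y' l).natAbs) :=
          Finset.sum_le_sum fun l _ => Int.natAbs_add_le _ _
      _ = _ := Finset.sum_add_distrib
      _ ≤ c + d := add_le_add h1 h1'
  · rw [h2, h2', ← Finset.sum_add_distrib]
    apply Finset.sum_congr rfl
    intro l _
    push_cast
    ring

theorem Rep.single {l : ℕ} (hl : l < N) (a : ℤ) : Rep N w a.natAbs (a * w l) := by
  refine ⟨fun i => if i = l then a else 0, ?_, ?_⟩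
  · rw [Finset.sum_eq_single l]
    · simp
    · intro i _ hi; simp [hi]
    · intro h; exact absurd (Finset.mem_range.mpr hl) h
  · rw [Finset.sum_eq_single l]
    · simp
    · intro i _ hi; simp [hi]
    · intro h; exact absurd (Finset.mem_range.mpr hl) h

theorem RepE.toRep {c : ℕ} {x : ℝ} (hQ : ∀ e, Q e → ∃ l < N, w l = mvv B F K e)
    (h : RepE B F K Q c x) : Rep N w c x := by
  obtain ⟨L, h1, h2, rfl⟩ := h
  have key : ∀ L : List (ℤ × (ℕ → ℕ)), (∀ p ∈ L, Q p.2) →
      Rep N w (L.map fun p => p.1.natAbs).sum (L.map fun p => (p.1 : ℝ) * mvv B F K p.2).sum := by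
    intro L
    induction L with
    | nil => intro _; simpa using Rep.zero 0
    | cons p L ih =>
      intro hL
      rw [List.map_cons, List.map_cons, List.sum_cons, List.sum_cons]
      obtain ⟨l, hl, hle⟩ := hQ p.2 (hL p List.mem_cons_self)
      rw [← hle]
      exact (Rep.single hl p.1).add (ih fun q hq => hL q (List.mem_cons_of_mem _ hq))
  obtain ⟨y, h3, h4⟩ := key L h1
  exact ⟨y, h3.trans h2, h4⟩

end

theorem colN_l {m n : ℕ} {p : Fin (m + (n + n))} {c : Fin n}
    (h : (colEquiv m n).symm p = Sum.inr (Sum.inl c)) : colN m n (some p) = some (c : ℕ) := by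
  have h1 : p = colEquiv m n (Sum.inr (Sum.inl c)) := by rw [← h, Equiv.apply_symm_apply]
  have h2 : (p : ℕ) = m + c := by
    rw [h1]
    simp [colEquiv]
  unfold colN
  rw [Option.bind_some, if_neg (by omega), if_pos (by omega), h2]
  congr 1
  omega

theorem colN_r {m n : ℕ} {p : Fin (m + (n + n))} {c : Fin n}
    (h : (colEquiv m n).symm p = Sum.inr (Sum.inr c)) : colN m n (some p) = some (c : ℕ) := by
  have h1 : p = colEquiv m n (Sum.inr (Sum.inr c)) := by rw [← h, Equiv.apply_symm_apply]
  have h2 : (p : ℕ) = m + (n + c) := by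
    rw [h1]
    simp [colEquiv]
    omega
  unfold colN
  rw [Option.bind_some, if_neg (by omega), if_neg (by omega), h2]
  congr 1
  omega

end TMINP

open TMINP

theorem t_MINP : S_W1 → S_MINP := by
  intro hW1 k m n A b x hm hG β hβ hcol σ
  classical
  obtain ⟨hl1, hl2, ⟨hρ, hrec⟩, v, hv, hA⟩ := hG
  set g := start A b with hg
  have hbase : Base g := ⟨rfl, rfl⟩
  obtain ⟨-, hW⟩ := hW1 k m n g x hbase
  set ρ := x.2.length with hρdef
  set P := P0 k (m + n) with hP
  set D : ℕ → ℕ := fun r => (x.2.getD r ([], 0)).2 with hD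
  set Dall : ℕ := ∏ r ∈ Finset.range ρ, D r with hDall
  have hD1 : ∀ r < ρ, 1 ≤ D r ∧ D r ≤ 2 ^ (P * k) := by
    intro r hr
    have h1 : x.2.getD r ([], 0) ∈ x.2 := by
      rw [List.getD_eq_getElem _ _ hr]
      exact List.getElem_mem hr
    exact (hrec _ h1).2
  have hDle : Dall ≤ 2 ^ (P * k * k) := by
    calc Dall ≤ ∏ r ∈ Finset.range ρ, 2 ^ (P * k) :=
          Finset.prod_le_prod' fun r hr => (hD1 r (Finset.mem_range.1 hr)).2
      _ = (2 ^ (P * k)) ^ ρ := by rw [Finset.prod_const, Finset.card_range]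
      _ ≤ (2 ^ (P * k)) ^ k := Nat.pow_le_pow_right (Nat.two_pow_pos _) hρ
      _ = 2 ^ (P * k * k) := by rw [← pow_mul]
  set B : ℕ → ℝ := fun d => g (breg d) with hB
  set F : ℕ → ℕ → ℝ := slotV k m n g x with hF
  set Kc : ℕ := 2 ^ (k + P * (k * k + 1)) with hKc
  have hKD : Dall ≤ Kc := by
    refine hDle.trans (Nat.pow_le_pow_right (by norm_num) ?_)
    nlinarith
  have hB0 : B 0 = 1 := rfl
  have hF0 : ∀ t, F t 0 = 1 := by
    intro t
    rw [hF]
    unfold slotV slotR
    by_cases h1 : t < 2 * k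
    · rw [if_pos h1]
      by_cases h2 : t < k
      · rw [if_pos h2, if_pos rfl]; rfl
      · rw [if_neg h2, if_pos h1, if_pos rfl]; rfl
    · rw [if_neg h1, pow_zero]
  -- the condition on exponents
  let Q : Finset (Fin m) → (ℕ → ℕ) → Prop := fun T e =>
    (e 0 ≠ 0 → ∃ j ∈ T, β j = none) ∧
    (∀ u < k, e (u + 1) ≠ 0 → ∃ j ∈ T, ((σ j : Fin m) : ℕ) = x.1.1.getD u 0) ∧
    (∀ u < k, e (k + u + 1) ≠ 0 → ∃ j ∈ T, colN m n (β j) = some (x.1.2.getD u 0)) ∧
    (∀ r < k, e (2 * k + r + 1) ≤ T.card) ∧ ∀ t, e t ≤ m + n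
  have hQmono : ∀ (T : Finset (Fin m)) (j : Fin m) (e : ℕ → ℕ), j ∉ T → Q T e →
      Q (insert j T) e := by
    rintro T j e hj ⟨h1, h2, h3, h4, h5⟩
    refine ⟨fun h => ?_, fun u hu h => ?_, fun u hu h => ?_, fun r hr => ?_, h5⟩
    · obtain ⟨j', hj', h⟩ := h1 h
      exact ⟨j', Finset.mem_insert_of_mem hj', h⟩
    · obtain ⟨j', hj', h⟩ := h2 u hu h
      exact ⟨j', Finset.mem_insert_of_mem hj', h⟩
    · obtain ⟨j', hj', h⟩ := h3 u hu h
      exact ⟨j', Finset.mem_insert_of_mem hj', h⟩
    · rw [Finset.card_insert_of_notMem hj]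
      exact (h4 r hr).trans (Nat.le_succ _)
  have hcardlt : ∀ (T : Finset (Fin m)) (j : Fin m), j ∉ T → T.card + 1 ≤ m := by
    intro T j hj
    rw [← Finset.card_insert_of_notMem hj]
    simpa using Finset.card_le_univ (insert j T)
  -- entries of `A`
  have hstep : ∀ (T : Finset (Fin m)) (j : Fin m) (e : ℕ → ℕ) (c : Fin n), j ∉ T → Q T e →
      colN m n (β j) = some (c : ℕ) →
      RepE B F (3 * k) (Q (insert j T)) Kc ((Dall : ℝ) * A (σ j) c * mvv B F (3 * k) e) := by
    intro T j e c hj hQ hc
    have hQ' := hQ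
    obtain ⟨h1, h2, h3, h4, h5⟩ := hQ
    have hgA : g [0, ((σ j : Fin m) : ℕ), (c : ℕ)] = A (σ j) c := by
      rw [hg]; simp [start]
    by_cases hi : ((σ j : Fin m) : ℕ) ∈ x.1.1
    · obtain ⟨u, hu, hue⟩ := List.mem_iff_getElem.1 hi
      have huk : u < k := by rw [← hl1]; exact hu
      have hge : x.1.1.getD u 0 = ((σ j : Fin m) : ℕ) := by
        rw [List.getD_eq_getElem _ _ hu]; exact hue
      have he0 : e (u + 1) = 0 := by
        by_contra hne
        obtain ⟨j', hj', h⟩ := h2 u huk hne
        rw [hge] at h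
        exact hj (σ.injective (Fin.ext h) ▸ hj')
      have hval : F u ((c : ℕ) + 1) = A (σ j) c * F u (e (u + 1)) := by
        rw [he0, hF0, mul_one, ← hgA, hF]
        unfold slotV slotR
        rw [if_pos (by omega), if_pos huk, if_neg (Nat.succ_ne_zero _), hge]
        rfl
      have hmv := mv_upd (B := B) (F := F) (K := 3 * k) (e := e) (t := u) (by omega) hval
      have h6 : (Dall : ℝ) * A (σ j) c * mvv B F (3 * k) e =
          ((Dall : ℤ) : ℝ) * mvv B F (3 * k) (Function.update e (u + 1) ((c : ℕ) + 1)) := by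
        rw [hmv]; push_cast; ring
      rw [h6]
      refine (RepE.single ?_ _).mono (by rw [Int.natAbs_natCast]; exact hKD)
      obtain ⟨g1, g2, g3, g4, g5⟩ := hQmono T j e hj hQ'
      refine ⟨?_, ?_, ?_, ?_, ?_⟩
      · rw [Function.update_of_ne (Nat.succ_ne_zero u).symm]; exact g1
      · intro u' hu' h
        by_cases huu : u' = u
        · subst huu
          exact ⟨j, Finset.mem_insert_self _ _, hge.symm⟩
        · rw [Function.update_of_ne (by omega)] at h
          exact g2 u' hu' h
      · intro u' hu' h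
        rw [Function.update_of_ne (by omega)] at h
        exact g3 u' hu' h
      · intro r hr
        rw [Function.update_of_ne (by omega)]
        exact g4 r hr
      · intro t
        by_cases htu : t = u + 1
        · rw [htu, Function.update_self]
          have := c.2
          omega
        · rw [Function.update_of_ne htu]; exact g5 t
    by_cases hj2 : (c : ℕ) ∈ x.1.2
    · obtain ⟨u, hu, hue⟩ := List.mem_iff_getElem.1 hj2
      have huk : u < k := by rw [← hl2]; exact hu
      have hge : x.1.2.getD u 0 = (c : ℕ) := by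
        rw [List.getD_eq_getElem _ _ hu]; exact hue
      have he0 : e (k + u + 1) = 0 := by
        by_contra hne
        obtain ⟨j', hj', h⟩ := h3 u huk hne
        rw [hge] at h
        exact hj (hcol j' j c h hc ▸ hj')
      have hval : F (k + u) (((σ j : Fin m) : ℕ) + 1) = A (σ j) c * F (k + u) (e (k + u + 1)) := by
        rw [he0, hF0, mul_one, ← hgA, hF]
        unfold slotV slotR
        rw [if_pos (by omega), if_neg (by omega), if_pos (by omega), if_neg (Nat.succ_ne_zero _),
          Nat.add_sub_cancel_left, hge]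
        rfl
      have hmv := mv_upd (B := B) (F := F) (K := 3 * k) (e := e) (t := k + u) (by omega) hval
      have h6 : (Dall : ℝ) * A (σ j) c * mvv B F (3 * k) e =
          ((Dall : ℤ) : ℝ) *
            mvv B F (3 * k) (Function.update e (k + u + 1) (((σ j : Fin m) : ℕ) + 1)) := by
        rw [hmv]; push_cast; ring
      rw [h6]
      refine (RepE.single ?_ _).mono (by rw [Int.natAbs_natCast]; exact hKD)
      obtain ⟨g1, g2, g3, g4, g5⟩ := hQmono T j e hj hQ'
      refine ⟨?_, ?_, ?_, ?_, ?_⟩
      · rw [Function.update_of_ne (Nat.succ_ne_zero _).symm]; exact g1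
      · intro u' hu' h
        rw [Function.update_of_ne (by omega)] at h
        exact g2 u' hu' h
      · intro u' hu' h
        by_cases huu : u' = u
        · subst huu
          exact ⟨j, Finset.mem_insert_self _ _, by rw [hc, hge]⟩
        · rw [Function.update_of_ne (by omega)] at h
          exact g3 u' hu' h
      · intro r hr
        rw [Function.update_of_ne (by omega)]
        exact g4 r hr
      · intro t
        by_cases htu : t = k + u + 1
        · rw [htu, Function.update_self]
          have := (σ j).2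
          omega
        · rw [Function.update_of_ne htu]; exact g5 t
    -- the general entry
    have hAe : A (σ j) c = ∑ r ∈ Finset.range ρ, scv m n g x r / (D r : ℝ) *
        (v r (σ j : Fin m) c : ℝ) := by
      rw [← hgA]
      exact hA _ (σ j).2 _ c.2 hi hj2
    have h7 : (Dall : ℝ) * A (σ j) c * mvv B F (3 * k) e = ∑ r ∈ Finset.range ρ,
        (((∏ r' ∈ (Finset.range ρ).erase r, D r' : ℕ) : ℤ) * v r (σ j : Fin m) c : ℤ) *
          mvv B F (3 * k) (Function.update e (2 * k + r + 1) (e (2 * k + r + 1) + 1)) := by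
      rw [hAe, Finset.mul_sum, Finset.sum_mul]
      apply Finset.sum_congr rfl
      intro r hr
      have hrρ := Finset.mem_range.1 hr
      have hDr : (D r : ℝ) ≠ 0 := by
        have := (hD1 r hrρ).1
        positivity
      have hE : (Dall : ℝ) = D r * ((∏ r' ∈ (Finset.range ρ).erase r, D r' : ℕ) : ℝ) := by
        rw [hDall, ← Finset.mul_prod_erase _ _ hr]
        push_cast
        ring
      have hval : F (2 * k + r) (e (2 * k + r + 1) + 1) =
          scv m n g x r * F (2 * k + r) (e (2 * k + r + 1)) := by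
        rw [hF]
        unfold slotV
        rw [if_neg (by omega), if_neg (by omega), Nat.add_sub_cancel_left, pow_succ]
        ring
      rw [mv_upd (B := B) (F := F) (K := 3 * k) (e := e) (t := 2 * k + r) (by omega) hval, hE]
      push_cast
      field_simp
    rw [h7]
    have h8 : RepE B F (3 * k) (Q (insert j T)) (ρ * (2 ^ (P * k * k) * 2 ^ P))
        (∑ r ∈ Finset.range ρ,
          (((∏ r' ∈ (Finset.range ρ).erase r, D r' : ℕ) : ℤ) * v r (σ j : Fin m) c : ℤ) *
          mvv B F (3 * k) (Function.update e (2 * k + r + 1) (e (2 * k + r + 1) + 1))) := by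
      apply RepE.sum
      intro r hrρ
      refine (RepE.single ?_ _).mono ?_
      · obtain ⟨g1, g2, g3, g4, g5⟩ := hQmono T j e hj hQ'
        refine ⟨?_, ?_, ?_, ?_, ?_⟩
        · rw [Function.update_of_ne (Nat.succ_ne_zero _).symm]; exact g1
        · intro u' hu' h
          rw [Function.update_of_ne (by omega)] at h
          exact g2 u' hu' h
        · intro u' hu' h
          rw [Function.update_of_ne (by omega)] at h
          exact g3 u' hu' h
        · intro r' hr'
          rw [Finset.card_insert_of_notMem hj]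
          by_cases hrr : r' = r
          · rw [hrr, Function.update_self]
            exact Nat.succ_le_succ (h4 r (by omega))
          · rw [Function.update_of_ne (by omega)]
            exact (h4 r' hr').trans (Nat.le_succ _)
        · intro t
          by_cases htu : t = 2 * k + r + 1
          · rw [htu, Function.update_self]
            have h9 := h4 r (by omega)
            have h10 := hcardlt T j hj
            omega
          · rw [Function.update_of_ne htu]; exact g5 t
      · rw [Int.natAbs_mul, Int.natAbs_natCast]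
        refine Nat.mul_le_mul ?_ (hv r (by omega) _ (σ j).2 _ c.2)
        refine le_trans ?_ hDle
        rw [hDall, ← Finset.mul_prod_erase _ _ (Finset.mem_range.2 hrρ)]
        exact Nat.le_mul_of_pos_left _ (hD1 r hrρ).1
    refine h8.mono ?_
    rw [hKc, pow_add 2 k, ← pow_add]
    refine Nat.mul_le_mul (hρ.trans (Nat.lt_two_pow_self).le) (le_of_eq ?_)
    congr 1
    ring
  -- one factor
  have hfac : ∀ (T : Finset (Fin m)) (j : Fin m) (e : ℕ → ℕ), j ∉ T → Q T e →
      RepE B F (3 * k) (Q (insert j T)) Kc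
        ((Dall : ℝ) * wmat A b (σ j) (β j) * mvv B F (3 * k) e) := by
    intro T j e hj hQ
    rcases hbj : β j with _ | p
    · have hw : wmat A b (σ j) none = - b (σ j) := rfl
      have he0 : e 0 = 0 := by
        by_contra hne
        obtain ⟨j', hj', h⟩ := hQ.1 hne
        exact hj (hβ j' j h hbj ▸ hj')
      have hBv : B (((σ j : Fin m) : ℕ) + 1) = b (σ j) := by
        rw [hB, hg]; simp [breg, start]
      have hmv := mv_upd0 (B := B) (F := F) (K := 3 * k) (e := e) (by rw [he0, hB0])
        (((σ j : Fin m) : ℕ) + 1)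
      have h6 : (Dall : ℝ) * wmat A b (σ j) none * mvv B F (3 * k) e =
          ((-(Dall : ℤ) : ℤ) : ℝ) *
            mvv B F (3 * k) (Function.update e 0 (((σ j : Fin m) : ℕ) + 1)) := by
        rw [hmv, hw, hBv]; push_cast; ring
      rw [h6]
      refine (RepE.single ?_ _).mono (by rw [Int.natAbs_neg, Int.natAbs_natCast]; exact hKD)
      obtain ⟨g1, g2, g3, g4, g5⟩ := hQmono T j e hj hQ
      refine ⟨fun _ => ⟨j, Finset.mem_insert_self _ _, hbj⟩, ?_, ?_, ?_, ?_⟩
      · intro u' hu' h
        rw [Function.update_of_ne (by omega)] at h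
        exact g2 u' hu' h
      · intro u' hu' h
        rw [Function.update_of_ne (by omega)] at h
        exact g3 u' hu' h
      · intro r hr
        rw [Function.update_of_ne (by omega)]
        exact g4 r hr
      · intro t
        by_cases htu : t = 0
        · rw [htu, Function.update_self]
          have := (σ j).2
          omega
        · rw [Function.update_of_ne htu]; exact g5 t
    · have hw : wmat A b (σ j) (some p) = colEntry A (σ j) ((colEquiv m n).symm p) := rfl
      rw [hw]
      rcases hcp : (colEquiv m n).symm p with r' | c | c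
      · by_cases hir : σ j = r'
        · have h6 : (Dall : ℝ) * colEntry A (σ j) (Sum.inl r') * mvv B F (3 * k) e =
              ((Dall : ℤ) : ℝ) * mvv B F (3 * k) e := by
            simp [colEntry, hir]
          rw [h6]
          exact (RepE.single (hQmono T j e hj hQ) _).mono
            (by rw [Int.natAbs_natCast]; exact hKD)
        · have h6 : (Dall : ℝ) * colEntry A (σ j) (Sum.inl r') * mvv B F (3 * k) e = 0 := by
            simp [colEntry, hir]
          rw [h6]
          exact RepE.zero _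
      · have h6 : (Dall : ℝ) * colEntry A (σ j) (Sum.inr (Sum.inl c)) * mvv B F (3 * k) e =
            ((-1 : ℤ) : ℝ) * ((Dall : ℝ) * A (σ j) c * mvv B F (3 * k) e) := by
          simp [colEntry]
        rw [h6]
        have h7 := (hstep T j e c hj hQ (by rw [hbj]; exact colN_l hcp)).smul (-1)
        simpa using h7
      · have h6 : (Dall : ℝ) * colEntry A (σ j) (Sum.inr (Sum.inr c)) * mvv B F (3 * k) e =
            (Dall : ℝ) * A (σ j) c * mvv B F (3 * k) e := by
          simp [colEntry]
        rw [h6]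
        exact hstep T j e c hj hQ (by rw [hbj]; exact colN_r hcp)
  -- all products
  have hall : ∀ T : Finset (Fin m), RepE B F (3 * k) (Q T) (Kc ^ T.card)
      ((Dall : ℝ) ^ T.card * ∏ j ∈ T, wmat A b (σ j) (β j)) := by
    intro T
    induction T using Finset.induction_on with
    | empty =>
      have h1 : mvv B F (3 * k) (fun _ => 0) = 1 := by
        unfold mvv
        rw [hB0, one_mul]
        exact Finset.prod_eq_one fun t _ => hF0 t
      have h2 : RepE B F (3 * k) (Q ∅) ((1 : ℤ).natAbs) (((1 : ℤ) : ℝ) * mvv B F (3 * k) (fun _ => 0)) :=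
        RepE.single ⟨fun h => absurd rfl h, fun _ _ h => absurd rfl h, fun _ _ h => absurd rfl h,
          fun _ _ => Nat.zero_le _, fun _ => Nat.zero_le _⟩ 1
      rw [h1] at h2
      simpa using h2
    | insert j T hj ih =>
      have h2 := RepE.bind (Q' := Q (insert j T)) (c' := Kc)
        (z := (Dall : ℝ) * wmat A b (σ j) (β j)) (fun e he => hfac T j e hj he) ih
      rw [Finset.card_insert_of_notMem hj, Finset.prod_insert hj, pow_succ, pow_succ]
      have h3 : (Dall : ℝ) ^ T.card * Dall * (wmat A b (σ j) (β j) *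
          ∏ j ∈ T, wmat A b (σ j) (β j)) = (Dall : ℝ) * wmat A b (σ j) (β j) *
          ((Dall : ℝ) ^ T.card * ∏ j ∈ T, wmat A b (σ j) (β j)) := by ring
      rw [h3]
      exact h2
  -- the end
  have hend := RepE.toRep (N := N1 k (m + n)) (w := w1 k m n g x) (fun e he => by
    obtain ⟨l, hl, hle⟩ := hW ((List.range (3 * k + 1)).map e) (by simp) (by
      intro d hd
      obtain ⟨t, -, rfl⟩ := List.mem_map.1 hd
      exact he.2.2.2.2 t)
    refine ⟨l, hl, ?_⟩
    rw [hle, mon1, mvv]
    congr 1
    · simp [hB]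
    · apply Finset.prod_congr rfl
      intro t ht
      rw [Finset.mem_range] at ht
      rw [hF]
      congr 1
      simp [ht]) (hall Finset.univ)
  obtain ⟨y, hy1, hy2⟩ := hend
  refine ⟨y, ?_, ?_⟩
  · refine hy1.trans (le_of_eq ?_)
    rw [Finset.card_univ, Fintype.card_fin, hKc, ← pow_mul, mul_comm]
  · rw [← hy2, Finset.card_univ, Fintype.card_fin]

end Pool.Agent.W920.FD
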