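import Pool.Agent.W920.FD.Stm

set_option autoImplicit false

/-!
# Linear feasibility for matrices whose entries are small combinations of few reals: phase 1
-/

namespace Pool.Agent.W920.FD

open Pool.Agent.NPC Pool.Agent.H558R2 Pool.Agent.H622R3.SM Pool.Agent.W920.FC

namespace TP1

theorem QB_mono {β β' : ℕ} {v : ℝ} (h : β ≤ β') (hv : QB β v) : QB β' v := by
  obtain ⟨E, z, h1, h2, h3, h4⟩ := hv
  have hp : (2 : ℕ) ^ β ≤ 2 ^ β' := Nat.pow_le_pow_right (by norm_num) h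
  exact ⟨E, z, h1, h2.trans hp, h3.trans hp, h4⟩

theorem Gd_mono {p q : Polynomial ℕ} {S : ℕ} {g : Reg → ℝ} {v : ℝ}
    (h : ∀ x, p.eval x ≤ q.eval x) (hv : Gd p S g v) : Gd q S g v :=
  fun lam hl => QB_mono (h _) (hv lam hl)

theorem mem_exps (m : ℕ) : ∀ (e : List ℕ), (∀ d ∈ e, d ≤ m) → e ∈ exps m e.length
  | [], _ => by
    show [] ∈ [[]]
    exact List.mem_singleton.2 rfl
  | d :: e, h => by
    show d :: e ∈ (List.range (m + 1)).flatMap fun d => (exps m e.length).map fun e => d :: e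
    rw [List.mem_flatMap]
    refine ⟨d, List.mem_range.2 ?_, List.mem_map.2 ⟨e, mem_exps m e fun x hx => h x ?_, rfl⟩⟩
    · exact Nat.lt_succ_of_le (h d List.mem_cons_self)
    · exact List.mem_cons_of_mem _ hx

/-- the list of the elements of `R`, padded with `m` -/
theorem pad (k m : ℕ) (R : Finset (Fin m)) (hR : R.card ≤ k) :
    ∃ L ∈ exps m k, ∀ i : Fin m, i ∈ R → (i : ℕ) ∈ L := by
  refine ⟨R.toList.map (fun i : Fin m => (i : ℕ)) ++ List.replicate (k - R.card) m, ?_, fun i hi => ?_⟩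
  · have h1 : (R.toList.map (fun i : Fin m => (i : ℕ)) ++ List.replicate (k - R.card) m).length = k := by
      rw [List.length_append, List.length_map, Finset.length_toList, List.length_replicate]
      omega
    have h2 := mem_exps m (R.toList.map (fun i : Fin m => (i : ℕ)) ++ List.replicate (k - R.card) m) (by
      intro d hd
      rw [List.mem_append, List.mem_map, List.mem_replicate] at hd
      rcases hd with ⟨i, _, rfl⟩ | ⟨_, rfl⟩
      · exact i.isLt.le
      · exact le_rfl)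
    rwa [h1] at h2
  · rw [List.mem_append, List.mem_map]
    exact Or.inl ⟨i, Finset.mem_toList.2 hi, rfl⟩

theorem mem_cands {k m n : ℕ} {R C : List ℕ} (hR : R ∈ exps m k) (hC : C ∈ exps n k) :
    ∃ i < (cands k m n).length, (cands k m n).getD i ([], []) = (R, C) := by
  have h : (R, C) ∈ cands k m n := by
    unfold cands
    rw [List.mem_flatMap]
    exact ⟨R, hR, List.mem_map.2 ⟨C, hC, rfl⟩⟩
  obtain ⟨i, hi, he⟩ := List.mem_iff_getElem.1 h
  exact ⟨i, hi, by rw [List.getD_eq_getElem _ _ hi, he]⟩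

end TP1

open TP1 in
/-- Phase 1 -/
theorem t_P1 : ∀ k, S_BND → S_ITER → S_MONO → S_TRY k → S_PB k → S_P1 k := by
  intro k hBND hITER hMONO hTRY hPB
  obtain ⟨q, hq⟩ := hTRY
  obtain ⟨qB, hqB⟩ := hPB
  refine ⟨q + qB * q, fun m n A b hA => ?_⟩
  classical
  choose! nx hnx1 hnx2 hnx3 hnx4 hnx5 using
    fun (st : ℕ × List (Cand × List (List ℤ × ℕ))) (h1 : st.1 < (cands k m n).length)
      (h2 : ∀ x ∈ st.2, GoodC k m n (start A b) x) => hq m n A b st h1 h2
  obtain ⟨s, hs0, hs⟩ : ∃ s : ℕ → ℕ × List (Cand × List (List ℤ × ℕ)), s 0 = (0, []) ∧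
      ∀ i, s (i + 1) = nx (s i) :=
    ⟨fun i => Nat.rec (0, []) (fun _ x => nx x) i, rfl, fun _ => rfl⟩
  have hI : ∀ i, i ≤ (cands k m n).length →
      (s i).1 = i ∧ ∀ x ∈ (s i).2, GoodC k m n (start A b) x := by
    intro i
    induction i with
    | zero =>
      intro _
      rw [hs0]
      exact ⟨rfl, fun x hx => absurd hx List.not_mem_nil⟩
    | succ i ih =>
      intro hi
      obtain ⟨h1, h2⟩ := ih (by omega)
      rw [hs]
      exact ⟨by rw [hnx2 (s i) (by omega) h2, h1], hnx3 (s i) (by omega) h2⟩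
  have hR := hITER _ (start A b) (Gd q (m + n) (start A b)) (tryC k m n (E0 k (m + n))) s
    (cands k m n).length (q.eval (m + n)) (fun i hi => by
      rw [hs]
      exact hnx1 (s i) (by rw [(hI i hi.le).1]; exact hi) (hI i hi.le).2)
  rw [hs0] at hR
  have hR2 := hBND _ (List (Cand × List (List ℤ × ℕ))) (start A b) (Gd q (m + n) (start A b)) _
    (fun st => ret st.2) _ (s (cands k m n).length).2 _ 0 hR (Runs.done _ _ 0 fun _ => rfl)
  refine ⟨(s (cands k m n).length).2, ?_, ?_⟩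
  · refine hMONO _ (start A b) _ _ _ _ _ _ (fun v hv => Gd_mono (fun x => ?_) hv) ?_ hR2
    · rw [Polynomial.eval_add]
      exact Nat.le_add_right _ _
    · rw [Polynomial.eval_add, Polynomial.eval_mul]
      have h1 := Nat.mul_le_mul_right (q.eval (m + n)) (hqB m n).2.2.2.2.2.2.2.2.2.2.1
      omega
  -- the right choice
  obtain ⟨R, C, θ, M, hRc, hCc, hM, hAM⟩ := hA
  obtain ⟨Rl, hRl, hRl2⟩ := pad k m R hRc
  obtain ⟨Cl, hCl, hCl2⟩ := pad k n C hCc
  obtain ⟨i0, hi0, he⟩ := mem_cands hRl hCl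
  have hne0 : (s (i0 + 1)).2 ≠ [] := by
    rw [hs]
    have h1 : (s i0).1 = i0 := (hI i0 hi0.le).1
    apply hnx5 (s i0) (by rw [h1]; exact hi0) (hI i0 hi0.le).2
    rw [h1, he]
    refine ⟨fun r => if h : r < k then θ ⟨r, h⟩ else 0, fun r i j =>
      if h : r < k ∧ i < m ∧ j < n then M ⟨r, h.1⟩ ⟨i, h.2.1⟩ ⟨j, h.2.2⟩ else 0, ?_, ?_⟩
    · intro r hr i hi j hj
      beta_reduce
      rw [dif_pos (⟨hr, hi, hj⟩ : r < k ∧ i < m ∧ j < n)]
      have h2 := hM ⟨r, hr⟩ ⟨i, hi⟩ ⟨j, hj⟩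
      rw [Int.abs_eq_natAbs] at h2
      exact_mod_cast h2
    · intro i hi j hj hiR hjC
      have e1 : start A b [0, i, j] = A ⟨i, hi⟩ ⟨j, hj⟩ := by
        show (if h : i < m ∧ j < n then A ⟨i, h.1⟩ ⟨j, h.2⟩ else 0) = _
        rw [dif_pos ⟨hi, hj⟩]
      rw [e1, hAM ⟨i, hi⟩ (fun h => hiR (hRl2 _ h)) ⟨j, hj⟩ (fun h => hjC (hCl2 _ h)),
        Finset.sum_range]
      refine Finset.sum_congr rfl fun r _ => ?_
      beta_reduce
      rw [dif_pos r.isLt, dif_pos (⟨r.isLt, hi, hj⟩ : (r : ℕ) < k ∧ i < m ∧ j < n)]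
  have hne : ∀ i, i0 + 1 ≤ i → i ≤ (cands k m n).length → (s i).2 ≠ [] := by
    intro i hi
    induction i, hi using Nat.le_induction with
    | base => exact fun _ => hne0
    | succ i hi ih =>
      intro hi2
      rw [hs]
      exact hnx4 (s i) (by rw [(hI i (by omega)).1]; omega) (hI i (by omega)).2 (ih (by omega))
  have hfin := hne _ hi0 le_rfl
  obtain ⟨x, t, hxt⟩ := List.exists_cons_of_ne_nil hfin
  have hx : x ∈ (s (cands k m n).length).2 := by
    rw [hxt]
    exact List.mem_cons_self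
  have h9 := (hI _ le_rfl).2 x hx
  rw [hxt]
  exact h9

end Pool.Agent.W920.FD
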