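import Pool.Agent.W920.FD.Stm

set_option autoImplicit false

/-!
# FD-P4: phase 4
-/

namespace Pool.Agent.W920.FD

open Pool.Agent.NPC Pool.Agent.H558R2 Pool.Agent.H622R3.SM Pool.Agent.W920.FC

namespace TP4

/-- The result of the perceptron algorithm in a round. -/
noncomputable def tt (N m n : ℕ) (g : Reg → ℝ) (w : ℕ → ℝ)
    (Lad : List (List ℤ × List ℤ)) (s : List ℕ × Bool) : List ℕ × Bool :=
  perSt m n (GMat m n g (Wt N m n w Lad s.1) (drops m n Lad s.1))
    (drops m n Lad s.1) s.2 (cT m n)

/-- The states at the beginnings of the rounds. -/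
noncomputable def st (N m n : ℕ) (g : Reg → ℝ) (w : ℕ → ℝ)
    (Lad : List (List ℤ × List ℤ)) : ℕ → List ℕ × Bool
  | 0 => ((List.range (m + (n + n))).map fun _ => 0, false)
  | i + 1 => (nextIdx m n (st N m n g w Lad i).1 (tt N m n g w Lad
      (st N m n g w Lad i)).1, (tt N m n g w Lad (st N m n g w Lad i)).2)

theorem QB_mono {β β' : ℕ} (h : β ≤ β') {v : ℝ} (hv : QB β v) : QB β' v := by
  obtain ⟨E, z, h1, h2, h3, h4⟩ := hv
  have h5 : 2 ^ β ≤ 2 ^ β' := Nat.pow_le_pow_right (by norm_num) h
  exact ⟨E, z, h1, h2.trans h5, h3.trans h5, h4⟩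

end TP4

open TP4

theorem t_P4 : S_BND → S_ITER → S_MONO → S_RD → S_NX → S_I0 → S_P4 := by
  intro hB hI hM hR hN h0 qV pB
  obtain ⟨q1, hq1⟩ := hR qV pB
  refine ⟨q1 + pB * q1, ?_⟩
  intro m n g V w h Z B R Lad hg hV hw0 hG hBB hRe hRB
  set N := V.2.length with hNdef
  have hN1 : 1 ≤ N := hV.2.2.2.2.2.1
  obtain ⟨i1, i2, i3⟩ := h0 N h Z B m n g w Lad hG
  -- validity of the indices
  have hidx : ∀ i, IdxOK m n Lad (TP4.st N m n g w Lad i).1 := by
    intro i
    induction i with
    | zero => exact i1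
    | succ i ih =>
      exact (hN N h Z B m n g w Lad _ _ _ hN1 hw0 hG ih rfl).1
  have hnx := fun i => hN N h Z B m n g w Lad (TP4.st N m n g w Lad i).1
    (TP4.st N m n g w Lad i).2 (TP4.tt N m n g w Lad (TP4.st N m n g w Lad i)) hN1 hw0 hG
    (hidx i) rfl
  refine ⟨(TP4.st N m n g w Lad R).2, ?_, ?_, ?_⟩
  · -- the run
    have hround : ∀ i < R, Runs g (Gd q1 (m + n) g)
        (round V m n Lad (TP4.st N m n g w Lad i)) (TP4.st N m n g w Lad (i + 1))
        (q1.eval (m + n)) := by
      intro i _
      exact hq1 m n g V w h Z B Lad _ _ hg hV hw0 hG hBB (hidx i)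
    have hit := hI (List ℕ × Bool) g (Gd q1 (m + n) g) (round V m n Lad)
      (TP4.st N m n g w Lad) R (q1.eval (m + n)) hround
    have hret : Runs g (Gd q1 (m + n) g) (ret (TP4.st N m n g w Lad R).2)
        (TP4.st N m n g w Lad R).2 0 := Runs.done _ _ _ fun h => rfl
    have hb := hB _ _ g (Gd q1 (m + n) g) _ (fun s : List ℕ × Bool => ret s.2) _ _ _ _ hit hret
    refine hM _ g _ _ _ _ _ _ ?_ ?_ hb
    · intro v hv lam hlam
      refine TP4.QB_mono ?_ (hv lam hlam)
      rw [Polynomial.eval_add]
      exact Nat.le_add_right _ _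
    · rw [Polynomial.eval_add, Polynomial.eval_mul, Nat.add_zero]
      have h1 : R * q1.eval (m + n) ≤ pB.eval (m + n) * q1.eval (m + n) :=
        Nat.mul_le_mul_right _ hRB
      omega
  · -- correctness
    clear hRe hRB
    induction R with
    | zero =>
      intro h
      exact absurd h (by simp [TP4.st])
    | succ i ih =>
      intro h
      by_cases hb : (TP4.st N m n g w Lad i).2 = true
      · exact ih hb
      · exact (hnx i).2.2.1 (by simpa using hb) h
  · rintro ⟨x, hx⟩
    by_contra hne
    have hfalse : ∀ j, j ≤ R → (TP4.st N m n g w Lad (R - j)).2 = false := by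
      intro j
      induction j with
      | zero => intro _; simpa using hne
      | succ j ih =>
        intro hj
        have h1 := ih (by omega)
        by_contra h2
        have h3 : (TP4.st N m n g w Lad (R - (j + 1))).2 = true := by simpa using h2
        have h4 := (hnx (R - (j + 1))).2.1 h3
        have h5 : R - (j + 1) + 1 = R - j := by omega
        have h6 : (TP4.st N m n g w Lad (R - (j + 1) + 1)).2 = true := h4
        rw [h5, h1] at h6
        exact absurd h6 (by simp)
    have hfalse' : ∀ i, i ≤ R → (TP4.st N m n g w Lad i).2 = false := by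
      intro i hi
      have := hfalse (R - i) (by omega)
      rwa [Nat.sub_sub_self hi] at this
    have hinv : ∀ i, i ≤ R → InvX N m n w Lad (TP4.st N m n g w Lad i).1 x ∧
        (TP4.st N m n g w Lad i).1.sum = i := by
      intro i
      induction i with
      | zero =>
        intro _
        refine ⟨i2 x hx, ?_⟩
        simp [TP4.st]
      | succ i ih =>
        intro hi
        obtain ⟨h1, h2⟩ := ih (by omega)
        obtain ⟨h3, h4⟩ := (hnx i).2.2.2 (hfalse' i (by omega)) (hfalse' (i + 1) hi) x hx h1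
        refine ⟨h3, ?_⟩
        have h5 : (TP4.st N m n g w Lad (i + 1)).1.sum = (TP4.st N m n g w Lad i).1.sum + 1 := h4
        rw [h5, h2]
    have h1 := (hinv R le_rfl).2
    have h2 := i3 _ (hidx R)
    rw [h1] at h2
    have h3 : (m + (n + n)) * Lad.length ≤ cK m n * Z :=
      Nat.mul_le_mul (by unfold cK; omega) hG.1
    omega

end Pool.Agent.W920.FD
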