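import Pool.Agent.W920.FD.Stm

set_option autoImplicit false

namespace Pool.Agent.W920.FD

open Pool.Agent.NPC Pool.Agent.H558R2 Pool.Agent.H622R3.SM Pool.Agent.W920.FC

namespace TPB

/-- bounded by a polynomial -/
def PB (f : ℕ → ℕ → ℕ) : Prop := ∃ q : Polynomial ℕ, ∀ m n, f m n ≤ q.eval (m + n)

lemma pb_const (c : ℕ) : PB fun _ _ => c := ⟨Polynomial.C c, fun m n => by simp⟩

lemma pb_add {f g : ℕ → ℕ → ℕ} (hf : PB f) (hg : PB g) : PB fun m n => f m n + g m n := by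
  obtain ⟨p, hp⟩ := hf
  obtain ⟨q, hq⟩ := hg
  exact ⟨p + q, fun m n => by rw [Polynomial.eval_add]; exact Nat.add_le_add (hp m n) (hq m n)⟩

lemma pb_mul {f g : ℕ → ℕ → ℕ} (hf : PB f) (hg : PB g) : PB fun m n => f m n * g m n := by
  obtain ⟨p, hp⟩ := hf
  obtain ⟨q, hq⟩ := hg
  exact ⟨p * q, fun m n => by rw [Polynomial.eval_mul]; exact Nat.mul_le_mul (hp m n) (hq m n)⟩

lemma pb_m : PB fun m _ => m := ⟨Polynomial.X, fun m n => by simp⟩

lemma pb_n : PB fun _ n => n := ⟨Polynomial.X, fun m n => by simp⟩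

lemma pb_s : PB fun m n => m + n := pb_add pb_m pb_n

lemma pb_pow {f : ℕ → ℕ → ℕ} (hf : PB f) (k : ℕ) : PB fun m n => f m n ^ k := by
  induction k with
  | zero => simpa using pb_const 1
  | succ k ih =>
    have := pb_mul ih hf
    simpa [pow_succ] using this

lemma pb_h0 (k : ℕ) : PB fun m n => h0 k (m + n) :=
  pb_add (pb_mul (pb_const k) (pb_pow pb_s k)) (pb_const _)

lemma pb_E0 (k : ℕ) : PB fun m n => E0 k (m + n) :=
  pb_add (pb_add (pb_h0 k) (pb_mul (pb_const 2) (pb_add (pb_mul pb_s pb_s) (pb_const 1))))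
    (pb_const 4)

lemma pb_P0 (k : ℕ) : PB fun m n => P0 k (m + n) :=
  pb_mul (pb_add (pb_mul pb_s pb_s) (pb_const 2)) (pb_E0 k)

lemma pb_h1 (k : ℕ) : PB fun m n => h1 k (m + n) :=
  pb_add (pb_mul pb_s pb_s) (pb_mul pb_s (pb_add (pb_const k) (pb_mul (pb_P0 k) (pb_const _))))

lemma pb_N1 (k : ℕ) : PB fun m n => N1 k (m + n) :=
  pb_pow (pb_add pb_s (pb_const 1)) (3 * k + 1)

lemma pb_E1 (k : ℕ) : PB fun m n => E1 k (m + n) :=
  pb_add (pb_add (pb_h1 k) (pb_mul (pb_const 2) (pb_N1 k))) (pb_const 4)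

lemma pb_P1 (k : ℕ) : PB fun m n => P1 k (m + n) :=
  pb_mul (pb_add (pb_N1 k) (pb_const 1)) (pb_E1 k)

lemma pb_Q1 (k : ℕ) : PB fun m n => Q1 k (m + n) :=
  pb_add (pb_add (pb_h1 k) (pb_P1 k)) (pb_const 3)

lemma pb_Z1 (k : ℕ) : PB fun m n => Z1 k (m + n) :=
  pb_mul (pb_N1 k) (pb_mul (pb_N1 k) (pb_add (pb_mul (pb_const 2) (pb_Q1 k)) (pb_const 1)))

lemma pb_K : PB fun m n => cK m n := pb_add (pb_add pb_m (pb_add pb_n pb_n)) (pb_const 1)

lemma pb_T : PB fun m n => cT m n := pb_mul (pb_const 4) (pb_mul pb_K (pb_mul pb_K pb_K))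

lemma pb_R1 (k : ℕ) : PB fun m n => R1 k m n := pb_add (pb_mul pb_K (pb_Z1 k)) (pb_const 1)

lemma exps_length (s : ℕ) : ∀ j : ℕ, (exps s j).length = (s + 1) ^ j
  | 0 => rfl
  | j + 1 => by
    unfold exps
    rw [List.length_flatMap]
    simp only [List.length_map, exps_length s j, List.map_const', List.length_range,
      List.sum_replicate, smul_eq_mul]
    ring

lemma cands_length (k m n : ℕ) : (cands k m n).length = (m + 1) ^ k * (n + 1) ^ k := by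
  unfold cands
  rw [List.length_flatMap]
  simp only [List.length_map, exps_length, List.map_const', List.sum_replicate, smul_eq_mul]

lemma pb_c (k : ℕ) : PB fun m n => (cands k m n).length := by
  have h := pb_mul (pb_pow (pb_add pb_m (pb_const 1)) k) (pb_pow (pb_add pb_n (pb_const 1)) k)
  obtain ⟨q, hq⟩ := h
  exact ⟨q, fun m n => (cands_length k m n).le.trans (hq m n)⟩

end TPB

open TPB

theorem t_PB : ∀ k, S_PB k := by
  intro k
  obtain ⟨q, hq⟩ := pb_add (pb_E0 k) (pb_add (pb_P0 k) (pb_add (pb_h1 k) (pb_add (pb_N1 k)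
    (pb_add (pb_E1 k) (pb_add (pb_P1 k) (pb_add (pb_Q1 k) (pb_add (pb_Z1 k) (pb_add (pb_R1 k)
      (pb_add (pb_mul (pb_add (pb_P1 k) (pb_const 1)) (pb_N1 k)) (pb_add (pb_c k)
        (pb_add (pb_mul (pb_add (pb_P0 k) (pb_const 1)) (pb_const k)) (pb_add pb_K
          (pb_add pb_T (pb_add pb_s (pb_const k)))))))))))))))
  refine ⟨q, fun m n => ?_⟩
  have h := hq m n
  simp only at h
  refine ⟨?_, ?_, ?_, ?_, ?_, ?_, ?_, ?_, ?_, ?_, ?_, ?_, ?_, ?_, ?_, ?_⟩ <;> omega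

end Pool.Agent.W920.FD
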