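import Pool.Agent.W920.FD.Stm

set_option autoImplicit false

/-!
# Phase 1 in polynomial time
-/

namespace Pool.Agent.W920.FD

open Pool.Agent.NPC Pool.Agent.H558R2 Pool.Agent.H622R3.SM Pool.Agent.W920.FC

namespace TQ1

/-- The states. -/
abbrev ST : Type := ℕ × List (Cand × List (List ℤ × ℕ))

theorem sz_int (x : ℤ) (B : ℕ) (h : x.natAbs ≤ 2 ^ B) : sz x ≤ 4 * B + 9 := by
  have h1 : sz x = sz (decide (x < 0)) + sz x.natAbs + 1 := by
    show sz ((decide (x < 0), x.natAbs) : Bool × ℕ) = _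
    rw [sz_pair]
  have h2 := sz_bool_le (decide (x < 0))
  have h3 := sz_nat_le x.natAbs
  have h4 : x.natAbs.size ≤ B + 1 :=
    Nat.size_le.2 (lt_of_le_of_lt h (Nat.pow_lt_pow_right (by norm_num) (Nat.lt_succ_self B)))
  omega

theorem sz_natp (x B : ℕ) (h : x ≤ 2 ^ B) : sz x ≤ 4 * (B + 1) + 1 := by
  have h3 := sz_nat_le x
  have h4 : x.size ≤ B + 1 :=
    Nat.size_le.2 (lt_of_le_of_lt h (Nat.pow_lt_pow_right (by norm_num) (Nat.lt_succ_self B)))
  omega

theorem sz_form (N B : ℕ) (C : List ℤ) (hC : C.length = N) (h : SmallL B C) :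
    sz C ≤ N * (4 * B + 9 + 1) + 1 := by
  have h1 := sz_le_length_mul C (4 * B + 9) (fun x hx => sz_int x B (h x hx))
  rw [hC] at h1
  exact h1

/-- The bound for the size of the records. -/
def RR (N E k : ℕ) : ℕ :=
  k * ((N * (4 * (((N + 1) * E + 1) * k) + 9 + 1) + 1) +
    (4 * (((N + 1) * E) * k + 1) + 1) + 1 + 1) + 1

theorem RR_mono {N N' E E' k : ℕ} (h : N ≤ N') (h' : E ≤ E') : RR N E k ≤ RR N' E' k := by
  unfold RR
  gcongr

theorem sz_recs (N E k : ℕ) (s : S2) (h : Bd2 N E k s) : sz s.1 ≤ RR N E k := by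
  obtain ⟨h1, h2, -⟩ := h
  have e1 : sz s.1 ≤ s.1.length * ((N * (4 * (((N + 1) * E + 1) * k) + 9 + 1) + 1) +
      (4 * (((N + 1) * E) * k + 1) + 1) + 1 + 1) + 1 := by
    apply sz_le_length_mul
    intro a ha
    obtain ⟨g1, g2, g3⟩ := h2 a ha
    have g4 := sz_form N _ a.1 g1 g2
    have g5 := sz_natp a.2 _ g3
    have g6 : sz a = sz a.1 + sz a.2 + 1 := sz_pair a.1 a.2
    omega
  have e2 := Nat.mul_le_mul_right ((N * (4 * (((N + 1) * E + 1) * k) + 9 + 1) + 1) +
      (4 * (((N + 1) * E) * k + 1) + 1) + 1 + 1) h1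
  unfold RR
  omega

/-- The bound for the size of a state. -/
def HH (N E k z n : ℕ) : ℕ := (4 * n + 1) + (n * ((z + 3) + RR N E k + 1 + 1) + 1) + 1

theorem HH_mono {N N' E E' k z z' n n' : ℕ} (h : N ≤ N') (h' : E ≤ E') (h2 : z ≤ z')
    (h3 : n ≤ n') : HH N E k z n ≤ HH N' E' k z' n' := by
  have := RR_mono (k := k) h h'
  unfold HH
  gcongr

/-- The polynomial for the records. -/
noncomputable def RP (p q : Polynomial ℕ) (k : ℕ) : Polynomial ℕ :=
  (Polynomial.C k) * ((p * (4 * (((p + 1) * q + 1) * (Polynomial.C k)) + 9 + 1) + 1) +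
    (4 * (((p + 1) * q) * (Polynomial.C k) + 1) + 1) + 1 + 1) + 1

theorem RP_eval (p q : Polynomial ℕ) (k x : ℕ) :
    (RP p q k).eval x = RR (p.eval x) (q.eval x) k := by
  unfold RP RR
  simp only [Polynomial.eval_add, Polynomial.eval_mul, Polynomial.eval_one, Polynomial.eval_ofNat,
    Polynomial.eval_C]

/-- The polynomial for the states. -/
noncomputable def HP (p q : Polynomial ℕ) (k : ℕ) (z n : Polynomial ℕ) : Polynomial ℕ :=
  (4 * n + 1) + (n * ((z + 3) + RP p q k + 1 + 1) + 1) + 1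

theorem HP_eval (p q : Polynomial ℕ) (k : ℕ) (z n : Polynomial ℕ) (x : ℕ) :
    (HP p q k z n).eval x = HH (p.eval x) (q.eval x) k (z.eval x) (n.eval x) := by
  unfold HP HH
  simp only [Polynomial.eval_add, Polynomial.eval_mul, Polynomial.eval_one, Polynomial.eval_ofNat,
    RP_eval]

theorem upoly_bound {α : Type} [TEnc α] {n : α → ℕ} (hn : UPoly n) :
    ∃ p : Polynomial ℕ, ∀ a, n a ≤ p.eval (sz a) := by
  obtain ⟨p, hp⟩ := Pool.Agent.NPC.Poly.sz_le hn
  refine ⟨p, fun a => le_trans ?_ (hp a)⟩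
  have h := length_lt_sz (List.replicate (n a) ())
  rw [List.length_replicate] at h
  exact h.le

theorem sgOf_small (N : ℕ) (o : List Outcome) : ∀ x ∈ sgOf N o, x.natAbs ≤ 1 := by
  intro x hx
  unfold sgOf at hx
  obtain ⟨l, -, rfl⟩ := List.mem_map.1 hx
  rcases o.getD l none with _ | _ | _ <;> simp [osg]

theorem unitF_small (N : ℕ) : (unitF N).length = N ∧
    ∀ C ∈ unitF N, C.length = N ∧ SmallL 0 C := by
  unfold unitF
  refine ⟨by simp, fun C hC => ?_⟩
  obtain ⟨l, -, rfl⟩ := List.mem_map.1 hC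
  refine ⟨by simp, fun x hx => ?_⟩
  obtain ⟨l', -, rfl⟩ := List.mem_map.1 hx
  split_ifs <;> simp

theorem out_stages (hO : S_OUT) (hB : S_BD) (V : VS) (E : ℕ) (hE : 2 * V.2.length + 4 ≤ E) :
    ∀ (i : ℕ) (s : S2), Out (stages V E i) s → Bd2 V.2.length E i s := by
  obtain ⟨o1, o2, o3, -⟩ := hO
  intro i
  induction i with
  | zero =>
    intro s h
    have hs : s = ([], (unitF V.2.length, 1)) := o1 _ _ _ h
    rw [hs]
    obtain ⟨u1, u2⟩ := unitF_small V.2.length
    refine ⟨le_rfl, fun a ha => absurd ha List.not_mem_nil, u1, fun C hC => ?_, ?_⟩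
    · refine ⟨(u2 C hC).1, ?_⟩
      rw [Nat.mul_zero]
      exact (u2 C hC).2
    · simp
  | succ i ih =>
    intro s h
    obtain ⟨b, hb1, hb2⟩ := o3 _ _ _ _ _ h
    have hb := ih b hb1
    unfold stage at hb2
    obtain ⟨o, -, h3⟩ := o2 _ _ _ _ _ hb2
    obtain ⟨t, -, h4⟩ := o2 _ _ _ _ _ h3
    have h5 := o1 _ _ _ h4
    rw [h5]
    exact hB _ E i b _ _ _ hE (by unfold sgOf; simp) (sgOf_small _ _) hb

theorem getD_mem_or {β : Type} (L : List β) (i : ℕ) (d : β) :
    L.getD i d ∈ L ∨ L.getD i d = d := by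
  by_cases h : i < L.length
  · left
    rw [List.getD_eq_getElem _ _ h]
    exact List.getElem_mem h
  · right
    exact List.getD_eq_default _ _ (not_lt.1 h)

theorem out_try (hO : S_OUT) (hB : S_BD) (k m n E : ℕ)
    (hE : ∀ c, 2 * (V0 m n c).2.length + 4 ≤ E) :
    ∀ (i : ℕ) (st : ST), Out (iter (tryC k m n E) i (0, [])) st →
      st.1 = i ∧ st.2.length ≤ i ∧ ∀ x ∈ st.2, (x.1 ∈ cands k m n ∨ x.1 = ([], [])) ∧
        ∃ s : S2, x.2 = s.1 ∧ Bd2 (V0 m n x.1).2.length E k s := by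
  obtain ⟨o1, o2, o3, -⟩ := id hO
  intro i
  induction i with
  | zero =>
    intro st h
    have hs : st = (0, []) := o1 _ _ _ h
    rw [hs]
    exact ⟨rfl, le_rfl, fun a ha => absurd ha List.not_mem_nil⟩
  | succ i ih =>
    intro st h
    obtain ⟨b, hb1, hb2⟩ := o3 _ _ _ _ _ h
    obtain ⟨i1, i2, i3⟩ := ih b hb1
    unfold tryC at hb2
    obtain ⟨s, hs, h3⟩ := o2 _ _ _ _ _ hb2
    obtain ⟨o, -, h4⟩ := o2 _ _ _ _ _ h3
    have h5 := o1 _ _ _ h4
    rw [h5]
    refine ⟨by rw [i1], ?_, ?_⟩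
    · show (if (o.all fun x => decide (x = none)) = true then
        b.2 ++ [((cands k m n).getD b.1 ([], []), s.1)] else b.2).length ≤ i + 1
      split_ifs
      · rw [List.length_append, List.length_singleton]
        omega
      · omega
    · show ∀ x ∈ (if (o.all fun x => decide (x = none)) = true then
        b.2 ++ [((cands k m n).getD b.1 ([], []), s.1)] else b.2), _
      split_ifs
      · intro x hx
        rcases List.mem_append.1 hx with hx | hx
        · exact i3 x hx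
        · rw [List.mem_singleton] at hx
          rw [hx]
          exact ⟨getD_mem_or _ _ _, s, rfl, out_stages hO hB _ E (hE _) k s hs⟩
      · exact i3

theorem sz_st (k m n E : ℕ) (hV : ∀ c, (V0 m n c).2.length ≤ m * n + 1) (i : ℕ) (st : ST)
    (hi : i ≤ (cands k m n).length) (h : st.1 = i ∧ st.2.length ≤ i ∧ ∀ x ∈ st.2,
      (x.1 ∈ cands k m n ∨ x.1 = ([], [])) ∧
        ∃ s : S2, x.2 = s.1 ∧ Bd2 (V0 m n x.1).2.length E k s) :
    sz st ≤ HH (m * n + 1) E k (sz (cands k m n)) (cands k m n).length := by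
  obtain ⟨h1, h2, h3⟩ := h
  have e1 : sz st.1 ≤ 4 * (cands k m n).length + 1 := by
    have g1 := sz_nat_le st.1
    have g2 : st.1.size ≤ st.1 := Nat.size_le.2 Nat.lt_two_pow_self
    omega
  have e2 : sz st.2 ≤ st.2.length * ((sz (cands k m n) + 3) + RR (m * n + 1) E k + 1 + 1) + 1 := by
    apply sz_le_length_mul
    intro x hx
    obtain ⟨g1, s, g2, g3⟩ := h3 x hx
    have g4 := sz_recs _ E k s g3
    have g5 : RR (V0 m n x.1).2.length E k ≤ RR (m * n + 1) E k := RR_mono (hV _) le_rfl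
    have g6 : sz x = sz x.1 + sz x.2 + 1 := sz_pair x.1 x.2
    have g7 : sz x.1 ≤ sz (cands k m n) + 3 := by
      rcases g1 with g1 | g1
      · have := sz_le_of_mem g1
        omega
      · rw [g1]
        have : sz (([], []) : Cand) = 3 := rfl
        omega
    rw [g2] at g6
    omega
  have e3 := Nat.mul_le_mul_right ((sz (cands k m n) + 3) + RR (m * n + 1) E k + 1 + 1)
    (h2.trans hi)
  have e4 : sz st = sz st.1 + sz st.2 + 1 := sz_pair st.1 st.2
  unfold HH
  omega

theorem E0_ge (hV0 : S_VOK0) (k m n : ℕ) (c : Cand) :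
    (V0 m n c).2.length ≤ m * n + 1 ∧ 2 * (V0 m n c).2.length + 4 ≤ E0 k (m + n) := by
  obtain ⟨q, hq⟩ := hV0
  have h := (hq m n (fun r => if r = [2] then 1 else 0) c (by constructor <;> simp)).2
  refine ⟨h, ?_⟩
  unfold E0
  have : m * n ≤ (m + n) * (m + n) := Nat.mul_le_mul (Nat.le_add_right _ _) (Nat.le_add_left _ _)
  omega

theorem zeroQs_poly {β : Type} [TEnc β] (hQF : S_QF) (V : β → VS) (F : β → List (List ℤ))
    (hV : Pool.Agent.NPC.Poly V) (hF : Pool.Agent.NPC.Poly F) :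
    Pool.Agent.NPC.Poly (fun q => zeroQs (V q) (F q)) := by
  unfold zeroQs
  refine Pool.Agent.NPC.Poly.map (l := fun q => List.range (V q).2.length)
    (F := fun (q : β) (l : ℕ) => fQ (V q) ((F q).getD l []))
    (UPoly.length (Pool.Agent.NPC.Poly.snd hV)).range ?_
  exact (hQF (β × ℕ) (fun r => V r.1)
    (hV.comp (Pool.Agent.NPC.Poly.fst Pool.Agent.NPC.Poly.id))).2.1
    (fun r => (F r.1).getD r.2 [])
    (Pool.Agent.NPC.Poly.getD (hF.comp (Pool.Agent.NPC.Poly.fst Pool.Agent.NPC.Poly.id))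
      (Pool.Agent.NPC.Poly.snd Pool.Agent.NPC.Poly.id) (Pool.Agent.NPC.Poly.const []))

theorem pt_try {α : Type} [TEnc α] (k : ℕ) (hPT : S_PT) (hQF : S_QF) (hQS : S_QS)
    (hQV : S_QV k) (hV0 : S_VOK0) (U W : α → List Unit) (hU : Pool.Agent.NPC.Poly U)
    (hW : Pool.Agent.NPC.Poly W) :
    PT (fun p : α × ST => tryC k (U p.1).length (W p.1).length
      (E0 k ((U p.1).length + (W p.1).length)) p.2) := by
  obtain ⟨pt1, pt2, pt3⟩ := hPT
  have hU' : Pool.Agent.NPC.Poly (fun p : α × ST => U p.1) :=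
    hU.comp (Pool.Agent.NPC.Poly.fst Pool.Agent.NPC.Poly.id)
  have hW' : Pool.Agent.NPC.Poly (fun p : α × ST => W p.1) :=
    hW.comp (Pool.Agent.NPC.Poly.fst Pool.Agent.NPC.Poly.id)
  obtain ⟨hC, hV, -, hE, -⟩ := hQV (α × ST) (fun p => U p.1) (fun p => W p.1) hU' hW'
  have hc : Pool.Agent.NPC.Poly (fun p : α × ST =>
      (cands k (U p.1).length (W p.1).length).getD p.2.1 ([], [])) :=
    Pool.Agent.NPC.Poly.getD hC
      (Pool.Agent.NPC.Poly.fst (Pool.Agent.NPC.Poly.snd Pool.Agent.NPC.Poly.id))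
      (Pool.Agent.NPC.Poly.const _)
  have hVc := hV _ hc
  have hst : PT (fun p : α × ST => stages (V0 (U p.1).length (W p.1).length
      ((cands k (U p.1).length (W p.1).length).getD p.2.1 ([], [])))
      (E0 k ((U p.1).length + (W p.1).length)) k) :=
    hQS (α × ST) _ _ (fun _ => k) hVc hE (UPoly.const k)
      (fun p => (E0_ge hV0 k _ _ _).2)
  have hz : Pool.Agent.NPC.Poly (fun q : (α × ST) × S2 =>
      zeroQs (V0 (U q.1.1).length (W q.1.1).length
        ((cands k (U q.1.1).length (W q.1.1).length).getD q.1.2.1 ([], []))) q.2.2.1) :=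
    zeroQs_poly hQF (fun q : (α × ST) × S2 => V0 (U q.1.1).length (W q.1.1).length
        ((cands k (U q.1.1).length (W q.1.1).length).getD q.1.2.1 ([], [])))
      (fun q => q.2.2.1)
      (hVc.comp (Pool.Agent.NPC.Poly.fst Pool.Agent.NPC.Poly.id))
      (Pool.Agent.NPC.Poly.fst (Pool.Agent.NPC.Poly.snd
        (Pool.Agent.NPC.Poly.snd Pool.Agent.NPC.Poly.id)))
  have hres : Pool.Agent.NPC.Poly (fun r : ((α × ST) × S2) × List Outcome =>
      ((r.1.1.2.1 + 1, if (r.2.all fun x => decide (x = none)) = true then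
        r.1.1.2.2 ++ [((cands k (U r.1.1.1).length (W r.1.1.1).length).getD r.1.1.2.1 ([], []),
          r.1.2.1)] else r.1.1.2.2) : ST)) := by
    have i1 : Pool.Agent.NPC.Poly (fun r : ((α × ST) × S2) × List Outcome => r.1.1) :=
      Pool.Agent.NPC.Poly.fst (Pool.Agent.NPC.Poly.fst Pool.Agent.NPC.Poly.id)
    have i2 : Pool.Agent.NPC.Poly (fun r : ((α × ST) × S2) × List Outcome => r.1.1.2) :=
      Pool.Agent.NPC.Poly.snd i1
    have i3 : Pool.Agent.NPC.Poly (fun r : ((α × ST) × S2) × List Outcome => r.1.2.1) :=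
      Pool.Agent.NPC.Poly.fst (Pool.Agent.NPC.Poly.snd
        (Pool.Agent.NPC.Poly.fst Pool.Agent.NPC.Poly.id))
    refine Pool.Agent.NPC.Poly.pair (Pool.Agent.NPC.Poly.succ (Pool.Agent.NPC.Poly.fst i2)) ?_
    refine Pool.Agent.NPC.Poly.ite (Pool.Agent.NPC.Poly.decide_bool ?_) ?_
      (Pool.Agent.NPC.Poly.snd i2)
    · refine Pool.Agent.NPC.Poly.all (l := fun r : ((α × ST) × S2) × List Outcome => r.2)
        (p := fun _ x => decide (x = none)) (Pool.Agent.NPC.Poly.snd Pool.Agent.NPC.Poly.id) ?_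
      exact Pool.Agent.NPC.Poly.decide_eq (Pool.Agent.NPC.Poly.snd Pool.Agent.NPC.Poly.id)
        (Pool.Agent.NPC.Poly.const none)
    · refine Pool.Agent.NPC.Poly.append (Pool.Agent.NPC.Poly.snd i2) ?_
      exact Pool.Agent.NPC.Poly.cons (Pool.Agent.NPC.Poly.pair (hc.comp i1) i3)
        (Pool.Agent.NPC.Poly.const [])
  have hin : PT (fun q : (α × ST) × S2 =>
      bnd (batch (zeroQs (V0 (U q.1.1).length (W q.1.1).length
        ((cands k (U q.1.1).length (W q.1.1).length).getD q.1.2.1 ([], []))) q.2.2.1)) fun o =>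
      (ret ((q.1.2.1 + 1, if (o.all fun x => decide (x = none)) = true then
        q.1.2.2 ++ [((cands k (U q.1.1).length (W q.1.1).length).getD q.1.2.1 ([], []),
          q.2.1)] else q.1.2.2) : ST) : TT ST)) :=
    pt2 ((α × ST) × S2) (List Outcome) ST _ _ (pt3 _ _ hz) (pt1 _ _ _ hres)
  exact pt2 (α × ST) S2 ST _ (fun (p : α × ST) (s : S2) =>
    bnd (batch (zeroQs (V0 (U p.1).length (W p.1).length
        ((cands k (U p.1).length (W p.1).length).getD p.2.1 ([], []))) s.2.1)) fun o =>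
      (ret ((p.2.1 + 1, if (o.all fun x => decide (x = none)) = true then
        p.2.2 ++ [((cands k (U p.1).length (W p.1).length).getD p.2.1 ([], []),
          s.1)] else p.2.2) : ST) : TT ST)) hst hin

end TQ1

open TQ1 in
/-- Phase 1 in polynomial time. -/
theorem t_Q1 : ∀ k, S_OUT → S_PT → S_PTITER → S_QF → S_BD → S_QS → S_QV k → S_VOK0 →
    S_Q1 k := by
  intro k hO hPT hIT hQF hB hQS hQV hV0 α _ U W hU hW
  have htry := pt_try k hPT hQF hQS hQV hV0 U W hU hW
  obtain ⟨pt1, pt2, pt3⟩ := hPT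
  obtain ⟨-, -, -, shr1, shr2, shr3, shr4⟩ := id hO
  obtain ⟨hC, -, -, hE, -⟩ := hQV α U W hU hW
  have un : UPoly (fun a => (cands k (U a).length (W a).length).length) := UPoly.length hC
  obtain ⟨pN, hpN⟩ := upoly_bound (UPoly.add (UPoly.mul (UPoly.length hU) (UPoly.length hW))
    (UPoly.const 1))
  obtain ⟨pE, hpE⟩ := upoly_bound hE
  obtain ⟨pz, hpz⟩ := Pool.Agent.NPC.Poly.sz_le hC
  obtain ⟨pn, hpn⟩ := upoly_bound un
  have hiter : PT (fun a : α => iter (tryC k (U a).length (W a).length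
      (E0 k ((U a).length + (W a).length))) (cands k (U a).length (W a).length).length
      (0, [])) := by
    refine hIT α ST (fun a s => tryC k (U a).length (W a).length
      (E0 k ((U a).length + (W a).length)) s)
      (fun a => (cands k (U a).length (W a).length).length) (fun _ => (0, [])) htry un
      (Pool.Agent.NPC.Poly.const _) ?_ ⟨HP pN pE k pz pn, ?_⟩
    · intro a s
      show Shr (tryC k (U a).length (W a).length (E0 k ((U a).length + (W a).length)) s)
      unfold tryC stages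
      refine shr2 _ _ _ _ (shr4 _ _ _ _ fun t => ?_) fun t => ?_
      · unfold stage
        refine shr2 _ _ _ _ (shr3 _) fun o => ?_
        refine shr2 _ _ _ _ (shr4 _ _ _ _ fun t => ?_) fun t => shr1 _ _
        exact shr2 _ _ _ _ (shr3 _) fun o' => shr1 _ _
      · exact shr2 _ _ _ _ (shr3 _) fun o => shr1 _ _
    · intro a i s hi hout
      have h1 := out_try hO hB k (U a).length (W a).length _
        (fun c => (E0_ge hV0 k _ _ c).2) i s hout
      refine (sz_st k (U a).length (W a).length _ (fun c => (E0_ge hV0 k _ _ c).1) i s hi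
        h1).trans ?_
      rw [HP_eval]
      exact HH_mono (hpN a) (hpE a) (hpz a) (hpn a)
  exact pt2 α ST (List (Cand × List (List ℤ × ℕ))) _ (fun _ s => ret s.2) hiter
    (pt1 (α × ST) (List (Cand × List (List ℤ × ℕ))) (fun p => p.2.2) (Pool.Agent.NPC.Poly.snd
      (Pool.Agent.NPC.Poly.snd Pool.Agent.NPC.Poly.id)))

end Pool.Agent.W920.FD
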