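import Pool.Agent.W920.FD.Stm

set_option autoImplicit false

/-! Phase 3 is computed in polynomial time (adapted from the file T_PT13 of helper903). -/

namespace Pool.Agent.W920.FD

open Pool.Agent.NPC Pool.Agent.NPC.ER Pool.Agent.NPC.H612 Pool.Agent.H558R2
  Pool.Agent.H622R3.SM Pool.Agent.W920.FC

namespace TQ3

variable {α : Type} [TEnc α]

attribute [local fun_prop] NPC.Poly.range_length

theorem pLad0 (h3 : S_PP3) (h4 : S_PP4) {n q : α → ℕ}
    {recs : α → List (List ℤ × ℕ)} (hn : UPoly n) (hQ : UPoly q) (hr : Poly recs) :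
    Poly (fun a => lad0 (n a) (q a) (recs a)) := by
  unfold lad0
  have hQ1 : UPoly (fun a => 2 * q a + 1) :=
    UPoly.add (UPoly.mul (UPoly.const 2) hQ) (UPoly.const 1)
  have hl : Poly (fun a => (List.range (2 * q a + 1)).map fun e => 2 ^ e) :=
    (h3 α).2.1 _ hQ1
  obtain ⟨l, hld⟩ : ∃ l : α → List ℕ,
      l = fun a => (List.range (2 * q a + 1)).map fun e => 2 ^ e := ⟨_, rfl⟩
  rw [← hld] at hl
  have hp : Poly (fun a => 2 ^ q a) := (h3 α).1 _ hQ
  obtain ⟨r, hrd⟩ : ∃ r : α → ℕ, r = fun a => 2 ^ q a := ⟨_, rfl⟩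
  rw [← hrd] at hp
  have h5 : Poly (fun a => (recs a).flatMap fun u => (recs a).flatMap fun v => (l a).map fun e =>
      (fcomb (n a) (((v.2 : ℕ) : ℤ) * ((e : ℕ) : ℤ)) u.1 0 [],
        fcomb (n a) (((u.2 : ℕ) : ℤ) * ((r a : ℕ) : ℤ)) v.1 0 [])) := by
    refine NPC.Poly.flatMap hr (NPC.Poly.flatMap (l := fun x : α × (List ℤ × ℕ) => recs x.1)
      (by fun_prop) (NPC.Poly.map (l := fun x : (α × (List ℤ × ℕ)) × (List ℤ × ℕ) => l x.1.1)
        (by fun_prop) (NPC.Poly.pair ?_ ?_)))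
    · refine (h4 _).2 (fun x : ((α × (List ℤ × ℕ)) × (List ℤ × ℕ)) × ℕ =>
        n x.1.1.1) _ _ _ _ ?_ ?_ (NPC.Poly.const (0 : ℤ)) ?_ (NPC.Poly.const ([] : List ℤ))
      · exact NPC.Poly.comp hn (by fun_prop)
      · exact ((h4 _).1 _ _ (by fun_prop) (by fun_prop)).2.1
      · fun_prop
    · refine (h4 _).2 (fun x : ((α × (List ℤ × ℕ)) × (List ℤ × ℕ)) × ℕ =>
        n x.1.1.1) _ _ _ _ ?_ ?_ (NPC.Poly.const (0 : ℤ)) ?_ (NPC.Poly.const ([] : List ℤ))
      · exact NPC.Poly.comp hn (by fun_prop)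
      · exact ((h4 _).1 _ _ (by fun_prop) (by fun_prop)).2.1
      · fun_prop
  refine h5.congr fun a => ?_
  simp only [hld, hrd, List.map_map, Nat.cast_pow, Nat.cast_ofNat]
  rfl

theorem pSortQs (hF : S_QF) {V : α → VS} {L : α → List (List ℤ × List ℤ)} (hV : Poly V)
    (hL : Poly L) : Poly (fun a => sortQs (V a) (L a)) := by
  unfold sortQs
  refine NPC.Poly.flatMap hL (NPC.Poly.map (l := fun x : α × (List ℤ × List ℤ) => L x.1)
    (by fun_prop) ?_)
  exact (hF _ (fun x : (α × (List ℤ × List ℤ)) × (List ℤ × List ℤ) => V x.1.1)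
    (by fun_prop)).2.2 (fun x => x.1.2) (fun x => x.2) (by fun_prop) (by fun_prop)

theorem pSortL {L : α → List (List ℤ × List ℤ)} {o : α → List Outcome} (hL : Poly L)
    (ho : Poly o) : Poly (fun a => sortL (L a) (o a)) := by
  unfold sortL rankOf
  fun_prop

end TQ3

/-- Phase 3 in polynomial time. -/
theorem t_Q3 : S_PT → S_QF → S_PP3 → S_PP4 → S_Q3 := by
  intro hPT hF h3 h4 α _ V q recs hV hq hrec
  unfold T3
  have hn : UPoly (fun a => (V a).2.length) := UPoly.length (l := fun a => (V a).2) (by fun_prop)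
  have hl := TQ3.pLad0 h3 h4 hn hq hrec
  refine hPT.2.1 _ _ _ (fun a => batch (sortQs (V a)
    (lad0 (V a).2.length (q a) (recs a)))) (fun a o => ret (sortL
      (lad0 (V a).2.length (q a) (recs a)) o))
    (hPT.2.2 _ _ (TQ3.pSortQs hF hV hl)) ?_
  exact hPT.1 _ _ _ (TQ3.pSortL (L := fun p : α × List Outcome =>
    lad0 (V p.1).2.length (q p.1) (recs p.1)) (o := fun p => p.2)
    (hl.comp (NPC.Poly.fst NPC.Poly.id)) (by fun_prop))

end Pool.Agent.W920.FD
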