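import Pool.Agent.W920.FD.Stm

set_option autoImplicit false

/-! Polynomial time: queries for forms and ratios (helper975). -/

namespace Pool.Agent.W920.FD

open Pool.Agent.NPC Pool.Agent.H558R2 Pool.Agent.H622R3.SM Pool.Agent.W920.FC

namespace TQF

variable {α : Type} [TEnc α]

theorem pInstr (o : Op) {f g k : α → Reg} (hf : Poly f) (hg : Poly g) (hk : Poly k) :
    Poly (fun a => Instr.mk o (f a) (g a) (k a)) :=
  Pool.Agent.NPC.Poly.of_toT (Pool.Agent.NPC.Poly.toT' (Pool.Agent.NPC.Poly.pair
    (Pool.Agent.NPC.Poly.const (opCode o))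
    (Pool.Agent.NPC.Poly.pair hf (Pool.Agent.NPC.Poly.pair hg hk))))

theorem pNatAbs {f : α → ℤ} (h : Poly f) : Poly (fun a => (f a).natAbs) := Poly.natAbs h

theorem pBits {f : α → ℕ} (h : Poly f) : Poly (fun a => (f a).bits) := Poly.natBits h

theorem pIsNeg {f : α → ℤ} (h : Poly f) : Poly (fun a => decide (f a < 0)) := Poly.isNeg h

attribute [local fun_prop] pInstr Poly.range_length pNatAbs pBits pIsNeg

theorem pMul (hd : ℕ) {c l : α → ℕ} {r : α → Reg} {x : α → ℤ} (hc : Poly c) (hl : Poly l)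
    (hr : Poly r) (hx : Poly x) : Poly (fun a => mulP hd (c a) (l a) (r a) (x a)) := by
  unfold mulP
  fun_prop

attribute [local fun_prop] pMul

theorem pForm (hd : ℕ) {c : α → ℕ} {regs : α → List Reg} {C : α → List ℤ} (hc : Poly c)
    (hr : Poly regs) (hC : Poly C) : Poly (fun a => formP hd (c a) (regs a) (C a)) := by
  unfold formP
  fun_prop

attribute [local fun_prop] pForm

theorem pRat {regs : α → List Reg} {L : α → List (List ℤ × List ℤ)} (hr : Poly regs)
    (hL : Poly L) : Poly (fun a => ratP (regs a) (L a)) := by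
  unfold ratP
  fun_prop

end TQF

theorem t_QF : S_QF := by
  intro α _ V hV
  have h1 : Poly (fun a => (V a).1) := Poly.fst hV
  have h2 : Poly (fun a => (V a).2) := Poly.snd hV
  refine ⟨fun hd c regs C hc hr hC => TQF.pForm hd hc hr hC, ?_, ?_⟩
  · intro C hC
    refine Poly.pair (Poly.append h1 (TQF.pForm 32 (NPC.Poly.const 0) h2 hC)) ?_
    fun_prop
  · intro u v hu hv
    refine Poly.pair (Poly.append h1 (Poly.append (TQF.pRat h2 ?_) ?_)) ?_
    · fun_prop
    · exact NPC.Poly.const _
    · exact NPC.Poly.const _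

end Pool.Agent.W920.FD
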