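import Pool.Agent.W920.FD.Stm

set_option autoImplicit false

/-!
# FD-QFIN: the end of a stage in polynomial time
-/

namespace Pool.Agent.W920.FD

open Pool.Agent.NPC Pool.Agent.H558R2 Pool.Agent.H622R3.SM Pool.Agent.W920.FC

theorem t_QFIN : S_PP3 → S_PP4 → S_PP5 → S_QFIN := by
  intro h3 h4 h5 α _ n e s sg best a hN hE hs hsg hbest ha
  have hP : UPoly (fun x => (n x + 1) * e x) := (hN.add (UPoly.const 1)).mul hE
  have hpow : Poly (fun x => 2 ^ ((n x + 1) * e x)) := (h3 α).1 _ hP
  have hF : Poly (fun x => (s x).2.1) := NPC.Poly.fst (NPC.Poly.snd hs)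
  have hden : Poly (fun x => (s x).2.2) := NPC.Poly.snd (NPC.Poly.snd hs)
  have hlist : Poly (fun x => (List.range (n x)).map fun l =>
      if l = best x then 2 ^ ((n x + 1) * e x) else (a x).getD l 0) := by
    refine NPC.Poly.map (F := fun x l => if l = best x then 2 ^ ((n x + 1) * e x)
      else (a x).getD l 0) hN.range ?_
    exact NPC.Poly.ite (NPC.Poly.decide_eq (NPC.Poly.snd NPC.Poly.id) (hbest.comp (NPC.Poly.fst NPC.Poly.id)))
      (hpow.comp (NPC.Poly.fst NPC.Poly.id))
      (NPC.Poly.getD (ha.comp (NPC.Poly.fst NPC.Poly.id)) (NPC.Poly.snd NPC.Poly.id) (NPC.Poly.const 0))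
  have hr : Poly (fun x => sda (n x) (e x)
      ((List.range (n x)).map fun l =>
        if l = best x then 2 ^ ((n x + 1) * e x) else (a x).getD l 0)) :=
    h5 α _ _ _ hN hE hlist
  have hsb : Poly (fun x => (sg x).getD (best x) 0) := NPC.Poly.getD hsg hbest (NPC.Poly.const 0)
  have hFb : Poly (fun x => (s x).2.1.getD (best x) []) := NPC.Poly.getD hF hbest (NPC.Poly.const [])
  have hrec : Poly (fun x => fcomb (n x) ((sg x).getD (best x) 0)
      ((s x).2.1.getD (best x) []) 0 []) :=
    (h4 α).2 _ _ _ _ _ hN hsb (NPC.Poly.const 0) hFb (NPC.Poly.const [])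
  have hmulden : Poly (fun x => (s x).2.2 * (sda (n x) (e x)
      ((List.range (n x)).map fun l =>
        if l = best x then 2 ^ ((n x + 1) * e x) else (a x).getD l 0)).1) :=
    NPC.Poly.mul hden (NPC.Poly.fst hr)
  have hforms : Poly (fun x => (List.range (n x)).map fun l =>
      fcomb (n x) (((sda (n x) (e x)
      ((List.range (n x)).map fun l =>
        if l = best x then 2 ^ ((n x + 1) * e x) else (a x).getD l 0)).1 : ℕ) : ℤ)
        ((s x).2.1.getD l [])
        (-((sg x).getD l 0 * (sg x).getD (best x) 0 *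
          (sda (n x) (e x)
      ((List.range (n x)).map fun l =>
        if l = best x then 2 ^ ((n x + 1) * e x) else (a x).getD l 0)).2.getD l 0))
        ((s x).2.1.getD (best x) [])) := by
    refine NPC.Poly.map (F := fun x l => fcomb (n x)
      (((sda (n x) (e x)
      ((List.range (n x)).map fun l =>
        if l = best x then 2 ^ ((n x + 1) * e x) else (a x).getD l 0)).1 : ℕ) : ℤ)
        ((s x).2.1.getD l [])
        (-((sg x).getD l 0 * (sg x).getD (best x) 0 *
          (sda (n x) (e x)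
      ((List.range (n x)).map fun l =>
        if l = best x then 2 ^ ((n x + 1) * e x) else (a x).getD l 0)).2.getD l 0))
        ((s x).2.1.getD (best x) [])) hN.range ?_
    have hid : Poly (fun p : α × ℕ => p.1) := NPC.Poly.fst NPC.Poly.id
    have hl : Poly (fun p : α × ℕ => p.2) := NPC.Poly.snd NPC.Poly.id
    refine (h4 (α × ℕ)).2 (fun p => n p.1) _ _ _ _ (hN.comp hid)
      (NPC.Poly.natCast (NPC.Poly.fst (hr.comp hid))) ?_ ?_ (hFb.comp hid)
    · exact NPC.Poly.ineg (NPC.Poly.imul (NPC.Poly.imul (NPC.Poly.getD (hsg.comp hid) hl (NPC.Poly.const 0))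
        (hsb.comp hid)) (NPC.Poly.getD (NPC.Poly.snd (hr.comp hid)) hl (NPC.Poly.const 0)))
    · exact NPC.Poly.getD (hF.comp hid) hl (NPC.Poly.const [])
  have hall : Poly (fun x => decide (((sg x).all fun y => decide (y = 0)) = true)) :=
    NPC.Poly.decide_bool (NPC.Poly.all (p := fun _ y => decide (y = 0)) hsg
      (NPC.Poly.decide_eq (NPC.Poly.snd NPC.Poly.id) (NPC.Poly.const 0)))
  refine (NPC.Poly.ite hall hs (NPC.Poly.pair (NPC.Poly.append (NPC.Poly.fst hs)
    (NPC.Poly.cons (NPC.Poly.pair hrec hmulden) (NPC.Poly.const []))) (NPC.Poly.pair hforms hmulden))).congr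
    fun x => ?_
  rfl

end Pool.Agent.W920.FD
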