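import Pool.Agent.W920.FD.Stm
import Pool.Agent.H687R2.IntPoly
import Pool.Agent.H622R3.SM.T_PM

set_option autoImplicit false

/-! The queries of the perceptron algorithm in polynomial time (adapted from `FC/T_PP2.lean`). -/

namespace Pool.Agent.W920.FD

open Pool.Agent.NPC Pool.Agent.H558R2 Pool.Agent.H622R3.SM Pool.Agent.W920.FC

namespace TQP

variable {α : Type} [TEnc α]

attribute [local fun_prop] TPM.pInstr NPC.Poly.range_length NPC.Poly.natAbs NPC.Poly.natBits
  NPC.Poly.isNeg NPC.Poly.ilt

theorem pformP (h : S_QF) (hd : ℕ) {c : α → ℕ} {regs : α → List Reg} {C : α → List ℤ}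
    (hc : Poly c) (hr : Poly regs) (hC : Poly C) :
    Poly (fun a => formP hd (c a) (regs a) (C a)) :=
  (h α (fun _ => ([], [])) (NPC.Poly.const _)).1 hd c regs C hc hr hC

theorem prat (h : S_QF) {regs : α → List Reg} {L : α → List (List ℤ × List ℤ)}
    (hr : Poly regs) (hL : Poly L) : Poly (fun x => ratP (regs x) (L x)) := by
  unfold ratP
  have h1 : Poly (fun a => (L a).zipIdx) := by fun_prop
  refine NPC.Poly.flatMap h1 ?_
  refine NPC.Poly.append (pformP h 32 (by fun_prop) (by fun_prop) (by fun_prop))
    (NPC.Poly.append (pformP h 32 (by fun_prop) (by fun_prop) (by fun_prop)) ?_)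
  fun_prop

/-- `cK` in unary -/
def uK (U V : List Unit) : List Unit := U ++ (V ++ V) ++ [()]

theorem uK_length (U V : List Unit) : (uK U V).length = cK U.length V.length := by
  simp only [uK, cK, List.length_append, List.length_singleton]

theorem puK {U V : α → List Unit} (hU : Poly U) (hV : Poly V) :
    Poly (fun a => uK (U a) (V a)) := by
  unfold uK
  fun_prop

theorem pent {U V : α → List Unit} {i j : α → ℕ} (hU : Poly U) (hV : Poly V) (hi : Poly i)
    (hj : Poly j) : Poly (fun a => entProg (U a).length (V a).length (i a) (j a)) := by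
  unfold entProg
  fun_prop

attribute [local fun_prop] pent puK

theorem pmat {U V : α → List Unit} (hU : Poly U) (hV : Poly V) :
    Poly (fun a => matProg (U a).length (V a).length) := by
  unfold matProg
  simp only [← uK_length]
  fun_prop

theorem pgram {U V : α → List Unit} {drop : α → List Bool} (hU : Poly U) (hV : Poly V)
    (hd : Poly drop) : Poly (fun a => gramProg (U a).length (V a).length (drop a)) := by
  unfold gramProg
  simp only [← uK_length]
  fun_prop

attribute [local fun_prop] TPM.pInitProg TPM.pProdProg TPM.pTraceProg TPM.pNextProg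

theorem pfl {U : α → List Unit} (hU : Poly U) : Poly (fun a => flProg (U a).length) := by
  unfold flProg
  fun_prop

theorem pnum {U : α → List Unit} (hU : Poly U) : Poly (fun a => numProg (U a).length) := by
  unfold numProg
  fun_prop

theorem pdot {U : α → List Unit} {r j : α → ℕ} {y : α → List ℕ} (hU : Poly U) (hr : Poly r)
    (hj : Poly j) (hy : Poly y) : Poly (fun a => dotProg (U a).length (r a) (j a) (y a)) := by
  unfold dotProg
  fun_prop

/-- `cT` in unary -/
theorem pcT {U V : α → List Unit} (hU : Poly U) (hV : Poly V) :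
    UPoly (fun a => cT (U a).length (V a).length) := by
  have h1 : UPoly (fun a => cK (U a).length (V a).length) :=
    (UPoly.length (puK hU hV)).congr fun a => by
      beta_reduce
      rw [uK_length]
  unfold cT
  exact UPoly.mul (UPoly.const 4) (UPoly.mul h1 (UPoly.mul h1 h1))

attribute [local fun_prop] pmat pgram pfl pnum pdot

theorem pper (h : S_QF) {U W : α → List Unit} {V : α → VS}
    {L : α → List (List ℤ × List ℤ)} {drop : α → List Bool} (hU : Poly U) (hW : Poly W)
    (hV : Poly V) (h2 : Poly L) (h3 : Poly drop) :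
    Poly (fun a => perP (V a) (U a).length (W a).length (L a) (drop a)) := by
  unfold perP
  simp only [← uK_length]
  have h1 : Poly (fun a => (V a).1) := NPC.Poly.fst hV
  have h1' : Poly (fun a => (V a).2) := NPC.Poly.snd hV
  refine NPC.Poly.append h1 (NPC.Poly.append (prat h h1' h2) ?_)
  fun_prop

end TQP

theorem t_QP : S_QF → S_QP := by
  intro h α _ U W V L drop y hU hW hV hL hdrop hy
  have hT := TQP.pcT hU hW
  have hper := TQP.pper h hU hW hV hL hdrop
  obtain ⟨X, hX⟩ : ∃ X : α → List Instr,
    X = fun a => perP (V a) (U a).length (W a).length (L a) (drop a) := ⟨_, rfl⟩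
  have eX : ∀ a, perP (V a) (U a).length (W a).length (L a) (drop a) = X a :=
    fun a => by rw [hX]
  rw [← hX] at hper
  have hnum : Poly (fun a => numProg (cT (U a).length (W a).length)) :=
    (TQP.pnum hT).congr fun a => by simp
  obtain ⟨Y, hY⟩ : ∃ Y : α → List Instr, Y = fun a => numProg (cT (U a).length (W a).length) :=
    ⟨_, rfl⟩
  have eY : ∀ a, numProg (cT (U a).length (W a).length) = Y a := fun a => by rw [hY]
  rw [← hY] at hnum
  have hK := TQP.puK hU hW
  obtain ⟨K, hK'⟩ : ∃ K : α → List Unit, K = fun a => TQP.uK (U a) (W a) := ⟨_, rfl⟩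
  have eK : ∀ a, cK (U a).length (W a).length = (K a).length := fun a => by
    rw [hK', TQP.uK_length]
  rw [← hK'] at hK
  unfold perQs cQ dQ
  simp only [eX, eY, eK]
  refine NPC.Poly.append ?_ ?_
  · refine NPC.Poly.map (NPC.Poly.range_length hK) ?_
    exact NPC.Poly.pair (hper.comp (NPC.Poly.fst NPC.Poly.id)) (by fun_prop)
  · have hK1 : Poly (fun a => List.range ((K a).length + 1)) := by
      have h1 : Poly (fun a => List.range (K a ++ [()]).length) :=
        NPC.Poly.range_length (NPC.Poly.append hK (NPC.Poly.const [()]))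
      exact h1.congr fun a => by simp
    refine NPC.Poly.flatMap hK1 (NPC.Poly.map (NPC.Poly.range_length
      (hK.comp (NPC.Poly.fst NPC.Poly.id))) ?_)
    refine NPC.Poly.pair (NPC.Poly.append (by fun_prop) (NPC.Poly.append (by fun_prop) ?_))
      (by fun_prop)
    exact TQP.pdot (U := fun z : (α × ℕ) × ℕ => K z.1.1) (r := fun z => z.1.2)
      (j := fun z => z.2) (y := fun z => y z.1.1) (by fun_prop) (by fun_prop) (by fun_prop)
      (by fun_prop)

end Pool.Agent.W920.FD
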