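import Pool.Agent.W920.FD.Stm

set_option autoImplicit false

/-!
# Stages in polynomial time
-/

namespace Pool.Agent.W920.FD

open Pool.Agent.NPC Pool.Agent.H558R2 Pool.Agent.H622R3.SM Pool.Agent.W920.FC

namespace TQS

theorem sz_int (x : ℤ) (B : ℕ) (h : x.natAbs ≤ 2 ^ B) : sz x ≤ 4 * B + 9 := by
  have h1 : sz x = sz (decide (x < 0)) + sz x.natAbs + 1 := by
    show sz ((decide (x < 0), x.natAbs) : Bool × ℕ) = _
    rw [sz_pair]
  have h2 := sz_bool_le (decide (x < 0))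
  have h3 := sz_nat_le x.natAbs
  have h4 : x.natAbs.size ≤ B + 1 :=
    Nat.size_le.2 (lt_of_le_of_lt h (Nat.pow_lt_pow_right (by norm_num) (Nat.lt_succ_self B)))
  omega

theorem sz_natp (x B : ℕ) (h : x ≤ 2 ^ B) : sz x ≤ 4 * (B + 1) + 1 := by
  have h3 := sz_nat_le x
  have h4 : x.size ≤ B + 1 :=
    Nat.size_le.2 (lt_of_le_of_lt h (Nat.pow_lt_pow_right (by norm_num) (Nat.lt_succ_self B)))
  omega

theorem sz_form (N B : ℕ) (C : List ℤ) (hC : C.length = N) (h : SmallL B C) :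
    sz C ≤ N * (4 * B + 9 + 1) + 1 := by
  have h1 := sz_le_length_mul C (4 * B + 9) (fun x hx => sz_int x B (h x hx))
  rw [hC] at h1
  exact h1

/-- the bound for the size of a state -/
def GG (N P J : ℕ) : ℕ :=
  (J * ((N * (4 * ((P + 1) * J) + 9 + 1) + 1) + (4 * (P * J + 1) + 1) + 1 + 1) + 1) +
    ((N * ((N * (4 * ((P + 1) * J) + 9 + 1) + 1) + 1) + 1) + (4 * (P * J + 1) + 1) + 1) + 1

theorem GG_mono {N N' P P' J J' : ℕ} (h : N ≤ N') (h' : P ≤ P') (h'' : J ≤ J') :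
    GG N P J ≤ GG N' P' J' := by
  unfold GG
  gcongr

theorem sz_state (N E J j : ℕ) (s : S2) (hj : j ≤ J) (h : Bd2 N E j s) :
    sz s ≤ GG N ((N + 1) * E) J := by
  obtain ⟨h1, h2, h3, h4, h5⟩ := h
  have hB : ((N + 1) * E + 1) * j ≤ ((N + 1) * E + 1) * J := Nat.mul_le_mul_left _ hj
  have hQ : ((N + 1) * E) * j ≤ ((N + 1) * E) * J := Nat.mul_le_mul_left _ hj
  generalize (N + 1) * E = P at *
  have e1 : sz s.1 ≤ s.1.length * ((N * (4 * ((P + 1) * J) + 9 + 1) + 1) +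
      (4 * (P * J + 1) + 1) + 1 + 1) + 1 := by
    apply sz_le_length_mul
    intro a ha
    obtain ⟨g1, g2, g3⟩ := h2 a ha
    have g2' : SmallL ((P + 1) * J) a.1 := fun x hx =>
      (g2 x hx).trans (Nat.pow_le_pow_right (by norm_num) hB)
    have g4 := sz_form N ((P + 1) * J) a.1 g1 g2'
    have g5 := sz_natp a.2 (P * J) (g3.trans (Nat.pow_le_pow_right (by norm_num) hQ))
    have g6 : sz a = sz a.1 + sz a.2 + 1 := sz_pair a.1 a.2
    omega
  have e1' : s.1.length * ((N * (4 * ((P + 1) * J) + 9 + 1) + 1) +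
      (4 * (P * J + 1) + 1) + 1 + 1) ≤
      J * ((N * (4 * ((P + 1) * J) + 9 + 1) + 1) +
      (4 * (P * J + 1) + 1) + 1 + 1) := Nat.mul_le_mul_right _ (h1.trans hj)
  have e2 : sz s.2.1 ≤ s.2.1.length * ((N * (4 * ((P + 1) * J) + 9 + 1) + 1) + 1) +
      1 := by
    apply sz_le_length_mul
    intro C hC
    obtain ⟨g1, g2⟩ := h4 C hC
    have g3 : SmallL ((P + 1) * J) C := fun x hx =>
      (g2 x hx).trans (Nat.pow_le_pow_right (by norm_num) hB)
    exact sz_form N ((P + 1) * J) C g1 g3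
  rw [h3] at e2
  have e3 := sz_natp s.2.2 (P * J)
    (h5.trans (Nat.pow_le_pow_right (by norm_num) hQ))
  have e4 : sz s = sz s.1 + (sz s.2.1 + sz s.2.2 + 1) + 1 := by
    rw [← sz_pair s.2.1 s.2.2]
    exact sz_pair s.1 s.2
  unfold GG
  omega

/-- the polynomial -/
noncomputable def GP (p q r : Polynomial ℕ) : Polynomial ℕ :=
  (r * ((p * (4 * ((q + 1) * r) + 9 + 1) + 1) + (4 * (q * r + 1) + 1) + 1 + 1) + 1) +
    ((p * ((p * (4 * ((q + 1) * r) + 9 + 1) + 1) + 1) + 1) + (4 * (q * r + 1) + 1) + 1) + 1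

theorem GP_eval (p q r : Polynomial ℕ) (x : ℕ) :
    (GP p q r).eval x = GG (p.eval x) (q.eval x) (r.eval x) := by
  unfold GP GG
  simp only [Polynomial.eval_add, Polynomial.eval_mul, Polynomial.eval_one, Polynomial.eval_ofNat]

theorem upoly_bound {α : Type} [TEnc α] {n : α → ℕ} (hn : UPoly n) :
    ∃ p : Polynomial ℕ, ∀ a, n a ≤ p.eval (sz a) := by
  obtain ⟨p, hp⟩ := Pool.Agent.NPC.Poly.sz_le hn
  refine ⟨p, fun a => le_trans ?_ (hp a)⟩
  have h := length_lt_sz (List.replicate (n a) ())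
  rw [List.length_replicate] at h
  exact h.le

theorem sgOf_small (N : ℕ) (o : List Outcome) : ∀ x ∈ sgOf N o, x.natAbs ≤ 1 := by
  intro x hx
  unfold sgOf at hx
  obtain ⟨l, -, rfl⟩ := List.mem_map.1 hx
  rcases o.getD l none with _ | _ | _ <;> simp [osg]

theorem sgOf_length (N : ℕ) (o : List Outcome) : (sgOf N o).length = N := by
  unfold sgOf
  simp

theorem unitF_small (N : ℕ) : (unitF N).length = N ∧
    ∀ C ∈ unitF N, C.length = N ∧ SmallL 0 C := by
  unfold unitF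
  refine ⟨by simp, fun C hC => ?_⟩
  obtain ⟨l, -, rfl⟩ := List.mem_map.1 hC
  refine ⟨by simp, fun x hx => ?_⟩
  obtain ⟨l', -, rfl⟩ := List.mem_map.1 hx
  split_ifs <;> simp

theorem out_bd (hO : S_OUT) (hB : S_BD) (V : VS) (E : ℕ) (hE : 2 * V.2.length + 4 ≤ E) :
    ∀ (i : ℕ) (s : S2), Out (iter (stage V E) i ([], (unitF V.2.length, 1))) s →
      Bd2 V.2.length E i s := by
  obtain ⟨o1, o2, o3, -⟩ := hO
  intro i
  induction i with
  | zero =>
    intro s h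
    have hs : s = ([], (unitF V.2.length, 1)) := o1 _ _ _ h
    rw [hs]
    obtain ⟨u1, u2⟩ := unitF_small V.2.length
    refine ⟨le_rfl, fun a ha => absurd ha List.not_mem_nil, u1, fun C hC => ?_, ?_⟩
    · refine ⟨(u2 C hC).1, ?_⟩
      rw [Nat.mul_zero]
      exact (u2 C hC).2
    · simp
  | succ i ih =>
    intro s h
    obtain ⟨b, hb1, hb2⟩ := o3 _ _ _ _ _ h
    have hb := ih b hb1
    unfold stage at hb2
    obtain ⟨o, -, h3⟩ := o2 _ _ _ _ _ hb2
    obtain ⟨t, -, h4⟩ := o2 _ _ _ _ _ h3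
    have h5 := o1 _ _ _ h4
    rw [h5]
    exact hB V.2.length E i b _ _ _ hE (sgOf_length _ _) (sgOf_small _ _) hb

theorem unitF_poly {α : Type} [TEnc α] {n : α → ℕ} (hn : UPoly n) :
    Pool.Agent.NPC.Poly (fun a => unitF (n a)) := by
  unfold unitF
  refine Pool.Agent.NPC.Poly.map (F := fun (a : α) (l : ℕ) => (List.range (n a)).map fun l' =>
    if l' = l then (1 : ℤ) else 0) hn.range ?_
  refine Pool.Agent.NPC.Poly.map (F := fun (q : α × ℕ) (l' : ℕ) => if l' = q.2 then (1 : ℤ) else 0)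
    (hn.comp (Pool.Agent.NPC.Poly.fst Pool.Agent.NPC.Poly.id)).range ?_
  exact Pool.Agent.NPC.Poly.ite (Pool.Agent.NPC.Poly.decide_eq
    (Pool.Agent.NPC.Poly.snd Pool.Agent.NPC.Poly.id)
    (Pool.Agent.NPC.Poly.snd (Pool.Agent.NPC.Poly.fst Pool.Agent.NPC.Poly.id)))
    (Pool.Agent.NPC.Poly.const 1) (Pool.Agent.NPC.Poly.const 0)

end TQS

open TQS in
/-- Stages in polynomial time. -/
theorem t_QS : S_OUT → S_PT → S_PTITER → S_BD → S_QSTG → S_QS := by
  intro hO hPT hIT hB hST α _ V e j hV he hj hE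
  obtain ⟨pt1, pt2, pt3⟩ := hPT
  obtain ⟨-, -, -, shr1, shr2, shr3, shr4⟩ := id hO
  have uN : UPoly (fun a => (V a).2.length) := UPoly.length (Pool.Agent.NPC.Poly.snd hV)
  have uP : UPoly (fun a => ((V a).2.length + 1) * e a) := (uN.add (UPoly.const 1)).mul he
  have hstage : PT (fun p : α × S2 => stage (V p.1) (e p.1) p.2) :=
    hST (α × S2) (fun p => V p.1) (fun p => e p.1) (fun p => p.2)
      (hV.comp (Pool.Agent.NPC.Poly.fst Pool.Agent.NPC.Poly.id))
      (he.comp (Pool.Agent.NPC.Poly.fst Pool.Agent.NPC.Poly.id))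
      (Pool.Agent.NPC.Poly.snd Pool.Agent.NPC.Poly.id)
  have hs0 : Pool.Agent.NPC.Poly (fun a : α => (([], (unitF (V a).2.length, 1)) : S2)) :=
    Pool.Agent.NPC.Poly.pair (Pool.Agent.NPC.Poly.const [])
      (Pool.Agent.NPC.Poly.pair (unitF_poly uN) (Pool.Agent.NPC.Poly.const 1))
  obtain ⟨p1, hp1⟩ := upoly_bound uN
  obtain ⟨p2, hp2⟩ := upoly_bound uP
  obtain ⟨p3, hp3⟩ := upoly_bound hj
  refine hIT α S2 (fun a s => stage (V a) (e a) s) (fun a => j a)
    (fun a => ([], (unitF (V a).2.length, 1))) hstage hj hs0 ?_ ⟨GP p1 p2 p3, ?_⟩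
  · intro a s
    show Shr (stage (V a) (e a) s)
    unfold stage
    refine shr2 _ _ _ _ (shr3 _) fun o => ?_
    refine shr2 _ _ _ _ (shr4 _ _ _ _ fun t => ?_) fun t => shr1 _ _
    exact shr2 _ _ _ _ (shr3 _) fun o' => shr1 _ _
  · intro a i s hi hout
    have h1 := out_bd hO hB (V a) (e a) (hE a) i s hout
    refine (sz_state (V a).2.length (e a) (j a) i s hi h1).trans ?_
    rw [GP_eval]
    exact GG_mono (hp1 a) (hp2 a) (hp3 a)

end Pool.Agent.W920.FD
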