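import Pool.Agent.W920.FD.Stm

set_option autoImplicit false

/-!
# Linear feasibility, small combinations of few reals: a stage in polynomial time
-/

namespace Pool.Agent.W920.FD

open Pool.Agent.NPC Pool.Agent.H558R2 Pool.Agent.H622R3.SM Pool.Agent.W920.FC

namespace TQSTG

variable {α β γ : Type} [TEnc α] [TEnc β] [TEnc γ]

/-- The entry number `n` of a list. -/
theorem getD' {l : α → List β} {n : α → ℕ} (d : β) (hl : Poly l) (hn : Poly n) :
    Poly (fun a => (l a).getD (n a) d) := NPC.Poly.getD (d := fun _ => d) hl hn (NPC.Poly.const d)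

/-- The sign of an outcome. -/
theorem osg_poly {o : α → Outcome} (ho : Poly o) : Poly (fun a => osg (o a)) := by
  have h1 : Poly (fun a => if o a = some true then (1 : ℤ) else if o a = none then 0 else -1) :=
    NPC.Poly.ite (NPC.Poly.decide_eq ho (NPC.Poly.const _)) (NPC.Poly.const _)
      (NPC.Poly.ite (NPC.Poly.decide_eq ho (NPC.Poly.const _)) (NPC.Poly.const _) (NPC.Poly.const _))
  refine h1.congr fun a => ?_
  rcases o a with _ | b
  · simp [osg]
  · cases b <;> simp [osg]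

/-- The signs of the forms. -/
theorem sgOf_poly {N : α → ℕ} {o : α → List Outcome} (hN : UPoly N) (ho : Poly o) :
    Poly (fun a => sgOf (N a) (o a)) :=
  NPC.Poly.map (F := fun a l => osg ((o a).getD l none)) hN.range
    (osg_poly (getD' none (ho.comp (NPC.Poly.fst NPC.Poly.id)) (NPC.Poly.snd NPC.Poly.id)))

/-- The first form of maximal absolute value. -/
theorem bestOf_poly {N : α → ℕ} {o : α → List Outcome} (hN : UPoly N) (ho : Poly o) :
    Poly (fun a => bestOf (N a) (o a)) := by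
  have h1 : Poly (fun p : (α × ℕ) × ℕ => N p.1.1) := hN.toPoly.comp (NPC.Poly.fst (NPC.Poly.fst NPC.Poly.id))
  have h2 : Poly (fun p : (α × ℕ) × ℕ => o p.1.1) := ho.comp (NPC.Poly.fst (NPC.Poly.fst NPC.Poly.id))
  have h3 : Poly (fun p : (α × ℕ) × ℕ => p.1.2) := NPC.Poly.snd (NPC.Poly.fst NPC.Poly.id)
  have h4 : Poly (fun p : (α × ℕ) × ℕ => p.2) := NPC.Poly.snd NPC.Poly.id
  have h5 : Poly (fun p : (α × ℕ) × ℕ => N p.1.1 + 2 * (p.1.2 * N p.1.1 + p.2)) :=
    NPC.Poly.add h1 (NPC.Poly.mul (NPC.Poly.const 2) (NPC.Poly.add (NPC.Poly.mul h3 h1) h4))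
  have h6 : Poly (fun p : α × ℕ => isMax (N p.1) (o p.1) p.2) :=
    NPC.Poly.all (l := fun p : α × ℕ => List.range (N p.1))
      (p := fun (p : α × ℕ) (l' : ℕ) => decide (0 ≤
        osg ((o p.1).getD (N p.1 + 2 * (p.2 * N p.1 + l')) none) *
          osg ((o p.1).getD (N p.1 + 2 * (p.2 * N p.1 + l') + 1) none)))
      (hN.range.comp (NPC.Poly.fst NPC.Poly.id))
      (NPC.Poly.ile (NPC.Poly.const 0) (NPC.Poly.imul (osg_poly (getD' none h2 h5))
        (osg_poly (getD' none h2 (NPC.Poly.succ h5)))))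
  have h7 : Poly (fun a => ((List.range (N a)).filter fun l => isMax (N a) (o a) l).head?) :=
    NPC.Poly.head? (NPC.Poly.filter (p := fun a l => isMax (N a) (o a) l) hN.range h6)
  exact (NPC.Poly.optCases h7 (NPC.Poly.const 0) (h := fun _ b => b) (NPC.Poly.snd NPC.Poly.id)).congr fun a => by
    unfold bestOf
    cases ((List.range (N a)).filter fun l => isMax (N a) (o a) l).head? <;> rfl

/-- The new increment and lower bounds. -/
theorem bisUpd_poly {N : α → ℕ} {s : α → ℕ × List ℕ} {o : α → List Outcome} (hN : UPoly N)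
    (hs : Poly s) (ho : Poly o) : Poly (fun a => bisUpd (N a) (s a) (o a)) := by
  have h1 : Poly (fun a => (s a).1 / 2) := NPC.Poly.div (NPC.Poly.fst hs) (NPC.Poly.const 2)
  have h2 : Poly (fun p : α × ℕ => (o p.1).getD p.2 none) :=
    getD' none (ho.comp (NPC.Poly.fst NPC.Poly.id)) (NPC.Poly.snd NPC.Poly.id)
  have h3 : Poly (fun p : α × ℕ => (s p.1).2.getD p.2 0) :=
    getD' 0 (NPC.Poly.snd (hs.comp (NPC.Poly.fst NPC.Poly.id))) (NPC.Poly.snd NPC.Poly.id)
  exact NPC.Poly.pair h1 (NPC.Poly.map (F := fun a l => if (o a).getD l none = some false then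
      (s a).2.getD l 0 else (s a).2.getD l 0 + (s a).1 / 2) hN.range
    (NPC.Poly.ite (NPC.Poly.decide_eq h2 (NPC.Poly.const _)) h3
      (NPC.Poly.add h3 (h1.comp (NPC.Poly.fst NPC.Poly.id)))))

/-- Comparison of the absolute values of all forms. -/
theorem cmpQs_poly (hQF : S_QF) (h4 : S_PP4) {V : α → VS} {F : α → List (List ℤ)} (hV : Poly V)
    (hF : Poly F) : Poly (fun a => cmpQs (V a) (F a)) := by
  have hN : UPoly (fun a => (V a).2.length) := UPoly.length (NPC.Poly.snd hV)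
  have hF1 : Poly (fun p : α × ℕ => (F p.1).getD p.2 []) :=
    getD' [] (hF.comp (NPC.Poly.fst NPC.Poly.id)) (NPC.Poly.snd NPC.Poly.id)
  have e1 : Poly (fun p : α × ℕ => fQ (V p.1) ((F p.1).getD p.2 [])) :=
    (hQF (α × ℕ) (fun p => V p.1) (hV.comp (NPC.Poly.fst NPC.Poly.id))).2.1 _ hF1
  have hpa : Poly (fun p : (α × ℕ) × ℕ => p.1.1) := NPC.Poly.fst (NPC.Poly.fst NPC.Poly.id)
  have hN2 : UPoly (fun p : (α × ℕ) × ℕ => (V p.1.1).2.length) := (UPoly.comp hN hpa :)
  have hC : Poly (fun p : (α × ℕ) × ℕ => (F p.1.1).getD p.1.2 []) :=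
    getD' [] (hF.comp hpa) (NPC.Poly.snd (NPC.Poly.fst NPC.Poly.id))
  have hD : Poly (fun p : (α × ℕ) × ℕ => (F p.1.1).getD p.2 []) :=
    getD' [] (hF.comp hpa) (NPC.Poly.snd NPC.Poly.id)
  have hq := (hQF ((α × ℕ) × ℕ) (fun p => V p.1.1) (hV.comp hpa)).2.1
  have hf1 := (h4 ((α × ℕ) × ℕ)).2 _ (fun _ => 1) (fun _ => -1) _ _ hN2 (NPC.Poly.const 1)
    (NPC.Poly.const (-1)) hC hD
  have hf2 := (h4 ((α × ℕ) × ℕ)).2 _ (fun _ => 1) (fun _ => 1) _ _ hN2 (NPC.Poly.const 1)
    (NPC.Poly.const 1) hC hD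
  have e2 := hq _ hf1
  have e3 := hq _ hf2
  exact NPC.Poly.append (NPC.Poly.map (F := fun a l => fQ (V a) ((F a).getD l []))
      hN.range e1)
    (NPC.Poly.flatMap (F := fun a l => (List.range (V a).2.length).flatMap fun l' =>
        [fQ (V a) (fcomb (V a).2.length 1 ((F a).getD l []) (-1) ((F a).getD l' [])),
          fQ (V a) (fcomb (V a).2.length 1 ((F a).getD l []) 1 ((F a).getD l' []))])
      hN.range
      (NPC.Poly.flatMap (F := fun (p : α × ℕ) l' =>
        [fQ (V p.1) (fcomb (V p.1).2.length 1 ((F p.1).getD p.2 []) (-1) ((F p.1).getD l' [])),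
          fQ (V p.1) (fcomb (V p.1).2.length 1 ((F p.1).getD p.2 []) 1 ((F p.1).getD l' []))])
        (hN.range.comp (NPC.Poly.fst NPC.Poly.id)) (NPC.Poly.cons e2 (NPC.Poly.cons e3 (NPC.Poly.const [])))))

/-- One step of the bisections. -/
theorem bisQs_poly (hQF : S_QF) (h4 : S_PP4) {V : α → VS} {P : α → ℕ}
    {F : α → List (List ℤ)} {sg : α → List ℤ} {best : α → ℕ}
    {s : α → ℕ × List ℕ} (hV : Poly V) (hP : UPoly P) (hF : Poly F) (hsg : Poly sg)
    (hb : Poly best) (hs : Poly s) :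
    Poly (fun a => bisQs (V a) (P a) (F a) (sg a) (best a) (s a)) := by
  have hN : UPoly (fun a => (V a).2.length) := UPoly.length (NPC.Poly.snd hV)
  have hpa : Poly (fun p : α × ℕ => p.1) := NPC.Poly.fst NPC.Poly.id
  have hpl : Poly (fun p : α × ℕ => p.2) := NPC.Poly.snd NPC.Poly.id
  have hC : Poly (fun p : α × ℕ => (F p.1).getD p.2 []) := getD' [] (hF.comp hpa) hpl
  have hD : Poly (fun p : α × ℕ => (F p.1).getD (best p.1) []) :=
    getD' [] (hF.comp hpa) (hb.comp hpa)
  have hc : Poly (fun p : α × ℕ => (2 : ℤ) ^ P p.1 * (sg p.1).getD p.2 0) :=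
    NPC.Poly.imul (NPC.Poly.ipow (NPC.Poly.const 2) (UPoly.comp hP hpa :))
      (getD' 0 (hsg.comp hpa) hpl)
  have hd1 : Poly (fun p : α × ℕ => (s p.1).2.getD p.2 0 + (s p.1).1 / 2) :=
    NPC.Poly.add (getD' 0 (NPC.Poly.snd (hs.comp hpa)) hpl)
      (NPC.Poly.div (NPC.Poly.fst (hs.comp hpa)) (NPC.Poly.const 2))
  have hd : Poly (fun p : α × ℕ => -((((s p.1).2.getD p.2 0 + (s p.1).1 / 2 : ℕ) : ℤ) *
      (sg p.1).getD (best p.1) 0)) :=
    NPC.Poly.ineg (NPC.Poly.imul (NPC.Poly.natCast hd1) (getD' 0 (hsg.comp hpa) (hb.comp hpa)))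
  have hf := (h4 (α × ℕ)).2 _ _ _ _ _ (UPoly.comp hN hpa :) hc hd hC hD
  have e1 := (hQF (α × ℕ) (fun p => V p.1) (hV.comp hpa)).2.1 _ hf
  exact NPC.Poly.map (F := fun a l => fQ (V a) (fcomb (V a).2.length
    (2 ^ P a * (sg a).getD l 0) ((F a).getD l [])
    (-((((s a).2.getD l 0 + (s a).1 / 2 : ℕ) : ℤ) * (sg a).getD (best a) 0))
    ((F a).getD (best a) []))) hN.range e1

/-- The invariant of the bisections, for arbitrary outcomes. -/
def Inv (N M : ℕ) (c : ℕ × List ℕ) : Prop := c.2.length = N ∧ ∀ l, c.2.getD l 0 + c.1 ≤ M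

theorem inv_zero (N M : ℕ) : Inv N M (M, (List.range N).map fun _ => 0) := by
  refine ⟨by simp, fun l => ?_⟩
  have : ((List.range N).map fun _ => 0).getD l 0 = 0 := by
    rw [List.getD_eq_getElem?_getD, List.getElem?_map]
    cases (List.range N)[l]? <;> rfl
  simp only [this]
  omega

theorem inv_upd (N M : ℕ) (c : ℕ × List ℕ) (o : List Outcome) (h : Inv N M c) :
    Inv N M (bisUpd N c o) := by
  refine ⟨by simp [bisUpd], fun l => ?_⟩
  have h1 := h.2 l
  simp only [bisUpd]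
  by_cases hl : l < N
  · rw [List.getD_eq_getElem?_getD, List.getElem?_map, List.getElem?_range hl]
    simp only [Option.map_some, Option.getD_some]
    split_ifs <;> omega
  · rw [List.getD_eq_getElem?_getD, List.getElem?_eq_none (by simp; omega)]
    simp only [Option.getD_none]
    omega

theorem inv_sz (N M : ℕ) (c : ℕ × List ℕ) (h : Inv N M c) :
    sz c ≤ 2 * sz M + (N * (2 * sz M + 1) + 1) + 1 := by
  obtain ⟨d, l⟩ := c
  obtain ⟨h1, h2⟩ := h
  simp only at h1 h2
  have h3 : sz d ≤ 2 * sz M := sz_nat_mono_le (by have := h2 0; omega)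
  have h4 : sz l ≤ l.length * (2 * sz M + 1) + 1 := sz_le_length_mul l _ fun a ha => by
    obtain ⟨i, hi, rfl⟩ := List.mem_iff_getElem.1 ha
    have h5 := h2 i
    rw [List.getD_eq_getElem _ _ hi] at h5
    exact sz_nat_mono_le (by omega)
  rw [h1] at h4
  rw [sz_pair]
  omega

/-- The states of the bisections. -/
theorem out_inv (hOUT : S_OUT) (N M : ℕ) (qs : ℕ × List ℕ → List Qry) (i : ℕ) :
    ∀ c : ℕ × List ℕ, Out (iter (fun t => bnd (batch (qs t)) fun o' => ret (bisUpd N t o')) i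
      (M, (List.range N).map fun _ => 0)) c → Inv N M c := by
  induction i with
  | zero =>
    intro c hc
    have := hOUT.1 _ _ _ hc
    subst this
    exact inv_zero N M
  | succ i ih =>
    intro c hc
    obtain ⟨b, hb1, hb2⟩ := hOUT.2.2.1 _ _ _ _ _ hc
    obtain ⟨o, _, ho⟩ := hOUT.2.1 _ _ _ _ _ hb2
    have := hOUT.1 _ _ _ ho
    subst this
    exact inv_upd N M b o (ih b hb1)

end TQSTG

open TQSTG in
/-- A stage in polynomial time. -/
theorem t_QSTG : S_OUT → S_PT → S_PTITER → S_QF → S_PP3 → S_PP4 → S_QFIN → S_QSTG := by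
  intro hOUT hPT hIT hQF h3 h4 hF α _ V e s hV he hs
  obtain ⟨hret, hbnd, hbatch⟩ := hPT
  have hN : UPoly (fun a => (V a).2.length) := UPoly.length (NPC.Poly.snd hV)
  have hP : UPoly (fun a => ((V a).2.length + 1) * e a) :=
    UPoly.mul (UPoly.add hN (UPoly.const 1)) he
  have h2P : Poly (fun a => 2 ^ (((V a).2.length + 1) * e a)) := (h3 α).1 _ hP
  have hs1 : Poly (fun a => (s a).2.1) := NPC.Poly.fst (NPC.Poly.snd hs)
  -- the contexts
  have hp : Poly (fun p : α × List Outcome => p.1) := NPC.Poly.fst NPC.Poly.id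
  have hsg : Poly (fun p : α × List Outcome => sgOf ((V p.1).2.length) p.2) :=
    sgOf_poly (UPoly.comp hN hp :) (NPC.Poly.snd NPC.Poly.id)
  have hbe : Poly (fun p : α × List Outcome => bestOf ((V p.1).2.length) p.2) :=
    bestOf_poly (UPoly.comp hN hp :) (NPC.Poly.snd NPC.Poly.id)
  -- the steps of the bisections
  have hstep : PT (fun q : (α × List Outcome) × (ℕ × List ℕ) =>
      bnd (batch (bisQs (V q.1.1) (((V q.1.1).2.length + 1) * e q.1.1) (s q.1.1).2.1
        (sgOf (V q.1.1).2.length q.1.2) (bestOf (V q.1.1).2.length q.1.2) q.2))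
        fun o' => ret (bisUpd (V q.1.1).2.length q.2 o')) := by
    have hq : Poly (fun q : (α × List Outcome) × (ℕ × List ℕ) => q.1) := NPC.Poly.fst NPC.Poly.id
    refine hbnd _ _ _ _ (fun (q : (α × List Outcome) × (ℕ × List ℕ)) (o' : List Outcome) =>
      ret (bisUpd (V q.1.1).2.length q.2 o')) (hbatch _ _ ?_) ?_
    · exact bisQs_poly hQF h4 (hV.comp (NPC.Poly.fst hq))
        (UPoly.comp hP (NPC.Poly.fst hq) :)
        (hs1.comp (NPC.Poly.fst hq)) (hsg.comp hq) (hbe.comp hq) (NPC.Poly.snd NPC.Poly.id)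
    · have hu : NPC.Poly (fun u : ((α × List Outcome) × (ℕ × List ℕ)) × List Outcome =>
          u.1.1.1) := NPC.Poly.fst (NPC.Poly.fst (NPC.Poly.fst NPC.Poly.id))
      exact hret _ _ _ (bisUpd_poly (UPoly.comp hN hu :)
        (NPC.Poly.snd (NPC.Poly.fst NPC.Poly.id)) (NPC.Poly.snd NPC.Poly.id))
  have hiter : PT (fun p : α × List Outcome =>
      iter (fun t => bnd (batch (bisQs (V p.1) (((V p.1).2.length + 1) * e p.1) (s p.1).2.1
        (sgOf (V p.1).2.length p.2) (bestOf (V p.1).2.length p.2) t))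
        fun o' => ret (bisUpd (V p.1).2.length t o')) (((V p.1).2.length + 1) * e p.1)
        (2 ^ (((V p.1).2.length + 1) * e p.1), (List.range (V p.1).2.length).map fun _ => 0)) := by
    refine hIT (α × List Outcome) (ℕ × List ℕ) (fun p t =>
      bnd (batch (bisQs (V p.1) (((V p.1).2.length + 1) * e p.1) (s p.1).2.1
        (sgOf (V p.1).2.length p.2) (bestOf (V p.1).2.length p.2) t))
        fun o' => ret (bisUpd (V p.1).2.length t o')) (fun p => ((V p.1).2.length + 1) * e p.1)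
      (fun p => (2 ^ (((V p.1).2.length + 1) * e p.1), (List.range (V p.1).2.length).map fun _ => 0))
      hstep (UPoly.comp hP hp :) ?_ ?_ ?_
    · exact NPC.Poly.pair (h2P.comp hp) (NPC.Poly.map (F := fun _ _ => 0) (hN.range.comp hp)
        (NPC.Poly.const 0))
    · intro a t
      exact hOUT.2.2.2.2.1 _ _ _ _ (hOUT.2.2.2.2.2.1 _) fun b => hOUT.2.2.2.1 _ _
    · obtain ⟨q, hq⟩ := (h2P.comp hp).sz_le
      obtain ⟨r, hr'⟩ := NPC.Poly.sz_le (UPoly.comp hN hp :)
      refine ⟨Polynomial.C 2 * q + (r * (Polynomial.C 2 * q + Polynomial.C 1) + Polynomial.C 1) +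
        Polynomial.C 1, fun p i c _ hc => ?_⟩
      have e1 := inv_sz _ _ c (out_inv hOUT _ _ _ i c hc)
      have e2 := hq p
      have e3 : sz (List.replicate ((V p.1).2.length) ()) ≤ r.eval (sz p) := hr' p
      have e4 := length_lt_sz (List.replicate ((V p.1).2.length) ())
      rw [List.length_replicate] at e4
      have e5 : (V p.1).2.length ≤ r.eval (sz p) := by omega
      have e6 : (V p.1).2.length * (2 * sz (2 ^ (((V p.1).2.length + 1) * e p.1)) + 1) ≤
          r.eval (sz p) * (2 * q.eval (sz p) + 1) := Nat.mul_le_mul e5 (by omega)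
      simp only [Polynomial.eval_add, Polynomial.eval_mul, Polynomial.eval_C]
      omega
  refine hbnd _ _ _ _ (fun (a : α) (o : List Outcome) =>
    bnd (iter (fun t => bnd (batch (bisQs (V a) (((V a).2.length + 1) * e a) (s a).2.1
      (sgOf (V a).2.length o) (bestOf (V a).2.length o) t))
      fun o' => ret (bisUpd (V a).2.length t o')) (((V a).2.length + 1) * e a)
        (2 ^ (((V a).2.length + 1) * e a), (List.range (V a).2.length).map fun _ => 0)) fun t =>
      ret (finish (V a).2.length (e a) (s a) (sgOf (V a).2.length o)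
        (bestOf (V a).2.length o) t.2))
    (hbatch _ _ (cmpQs_poly hQF h4 hV hs1)) ?_
  refine hbnd _ _ _ _ (fun (p : α × List Outcome) (t : ℕ × List ℕ) =>
    ret (finish (V p.1).2.length (e p.1) (s p.1) (sgOf (V p.1).2.length p.2)
        (bestOf (V p.1).2.length p.2) t.2)) hiter ?_
  have hq : Poly (fun q : (α × List Outcome) × (ℕ × List ℕ) => q.1) := NPC.Poly.fst NPC.Poly.id
  exact hret _ _ _ (hF _ _ _ _ _ _ _ (UPoly.comp hN (NPC.Poly.fst hq) :)
    (UPoly.comp he (NPC.Poly.fst hq) :) (hs.comp (NPC.Poly.fst hq))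
    (hsg.comp hq) (hbe.comp hq) (NPC.Poly.snd (NPC.Poly.snd NPC.Poly.id)))

end Pool.Agent.W920.FD
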