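import Pool.Agent.W920.FD.Stm

set_option autoImplicit false

/-! Polynomial time: the vectors and the sizes (helper290; after `FC/T_PP1.lean` of helper162). -/

namespace Pool.Agent.W920.FD

open Pool.Agent.NPC Pool.Agent.H558R2 Pool.Agent.H622R3.SM Pool.Agent.W920.FC

namespace TQV

variable {α : Type} [TEnc α]

theorem pInstr (o : Op) {f g k : α → Reg} (hf : Poly f) (hg : Poly g) (hk : Poly k) :
    Poly (fun a => Instr.mk o (f a) (g a) (k a)) :=
  Pool.Agent.NPC.Poly.of_toT (Pool.Agent.NPC.Poly.toT' (Pool.Agent.NPC.Poly.pair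
    (Pool.Agent.NPC.Poly.const (opCode o))
    (Pool.Agent.NPC.Poly.pair hf (Pool.Agent.NPC.Poly.pair hg hk))))

attribute [local fun_prop] pInstr Poly.range_length

theorem uPow {n : α → ℕ} (hn : UPoly n) (j : ℕ) : UPoly (fun a => n a ^ j) := by
  have h := UPoly.eval hn (Polynomial.X ^ j)
  simpa using h

theorem pExpStep {E : α → List (List ℕ)} {R : α → List ℕ} (hE : Poly E) (hR : Poly R) :
    Poly (fun a => (R a).flatMap fun d => (E a).map fun e => d :: e) := by
  fun_prop

theorem pExps (j : ℕ) {n : α → ℕ} (hn : UPoly n) : Poly (fun a => exps (n a) j) := by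
  induction j with
  | zero => exact NPC.Poly.const _
  | succ j ih =>
    have h1 : Poly (fun a => List.range (n a + 1)) := (UPoly.add hn (UPoly.const 1)).range
    exact pExpStep ih h1

theorem pPoss {U W : α → List Unit} (hU : Poly U) (hW : Poly W) :
    Poly (fun a => poss (U a).length (W a).length) := by
  unfold poss
  fun_prop

theorem pCandStep {R C : α → List (List ℕ)} (hR : Poly R) (hC : Poly C) :
    Poly (fun a => (R a).flatMap fun x => (C a).map fun y => (x, y)) := by
  fun_prop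

theorem pCands (k : ℕ) {U W : α → List Unit} (hU : Poly U) (hW : Poly W) :
    Poly (fun a => cands k (U a).length (W a).length) :=
  pCandStep (pExps k (UPoly.length hU)) (pExps k (UPoly.length hW))

theorem pV0 {U W : α → List Unit} {c : α → Cand} (hU : Poly U) (hW : Poly W) (hc : Poly c) :
    Poly (fun a => V0 (U a).length (W a).length (c a)) := by
  have h1 := pPoss hU hW
  unfold V0
  fun_prop

theorem pScP (hQF : S_QF) (k : ℕ) {V : α → VS} {recs : α → List (List ℤ × ℕ)} (hV : Poly V)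
    (hr : Poly recs) : Poly (fun a => scP k (V a) (recs a)) := by
  unfold scP
  refine Poly.flatMap (NPC.Poly.const _) ?_
  exact (hQF (α × ℕ) (fun _ => ([], [])) (NPC.Poly.const _)).1 52 (fun p => p.2)
    (fun p => (V p.1).2) (fun p => ((recs p.1).getD p.2 ([], 0)).1) (by fun_prop) (by fun_prop)
    (by fun_prop)

theorem pPowStep (k : ℕ) {L : α → List ℕ} {N : α → ℕ} (hL : Poly L) (hN : Poly N) :
    Poly (fun a => (List.range k).flatMap fun r => (⟨Op.add, [30, r, 0], [2], [3]⟩ : Instr) ::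
      (L a).map fun t => (⟨Op.mul, [30, r, t + 1], [30, r, t], [52, r, N a]⟩ : Instr)) := by
  fun_prop

theorem pPowP (k : ℕ) {s N : α → ℕ} (hs : UPoly s) (hN : Poly N) :
    Poly (fun a => powP k (s a) (N a)) := pPowStep k hs.range hN

theorem pBreg {d : α → ℕ} (hd : Poly d) : Poly (fun a => breg (d a)) := by
  unfold breg
  fun_prop

theorem pSlotR (k : ℕ) {c : α → Cand} {u d : α → ℕ} (hc : Poly c) (hu : Poly u) (hd : Poly d) :
    Poly (fun a => slotR k (c a) (u a) (d a)) := by
  unfold slotR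
  fun_prop

attribute [local fun_prop] pBreg pSlotR

theorem pMonP (k : ℕ) {s : α → ℕ} {c : α → Cand} (hs : UPoly s) (hc : Poly c) :
    Poly (fun a => monP k (s a) (c a)) := by
  have h1 := pExps (3 * k + 1) hs
  unfold monP
  fun_prop

theorem pV1 (hQF : S_QF) (k : ℕ) {U W : α → List Unit} {x : α → Cand × List (List ℤ × ℕ)}
    (hU : Poly U) (hW : Poly W) (hx : Poly x) :
    Poly (fun a => V1 k (U a).length (W a).length (x a)) := by
  have hs : UPoly (fun a => (U a).length + (W a).length) :=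
    UPoly.add (UPoly.length hU) (UPoly.length hW)
  have h0 := pV0 hU hW (Poly.fst hx)
  have h1 := pScP hQF k h0 (Poly.snd hx)
  have h2 : Poly (fun a => powP k ((U a).length + (W a).length)
      (V0 (U a).length (W a).length (x a).1).2.length) :=
    pPowP k hs (Poly.length (Poly.snd h0))
  have h3 := pMonP k hs (Poly.fst hx)
  have h4 := pExps (3 * k + 1) hs
  unfold V1
  refine Poly.pair (Poly.append h1 (Poly.append h2 h3)) ?_
  fun_prop

theorem uE0 (k : ℕ) {s : α → ℕ} (hs : UPoly s) : UPoly (fun a => E0 k (s a)) :=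
  UPoly.add (UPoly.add (UPoly.add (UPoly.mul (UPoly.const k) (uPow hs k))
    (UPoly.const ((k + 1) * (k + 1)))) (UPoly.mul (UPoly.const 2)
      (UPoly.add (UPoly.mul hs hs) (UPoly.const 1)))) (UPoly.const 4)

theorem uP0 (k : ℕ) {s : α → ℕ} (hs : UPoly s) : UPoly (fun a => P0 k (s a)) :=
  UPoly.mul (UPoly.add (UPoly.mul hs hs) (UPoly.const 2)) (uE0 k hs)

theorem uh1 (k : ℕ) {s : α → ℕ} (hs : UPoly s) : UPoly (fun a => h1 k (s a)) :=
  UPoly.add (UPoly.mul hs hs) (UPoly.mul hs (UPoly.add (UPoly.const k)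
    (UPoly.mul (uP0 k hs) (UPoly.const (k * k + 1)))))

theorem uN1 (k : ℕ) {s : α → ℕ} (hs : UPoly s) : UPoly (fun a => N1 k (s a)) :=
  uPow (UPoly.add hs (UPoly.const 1)) (3 * k + 1)

theorem uE1 (k : ℕ) {s : α → ℕ} (hs : UPoly s) : UPoly (fun a => E1 k (s a)) :=
  UPoly.add (UPoly.add (uh1 k hs) (UPoly.mul (UPoly.const 2) (uN1 k hs))) (UPoly.const 4)

theorem uP1 (k : ℕ) {s : α → ℕ} (hs : UPoly s) : UPoly (fun a => P1 k (s a)) :=
  UPoly.mul (UPoly.add (uN1 k hs) (UPoly.const 1)) (uE1 k hs)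

theorem uQ1 (k : ℕ) {s : α → ℕ} (hs : UPoly s) : UPoly (fun a => Q1 k (s a)) :=
  UPoly.add (UPoly.add (uh1 k hs) (uP1 k hs)) (UPoly.const 3)

theorem uZ1 (k : ℕ) {s : α → ℕ} (hs : UPoly s) : UPoly (fun a => Z1 k (s a)) :=
  UPoly.mul (uN1 k hs) (UPoly.mul (uN1 k hs)
    (UPoly.add (UPoly.mul (UPoly.const 2) (uQ1 k hs)) (UPoly.const 1)))

theorem uR1 (k : ℕ) {U W : α → List Unit} (hU : Poly U) (hW : Poly W) :
    UPoly (fun a => R1 k (U a).length (W a).length) :=
  UPoly.add (UPoly.mul (UPoly.add (UPoly.add (UPoly.length hU)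
    (UPoly.add (UPoly.length hW) (UPoly.length hW))) (UPoly.const 1))
    (uZ1 k (UPoly.add (UPoly.length hU) (UPoly.length hW)))) (UPoly.const 1)

end TQV

theorem t_QV : ∀ k, S_QF → S_QV k := by
  intro k hQF α _ U W hU hW
  have hs : UPoly (fun a => (U a).length + (W a).length) :=
    UPoly.add (UPoly.length hU) (UPoly.length hW)
  exact ⟨TQV.pCands k hU hW, fun c hc => TQV.pV0 hU hW hc, fun x hx => TQV.pV1 hQF k hU hW hx,
    TQV.uE0 k hs, TQV.uE1 k hs, TQV.uN1 k hs, TQV.uQ1 k hs, TQV.uR1 k hU hW⟩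

end Pool.Agent.W920.FD
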