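import Pool.Agent.W920.FD.Stm

set_option autoImplicit false

/-!
# Small combinations of `k` reals: the residue vanishes after `k` stages
-/

namespace Pool.Agent.W920.FD

open Pool.Agent.NPC Pool.Agent.H558R2 Pool.Agent.H622R3.SM Pool.Agent.W920.FC

namespace TRANK

section

attribute [local instance] Matrix.seminormedAddCommGroup

/-- Siegel's lemma. -/
theorem siegel (k B : ℕ) (A : Fin k → Fin (k + 1) → ℤ) (hA : ∀ r c, (A r c).natAbs ≤ 2 ^ B) :
    ∃ t : Fin (k + 1) → ℤ, t ≠ 0 ∧ (∀ r, ∑ c, A r c * t c = 0) ∧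
      ∑ c, (t c).natAbs ≤ 2 ^ (k * B + (k + 1) * (k + 1)) := by
  rcases Nat.eq_zero_or_pos k with hk | hk
  · subst hk
    refine ⟨fun _ => 1, ?_, fun r => r.elim0, ?_⟩
    · intro h
      have := congrFun h 0
      simp at this
    · simp
  · obtain ⟨t, h1, h2, h3⟩ := Int.Matrix.exists_ne_zero_int_vec_norm_le
      (Matrix.of A) (by simp) (by simpa using hk)
    refine ⟨t, h1, fun r => congrFun h2 r, ?_⟩
    have hnA : ‖Matrix.of A‖ ≤ 2 ^ B := by
      rw [Matrix.norm_le_iff (by positivity)]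
      intro r c
      rw [Matrix.of_apply, Int.norm_eq_abs, ← Int.cast_abs, ← Nat.cast_natAbs]
      exact_mod_cast hA r c
    have hmax : max 1 ‖Matrix.of A‖ ≤ 2 ^ B := max_le (one_le_pow₀ one_le_two) hnA
    have hexp : ((Fintype.card (Fin k) : ℝ) /
        ((Fintype.card (Fin (k + 1)) : ℝ) - Fintype.card (Fin k))) = k := by
      simp
    rw [hexp, Real.rpow_natCast, Fintype.card_fin] at h3
    have h4 : ‖t‖ ≤ (((k + 1 : ℕ) : ℝ) * 2 ^ B) ^ k := by
      refine h3.trans (pow_le_pow_left₀ (by positivity) ?_ k)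
      exact mul_le_mul_of_nonneg_left hmax (by positivity)
    have h5 : ∀ c, (t c).natAbs ≤ ((k + 1) * 2 ^ B) ^ k := by
      intro c
      have h6 := (norm_le_pi_norm t c).trans h4
      rw [Int.norm_eq_abs, ← Int.cast_abs, ← Nat.cast_natAbs] at h6
      exact_mod_cast h6
    have h7 : k + 1 ≤ 2 ^ (k + 1) := Nat.lt_two_pow_self.le
    calc ∑ c, (t c).natAbs ≤ ∑ _c : Fin (k + 1), ((k + 1) * 2 ^ B) ^ k :=
          Finset.sum_le_sum fun c _ => h5 c
      _ = (k + 1) * ((k + 1) * 2 ^ B) ^ k := by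
          rw [Finset.sum_const, Finset.card_univ, Fintype.card_fin, smul_eq_mul]
      _ = (k + 1) ^ (k + 1) * 2 ^ (k * B) := by
          rw [mul_pow, ← pow_mul, Nat.mul_comm B k]
          ring
      _ ≤ (2 ^ (k + 1)) ^ (k + 1) * 2 ^ (k * B) :=
          Nat.mul_le_mul_right _ (Nat.pow_le_pow_left h7 _)
      _ = 2 ^ (k * B + (k + 1) * (k + 1)) := by
          rw [← pow_mul, ← pow_add, Nat.add_comm]

end

/-- The coefficients vanish one after the other. -/
theorem coeff {κ : Type} [Fintype κ] (k h : ℕ) (t : κ → ℤ) (w : κ → ℝ) (sc : ℕ → ℝ)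
    (v : ℕ → κ → ℤ) (ht : ∑ c, (t c).natAbs ≤ 2 ^ h) (hw : ∑ c, (t c : ℝ) * w c = 0)
    (hsc : ∀ i < k, 0 < sc i)
    (hv : ∀ i < k, ∀ c, |w c - ∑ i' ∈ Finset.range (i + 1), sc i' * v i' c| ≤
      sc i / 2 ^ (h + 1)) : ∀ i < k, ∑ c, t c * v i c = 0 := by
  intro i
  induction i using Nat.strong_induction_on with
  | _ i ih =>
    intro hi
    have h1 : ∑ c, (t c : ℝ) * (w c - ∑ i' ∈ Finset.range (i + 1), sc i' * v i' c) =
        -(sc i * ((∑ c, t c * v i c : ℤ) : ℝ)) := by
      have h2 : ∀ i', i' < i → ∑ c, (t c : ℝ) * (sc i' * v i' c) = 0 := by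
        intro i' hi'
        have h3 := ih i' hi' (hi'.trans hi)
        have h4 : ∑ c, (t c : ℝ) * (sc i' * v i' c) = sc i' * ((∑ c, t c * v i' c : ℤ) : ℝ) := by
          push_cast
          rw [Finset.mul_sum]
          exact Finset.sum_congr rfl fun c _ => by ring
        rw [h4, h3]
        simp
      have h5 : ∑ c, (t c : ℝ) * ∑ i' ∈ Finset.range (i + 1), sc i' * v i' c =
          sc i * ((∑ c, t c * v i c : ℤ) : ℝ) := by
        have h6 : ∑ c, (t c : ℝ) * ∑ i' ∈ Finset.range (i + 1), sc i' * v i' c =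
            ∑ i' ∈ Finset.range (i + 1), ∑ c, (t c : ℝ) * (sc i' * v i' c) := by
          rw [Finset.sum_comm]
          exact Finset.sum_congr rfl fun c _ => Finset.mul_sum _ _ _
        rw [h6, Finset.sum_range_succ,
          Finset.sum_eq_zero fun i' hi' => h2 i' (Finset.mem_range.1 hi'), zero_add]
        push_cast
        rw [Finset.mul_sum]
        exact Finset.sum_congr rfl fun c _ => by ring
      simp only [mul_sub]
      rw [Finset.sum_sub_distrib, hw, h5, zero_sub]
    have h7 : |∑ c, (t c : ℝ) * (w c - ∑ i' ∈ Finset.range (i + 1), sc i' * v i' c)| ≤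
        sc i / 2 := by
      refine (Finset.abs_sum_le_sum_abs _ _).trans ?_
      have h8 : ∀ c, |(t c : ℝ) * (w c - ∑ i' ∈ Finset.range (i + 1), sc i' * v i' c)| ≤
          ((t c).natAbs : ℝ) * (sc i / 2 ^ (h + 1)) := by
        intro c
        rw [abs_mul, Nat.cast_natAbs, Int.cast_abs]
        exact mul_le_mul_of_nonneg_left (hv i hi c) (abs_nonneg _)
      refine (Finset.sum_le_sum fun c _ => h8 c).trans ?_
      rw [← Finset.sum_mul]
      have h9 : (∑ c, ((t c).natAbs : ℝ)) ≤ 2 ^ h := by exact_mod_cast ht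
      have h10 : 0 ≤ sc i / 2 ^ (h + 1) := div_nonneg (hsc i hi).le (by positivity)
      refine (mul_le_mul_of_nonneg_right h9 h10).trans (le_of_eq ?_)
      rw [pow_succ]
      field_simp
    rw [h1, abs_neg, abs_mul, abs_of_pos (hsc i hi)] at h7
    by_contra hne
    have h11 : (1 : ℝ) ≤ |((∑ c, t c * v i c : ℤ) : ℝ)| := by
      have := Int.one_le_abs hne
      exact_mod_cast this
    have h12 := hsc i hi
    nlinarith

/-- Triangularity. -/
theorem tri (k : ℕ) (t : Fin (k + 1) → ℤ) (ht : t ≠ 0) (hl : t (Fin.last k) = 0)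
    (v : ℕ → Fin (k + 1) → ℤ) (h1 : ∀ c : Fin (k + 1), (c : ℕ) < k → v c c ≠ 0)
    (h2 : ∀ c c' : Fin (k + 1), (c' : ℕ) < k → c < c' → v c' c = 0)
    (h3 : ∀ i < k, ∑ c, t c * v i c = 0) : False := by
  have hne : (Finset.univ.filter fun c => t c ≠ 0).Nonempty := by
    by_contra h
    rw [Finset.not_nonempty_iff_eq_empty, Finset.filter_eq_empty_iff] at h
    apply ht
    funext c
    have := h (Finset.mem_univ c)
    simpa using this
  obtain ⟨c0, hc0, hmax⟩ := Finset.exists_max_image _ (fun c : Fin (k + 1) => c) hne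
  rw [Finset.mem_filter] at hc0
  have hck : (c0 : ℕ) < k := by
    rcases lt_or_eq_of_le (Nat.lt_succ_iff.1 c0.2) with h | h
    · exact h
    · exfalso
      apply hc0.2
      have : c0 = Fin.last k := Fin.ext h
      rw [this, hl]
  have h4 := h3 c0 hck
  rw [Finset.sum_eq_single c0] at h4
  · rcases mul_eq_zero.1 h4 with h | h
    · exact hc0.2 h
    · exact h1 c0 hck h
  · intro c _ hc
    rcases lt_or_gt_of_ne hc with h | h
    · rw [h2 c c0 hck h, mul_zero]
    · have : t c = 0 := by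
        by_contra hcon
        exact absurd (hmax c (Finset.mem_filter.2 ⟨Finset.mem_univ _, hcon⟩)) (not_le.2 h)
      rw [this, zero_mul]
  · intro h
    exact absurd (Finset.mem_univ _) h

end TRANK

open TRANK in
theorem t_RANK : S_RANK := by
  intro k B N E h w s θ M hInv hM hw hh l0 hl0
  obtain ⟨_, hD, hrec, _, hor, v, piv, hv1, hv2, hv3, hpiv⟩ := hInv
  by_contra hres
  have hlen : s.1.length = k := by
    rcases hor with h1 | h1
    · exact h1
    · exact absurd (h1 l0 hl0) hres
  rw [hlen] at hv1 hv2 hv3 hpiv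
  -- the coordinates
  set idx : Fin (k + 1) → ℕ := fun c => if (c : ℕ) < k then piv c else l0 with hidx
  have hidx1 : ∀ c : Fin (k + 1), (c : ℕ) < k → idx c = piv c := fun c hc => if_pos hc
  have hidx2 : idx (Fin.last k) = l0 := if_neg (by simp)
  have hidxN : ∀ c, idx c < N := by
    intro c
    by_cases hc : (c : ℕ) < k
    · rw [hidx1 c hc]
      exact (hpiv c hc).1
    · rw [hidx]
      dsimp only
      rw [if_neg hc]
      exact hl0
  obtain ⟨t, ht0, ht1, ht2⟩ := siegel k B (fun r c => M r (idx c))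
    (fun r c => hM r r.2 _ (hidxN c))
  have htw : ∑ c, (t c : ℝ) * w (idx c) = 0 := by
    have h1 : ∑ c, (t c : ℝ) * w (idx c) =
        ∑ r ∈ Finset.range k, ∑ c, (t c : ℝ) * (θ r * M r (idx c)) := by
      rw [Finset.sum_comm]
      refine Finset.sum_congr rfl fun c _ => ?_
      rw [hw _ (hidxN c), Finset.mul_sum]
    rw [h1]
    refine Finset.sum_eq_zero fun r hr => ?_
    have h2 := ht1 ⟨r, Finset.mem_range.1 hr⟩
    have h3 : ∑ c, (t c : ℝ) * (θ r * M r (idx c)) =
        θ r * ((∑ c, M r (idx c) * t c : ℤ) : ℝ) := by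
      push_cast
      rw [Finset.mul_sum]
      exact Finset.sum_congr rfl fun c _ => by ring
    rw [h3, h2]
    simp
  have hsc : ∀ i < k, 0 < scl N w s.1 i := by
    intro i hi
    have hmem : s.1.getD i ([], 0) ∈ s.1 := by
      rw [List.getD_eq_getElem _ _ (hlen ▸ hi)]
      exact List.getElem_mem _
    obtain ⟨h1, h2⟩ := hrec _ hmem
    unfold scl
    have h3 : (0 : ℝ) < ((s.1.getD i ([], 0)).2 : ℝ) := by exact_mod_cast h1
    exact div_pos h2 h3
  have hco := coeff k h t (fun c => w (idx c)) (scl N w s.1) (fun i c => v i (idx c))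
    (ht2.trans (Nat.pow_le_pow_right (by norm_num) hh)) htw hsc
    (fun i hi c => hv3 i hi _ (hidxN c))
  -- the residue
  have htl : t (Fin.last k) = 0 := by
    have hD0 : (0 : ℝ) < (s.2.2 : ℝ) := by exact_mod_cast hD
    have h1 : ∑ c, (t c : ℝ) * (evF N w (s.2.1.getD (idx c) []) / s.2.2) = 0 := by
      have h2 : ∀ c, (t c : ℝ) * (evF N w (s.2.1.getD (idx c) []) / s.2.2) =
          (t c : ℝ) * w (idx c) -
            ∑ i ∈ Finset.range k, (t c : ℝ) * (scl N w s.1 i * v i (idx c)) := by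
        intro c
        rw [← Finset.mul_sum]
        have h3 := hv2 _ (hidxN c)
        have h4 : evF N w (s.2.1.getD (idx c) []) / (s.2.2 : ℝ) =
            w (idx c) - ∑ i ∈ Finset.range k, scl N w s.1 i * v i (idx c) := by
          rw [h3]
          ring
        rw [h4]
        ring
      rw [Finset.sum_congr rfl fun c _ => h2 c, Finset.sum_sub_distrib, htw, zero_sub,
        neg_eq_zero, Finset.sum_comm]
      refine Finset.sum_eq_zero fun i hi => ?_
      have h5 : ∑ c, (t c : ℝ) * (scl N w s.1 i * v i (idx c)) =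
          scl N w s.1 i * ((∑ c, t c * v i (idx c) : ℤ) : ℝ) := by
        push_cast
        rw [Finset.mul_sum]
        exact Finset.sum_congr rfl fun c _ => by ring
      rw [h5, hco i (Finset.mem_range.1 hi)]
      simp
    rw [Finset.sum_eq_single (Fin.last k)] at h1
    · rw [hidx2] at h1
      rcases mul_eq_zero.1 h1 with h2 | h2
      · exact_mod_cast h2
      · exfalso
        rcases div_eq_zero_iff.1 h2 with h3 | h3
        · exact hres h3
        · exact hD0.ne' h3
    · intro c _ hc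
      have hck : (c : ℕ) < k := by
        rcases lt_or_eq_of_le (Nat.lt_succ_iff.1 c.2) with h2 | h2
        · exact h2
        · exact absurd (Fin.ext h2) hc
      rw [hidx1 c hck, (hpiv c hck).2.2.1]
      simp
    · intro h2
      exact absurd (Finset.mem_univ _) h2
  refine tri k t ht0 htl (fun i c => v i (idx c)) ?_ ?_ hco
  · intro c hc
    rw [hidx1 c hc]
    exact (hpiv c hc).2.1
  · intro c c' hc' hcc
    have hck : (c : ℕ) < k := lt_trans hcc hc'
    rw [hidx1 c hck]
    exact (hpiv c hck).2.2.2 c' hc' hcc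

end Pool.Agent.W920.FD
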