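import Pool.Agent.W920.FD.Stm

set_option autoImplicit false

/-! # Sizes: forms and ratios -/

namespace Pool.Agent.W920.FD

open Pool.Agent.NPC Pool.Agent.H558R2 Pool.Agent.H622R3.SM Pool.Agent.W920.FC

namespace TSZ1

theorem zipIdx_get {α : Type} {l : List α} {p : α × ℕ} (hp : p ∈ l.zipIdx) (d : α) :
    p.2 < l.length ∧ l.getD p.2 d = p.1 := by
  obtain ⟨a, i⟩ := p
  rw [List.mem_zipIdx_iff_getElem?] at hp
  obtain ⟨hi, he⟩ := List.getElem?_eq_some_iff.mp hp
  exact ⟨hi, by rw [List.getD_eq_getElem _ _ hi]; exact he⟩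

theorem fm_small {p : Pa} {B : ℕ} (h : SmallP B p.L) (c : ℕ) : SmallL B (p.fm c) := by
  have h1 : ∀ j, SmallL B (p.L.getD j ([], [])).1 ∧ SmallL B (p.L.getD j ([], [])).2 := by
    intro j
    by_cases hj : j < p.L.length
    · rw [List.getD_eq_getElem _ _ hj]
      exact h _ (List.getElem_mem hj)
    · rw [List.getD_eq_default _ _ (by omega)]
      constructor <;> intro x hx <;> simp at hx
  unfold Pa.fm
  split_ifs
  · exact (h1 _).1
  · exact (h1 _).2

theorem formVal (p : Pa) (c : ℕ) : FormVal (vr p) 32 c p.V.2.length p.w (p.fm c) :=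
  ⟨fun _ _ => rfl, fun _ _ _ => ⟨rfl, rfl⟩⟩

theorem mem_last (c : ℕ) (regs : List Reg) (C : List ℤ) :
    ∃ I ∈ formP 32 c regs C, I.dst = [32, c, regs.length] := by
  unfold formP
  rcases Nat.eq_zero_or_pos regs.length with h | h
  · refine ⟨_, List.mem_cons_self, ?_⟩
    rw [h]
  · refine ⟨(if C.getD (regs.length - 1) 0 < 0 then
        (⟨Op.sub, [32, c, regs.length - 1 + 1], [32, c, regs.length - 1],
          [32 + 1, c, regs.length - 1, (C.getD (regs.length - 1) 0).natAbs.bits.length]⟩ : Instr)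
      else ⟨Op.add, [32, c, regs.length - 1 + 1], [32, c, regs.length - 1],
          [32 + 1, c, regs.length - 1, (C.getD (regs.length - 1) 0).natAbs.bits.length]⟩), ?_, ?_⟩
    · rw [List.mem_cons, List.mem_flatMap]
      right
      refine ⟨regs.length - 1, List.mem_range.2 (by omega), ?_⟩
      rw [List.mem_append]
      right
      exact List.mem_singleton.2 rfl
    · have e : regs.length - 1 + 1 = regs.length := by omega
      split_ifs <;> simp only [e]

theorem qb_div {D β : ℕ} {v w : ℝ} (hD1 : 1 ≤ D)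
    (hv : ∃ z : ℤ, z.natAbs ≤ 2 ^ β ∧ v * D = z) (hw : ∃ z : ℤ, z.natAbs ≤ 2 ^ β ∧ w * D = z)
    (hw0 : w ≠ 0) : QB β (v / w) := by
  obtain ⟨a, ha, ha'⟩ := hv
  obtain ⟨b, hb, hb'⟩ := hw
  have hDe : (D : ℝ) ≠ 0 := by
    have : D ≠ 0 := by omega
    exact_mod_cast this
  have hb0 : b ≠ 0 := by
    intro h
    rw [h, Int.cast_zero] at hb'
    exact (mul_ne_zero hw0 hDe) hb'
  have hb0' : (b : ℝ) ≠ 0 := by exact_mod_cast hb0
  have hvw : v / w = a / b := by
    rw [← ha', ← hb', mul_div_mul_right _ _ hDe]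
  refine ⟨b.natAbs, a * b.sign, Int.natAbs_pos.mpr hb0, hb, ?_, ?_⟩
  · rw [Int.natAbs_mul, Int.natAbs_sign_of_ne_zero hb0, mul_one]
    exact ha
  · rw [hvw]
    have h0 : ((b.natAbs : ℕ) : ℤ) = b.sign * b := by
      rw [Int.natCast_natAbs, Int.sign_mul_self_eq_abs]
    have h1 : ((b.natAbs : ℕ) : ℝ) = ((b.sign * b : ℤ) : ℝ) := by
      rw [← h0, Int.cast_natCast]
    rw [h1]
    push_cast
    field_simp

end TSZ1

open TSZ1 in
theorem t_SZ1 : S_FORM → S_SZ1 := by
  rintro ⟨-, hF, -⟩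
  refine ⟨Polynomial.X + 2, ?_⟩
  intro p B β D hOK hCD hL
  obtain ⟨hD1, hD2, hD3⟩ := hCD
  have hev : (Polynomial.X + 2 : Polynomial ℕ).eval (p.V.2.length + B + β) =
      B + β + p.V.2.length + 2 := by
    have : (Polynomial.X + 2 : Polynomial ℕ) = Polynomial.X + Polynomial.C 2 := rfl
    rw [this, Polynomial.eval_add, Polynomial.eval_X, Polynomial.eval_C]
    omega
  rw [hev]
  have key : ∀ c, ∀ I ∈ formP 32 c p.V.2 (p.fm c), ∃ z : ℤ,
      z.natAbs ≤ 2 ^ (B + β + p.V.2.length + 2) ∧ vr p I.dst * D = z := fun c =>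
    hF (vr p) 32 c p.V.2 p.w (p.fm c) D B β (formVal p c) (fm_small hL c) hD3
  have form : ∀ c, ∀ I ∈ formP 32 c p.V.2 (p.fm c),
      QB (B + β + p.V.2.length + 2) (vr p I.dst) := by
    intro c I hI
    obtain ⟨z, hz, hz'⟩ := key c I hI
    exact ⟨D, z, hD1, hD2.trans (Nat.pow_le_pow_right (by norm_num) (by omega)), hz, hz'⟩
  refine ⟨form, ?_⟩
  intro hne I hI
  unfold ratP at hI
  rw [List.mem_flatMap] at hI
  obtain ⟨u, hu, hI⟩ := hI
  obtain ⟨hu1, hu2⟩ := zipIdx_get hu ([], [])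
  have e1 : p.fm (2 * u.2) = u.1.1 := by
    unfold Pa.fm
    rw [if_pos (by omega), show 2 * u.2 / 2 = u.2 by omega, hu2]
  have e2 : p.fm (2 * u.2 + 1) = u.1.2 := by
    unfold Pa.fm
    rw [if_neg (by omega), show (2 * u.2 + 1) / 2 = u.2 by omega, hu2]
  rw [List.mem_append, List.mem_append, List.mem_singleton] at hI
  rcases hI with hI | hI | rfl
  · rw [← e1] at hI
    exact form _ I hI
  · rw [← e2] at hI
    exact form _ I hI
  · have hmem : u.1 ∈ p.L := by
      rw [← hu2, List.getD_eq_getElem _ _ hu1]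
      exact List.getElem_mem hu1
    obtain ⟨I1, hI1, hd1⟩ := mem_last (2 * u.2) p.V.2 (p.fm (2 * u.2))
    obtain ⟨I2, hI2, hd2⟩ := mem_last (2 * u.2 + 1) p.V.2 (p.fm (2 * u.2 + 1))
    have h3 := key _ I1 hI1
    have h4 := key _ I2 hI2
    rw [hd1] at h3
    rw [hd2] at h4
    have g3 : vr p [32, 2 * u.2, p.V.2.length] = evF p.V.2.length p.w u.1.1 := by
      rw [← e1]; rfl
    have g4 : vr p [32, 2 * u.2 + 1, p.V.2.length] = evF p.V.2.length p.w u.1.2 := by
      rw [← e2]; rfl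
    rw [g3] at h3
    rw [g4] at h4
    have g5 : vr p [35, u.2] = evF p.V.2.length p.w u.1.1 / evF p.V.2.length p.w u.1.2 := by
      show p.W u.2 = _
      unfold Pa.W rt
      rw [hu2]
    show QB _ (vr p [35, u.2])
    rw [g5]
    exact qb_div hD1 h3 h4 (hne _ hmem)

end Pool.Agent.W920.FD
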