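import Pool.Agent.W920.FD.Stm

set_option autoImplicit false

/-!
# A common denominator of the weighted matrix
-/

namespace Pool.Agent.W920.FD

open Pool.Agent.NPC Pool.Agent.H558R2 Pool.Agent.H622R3.SM Pool.Agent.W920.FC

namespace TSZ2

/-- `v * D` is an integer at most `2 ^ β` in absolute value. -/
def IB (D β : ℕ) (v : ℝ) : Prop := ∃ z : ℤ, z.natAbs ≤ 2 ^ β ∧ v * D = z

theorem IB.one {D β : ℕ} (h : D ≤ 2 ^ β) : IB D β 1 := ⟨D, by simpa using h, by simp⟩

theorem IB.sum {D β B : ℕ} {c : ℕ → ℤ} {w : ℕ → ℝ} (hc : ∀ i, (c i).natAbs ≤ 2 ^ B)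
    (N : ℕ) (h : ∀ i < N, IB D β (w i)) :
    ∃ z : ℤ, z.natAbs ≤ N * 2 ^ (B + β) ∧ (∑ i ∈ Finset.range N, (c i : ℝ) * w i) * D = z := by
  induction N with
  | zero => exact ⟨0, by simp, by simp⟩
  | succ N ih =>
    obtain ⟨z, h1, h2⟩ := ih fun i hi => h i (Nat.lt_succ_of_lt hi)
    obtain ⟨z', h1', h2'⟩ := h N (Nat.lt_succ_self N)
    refine ⟨z + c N * z', ?_, ?_⟩
    · refine (Int.natAbs_add_le _ _).trans ?_
      rw [Int.natAbs_mul, Nat.succ_mul]
      refine Nat.add_le_add h1 ?_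
      rw [pow_add]
      exact Nat.mul_le_mul (hc N) h1'
    · rw [Finset.sum_range_succ]
      push_cast
      rw [← h2, ← h2']
      ring

theorem getD_mem {α : Type} (L : List α) (i : ℕ) (d : α) : L.getD i d ∈ L ∨ L.getD i d = d := by
  by_cases h : i < L.length
  · left
    rw [List.getD_eq_getElem _ _ h]
    exact List.getElem_mem h
  · right
    rw [List.getD_eq_default _ _ (by omega)]

theorem evF_IB {β D B N : ℕ} {w : ℕ → ℝ} (hw : ∀ l < N, IB D β (w l)) (C : List ℤ)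
    (hC : SmallL B C) : IB D (N + (B + β)) (evF N w C) := by
  have hc : ∀ i, (C.getD i 0).natAbs ≤ 2 ^ B := by
    intro i
    rcases getD_mem C i 0 with h | h
    · exact hC _ h
    · rw [h]; simp
  obtain ⟨z, h1, h2⟩ := IB.sum (c := fun i => C.getD i 0) hc N hw
  refine ⟨z, h1.trans ?_, h2⟩
  rw [pow_add 2 N]
  exact Nat.mul_le_mul_right _ Nat.lt_two_pow_self.le

theorem Rv_IB {lam D : ℕ} {g : Reg → ℝ} (hD : D ≤ 2 ^ lam)
    (hg : ∀ r ∈ baseReg, IB D lam (g r)) (m n i j : ℕ) : IB D lam (Rv m n g i j) := by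
  have h0 : IB D lam (0 : ℝ) := ⟨0, by simp, by simp⟩
  have hneg : ∀ v, IB D lam v → IB D lam (-v) := by
    rintro v ⟨z, h1, h2⟩
    refine ⟨-z, by simpa using h1, ?_⟩
    push_cast
    rw [← h2]
    ring
  unfold Rv
  split_ifs
  · exact IB.one hD
  · exact h0
  · apply hneg
    apply hg
    unfold baseReg
    simp
  · apply hg
    unfold baseReg
    simp
  · apply hg
    unfold baseReg
    simp

end TSZ2

open TSZ2 in
theorem t_SZ2 : S_SZ2 := by
  refine ⟨Polynomial.X + (2 * Polynomial.X + 2) * Polynomial.X, ?_⟩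
  intro p B β D' _ hCD hRB hP hlen hne
  obtain ⟨hD'1, hD'2, hw⟩ := hCD
  obtain ⟨D, hD1, hD2, hg⟩ := hRB
  set N := p.V.2.length with hN
  set S := p.m + p.n + N + B + β with hS
  have hq : (Polynomial.X + (2 * Polynomial.X + 2) * Polynomial.X : Polynomial ℕ).eval S =
      S + (2 * S + 2) * S := by simp
  rw [hq]
  set γ := N + (B + β) with hγ
  have hγle : γ ≤ S := by omega
  -- the forms
  have hu : ∀ j < cK p.m p.n, p.L.getD j ([], []) ∈ p.L := by
    intro j hj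
    rcases getD_mem p.L j ([], []) with h | _
    · exact h
    · rw [List.getD_eq_getElem _ _ (by omega)]
      exact List.getElem_mem _
  have hD' : (D' : ℝ) ≠ 0 := by
    have : 0 < D' := hD'1
    exact_mod_cast this.ne'
  have hX : ∀ j, ∃ z : ℤ, j < cK p.m p.n → z.natAbs ≤ 2 ^ γ ∧
      evF N p.w (p.L.getD j ([], [])).1 * (D' : ℝ) = z := by
    intro j
    by_cases hj : j < cK p.m p.n
    · obtain ⟨z, h1, h2⟩ := evF_IB hw _ (hP _ (hu j hj)).1
      exact ⟨z, fun _ => ⟨h1, h2⟩⟩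
    · exact ⟨0, fun h => absurd h hj⟩
  have hY : ∀ j, ∃ z : ℤ, j < cK p.m p.n → z.natAbs ≤ 2 ^ γ ∧ z ≠ 0 ∧
      evF N p.w (p.L.getD j ([], [])).2 * (D' : ℝ) = z := by
    intro j
    by_cases hj : j < cK p.m p.n
    · obtain ⟨z, h1, h2⟩ := evF_IB hw _ (hP _ (hu j hj)).2
      refine ⟨z, fun _ => ⟨h1, ?_, h2⟩⟩
      rintro rfl
      have h3 := hne _ (hu j hj)
      apply mul_ne_zero h3 hD'
      have h2' : evF N p.w (p.L.getD j ([], [])).2 * (D' : ℝ) = ((0 : ℤ) : ℝ) := h2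
      rw [Int.cast_zero] at h2'
      exact h2'
    · exact ⟨0, fun h => absurd h hj⟩
  choose X hX using hX
  choose Y hY using hY
  -- the denominator
  have hprod : ∀ s : Finset ℕ, s ⊆ Finset.range (cK p.m p.n) →
      ∏ l ∈ s, (Y l).natAbs ≤ 2 ^ (cK p.m p.n * γ) := by
    intro s hs
    calc ∏ l ∈ s, (Y l).natAbs ≤ ∏ _l ∈ s, 2 ^ γ :=
          Finset.prod_le_prod' fun l hl => (hY l (Finset.mem_range.1 (hs hl))).1
      _ = 2 ^ (γ * s.card) := by rw [Finset.prod_const, ← pow_mul]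
      _ ≤ 2 ^ (cK p.m p.n * γ) := by
        apply Nat.pow_le_pow_right (by norm_num)
        rw [mul_comm]
        apply Nat.mul_le_mul_right
        have := Finset.card_le_card hs
        rwa [Finset.card_range] at this
  have hKS : cK p.m p.n ≤ 2 * S + 1 := by unfold cK; omega
  have hfinal : β + (γ + cK p.m p.n * γ) ≤ S + (2 * S + 2) * S := by
    have h1 : (cK p.m p.n + 1) * γ ≤ (2 * S + 2) * S :=
      Nat.mul_le_mul (by omega) hγle
    have h2 : (cK p.m p.n + 1) * γ = γ + cK p.m p.n * γ := by ring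
    omega
  refine ⟨D * ∏ l ∈ Finset.range (cK p.m p.n), (Y l).natAbs, ?_, ?_, ?_⟩
  · have : 0 < ∏ l ∈ Finset.range (cK p.m p.n), (Y l).natAbs :=
      Finset.prod_pos fun l hl => Int.natAbs_pos.2 (hY l (Finset.mem_range.1 hl)).2.1
    exact Nat.mul_pos hD1 this
  · calc D * ∏ l ∈ Finset.range (cK p.m p.n), (Y l).natAbs ≤ 2 ^ β * 2 ^ (cK p.m p.n * γ) :=
          Nat.mul_le_mul hD2 (hprod _ (Finset.Subset.refl _))
      _ = 2 ^ (β + cK p.m p.n * γ) := (pow_add _ _ _).symm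
      _ ≤ 2 ^ (S + (2 * S + 2) * S) :=
          Nat.pow_le_pow_right (by norm_num) (by omega)
  · intro i _ j hj
    obtain ⟨R, hR1, hR2⟩ := Rv_IB hD2 hg p.m p.n i j
    obtain ⟨hx1, hx2⟩ := hX j hj
    obtain ⟨hy1, hy0, hy2⟩ := hY j hj
    refine ⟨R * (X j * ((Y j).sign *
      ∏ l ∈ (Finset.range (cK p.m p.n)).erase j, (((Y l).natAbs : ℕ) : ℤ))), ?_, ?_⟩
    · rw [Int.natAbs_mul, Int.natAbs_mul, Int.natAbs_mul]
      have hs : (Y j).sign.natAbs = 1 := Int.natAbs_sign_of_ne_zero hy0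
      rw [hs, one_mul]
      have hp : (∏ l ∈ (Finset.range (cK p.m p.n)).erase j, (((Y l).natAbs : ℕ) : ℤ)).natAbs ≤
          2 ^ (cK p.m p.n * γ) := by
        have h1 : (∏ l ∈ (Finset.range (cK p.m p.n)).erase j, (((Y l).natAbs : ℕ) : ℤ)) =
            ((∏ l ∈ (Finset.range (cK p.m p.n)).erase j, (Y l).natAbs : ℕ) : ℤ) := by
          push_cast
          rfl
        rw [h1, Int.natAbs_natCast]
        exact hprod _ (Finset.erase_subset _ _)
      calc R.natAbs * ((X j).natAbs *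
            (∏ l ∈ (Finset.range (cK p.m p.n)).erase j, (((Y l).natAbs : ℕ) : ℤ)).natAbs)
          ≤ 2 ^ β * (2 ^ γ * 2 ^ (cK p.m p.n * γ)) :=
            Nat.mul_le_mul hR1 (Nat.mul_le_mul hx1 hp)
        _ = 2 ^ (β + (γ + cK p.m p.n * γ)) := by rw [pow_add 2 β, pow_add 2 γ]
        _ ≤ _ := Nat.pow_le_pow_right (by norm_num) hfinal
    · have hW : p.W j = (X j : ℝ) / (Y j : ℝ) := by
        rw [← hx2, ← hy2]
        unfold Pa.W rt
        rw [mul_div_mul_right _ _ hD']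
      have hy0' : ((Y j : ℤ) : ℝ) ≠ 0 := by exact_mod_cast hy0
      have hsgn : (((Y j).natAbs : ℕ) : ℝ) / ((Y j : ℤ) : ℝ) = (((Y j).sign : ℤ) : ℝ) := by
        rw [div_eq_iff hy0']
        have h1 := Int.sign_mul_self_eq_natAbs (Y j)
        have h2 : (((Y j).natAbs : ℕ) : ℝ) = (((((Y j).natAbs : ℕ) : ℤ)) : ℝ) :=
          (Int.cast_natCast _).symm
        rw [h2, ← h1, Int.cast_mul]
      have hpc : ((∏ l ∈ (Finset.range (cK p.m p.n)).erase j, (((Y l).natAbs : ℕ) : ℤ) : ℤ) : ℝ) =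
          ((∏ l ∈ (Finset.range (cK p.m p.n)).erase j, (Y l).natAbs : ℕ) : ℝ) := by
        rw [Int.cast_prod, Nat.cast_prod]
        exact Finset.prod_congr rfl fun _ _ => Int.cast_natCast _
      rw [hW, ← Finset.mul_prod_erase _ _ (Finset.mem_range.2 hj), Int.cast_mul, Int.cast_mul,
        Int.cast_mul, hpc, ← hR2, ← hsgn, Nat.cast_mul, Nat.cast_mul]
      generalize ((∏ l ∈ (Finset.range (cK p.m p.n)).erase j, (Y l).natAbs : ℕ) : ℝ) = b
      generalize (((Y j).natAbs : ℕ) : ℝ) = a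
      field_simp

end Pool.Agent.W920.FD
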