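import Pool.Agent.W920.FD.Stm

set_option autoImplicit false

namespace Pool.Agent.W920.FD

open Pool.Agent.NPC Pool.Agent.H558R2 Pool.Agent.H622R3.SM Pool.Agent.W920.FC

namespace TSZ3

theorem QB_mono {β γ : ℕ} {v : ℝ} (h : QB β v) (hβ : β ≤ γ) : QB γ v := by
  obtain ⟨E, z, h1, h2, h3, h4⟩ := h
  have h5 : 2 ^ β ≤ 2 ^ γ := Nat.pow_le_pow_right (by norm_num) hβ
  exact ⟨E, z, h1, h2.trans h5, h3.trans h5, h4⟩

theorem Rv_bd {β : ℕ} {g : Reg → ℝ} (hb : Base g) (hr : RB β g) (m n : ℕ) :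
    ∃ D : ℕ, 1 ≤ D ∧ D ≤ 2 ^ β ∧ ∀ i j, ∃ z : ℤ, z.natAbs ≤ 2 ^ β ∧ Rv m n g i j * D = z := by
  obtain ⟨D, h1, h2, h3⟩ := hr
  refine ⟨D, h1, h2, fun i j => ?_⟩
  unfold Rv
  split_ifs with c1 c2 c3 c4
  · have := h3 [2] (by show (2 : ℕ) < 4; norm_num)
    rwa [hb.1] at this
  · exact ⟨0, by simp, by simp⟩
  · obtain ⟨z, hz1, hz2⟩ := h3 [0, i, j - m] (by show (0 : ℕ) < 4; norm_num)
    refine ⟨-z, by simpa using hz1, ?_⟩
    push_cast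
    rw [← hz2]; ring
  · exact h3 [0, i, j - m - n] (by show (0 : ℕ) < 4; norm_num)
  · exact h3 [1, i] (by show (1 : ℕ) < 4; norm_num)

theorem sumZ (m : ℕ) (f : ℕ → ℝ) (E : ℝ) (B : ℕ)
    (h : ∀ i < m, ∃ z : ℤ, z.natAbs ≤ B ∧ f i * E = z) :
    ∀ k ≤ m, ∃ z : ℤ, z.natAbs ≤ k * B ∧ (∑ i ∈ Finset.range k, f i) * E = z := by
  intro k
  induction k with
  | zero => intro _; exact ⟨0, by simp, by simp⟩
  | succ k ih =>
    intro hk
    obtain ⟨z, hz1, hz2⟩ := ih (by omega)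
    obtain ⟨z', hz1', hz2'⟩ := h k (by omega)
    refine ⟨z + z', ?_, ?_⟩
    · have := Int.natAbs_add_le z z'
      rw [Nat.add_mul, one_mul]
      omega
    · rw [Finset.sum_range_succ, add_mul, hz2, hz2']
      push_cast; rfl

theorem mul_bd (m β : ℕ) : m * (2 ^ β * 2 ^ β) + 2 ^ β * 2 ^ β ≤ 2 ^ (m + 2 * β) := by
  have h1 : m + 1 ≤ 2 ^ m := Nat.lt_two_pow_self
  have h2 : 2 ^ (m + 2 * β) = 2 ^ m * (2 ^ β * 2 ^ β) := by
    rw [pow_add, two_mul, pow_add]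
  rw [h2]
  nlinarith [Nat.zero_le (2 ^ β * 2 ^ β)]

end TSZ3

open TSZ3

theorem t_SZ3 : S_SZ3 := by
  refine ⟨Polynomial.C 2 * Polynomial.X, ?_⟩
  intro p β E hok hr hE1 hE2 hM
  have hb := hok.1
  have hq : ∀ x : ℕ, (Polynomial.C 2 * Polynomial.X : Polynomial ℕ).eval x = 2 * x := by
    intro x; simp
  rw [hq]
  set Q := 2 * (p.m + p.n + β) with hQ
  have hQ1 : 2 ^ (p.m + 2 * β) ≤ 2 ^ Q := Nat.pow_le_pow_right (by norm_num) (by omega)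
  have hmul := mul_bd p.m β
  have hEE1 : 1 ≤ E * E := Nat.one_le_iff_ne_zero.2 (by positivity)
  have hEE : E * E ≤ 2 ^ β * 2 ^ β := Nat.mul_le_mul hE2 hE2
  -- the products
  have hprod : ∀ j < cK p.m p.n, ∀ l < cK p.m p.n, ∀ i < p.m,
      ∃ z : ℤ, z.natAbs ≤ 2 ^ β * 2 ^ β ∧
        ((Rv p.m p.n p.g i j * p.W j) * (Rv p.m p.n p.g i l * p.W l)) * ((E * E : ℕ) : ℝ) = z := by
    intro j hj l hl i hi
    obtain ⟨z, hz1, hz2⟩ := hM i hi j hj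
    obtain ⟨z', hz1', hz2'⟩ := hM i hi l hl
    refine ⟨z * z', ?_, ?_⟩
    · rw [Int.natAbs_mul]; exact Nat.mul_le_mul hz1 hz1'
    · push_cast
      rw [← hz2, ← hz2']; ring
  have hsum : ∀ j < cK p.m p.n, ∀ l < cK p.m p.n, ∀ k ≤ p.m,
      ∃ z : ℤ, z.natAbs ≤ k * (2 ^ β * 2 ^ β) ∧
        (∑ i ∈ Finset.range k, (Rv p.m p.n p.g i j * p.W j) * (Rv p.m p.n p.g i l * p.W l)) *
          ((E * E : ℕ) : ℝ) = z := fun j hj l hl =>
    sumZ p.m _ _ _ (fun i hi => hprod j hj l hl i hi)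
  have hG : ∀ i j, ∃ z : ℤ, z.natAbs ≤ 2 ^ Q ∧ p.G i j * ((E * E : ℕ) : ℝ) = z := by
    intro i j
    obtain ⟨z, hz1, hz2⟩ := hsum i i.2 j j.2 p.m le_rfl
    refine ⟨z + (if decide ((i : ℕ) = j) && p.drop.getD i false then ((E * E : ℕ) : ℤ) else 0),
      ?_, ?_⟩
    · refine (Int.natAbs_add_le _ _).trans ?_
      have h2 : (if decide ((i : ℕ) = j) && p.drop.getD i false then ((E * E : ℕ) : ℤ)
          else 0).natAbs ≤ 2 ^ β * 2 ^ β := by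
        split_ifs
        · rw [Int.natAbs_natCast]; exact hEE
        · simp
      omega
    · show GMat p.m p.n p.g p.W p.drop i j * _ = _
      unfold GMat
      rw [add_mul, hz2]
      push_cast
      split_ifs <;> simp
  refine ⟨?_, hG⟩
  -- denominators of base registers
  obtain ⟨D, hD1, hD2, hD3⟩ := Rv_bd hb hr p.m p.n
  have hβQ : 2 ^ β ≤ 2 ^ Q := Nat.pow_le_pow_right (by norm_num) (by omega)
  have h2βQ : 2 ^ β * 2 ^ β ≤ 2 ^ Q := by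
    have : 2 ^ β * 2 ^ β ≤ p.m * (2 ^ β * 2 ^ β) + 2 ^ β * 2 ^ β := Nat.le_add_left _ _
    omega
  intro I hI
  rw [List.mem_append] at hI
  rcases hI with hI | hI
  · unfold matProg at hI
    simp only [List.mem_flatMap, List.mem_range, List.mem_cons, List.not_mem_nil, or_false] at hI
    obtain ⟨i, hi, j, hj, rfl | rfl⟩ := hI
    · have e : (entProg p.m p.n i j).dst = [36, i, j] := by
        unfold entProg; split_ifs <;> rfl
      rw [e]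
      obtain ⟨z, hz1, hz2⟩ := hD3 i j
      exact ⟨D, z, hD1, hD2.trans hβQ, hz1.trans hβQ, hz2⟩
    · obtain ⟨z, hz1, hz2⟩ := hM i hi j hj
      exact ⟨E, z, hE1, hE2.trans hβQ, hz1.trans hβQ, hz2⟩
  · unfold gramProg at hI
    simp only [List.mem_flatMap, List.mem_range, List.mem_append, List.mem_cons,
      List.not_mem_nil, or_false] at hI
    obtain ⟨j, hj, l, hl, (rfl | ⟨i, hi, rfl | rfl⟩) | rfl⟩ := hI
    · obtain ⟨z, hz1, hz2⟩ := hsum j hj l hl 0 (Nat.zero_le _)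
      exact ⟨E * E, z, hEE1, hEE.trans h2βQ, by omega, hz2⟩
    · obtain ⟨z, hz1, hz2⟩ := hprod j hj l hl i hi
      exact ⟨E * E, z, hEE1, hEE.trans h2βQ, hz1.trans h2βQ, hz2⟩
    · obtain ⟨z, hz1, hz2⟩ := hsum j hj l hl (i + 1) hi
      refine ⟨E * E, z, hEE1, hEE.trans h2βQ, ?_, hz2⟩
      have : (i + 1) * (2 ^ β * 2 ^ β) ≤ p.m * (2 ^ β * 2 ^ β) := Nat.mul_le_mul_right _ hi
      omega
    · show QB Q (ent p.G j l)
      unfold ent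
      rw [dif_pos ⟨hj, hl⟩]
      obtain ⟨z, hz1, hz2⟩ := hG ⟨j, hj⟩ ⟨l, hl⟩
      exact ⟨E * E, z, hEE1, hEE.trans h2βQ, hz1, hz2⟩

end Pool.Agent.W920.FD
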