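import Pool.Agent.W920.FD.Stm

set_option autoImplicit false

/-!
# Task SZ4: sizes of the Faddeev-LeVerrier matrices and scalar products
-/

namespace Pool.Agent.W920.FD

open Pool.Agent.NPC Pool.Agent.H558R2 Pool.Agent.H622R3.SM Pool.Agent.W920.FC

namespace TSZ4

open Matrix

section Bounds

variable {K D H : ℕ} {G : Matrix (Fin K) (Fin K) ℝ} (hG : ∀ i j, IB (G i j) D H)

include hG

theorem g_prod (k : ℕ) (i l j : Fin K)
    (hN : IB (flN G k l j) (k.factorial * D ^ k) ((2 * K ^ 3 * H) ^ k)) :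
    IB (G i l * flN G k l j) (k.factorial * D ^ (k + 1)) (H * (2 * K ^ 3 * H) ^ k) := by
  have h := (hG i l).mul hN
  have e : D * (k.factorial * D ^ k) = k.factorial * D ^ (k + 1) := by ring
  rwa [e] at h

theorem g_T (k : ℕ) (i j : Fin K)
    (hN : ∀ l, IB (flN G k l j) (k.factorial * D ^ k) ((2 * K ^ 3 * H) ^ k)) :
    IB ((G * flN G k) i j) (k.factorial * D ^ (k + 1)) (K * (H * (2 * K ^ 3 * H) ^ k)) := by
  rw [Matrix.mul_apply]
  refine (IB.sum Finset.univ fun l _ => g_prod hG k i l j (hN l)).mono ?_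
  simp

theorem g_Q (k : ℕ)
    (hN : ∀ l j, IB (flN G k l j) (k.factorial * D ^ k) ((2 * K ^ 3 * H) ^ k)) :
    IB (trace (G * flN G k) / ((k : ℝ) + 1))
      ((k + 1).factorial * D ^ (k + 1)) (K * (K * (H * (2 * K ^ 3 * H) ^ k))) := by
  have h1 : IB (trace (G * flN G k)) (k.factorial * D ^ (k + 1))
      (K * (K * (H * (2 * K ^ 3 * H) ^ k))) := by
    unfold Matrix.trace
    simp only [Matrix.diag_apply]
    refine (IB.sum Finset.univ fun i _ => g_T hG k i i fun l => hN l i).mono ?_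
    simp
  have h := h1.div (k + 1) (by omega)
  have e : k.factorial * D ^ (k + 1) * (k + 1) = (k + 1).factorial * D ^ (k + 1) := by
    rw [Nat.factorial_succ]; ring
  rw [e] at h
  push_cast at h
  exact h

theorem g_N (hK : 1 ≤ K) (k : ℕ) (hk : k ≤ K) : ∀ i j,
    IB (flN G k i j) (k.factorial * D ^ k) ((2 * K ^ 3 * H) ^ k) := by
  induction k with
  | zero =>
    intro i j
    rw [flN, one_apply]
    split_ifs
    · exact ⟨1, by simp, by simp⟩
    · exact ⟨0, by simp, by simp⟩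
  | succ k ih =>
    intro i j
    have ih' := ih (by omega)
    have e0 : flN G (k + 1) i j = (G * flN G k) i j -
        (if i = j then trace (G * flN G k) / ((k : ℝ) + 1) else 0) := by
      rw [flN, Matrix.sub_apply, Matrix.smul_apply, smul_eq_mul, Matrix.one_apply]
      split_ifs <;> simp
    rw [e0]
    have h1 := (g_T hG k i j (fun l => ih' l j)).scale (k + 1)
    have e : k.factorial * D ^ (k + 1) * (k + 1) = (k + 1).factorial * D ^ (k + 1) := by
      rw [Nat.factorial_succ]; ring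
    rw [e] at h1
    have h2 : IB (if i = j then trace (G * flN G k) / ((k : ℝ) + 1) else 0)
        ((k + 1).factorial * D ^ (k + 1)) (K * (K * (H * (2 * K ^ 3 * H) ^ k))) := by
      split_ifs
      · exact g_Q hG k ih'
      · exact IB.zero _ _
    refine (h1.sub h2).mono ?_
    have e1 : K * (H * (2 * K ^ 3 * H) ^ k) * (k + 1) ≤ K * (H * (2 * K ^ 3 * H) ^ k) * K :=
      Nat.mul_le_mul_left _ hk
    have e2 : K * (H * (2 * K ^ 3 * H) ^ k) * K + K * (K * (H * (2 * K ^ 3 * H) ^ k)) =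
        (2 * K ^ 2 * H) * (2 * K ^ 3 * H) ^ k := by ring
    have e3 : 2 * K ^ 2 * H ≤ 2 * K ^ 3 * H := by
      apply Nat.mul_le_mul_right
      apply Nat.mul_le_mul_left
      exact Nat.pow_le_pow_right hK (by omega)
    calc K * (H * (2 * K ^ 3 * H) ^ k) * (k + 1) + K * (K * (H * (2 * K ^ 3 * H) ^ k))
        ≤ K * (H * (2 * K ^ 3 * H) ^ k) * K + K * (K * (H * (2 * K ^ 3 * H) ^ k)) := by omega
      _ = (2 * K ^ 2 * H) * (2 * K ^ 3 * H) ^ k := e2
      _ ≤ (2 * K ^ 3 * H) * (2 * K ^ 3 * H) ^ k := Nat.mul_le_mul_right _ e3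
      _ = (2 * K ^ 3 * H) ^ (k + 1) := by ring

theorem c4 (i j : ℕ) : IB (ent G i j) D H := by
  unfold ent
  split_ifs
  · exact hG _ _
  · exact IB.zero _ _

theorem c6 (hK : 1 ≤ K) {k : ℕ} (hk : k ≤ K) (i j : ℕ) :
    IB (ent (flN G k) i j) (k.factorial * D ^ k) ((2 * K ^ 3 * H) ^ k) := by
  unfold ent
  split_ifs
  · exact g_N hG hK k hk _ _
  · exact IB.zero _ _

theorem c7 (hK : 1 ≤ K) {k : ℕ} (hk : k ≤ K) (i j l : ℕ) :
    IB (ent G i l * ent (flN G k) l j)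
      (k.factorial * D ^ (k + 1)) (H * (2 * K ^ 3 * H) ^ k) := by
  have h1 := (c4 hG i l).mul (c6 hG hK hk l j)
  have e : D * (k.factorial * D ^ k) = k.factorial * D ^ (k + 1) := by ring
  rwa [e] at h1

theorem c8 (hK : 1 ≤ K) {k : ℕ} (hk : k ≤ K) (i j : ℕ) {l : ℕ} (hl : l ≤ K) :
    IB (∑ l' ∈ Finset.range l, ent G i l' * ent (flN G k) l' j)
      (k.factorial * D ^ (k + 1)) (K * (H * (2 * K ^ 3 * H) ^ k)) := by
  refine (IB.sum (Finset.range l) fun l' _ => c7 hG hK hk i j l').mono ?_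
  rw [Finset.card_range]
  exact Nat.mul_le_mul_right _ hl

theorem c9 (hK : 1 ≤ K) {k : ℕ} (hk : k ≤ K) {i : ℕ} (hi : i ≤ K) :
    IB (∑ i' ∈ Finset.range i, ∑ l ∈ Finset.range K, ent G i' l * ent (flN G k) l i')
      (k.factorial * D ^ (k + 1)) (K * (K * (H * (2 * K ^ 3 * H) ^ k))) := by
  refine (IB.sum (Finset.range i) fun i' _ => c8 hG hK hk i' i' le_rfl).mono ?_
  rw [Finset.card_range]
  exact Nat.mul_le_mul_right _ hi

theorem c10 (hK : 1 ≤ K) {k : ℕ} (hk : k ≤ K) :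
    IB (cVal G k) ((k + 1).factorial * D ^ (k + 1))
      (K * (K * (H * (2 * K ^ 3 * H) ^ k))) := by
  have h1 := (c9 hG hK hk le_rfl).div (k + 1) (by omega)
  have e : k.factorial * D ^ (k + 1) * (k + 1) = (k + 1).factorial * D ^ (k + 1) := by
    rw [Nat.factorial_succ]; ring
  rw [e] at h1
  push_cast at h1
  exact h1

theorem c41 (hK : 1 ≤ K) {k : ℕ} (hk : k ≤ K) (j l : ℕ) {T y : ℕ} (hy : y ≤ T) :
    IB (ent (flN G k) j l * (y : ℝ)) (k.factorial * D ^ k) ((2 * K ^ 3 * H) ^ k * T) := by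
  have h2 : IB ((y : ℕ) : ℝ) 1 T := ⟨(y : ℤ), by simp, by
    rw [abs_of_nonneg (by positivity)]
    exact_mod_cast hy⟩
  have h1 := (c6 hG hK hk j l).mul h2
  rwa [mul_one] at h1

theorem c42 (hK : 1 ≤ K) {k : ℕ} (hk : k ≤ K) (j : ℕ) {T : ℕ} {y : List ℕ}
    (hy : ∀ l < K, y.getD l 0 ≤ T) {l : ℕ} (hl : l ≤ K) :
    IB (∑ l' ∈ Finset.range l, ent (flN G k) j l' * ((y.getD l' 0 : ℕ) : ℝ))
      (k.factorial * D ^ k) (K * ((2 * K ^ 3 * H) ^ k * T)) := by
  refine (IB.sum (Finset.range l) fun l' hl' => c41 hG hK hk j l'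
    (hy l' (lt_of_lt_of_le (Finset.mem_range.1 hl') hl))).mono ?_
  rw [Finset.card_range]
  exact Nat.mul_le_mul_right _ hl

end Bounds

/-- The polynomial. -/
noncomputable def qP : Polynomial ℕ :=
  (2 * Polynomial.X + 1) * (2 * Polynomial.X + 1) + Polynomial.X * (2 * Polynomial.X + 1) +
    ((1 + 3 * (2 * Polynomial.X + 1) + Polynomial.X) * (2 * Polynomial.X + 1) +
      (Polynomial.X + 5 * (2 * Polynomial.X + 1) + 2))

theorem qP_eval (s : ℕ) : qP.eval s = (2 * s + 1) * (2 * s + 1) + s * (2 * s + 1) +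
    ((1 + 3 * (2 * s + 1) + s) * (2 * s + 1) + (s + 5 * (2 * s + 1) + 2)) := by
  unfold qP
  simp [Polynomial.eval_add, Polynomial.eval_mul]

theorem qP_ge (K β s : ℕ) (hK : K ≤ 2 * s + 1) (hβ : β ≤ s) :
    (K * K + β * K) + ((1 + 3 * K + β) * K + (β + 5 * K + 2)) ≤ qP.eval s := by
  rw [qP_eval]
  gcongr

/-- denominators -/
theorem den_le {K D β k e : ℕ} (hD : D ≤ 2 ^ β) (hk : k ≤ K) (he : e ≤ K) :
    k.factorial * D ^ e ≤ 2 ^ (K * K + β * K) := by
  have h1 : k.factorial ≤ 2 ^ (K * K) := by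
    calc k.factorial ≤ K.factorial := Nat.factorial_le hk
      _ ≤ K ^ K := Nat.factorial_le_pow K
      _ ≤ (2 ^ K) ^ K := Nat.pow_le_pow_left (Nat.lt_two_pow_self).le _
      _ = 2 ^ (K * K) := by rw [← pow_mul]
  have h2 : D ^ e ≤ 2 ^ (β * K) := by
    calc D ^ e ≤ (2 ^ β) ^ e := Nat.pow_le_pow_left hD _
      _ ≤ (2 ^ β) ^ K := Nat.pow_le_pow_right (Nat.pow_pos (by norm_num)) he
      _ = 2 ^ (β * K) := by rw [← pow_mul]
  rw [pow_add]
  exact Nat.mul_le_mul h1 h2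

theorem den_pos {D k e : ℕ} (hD : 1 ≤ D) : 1 ≤ k.factorial * D ^ e :=
  Nat.mul_pos (Nat.factorial_pos _) (Nat.pow_pos hD)

theorem K_le (K : ℕ) : K ≤ 2 ^ K := (Nat.lt_two_pow_self).le

theorem pw_le {K β k : ℕ} (hk : k ≤ K) :
    (2 * K ^ 3 * 2 ^ β) ^ k ≤ 2 ^ ((1 + 3 * K + β) * K) := by
  have h1 : 2 * K ^ 3 * 2 ^ β ≤ 2 ^ (1 + 3 * K + β) := by
    have h2 : K ^ 3 ≤ 2 ^ (3 * K) := by
      calc K ^ 3 ≤ (2 ^ K) ^ 3 := Nat.pow_le_pow_left (K_le K) _
        _ = 2 ^ (3 * K) := by rw [← pow_mul, mul_comm]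
    rw [pow_add, pow_add, pow_one]
    exact Nat.mul_le_mul_right _ (Nat.mul_le_mul_left _ h2)
  calc (2 * K ^ 3 * 2 ^ β) ^ k ≤ (2 ^ (1 + 3 * K + β)) ^ k := Nat.pow_le_pow_left h1 _
    _ ≤ (2 ^ (1 + 3 * K + β)) ^ K := Nat.pow_le_pow_right (Nat.pow_pos (by norm_num)) hk
    _ = 2 ^ ((1 + 3 * K + β) * K) := by rw [← pow_mul]

/-- From an integer with bounds. -/
theorem qb_of {v : ℝ} {E B β : ℕ} (h : IB v E B) (h1 : 1 ≤ E) (h2 : E ≤ 2 ^ β) (h3 : B ≤ 2 ^ β) :
    QB β v := by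
  obtain ⟨N, hN, hB⟩ := h
  refine ⟨E, N, h1, h2, ?_, hN⟩
  have : (N.natAbs : ℤ) ≤ B := by rw [Int.natCast_natAbs]; exact hB
  have h4 : N.natAbs ≤ B := by exact_mod_cast this
  exact h4.trans h3

theorem cT_le (m n : ℕ) : cT m n ≤ 2 ^ (3 * cK m n + 2) := by
  unfold cT
  have h := K_le (cK m n)
  have h1 : cK m n * (cK m n * cK m n) ≤ 2 ^ (3 * cK m n) := by
    calc cK m n * (cK m n * cK m n) ≤ 2 ^ cK m n * (2 ^ cK m n * 2 ^ cK m n) :=
          Nat.mul_le_mul h (Nat.mul_le_mul h h)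
      _ = 2 ^ (3 * cK m n) := by rw [← pow_add, ← pow_add]; congr 1; ring
  rw [pow_add]
  calc 4 * (cK m n * (cK m n * cK m n)) ≤ 4 * 2 ^ (3 * cK m n) := Nat.mul_le_mul_left _ h1
    _ = 2 ^ (3 * cK m n) * 2 ^ 2 := by ring

theorem cK_le (m n β : ℕ) : cK m n ≤ 2 * (m + n + β) + 1 := by
  unfold cK
  omega

end TSZ4

open TSZ4 in
theorem t_SZ4 : S_SZ4 := by
  refine ⟨qP, ?_⟩
  intro p β E hg hE hEβ hG hy
  set K := cK p.m p.n with hKdef
  have hK : 1 ≤ K := by rw [hKdef]; unfold cK; omega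
  set Q := qP.eval (p.m + p.n + β) with hQdef
  have hQ : (K * K + β * K) + ((1 + 3 * K + β) * K + (β + 5 * K + 2)) ≤ Q :=
    qP_ge K β _ (cK_le _ _ _) (by omega)
  have hI : ∀ i j, IB (p.G i j) E (2 ^ β) := by
    intro i j
    obtain ⟨z, h1, h2⟩ := hG i j
    refine ⟨z, h2, ?_⟩
    have : (z.natAbs : ℤ) ≤ ((2 ^ β : ℕ) : ℤ) := by exact_mod_cast h1
    rwa [Int.natCast_natAbs] at this
  -- denominators
  have hden : ∀ k e : ℕ, k ≤ K → e ≤ K → k.factorial * E ^ e ≤ 2 ^ Q := by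
    intro k e hk he
    refine (den_le hEβ hk he).trans (Nat.pow_le_pow_right (by norm_num) (by omega))
  -- numerators
  have hKp := K_le K
  have hnum : ∀ k : ℕ, k ≤ K → K * (K * (2 ^ β * (2 * K ^ 3 * 2 ^ β) ^ k)) ≤ 2 ^ Q := by
    intro k hk
    have h1 := pw_le (β := β) hk
    calc K * (K * (2 ^ β * (2 * K ^ 3 * 2 ^ β) ^ k))
        ≤ 2 ^ K * (2 ^ K * (2 ^ β * 2 ^ ((1 + 3 * K + β) * K))) :=
          Nat.mul_le_mul hKp (Nat.mul_le_mul hKp (Nat.mul_le_mul_left _ h1))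
      _ = 2 ^ (K + (K + (β + (1 + 3 * K + β) * K))) := by
          rw [← pow_add, ← pow_add, ← pow_add]
      _ ≤ 2 ^ Q := Nat.pow_le_pow_right (by norm_num) (by
          have : 0 ≤ K * K + β * K := Nat.zero_le _
          omega)
  have hnumT : ∀ k : ℕ, k ≤ K → K * ((2 * K ^ 3 * 2 ^ β) ^ k * cT p.m p.n) ≤ 2 ^ Q := by
    intro k hk
    have h1 := pw_le (β := β) hk
    have h2 : cT p.m p.n ≤ 2 ^ (3 * K + 2) := cT_le p.m p.n
    calc K * ((2 * K ^ 3 * 2 ^ β) ^ k * cT p.m p.n)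
        ≤ 2 ^ K * (2 ^ ((1 + 3 * K + β) * K) * 2 ^ (3 * K + 2)) :=
          Nat.mul_le_mul hKp (Nat.mul_le_mul h1 h2)
      _ = 2 ^ (K + ((1 + 3 * K + β) * K + (3 * K + 2))) := by
          rw [← pow_add, ← pow_add]
      _ ≤ 2 ^ Q := Nat.pow_le_pow_right (by norm_num) (by omega)
  have hle1 : ∀ a : ℕ, a ≤ K * a := fun a => by
    calc a = 1 * a := (one_mul a).symm
      _ ≤ K * a := Nat.mul_le_mul_right _ hK
  have hle2 : ∀ a : ℕ, a ≤ K * (K * a) := fun a => (hle1 a).trans (Nat.mul_le_mul_left _ (hle1 a))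
  have hnat : ∀ k : ℕ, k ≤ K → QB Q (k : ℝ) := by
    intro k hk
    refine ⟨1, k, le_rfl, Nat.one_le_two_pow, ?_, by simp⟩
    rw [Int.natAbs_natCast]
    exact (hk.trans hKp).trans (Nat.pow_le_pow_right (by norm_num) (by omega))
  have s6 : ∀ k i j : ℕ, k ≤ K → QB Q (vr p [6, k, i, j]) := by
    intro k i j hk
    refine qb_of (c6 hI hK hk i j) (den_pos hE) (hden k k hk hk) ?_
    have h1 := pw_le (β := β) hk
    exact h1.trans (Nat.pow_le_pow_right (by norm_num) (by omega))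
  have s7 : ∀ k i j l : ℕ, k < K → QB Q (vr p [7, k, i, j, l]) := fun k i j l hk =>
    qb_of (c7 hI hK hk.le i j l) (den_pos hE) (hden k (k + 1) hk.le hk)
      ((hle2 _).trans (hnum k hk.le))
  have s8 : ∀ k i j l : ℕ, k < K → l ≤ K → QB Q (vr p [8, k, i, j, l]) := fun k i j l hk hl =>
    qb_of (c8 hI hK hk.le i j hl) (den_pos hE) (hden k (k + 1) hk.le hk)
      ((hle1 _).trans (hnum k hk.le))
  have s9 : ∀ k i : ℕ, k < K → i ≤ K → QB Q (vr p [9, k, i]) := fun k i hk hi =>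
    qb_of (c9 hI hK hk.le hi) (den_pos hE) (hden k (k + 1) hk.le hk) (hnum k hk.le)
  have s10 : ∀ k : ℕ, k < K → QB Q (vr p [10, k]) := fun k hk =>
    qb_of (c10 hI hK hk.le) (den_pos hE) (hden (k + 1) (k + 1) hk hk) (hnum k hk.le)
  have s5 : ∀ k : ℕ, k ≤ K → QB Q (vr p [5, k]) := fun k hk => hnat k hk
  constructor
  · intro I hI'
    unfold flProg at hI'
    rw [List.mem_append] at hI'
    rcases hI' with hI' | hI'
    · unfold initProg at hI'
      simp only [List.mem_cons, List.mem_flatMap, List.mem_map, List.mem_range] at hI'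
      rcases hI' with rfl | ⟨i, hi, j, hj, rfl⟩
      · exact s5 0 (Nat.zero_le _)
      · exact s6 0 i j (Nat.zero_le _)
    · simp only [List.mem_flatMap, List.mem_append, List.mem_range] at hI'
      obtain ⟨k, hk, hI' | hI' | hI'⟩ := hI'
      · unfold prodProg at hI'
        simp only [List.mem_cons, List.mem_flatMap, List.mem_range, List.not_mem_nil,
          or_false] at hI'
        obtain ⟨i, hi, j, hj, rfl | ⟨l, hl, rfl | rfl⟩⟩ := hI'
        · exact s8 k i j 0 hk (Nat.zero_le _)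
        · exact s7 k i j l hk
        · exact s8 k i j (l + 1) hk hl
      · unfold traceProg at hI'
        simp only [List.cons_append, List.mem_cons, List.mem_append, List.mem_map, List.mem_range,
          List.not_mem_nil, or_false] at hI'
        rcases hI' with rfl | ⟨i, hi, rfl⟩ | rfl | rfl
        · exact s9 k 0 hk (Nat.zero_le _)
        · exact s9 k (i + 1) hk hi
        · exact s5 (k + 1) hk
        · exact s10 k hk
      · unfold nextProg at hI'
        simp only [List.mem_flatMap, List.mem_map, List.mem_range] at hI'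
        obtain ⟨i, hi, j, hj, rfl⟩ := hI'
        exact s6 (k + 1) i j hk
  · intro hr I hI'
    rw [List.mem_append] at hI'
    have s40 : ∀ t : ℕ, t ≤ cT p.m p.n → QB Q (vr p [40, t]) := by
      intro t ht
      refine ⟨1, t, le_rfl, Nat.one_le_two_pow, ?_, ?_⟩
      · rw [Int.natAbs_natCast]
        exact (ht.trans (cT_le p.m p.n)).trans (Nat.pow_le_pow_right (by norm_num) (by omega))
      · simp [vr]
    rcases hI' with hI' | hI'
    · unfold numProg at hI'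
      simp only [List.mem_cons, List.mem_map, List.mem_range] at hI'
      rcases hI' with rfl | ⟨t, ht, rfl⟩
      · exact s40 0 (Nat.zero_le _)
      · exact s40 (t + 1) ht
    · unfold dotProg at hI'
      have s41 : ∀ l < K, QB Q (vr p [41, l]) := fun l hl =>
        qb_of (c41 hI hK hr p.j l (hy l hl)) (den_pos hE) (hden _ _ hr hr)
          ((hle1 _).trans (hnumT p.r hr))
      have s42 : ∀ l ≤ K, QB Q (vr p [42, l]) := fun l hl =>
        qb_of (c42 hI hK hr p.j hy hl) (den_pos hE) (hden _ _ hr hr) (hnumT p.r hr)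
      simp only [List.mem_cons, List.mem_flatMap, List.mem_range, List.not_mem_nil,
        or_false] at hI'
      rcases hI' with rfl | ⟨l, hl, rfl | rfl⟩
      · exact s42 0 (Nat.zero_le _)
      · exact s41 l hl
      · exact s42 (l + 1) hl

end Pool.Agent.W920.FD
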