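import Pool.Agent.W920.FD.Stm

set_option autoImplicit false

/-!
# Phase 1: one choice of exceptional rows and columns
-/

namespace Pool.Agent.W920.FD

open Pool.Agent.NPC Pool.Agent.H558R2 Pool.Agent.H622R3.SM Pool.Agent.W920.FC

namespace TTRY

theorem forall2_map {α β γ : Type} {R : β → γ → Prop} (l : List α) (f : α → β) (g : α → γ)
    (h : ∀ a ∈ l, R (f a) (g a)) : List.Forall₂ R (l.map f) (l.map g) := by
  rw [List.forall₂_map_left_iff, List.forall₂_map_right_iff, List.forall₂_same]
  exact h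

theorem sum_le (qs : List Qry) (L : ℕ) (h : ∀ q ∈ qs, q.1.length ≤ L) :
    (qs.map fun q => q.1.length + 1).sum ≤ qs.length * (L + 1) := by
  induction qs with
  | nil => simp
  | cons q qs ih =>
    rw [List.map_cons, List.sum_cons, List.length_cons]
    have h1 := h q (by simp)
    have h2 := ih fun q hq => h q (List.mem_cons_of_mem _ hq)
    nlinarith

theorem smallL_mono {B B' : ℕ} {L : List ℤ} (h : SmallL B L) (hB : B ≤ B') : SmallL B' L :=
  fun x hx => (h x hx).trans (Nat.pow_le_pow_right (by norm_num) hB)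

theorem small_getD {B : ℕ} (F : List (List ℤ)) (h : ∀ C ∈ F, SmallL B C) (l : ℕ) :
    SmallL B (F.getD l []) := by
  by_cases hl : l < F.length
  · rw [List.getD_eq_getElem _ _ hl]
    exact h _ (List.getElem_mem hl)
  · rw [List.getD_eq_default _ _ (by omega)]
    intro x hx
    simp at hx

theorem runs_ret {β : Type} (g : Reg → ℝ) (G : ℝ → Prop) (b : β) : Runs g G (ret b) b 0 :=
  Runs.done (ret b) b 0 fun _ => rfl

theorem gd_mono {q1 q : Polynomial ℕ} (h : ∀ x, q1.eval x ≤ q.eval x) (S : ℕ) (g : Reg → ℝ)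
    (v : ℝ) (hv : Gd q1 S g v) : Gd q S g v := by
  intro lam hl
  obtain ⟨E, z, h1, h2, h3, h4⟩ := hv lam hl
  have h5 : 2 ^ q1.eval (S + lam) ≤ 2 ^ q.eval (S + lam) :=
    Nat.pow_le_pow_right (by norm_num) (h _)
  exact ⟨E, z, h1, h2.trans h5, h3.trans h5, h4⟩

theorem base_start {m n : ℕ} (A : Matrix (Fin m) (Fin n) ℝ) (b : Fin m → ℝ) :
    Base (start A b) := by
  constructor
  · rfl
  · rfl

theorem mem_exps (m : ℕ) : ∀ (k : ℕ) (e : List ℕ), e ∈ exps m k → e.length = k
  | 0, e, h => by
    simp only [exps, List.mem_singleton] at h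
    rw [h]
    rfl
  | k + 1, e, h => by
    simp only [exps, List.mem_flatMap, List.mem_map] at h
    obtain ⟨d, -, e', he', rfl⟩ := h
    rw [List.length_cons, mem_exps m k e' he']

theorem mem_cands (k m n : ℕ) (c : Cand) (h : c ∈ cands k m n) :
    c.1.length = k ∧ c.2.length = k := by
  unfold cands at h
  simp only [List.mem_flatMap, List.mem_map] at h
  obtain ⟨R, hR, C, hC, rfl⟩ := h
  exact ⟨mem_exps _ _ _ hR, mem_exps _ _ _ hC⟩

/-- The positions outside the exceptional rows and columns. -/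
def pl (m n : ℕ) (c : Cand) : List (ℕ × ℕ) :=
  (poss m n).filter fun p => !(decide (p.1 ∈ c.1)) && !(decide (p.2 ∈ c.2))

theorem V0_snd (m n : ℕ) (c : Cand) :
    (V0 m n c).2 = [3] :: (pl m n c).map fun p => [0, p.1, p.2] := rfl

theorem mem_pl (m n : ℕ) (c : Cand) (p : ℕ × ℕ) :
    p ∈ pl m n c ↔ (p.1 < m ∧ p.2 < n) ∧ p.1 ∉ c.1 ∧ p.2 ∉ c.2 := by
  unfold pl poss
  rw [List.mem_filter]
  apply and_congr
  · rw [List.mem_flatMap]
    constructor
    · rintro ⟨i, hi, h⟩
      obtain ⟨j, hj, rfl⟩ := List.mem_map.1 h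
      exact ⟨List.mem_range.1 hi, List.mem_range.1 hj⟩
    · rintro ⟨h1, h2⟩
      exact ⟨p.1, List.mem_range.2 h1, List.mem_map.2 ⟨p.2, List.mem_range.2 h2, rfl⟩⟩
  · simp

theorem w0_zero (m n : ℕ) (g : Reg → ℝ) (c : Cand) (hg : Base g) : w0 m n g c 0 = 0 := by
  unfold w0
  rw [V0_snd]
  exact hg.2

theorem w0_succ (m n : ℕ) (g : Reg → ℝ) (c : Cand) (l : ℕ) (hl : l < (pl m n c).length) :
    w0 m n g c (l + 1) = g [0, ((pl m n c)[l]).1, ((pl m n c)[l]).2] := by
  unfold w0
  rw [V0_snd, List.getD_cons_succ, List.getD_eq_getElem _ _ (by simpa using hl), List.getElem_map]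

theorem signOut_none (v : ℝ) : signOut v = none ↔ v = 0 := by
  unfold signOut
  constructor
  · intro h
    by_contra h0
    rcases lt_or_gt_of_ne h0 with h1 | h1
    · rw [if_neg (not_lt.2 h1.le), if_pos h1] at h
      exact absurd h (by simp)
    · rw [if_pos h1] at h
      exact absurd h (by simp)
  · rintro rfl
    rw [if_neg (lt_irrefl _), if_neg (lt_irrefl _)]

/-- The index of the register of a position. -/
theorem exists_idx (m n : ℕ) (g : Reg → ℝ) (c : Cand) (i j : ℕ) (hi : i < m) (hj : j < n)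
    (hic : i ∉ c.1) (hjc : j ∉ c.2) :
    ∃ l < (V0 m n c).2.length, w0 m n g c l = g [0, i, j] ∧
      (V0 m n c).2.getD l [3] = [0, i, j] := by
  have h : (i, j) ∈ pl m n c := (mem_pl m n c (i, j)).2 ⟨⟨hi, hj⟩, hic, hjc⟩
  obtain ⟨l, hl, he⟩ := List.getElem_of_mem h
  refine ⟨l + 1, ?_, ?_, ?_⟩
  · rw [V0_snd]
    simpa using hl
  · rw [w0_succ m n g c l hl, he]
  · rw [V0_snd, List.getD_cons_succ, List.getD_eq_getElem _ _ (by simpa using hl),
      List.getElem_map, he]

end TTRY

open TTRY in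
theorem t_TRY : ∀ k, S_BND → S_BATCH → S_MONO → S_STGS → S_HVF → S_RANK → S_VOK0 → S_PB k →
    S_TRY k := by
  intro k hbnd hbatch hmono hstgs hhvf hrank hvok hpb
  obtain ⟨q0, hq0⟩ := hvok
  obtain ⟨qP, hqP⟩ := hpb
  obtain ⟨q1, hq1⟩ := hstgs q0 qP
  obtain ⟨q2, hq2⟩ := hhvf q0 qP
  refine ⟨q1 + q2 + q0 * (q2 + 1), ?_⟩
  intro m n A b st hst hgood
  have hbase : Base (start A b) := base_start A b
  generalize start A b = g at hgood hbase ⊢
  generalize hc : (cands k m n).getD st.1 ([], []) = c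
  have hcm : c ∈ cands k m n := by
    rw [← hc, List.getD_eq_getElem _ _ hst]
    exact List.getElem_mem hst
  obtain ⟨hc1, hc2⟩ := mem_cands k m n c hcm
  obtain ⟨hV, hN⟩ := hq0 m n g c hbase
  obtain ⟨pE, pP, -, -, -, -, -, -, -, -, -, pk, -, -, -, pkk⟩ := hqP m n
  have hmn : m * n ≤ (m + n) * (m + n) := Nat.mul_le_mul (by omega) (by omega)
  have hN2 : (V0 m n c).2.length ≤ (m + n) * (m + n) + 1 := hN.trans (by omega)
  have hE : h0 k (m + n) + 2 * (V0 m n c).2.length + 4 ≤ E0 k (m + n) := by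
    unfold E0
    omega
  obtain ⟨s, hinv, hrun⟩ := hq1 (m + n) g (V0 m n c) (w0 m n g c) (E0 k (m + n)) (h0 k (m + n)) k
    hbase hV hE pE pkk
  obtain ⟨hbd, hD1, hrec1, -, -, v, piv, hv1, hv2, -, -⟩ := id hinv
  have hNP : ((V0 m n c).2.length + 1) * E0 k (m + n) ≤ P0 k (m + n) := by
    unfold P0
    exact Nat.mul_le_mul_right _ (by omega)
  have hB0 : (((V0 m n c).2.length + 1) * E0 k (m + n) + 1) * k ≤ (P0 k (m + n) + 1) * k :=
    Nat.mul_le_mul_right _ (by omega)
  have hB : (((V0 m n c).2.length + 1) * E0 k (m + n) + 1) * k ≤ qP.eval (m + n) := hB0.trans pk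
  have hF : ∀ l, SmallL (qP.eval (m + n)) (s.2.1.getD l []) := fun l =>
    small_getD _ (fun C hC => smallL_mono (hbd.2.2.2.1 C hC).2 hB) l
  have hval := fun l => hq2 (m + n) g (V0 m n c) (w0 m n g c) (s.2.1.getD l []) hbase hV (hF l)
  have hbat := hbatch g (Gd q2 (m + n) g) (zeroQs (V0 m n c) s.2.1)
    ((List.range (V0 m n c).2.length).map fun l =>
      evF (V0 m n c).2.length (w0 m n g c) (s.2.1.getD l []))
    (forall2_map _ _ _ fun l _ => (hval l).1)
  have hlen : ((zeroQs (V0 m n c) s.2.1).map fun q => q.1.length + 1).sum ≤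
      q0.eval (m + n) * (q2.eval (m + n) + 1) := by
    refine (sum_le _ (q2.eval (m + n)) ?_).trans ?_
    · intro q hq
      obtain ⟨l, -, rfl⟩ := List.mem_map.1 hq
      exact (hval l).2
    · have h1 : (zeroQs (V0 m n c) s.2.1).length = (V0 m n c).2.length := by simp [zeroQs]
      rw [h1]
      exact Nat.mul_le_mul_right _ hV.2.2.2.2.1
  have e1 : ∀ x, q1.eval x ≤ (q1 + q2 + q0 * (q2 + 1)).eval x := by
    intro x
    rw [Polynomial.eval_add, Polynomial.eval_add]
    omega
  have e2 : ∀ x, q2.eval x ≤ (q1 + q2 + q0 * (q2 + 1)).eval x := by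
    intro x
    rw [Polynomial.eval_add, Polynomial.eval_add]
    omega
  have e3 : q1.eval (m + n) + (q0.eval (m + n) * (q2.eval (m + n) + 1) + 0) ≤
      (q1 + q2 + q0 * (q2 + 1)).eval (m + n) := by
    rw [Polynomial.eval_add, Polynomial.eval_add, Polynomial.eval_mul, Polynomial.eval_add,
      Polynomial.eval_one]
    omega
  have r1 := hmono _ g _ (Gd (q1 + q2 + q0 * (q2 + 1)) (m + n) g) _ _ _ _
    (gd_mono e1 (m + n) g) le_rfl hrun
  have r2 := hmono _ g _ (Gd (q1 + q2 + q0 * (q2 + 1)) (m + n) g) _ _ _ _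
    (gd_mono e2 (m + n) g) hlen hbat
  have hacc : (((List.range (V0 m n c).2.length).map fun l =>
      evF (V0 m n c).2.length (w0 m n g c) (s.2.1.getD l [])).map signOut).all
        (fun x => decide (x = none)) = true ↔
      ∀ l < (V0 m n c).2.length,
        evF (V0 m n c).2.length (w0 m n g c) (s.2.1.getD l []) = 0 := by
    rw [List.all_eq_true]
    constructor
    · intro h l hl
      have h1 := h (signOut (evF (V0 m n c).2.length (w0 m n g c) (s.2.1.getD l [])))
        (List.mem_map.2 ⟨_, List.mem_map.2 ⟨l, List.mem_range.2 hl, rfl⟩, rfl⟩)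
      rw [decide_eq_true_iff] at h1
      exact (signOut_none _).1 h1
    · intro h x hx
      obtain ⟨y, hy, rfl⟩ := List.mem_map.1 hx
      obtain ⟨l, hl, rfl⟩ := List.mem_map.1 hy
      rw [decide_eq_true_iff]
      exact (signOut_none _).2 (h l (List.mem_range.1 hl))
  have r4 := hbnd _ _ g _ (batch (zeroQs (V0 m n c) s.2.1))
    (fun o => ret (st.1 + 1, if o.all fun x => decide (x = none) then
        st.2 ++ [(c, s.1)] else st.2)) _ _ _ _ r2 (runs_ret _ _ _)
  have r5 := hbnd _ _ g _ (stages (V0 m n c) (E0 k (m + n)) k)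
    (fun s => bnd (batch (zeroQs (V0 m n c) s.2.1)) fun o =>
      ret (st.1 + 1, if o.all fun x => decide (x = none) then
        st.2 ++ [(c, s.1)] else st.2)) _ _ _ _ r1 r4
  refine ⟨_, hmono _ g _ _ _ _ _ _ (fun v h => h) e3 (by
    unfold tryC
    rw [hc]
    exact r5), rfl, ?_, ?_, ?_⟩
  · -- the new list
    intro x hx
    simp only at hx
    split_ifs at hx with hall
    · rcases List.mem_append.1 hx with hx | hx
      · exact hgood x hx
      · rw [List.mem_singleton] at hx
        subst hx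
        have hz := hacc.1 hall
        refine ⟨hc1, hc2, ⟨hbd.1, ?_⟩, ?_⟩
        · intro a ha
          have h1 := hbd.2.1 a ha
          refine ⟨smallL_mono h1.2.1 hB0, (hrec1 a ha).1, h1.2.2.trans ?_⟩
          exact Nat.pow_le_pow_right (by norm_num) (Nat.mul_le_mul_right _ hNP)
        · classical
          refine ⟨fun r i j => if r < s.1.length ∧ (i < m ∧ j < n) ∧ i ∉ c.1 ∧ j ∉ c.2 then
            (if h : ∃ l < (V0 m n c).2.length, w0 m n g c l = g [0, i, j] ∧
              (V0 m n c).2.getD l [3] = [0, i, j] then v r h.choose else 0) else 0, ?_, ?_⟩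
          · intro r hr i hi j hj
            by_cases h1 : r < s.1.length ∧ (i < m ∧ j < n) ∧ i ∉ c.1 ∧ j ∉ c.2
            · simp only [if_pos h1]
              have h2 := exists_idx m n g c i j hi hj h1.2.2.1 h1.2.2.2
              rw [dif_pos h2]
              exact (hv1 r h1.1 _ h2.choose_spec.1).trans
                (Nat.pow_le_pow_right (by norm_num) hNP)
            · simp only [if_neg h1]
              simp
          · intro i hi j hj hic hjc
            have h2 := exists_idx m n g c i j hi hj hic hjc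
            have h3 := h2.choose_spec
            have h4 := hv2 _ h3.1
            rw [hz _ h3.1, zero_div, add_zero, h3.2.1] at h4
            rw [h4]
            refine Finset.sum_congr rfl fun r hr => ?_
            have h5 : r < s.1.length ∧ (i < m ∧ j < n) ∧ i ∉ c.1 ∧ j ∉ c.2 :=
              ⟨Finset.mem_range.1 hr, ⟨hi, hj⟩, hic, hjc⟩
            simp only [if_pos h5, dif_pos h2]
            rfl
    · exact hgood x hx
  · intro hne
    simp only
    split_ifs with hall
    · simp
    · exact hne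
  · rintro ⟨θ, M, hM, hθ⟩
    have hz := hrank k ((m + n) ^ k) (V0 m n c).2.length (E0 k (m + n)) (h0 k (m + n))
      (w0 m n g c) s θ
      (fun r l => if l = 0 then 0 else M r ((pl m n c).getD (l - 1) (0, 0)).1
        ((pl m n c).getD (l - 1) (0, 0)).2) hinv ?_ ?_ (by unfold h0; exact le_rfl)
    · simp only
      rw [if_pos (hacc.2 hz)]
      simp
    · intro r hr l hl
      rcases Nat.eq_zero_or_pos l with h | h
      · rw [if_pos h]
        simp
      · obtain ⟨l', rfl⟩ : ∃ l', l = l' + 1 := ⟨l - 1, by omega⟩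
        have hl' : l' < (pl m n c).length := by
          rw [V0_snd] at hl
          simpa using hl
        rw [if_neg (by omega), Nat.add_sub_cancel, List.getD_eq_getElem _ _ hl']
        have h1 := (mem_pl m n c _).1 (List.getElem_mem hl')
        exact hM r hr _ h1.1.1 _ h1.1.2
    · intro l hl
      rcases Nat.eq_zero_or_pos l with h | h
      · subst h
        rw [w0_zero m n g c hbase]
        simp
      · obtain ⟨l', rfl⟩ : ∃ l', l = l' + 1 := ⟨l - 1, by omega⟩
        have hl' : l' < (pl m n c).length := by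
          rw [V0_snd] at hl
          simpa using hl
        rw [w0_succ m n g c l' hl']
        have h1 := (mem_pl m n c _).1 (List.getElem_mem hl')
        rw [hθ _ h1.1.1 _ h1.1.2 h1.2.1 h1.2.2]
        refine Finset.sum_congr rfl fun r _ => ?_
        rw [if_neg (by omega), Nat.add_sub_cancel, List.getD_eq_getElem _ _ hl']

end Pool.Agent.W920.FD
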