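import Pool.Agent.W920.FD.Stm

set_option autoImplicit false

/-!
# The program for the monomials: equations
-/

namespace Pool.Agent.W920.FD

open Pool.Agent.NPC Pool.Agent.H558R2 Pool.Agent.H622R3.SM Pool.Agent.W920.FC

namespace TV1EQ

theorem vt_base (k m n : ℕ) (g : Reg → ℝ) (x : Cand × List (List ℤ × ℕ)) (r : Reg)
    (hr : r ∈ baseReg) : vt k m n g x r = g r := by
  have hr' : r.headD 0 < 4 := hr
  unfold vt
  split
  · simp at hr'
  · simp at hr'
  · simp at hr'
  · simp at hr'
  · simp at hr'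
  · rfl

theorem getD_mem {α : Type} (L : List α) (i : ℕ) (d : α) : L.getD i d ∈ L ∨ L.getD i d = d := by
  by_cases h : i < L.length
  · left
    rw [List.getD_eq_getElem _ _ h]
    exact List.getElem_mem h
  · right
    rw [List.getD_eq_default _ _ (by omega)]

theorem V0_base (m n : ℕ) (c : Cand) (l : ℕ) : (V0 m n c).2.getD l [3] ∈ baseReg := by
  have h3 : ([3] : Reg) ∈ baseReg := by
    change (3 : ℕ) < 4
    norm_num
  rcases getD_mem (V0 m n c).2 l [3] with h | h
  · unfold V0 at h
    rw [List.mem_cons, List.mem_map] at h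
    rcases h with h | ⟨p, -, h⟩
    · unfold V0
      rw [h]
      exact h3
    · unfold V0
      rw [← h]
      change (0 : ℕ) < 4
      norm_num
  · rw [h]
    exact h3

theorem formVal (k m n : ℕ) (g : Reg → ℝ) (x : Cand × List (List ℤ × ℕ)) (r : ℕ) :
    FormVal (vt k m n g x) 52 r (V0 m n x.1).2.length (w0 m n g x.1) (x.2.getD r ([], 0)).1 :=
  ⟨fun _ _ => rfl, fun _ _ _ => ⟨rfl, rfl⟩⟩

theorem vt_52 (k m n : ℕ) (g : Reg → ℝ) (x : Cand × List (List ℤ × ℕ)) (r : ℕ) :
    vt k m n g x [52, r, (V0 m n x.1).2.length] = scv m n g x r := rfl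

theorem vt_30 (k m n : ℕ) (g : Reg → ℝ) (x : Cand × List (List ℤ × ℕ)) (r t : ℕ) :
    vt k m n g x [30, r, t] = scv m n g x r ^ t := rfl

theorem vt_31 (k m n : ℕ) (g : Reg → ℝ) (x : Cand × List (List ℤ × ℕ)) (l t : ℕ) :
    vt k m n g x [31, l, t] = g (breg (((exps (m + n) (3 * k + 1)).getD l []).getD 0 0)) *
      ∏ i ∈ Finset.range t, slotV k m n g x i
        (((exps (m + n) (3 * k + 1)).getD l []).getD (i + 1) 0) := rfl

theorem vt_slot (k m n : ℕ) (g : Reg → ℝ) (x : Cand × List (List ℤ × ℕ)) (u d : ℕ) :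
    vt k m n g x (slotR k x.1 u d) = slotV k m n g x u d := by
  unfold slotV
  by_cases h : u < 2 * k
  · rw [if_pos h]
    apply vt_base
    unfold slotR
    split_ifs
    · change (2 : ℕ) < 4; norm_num
    · change (0 : ℕ) < 4; norm_num
    · change (2 : ℕ) < 4; norm_num
    · change (0 : ℕ) < 4; norm_num
  · rw [if_neg h]
    unfold slotR
    rw [if_neg (by omega), if_neg h]
    rfl

theorem breg_base (d : ℕ) : breg d ∈ baseReg := by
  unfold breg
  split_ifs
  · change (2 : ℕ) < 4; norm_num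
  · change (1 : ℕ) < 4; norm_num

theorem eqn_add {V : Reg → ℝ} {d a b : Reg} (h : V d = V a + V b) : Eqn V ⟨Op.add, d, a, b⟩ :=
  ⟨h, fun h => by cases h⟩

theorem eqn_mul {V : Reg → ℝ} {d a b : Reg} (h : V d = V a * V b) : Eqn V ⟨Op.mul, d, a, b⟩ :=
  ⟨h, fun h => by cases h⟩

theorem zipIdx_getD {α : Type} (l : List α) (d : α) (q : α × ℕ) (hq : q ∈ l.zipIdx) :
    q.2 < l.length ∧ l.getD q.2 d = q.1 := by
  obtain ⟨a, i⟩ := q
  rw [List.mk_mem_zipIdx_iff_getElem?] at hq
  obtain ⟨h1, h2⟩ := List.getElem?_eq_some_iff.1 hq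
  exact ⟨h1, by rw [List.getD_eq_getElem?_getD, hq]; rfl⟩

end TV1EQ

open TV1EQ in
theorem t_V1EQ : S_FORM → S_V1EQ := by
  intro hF k m n g x hb
  have h2 : vt k m n g x [2] = 1 := by
    rw [vt_base k m n g x [2] (by change (2 : ℕ) < 4; norm_num)]
    exact hb.1
  have h3 : vt k m n g x [3] = 0 := by
    rw [vt_base k m n g x [3] (by change (3 : ℕ) < 4; norm_num)]
    exact hb.2
  refine ⟨fun r hr => vt_base k m n g x r hr, ?_, ?_⟩
  · intro I hI
    unfold V1 at hI
    rw [List.mem_append, List.mem_append] at hI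
    rcases hI with hI | hI | hI
    · unfold scP at hI
      rw [List.mem_flatMap] at hI
      obtain ⟨r, -, hI⟩ := hI
      refine hF.1 (vt k m n g x) 52 r (V0 m n x.1).2 (w0 m n g x.1) _ (formVal k m n g x r) h3
        ?_ I hI
      intro l _
      rw [vt_base k m n g x _ (V0_base m n x.1 l)]
      rfl
    · unfold powP at hI
      rw [List.mem_flatMap] at hI
      obtain ⟨r, -, hI⟩ := hI
      rw [List.mem_cons, List.mem_map] at hI
      rcases hI with rfl | ⟨t, -, rfl⟩
      · apply eqn_add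
        rw [vt_30, h2, h3]
        simp
      · apply eqn_mul
        rw [vt_30, vt_30, vt_52, pow_succ]
    · unfold monP at hI
      rw [List.mem_flatMap] at hI
      obtain ⟨q, hq, hI⟩ := hI
      have hq' := (zipIdx_getD _ [] q hq).2
      rw [List.mem_cons, List.mem_map] at hI
      rcases hI with rfl | ⟨r, -, rfl⟩
      · apply eqn_add
        rw [vt_31, vt_base k m n g x _ (breg_base _), h3, hq']
        simp
      · apply eqn_mul
        rw [vt_31, vt_31, vt_slot, Finset.prod_range_succ, hq']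
        ring
  · intro l hl
    unfold V1 at hl ⊢
    simp only at hl ⊢
    rw [List.length_map, List.length_range] at hl
    have e : ((List.range (exps (m + n) (3 * k + 1)).length).map
        fun l => ([31, l, 3 * k] : Reg)).getD l [3] = [31, l, 3 * k] := by
      rw [List.getD_eq_getElem _ _ (by simpa using hl)]
      simp
    rw [e]
    rfl

end Pool.Agent.W920.FD
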