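import Pool.Agent.W920.FD.Stm

set_option autoImplicit false

namespace Pool.Agent.W920.FD

open Pool.Agent.NPC Pool.Agent.H558R2 Pool.Agent.H622R3.SM Pool.Agent.W920.FC

namespace TV1LEN

theorem len_le {α β : Type} (l : List α) (f : α → List β) (c : ℕ)
    (h : ∀ a ∈ l, (f a).length ≤ c) : (l.flatMap f).length ≤ l.length * c := by
  induction l with
  | nil => simp
  | cons a l ih =>
    rw [List.flatMap_cons, List.length_append, List.length_cons]
    have h1 := h a (by simp)
    have h2 := ih (fun b hb => h b (by simp [hb]))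
    have : (l.length + 1) * c = l.length * c + c := by ring
    omega

theorem len_fr {β : Type} (m : ℕ) (f : ℕ → List β) (c : ℕ) (h : ∀ a, (f a).length ≤ c) :
    ((List.range m).flatMap f).length ≤ m * c := by
  have := len_le (List.range m) f c (fun a _ => h a)
  rwa [List.length_range] at this

theorem l_exps (m j : ℕ) : (exps m j).length ≤ (m + 1) ^ j := by
  induction j with
  | zero => simp [exps]
  | succ j ih =>
    unfold exps
    refine (len_fr (m + 1) _ ((m + 1) ^ j) (fun d => ?_)).trans (le_of_eq (by ring))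
    rw [List.length_map]
    exact ih

theorem l_pow (k s N : ℕ) : (powP k s N).length ≤ k * (s + 1) := by
  unfold powP
  exact len_fr k _ _ (fun a => by simp)

theorem l_mon (k s : ℕ) (c : Cand) : (monP k s c).length ≤ N1 k s * (3 * k + 1) := by
  unfold monP N1
  refine (len_le _ _ (3 * k + 1) (fun p _ => by simp)).trans ?_
  rw [List.length_zipIdx]
  exact Nat.mul_le_mul_right _ (l_exps s (3 * k + 1))

theorem l_sc (hF : S_FORM) (k m n : ℕ) (x : Cand × List (List ℤ × ℕ)) (hx : RecOK k m n x) :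
    (scP k (V0 m n x.1) x.2).length ≤
      k * (1 + (V0 m n x.1).2.length * (2 * ((P0 k (m + n) + 1) * k) + 4)) := by
  unfold scP
  refine len_fr k _ _ fun r => hF.2.2 _ _ _ _ _ ?_
  rcases lt_or_ge r x.2.length with hr | hr
  · rw [List.getD_eq_getElem _ _ hr]
    exact (hx.2 _ (List.getElem_mem hr)).1
  · rw [List.getD_eq_default _ _ hr]
    intro y hy
    simp at hy

theorem l_V0 (h : S_VOK0) (m n : ℕ) (c : Cand) : (V0 m n c).2.length ≤ m * n + 1 := by
  obtain ⟨q, hq⟩ := h
  have hB : Base (fun r : Reg => if r = [2] then (1 : ℝ) else 0) := by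
    constructor
    · simp
    · simp
  exact (hq m n _ c hB).2

end TV1LEN

open TV1LEN in
theorem t_V1LEN : ∀ k, S_FORM → S_VOK0 → S_PB k → S_V1LEN k := by
  intro k hF hV hP
  obtain ⟨q, hq⟩ := hP
  refine ⟨q * (1 + (q * q + 1) * (2 * q + 4)) + (q * (q + 1) + q * (3 * q + 1)), ?_⟩
  intro m n x hx
  obtain ⟨-, -, -, h4, -, -, -, -, -, -, -, h12, -, -, h15, h16⟩ := hq m n
  set Q := q.eval (m + n) with hQ
  have e1 := l_sc hF k m n x hx
  have e2 := l_pow k (m + n) (V0 m n x.1).2.length
  have e3 := l_mon k (m + n) x.1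
  have e4 := l_V0 hV m n x.1
  have e5 : (V1 k m n x).1.length = (scP k (V0 m n x.1) x.2).length +
      ((powP k (m + n) (V0 m n x.1).2.length).length + (monP k (m + n) x.1).length) := by
    simp only [V1, List.length_append]
  have e6 : m * n ≤ Q * Q := Nat.mul_le_mul (by omega) (by omega)
  have f1 : k * (1 + (V0 m n x.1).2.length * (2 * ((P0 k (m + n) + 1) * k) + 4)) ≤
      Q * (1 + (Q * Q + 1) * (2 * Q + 4)) :=
    Nat.mul_le_mul h16 (Nat.add_le_add_left (Nat.mul_le_mul (by omega) (by omega)) 1)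
  have f2 : k * (m + n + 1) ≤ Q * (Q + 1) := Nat.mul_le_mul h16 (by omega)
  have f3 : N1 k (m + n) * (3 * k + 1) ≤ Q * (3 * Q + 1) := Nat.mul_le_mul h4 (by omega)
  have e7 : (q * (1 + (q * q + 1) * (2 * q + 4)) + (q * (q + 1) + q * (3 * q + 1))).eval (m + n) =
      Q * (1 + (Q * Q + 1) * (2 * Q + 4)) + (Q * (Q + 1) + Q * (3 * Q + 1)) := by
    simp [hQ]
  rw [e7, e5]
  omega

end Pool.Agent.W920.FD
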