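import Pool.Agent.W920.FD.Stm

set_option autoImplicit false

/-!
# V1ORD: the program of the monomials is well ordered (helper29, adapted from FC/T_ORD1)
-/

namespace Pool.Agent.W920.FD

open Pool.Agent.NPC Pool.Agent.H558R2 Pool.Agent.H622R3.SM Pool.Agent.W920.FC

namespace TV1ORD

theorem mem_wr {P : List Instr} {r : Reg} : r ∈ wr P ↔ ∃ I ∈ P, I.dst = r := Iff.rfl

theorem wr_nil : wr [] = ∅ := by
  ext r; simp [mem_wr]

theorem wr_append (P Q : List Instr) : wr (P ++ Q) = wr P ∪ wr Q := by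
  ext r
  simp only [mem_wr, List.mem_append, Set.mem_union]
  constructor
  · rintro ⟨I, hI | hI, rfl⟩
    · exact Or.inl ⟨I, hI, rfl⟩
    · exact Or.inr ⟨I, hI, rfl⟩
  · rintro (⟨I, hI, rfl⟩ | ⟨I, hI, rfl⟩)
    · exact ⟨I, Or.inl hI, rfl⟩
    · exact ⟨I, Or.inr hI, rfl⟩

theorem wr_cons (I : Instr) (P : List Instr) : wr (I :: P) = {I.dst} ∪ wr P := by
  ext r
  simp only [mem_wr, List.mem_cons, Set.mem_union, Set.mem_singleton_iff]
  constructor
  · rintro ⟨J, rfl | hJ, rfl⟩
    · exact Or.inl rfl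
    · exact Or.inr ⟨J, hJ, rfl⟩
  · rintro (rfl | ⟨J, hJ, rfl⟩)
    · exact ⟨I, Or.inl rfl, rfl⟩
    · exact ⟨J, Or.inr hJ, rfl⟩

theorem mem_wr_range {N : ℕ} {B : ℕ → List Instr} {r : Reg} :
    r ∈ wr ((List.range N).flatMap B) ↔ ∃ i < N, r ∈ wr (B i) := by
  simp only [mem_wr, List.mem_flatMap, List.mem_range]
  constructor
  · rintro ⟨I, ⟨i, hi, hI⟩, rfl⟩
    exact ⟨i, hi, I, hI, rfl⟩
  · rintro ⟨i, hi, I, hI, rfl⟩
    exact ⟨I, ⟨i, hi, hI⟩, rfl⟩

theorem ord_append (S : Set Reg) (P Q : List Instr) :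
    Ord S (P ++ Q) ↔ Ord S P ∧ Ord (S ∪ wr P) Q := by
  induction P generalizing S with
  | nil =>
    have h0 : Pool.Agent.H622R3.SM.Ord S [] := trivial
    simp [h0, wr_nil]
  | cons I P ih =>
    simp only [List.cons_append, Pool.Agent.H622R3.SM.Ord, ih, wr_cons]
    have h : insert I.dst S ∪ wr P = S ∪ ({I.dst} ∪ wr P) := by
      ext r; simp only [Set.mem_union, Set.mem_insert_iff, Set.mem_singleton_iff]; tauto
    rw [h]
    tauto

theorem ord_cons (S : Set Reg) (I : Instr) (P : List Instr) :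
    Ord S (I :: P) ↔ I.fst ∈ S ∧ I.snd ∈ S ∧ I.dst ∉ S ∧ Ord (S ∪ {I.dst}) P := by
  rw [Set.union_singleton]
  rfl

/-- programs given by a range -/
theorem ord_range (S : Set Reg) (B : ℕ → List Instr) (N : ℕ)
    (h : ∀ i < N, Ord (S ∪ {r | ∃ j < i, r ∈ wr (B j)}) (B i)) :
    Ord S ((List.range N).flatMap B) := by
  induction N with
  | zero => exact trivial
  | succ N ih =>
    rw [List.range_succ, List.flatMap_append, ord_append]
    refine ⟨ih fun i hi => h i (by omega), ?_⟩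
    have h1 : wr ((List.range N).flatMap B) = {r | ∃ j < N, r ∈ wr (B j)} := by
      ext r; exact mem_wr_range
    rw [h1]
    simpa using h N (by omega)

theorem zipIdx_eq {α β : Type} (l : List α) (d : α) (f : α × ℕ → List β) :
    l.zipIdx.flatMap f = (List.range l.length).flatMap fun i => f (l.getD i d, i) := by
  have h : l.zipIdx = (List.range l.length).map fun i => (l.getD i d, i) := by
    refine List.ext_getElem (by simp) fun i h1 h2 => ?_
    simp only [List.length_zipIdx] at h1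
    simp [List.getD_eq_getElem?_getD, List.getElem?_eq_getElem h1]
  rw [h, List.flatMap_map]

theorem map_range_eq {β : Type} (N : ℕ) (f : ℕ → β) :
    (List.range N).map f = (List.range N).flatMap fun i => [f i] := by
  rw [List.map_eq_flatMap]

theorem breg_base (d : ℕ) : breg d ∈ baseReg := by
  unfold breg baseReg
  split_ifs <;> simp

theorem b2 : ([2] : Reg) ∈ baseReg := by simp [baseReg]
theorem b3 : ([3] : Reg) ∈ baseReg := by simp [baseReg]

/-! ### Scales -/

/-- the registers of the vector of the entries are base registers -/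
theorem v0_base (m n : ℕ) (c : Cand) : ∀ r ∈ (V0 m n c).2, r ∈ baseReg := by
  intro r hr
  simp only [V0, List.mem_cons, List.mem_map] at hr
  rcases hr with rfl | ⟨p, -, rfl⟩
  · exact b3
  · simp [baseReg]

theorem wr_sc (hF : S_FORD) (m n k : ℕ) (c : Cand) (recs : List (List ℤ × ℕ)) (j : ℕ) (r : Reg)
    (h : r ∈ wr (formP 52 j (V0 m n c).2 (recs.getD j ([], 0)).1)) :
    ∃ t, r = 52 :: j :: t ∨ r = 53 :: j :: t ∨ r = 54 :: j :: t := by
  refine (hF.1 52 j (V0 m n c).2 (recs.getD j ([], 0)).1 baseReg (fun _ h => h)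
    (v0_base m n c) ?_).2.1 r h
  intro r hr t
  have h : r.headD 0 < 4 := hr
  refine ⟨?_, ?_, ?_⟩ <;> rintro rfl <;> simp at h

theorem res_sc (hF : S_FORD) (m n : ℕ) (c : Cand) (recs : List (List ℤ × ℕ)) (j : ℕ) :
    [52, j, (V0 m n c).2.length] ∈ wr (formP 52 j (V0 m n c).2 (recs.getD j ([], 0)).1) := by
  refine (hF.1 52 j (V0 m n c).2 (recs.getD j ([], 0)).1 baseReg (fun _ h => h)
    (v0_base m n c) ?_).2.2
  intro r hr t
  have h : r.headD 0 < 4 := hr
  refine ⟨?_, ?_, ?_⟩ <;> rintro rfl <;> simp at h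

theorem ord_sc (hF : S_FORD) (m n k : ℕ) (c : Cand) (recs : List (List ℤ × ℕ)) :
    Ord baseReg (scP k (V0 m n c) recs) := by
  unfold scP
  refine ord_range _ _ _ fun j hj => ?_
  refine (hF.1 52 j (V0 m n c).2 (recs.getD j ([], 0)).1 _ (fun _ h => Or.inl h)
    (fun r hr => Or.inl (v0_base m n c r hr)) ?_).1
  rintro r (hr | ⟨i, hi, hr⟩) t
  · have h : r.headD 0 < 4 := hr
    refine ⟨?_, ?_, ?_⟩ <;> rintro rfl <;> simp at h
  · obtain ⟨t', ht⟩ := wr_sc hF m n k c recs i r hr
    rcases ht with rfl | rfl | rfl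
    all_goals
      refine ⟨?_, ?_, ?_⟩ <;> intro h' <;> simp at h' <;> omega

theorem wr_scP (hF : S_FORD) (m n k : ℕ) (c : Cand) (recs : List (List ℤ × ℕ)) (r : Reg)
    (h : r ∈ wr (scP k (V0 m n c) recs)) :
    ∃ j t, r = 52 :: j :: t ∨ r = 53 :: j :: t ∨ r = 54 :: j :: t := by
  unfold scP at h
  rw [mem_wr_range] at h
  obtain ⟨j, -, h⟩ := h
  obtain ⟨t, ht⟩ := wr_sc hF m n k c recs j r h
  exact ⟨j, t, ht⟩

theorem res_scP (hF : S_FORD) (m n k : ℕ) (c : Cand) (recs : List (List ℤ × ℕ)) (j : ℕ)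
    (hj : j < k) : [52, j, (V0 m n c).2.length] ∈ wr (scP k (V0 m n c) recs) := by
  unfold scP
  rw [mem_wr_range]
  exact ⟨j, hj, res_sc hF m n c recs j⟩

/-! ### Powers -/

theorem wr_pow (k s N : ℕ) (r : Reg) :
    r ∈ wr (powP k s N) ↔ ∃ a < k, ∃ t ≤ s, r = [30, a, t] := by
  unfold powP
  rw [mem_wr_range]
  refine exists_congr fun a => and_congr_right fun ha => ?_
  rw [wr_cons, map_range_eq]
  simp only [Set.mem_union, Set.mem_singleton_iff, mem_wr_range]
  constructor
  · rintro (h | ⟨s, hs, h⟩)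
    · exact ⟨0, by omega, h⟩
    · refine ⟨s + 1, by omega, ?_⟩
      simpa [mem_wr, eq_comm] using h
  · rintro ⟨s, hs, h⟩
    rcases s with _ | s
    · exact Or.inl h
    · exact Or.inr ⟨s, by omega, by simpa [mem_wr, eq_comm] using h⟩

theorem ord_pow (k s N : ℕ) (S : Set Reg) (hb : baseReg ⊆ S) (h52 : ∀ a < k, [52, a, N] ∈ S)
    (hS : ∀ a t, ([30, a, t] : Reg) ∉ S) : Ord S (powP k s N) := by
  unfold powP
  refine ord_range _ _ _ fun a ha => ?_
  set X : Set Reg := {r | ∃ j < a, r ∈ wr ((⟨Op.add, [30, j, 0], [2], [3]⟩ : Instr) ::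
    (List.range s).map fun t => (⟨Op.mul, [30, j, t + 1], [30, j, t], [52, j, N]⟩ : Instr))}
    with hX
  have hX' : ∀ t, ([30, a, t] : Reg) ∉ X := by
    intro t h
    obtain ⟨j, hj, h⟩ := h
    obtain ⟨I, hI, h⟩ := h
    simp only [List.mem_cons, List.mem_map, List.mem_range] at hI
    rcases hI with rfl | ⟨t, ht, rfl⟩
    · simp at h; omega
    · simp at h; omega
  rw [ord_cons]
  refine ⟨Or.inl (hb b2), Or.inl (hb b3), ?_, ?_⟩
  · rintro (h | h)
    · exact hS _ _ h
    · exact hX' _ h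
  · rw [map_range_eq]
    refine ord_range _ _ _ fun t ht => ?_
    rw [ord_cons]
    refine ⟨?_, Or.inl (Or.inl (Or.inl (h52 a ha))), ?_, trivial⟩
    · rcases t with _ | t
      · exact Or.inl (Or.inr rfl)
      · exact Or.inr ⟨t, by omega, by simp [mem_wr]⟩
    · rintro (((h | h) | h) | h)
      · exact hS _ _ h
      · exact hX' _ h
      · simp at h
      · obtain ⟨j, hj, h⟩ := h
        simp [mem_wr] at h
        omega

/-! ### Monomials -/

theorem exps_len (m j : ℕ) : (exps m j).length = (m + 1) ^ j := by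
  induction j with
  | zero => rfl
  | succ j ih =>
    unfold exps
    rw [List.length_flatMap]
    simp only [List.length_map, ih]
    simp [pow_succ, mul_comm]

theorem exps_le (m j : ℕ) : ∀ e ∈ exps m j, ∀ i, e.getD i 0 ≤ m := by
  induction j with
  | zero =>
    intro e he i
    simp [exps] at he
    subst he
    simp
  | succ j ih =>
    intro e he i
    simp only [exps, List.mem_flatMap, List.mem_range, List.mem_map] at he
    obtain ⟨d, hd, e', he', rfl⟩ := he
    rcases i with _ | i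
    · simp; omega
    · simpa using ih e' he' i

theorem exps_getD_le (m j l i : ℕ) : ((exps m j).getD l []).getD i 0 ≤ m := by
  by_cases h : l < (exps m j).length
  · rw [List.getD_eq_getElem _ _ h]
    exact exps_le m j _ (List.getElem_mem h) i
  · rw [List.getD_eq_default (exps m j) [] (by omega)]
    simp

theorem slot_mem (k s : ℕ) (c : Cand) (S : Set Reg) (hb : baseReg ⊆ S)
    (h30 : ∀ a < k, ∀ t ≤ s, [30, a, t] ∈ S) (u d : ℕ) (hu : u < 3 * k) (hd : d ≤ s) :
    slotR k c u d ∈ S := by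
  unfold slotR
  split_ifs with h1 h2 h3 h4
  · exact hb b2
  · refine hb ?_
    simp [baseReg]
  · exact hb b2
  · refine hb ?_
    simp [baseReg]
  · exact h30 _ (by omega) _ hd

/-- a block of the program of the monomials -/
def blk (k s : ℕ) (c : Cand) (l : ℕ) : List Instr :=
  (⟨Op.add, [31, l, 0], breg (((exps s (3 * k + 1)).getD l []).getD 0 0), [3]⟩ : Instr) ::
    (List.range (3 * k)).map fun t =>
      (⟨Op.mul, [31, l, t + 1], [31, l, t],
        slotR k c t (((exps s (3 * k + 1)).getD l []).getD (t + 1) 0)⟩ : Instr)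

theorem mon_eq (k s : ℕ) (c : Cand) :
    monP k s c = (List.range ((s + 1) ^ (3 * k + 1))).flatMap (blk k s c) := by
  unfold monP
  rw [zipIdx_eq _ [], exps_len]
  rfl

theorem wr_blk (k s : ℕ) (c : Cand) (l : ℕ) (r : Reg) :
    r ∈ wr (blk k s c l) ↔ ∃ t ≤ 3 * k, r = [31, l, t] := by
  unfold blk
  rw [wr_cons, map_range_eq]
  simp only [Set.mem_union, Set.mem_singleton_iff, mem_wr_range]
  constructor
  · rintro (h | ⟨s, hs, h⟩)
    · exact ⟨0, by omega, h⟩
    · refine ⟨s + 1, by omega, ?_⟩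
      simpa [mem_wr, eq_comm] using h
  · rintro ⟨s, hs, h⟩
    rcases s with _ | s
    · exact Or.inl h
    · exact Or.inr ⟨s, by omega, by simpa [mem_wr, eq_comm] using h⟩

theorem ord_mon (k s : ℕ) (c : Cand) (S : Set Reg) (hb : baseReg ⊆ S)
    (h30 : ∀ a < k, ∀ t ≤ s, [30, a, t] ∈ S)
    (hS : ∀ l t, ([31, l, t] : Reg) ∉ S) : Ord S (monP k s c) := by
  rw [mon_eq]
  refine ord_range _ _ _ fun l hl => ?_
  have hX : ∀ t, ([31, l, t] : Reg) ∉ {r | ∃ j < l, r ∈ wr (blk k s c j)} := by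
    intro t h
    obtain ⟨j, hj, h⟩ := h
    rw [wr_blk] at h
    obtain ⟨t, ht, h⟩ := h
    simp at h
    omega
  unfold blk
  rw [ord_cons]
  refine ⟨Or.inl (hb (breg_base _)), Or.inl (hb b3), ?_, ?_⟩
  · rintro (h | h)
    · exact hS _ _ h
    · exact hX _ h
  · rw [map_range_eq]
    refine ord_range _ _ _ fun t ht => ?_
    rw [ord_cons]
    refine ⟨?_, Or.inl (Or.inl (Or.inl
      (slot_mem k s c S hb h30 t _ ht (exps_getD_le _ _ _ _)))), ?_, trivial⟩
    · rcases t with _ | t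
      · exact Or.inl (Or.inr rfl)
      · exact Or.inr ⟨t, by omega, by simp [mem_wr]⟩
    · rintro (((h | h) | h) | h)
      · exact hS _ _ h
      · exact hX _ h
      · simp at h
      · obtain ⟨j, hj, h⟩ := h
        simp [mem_wr] at h
        omega

end TV1ORD

open TV1ORD in
theorem t_V1ORD : S_FORD → S_V1ORD := by
  intro hF k m n x
  refine ⟨?_, ?_, ?_, ?_⟩
  · unfold V1
    rw [TV1ORD.ord_append, TV1ORD.ord_append]
    refine ⟨ord_sc hF m n k x.1 x.2, ?_, ?_⟩
    · refine ord_pow k _ _ _ (fun r hr => Or.inl hr) (fun a ha => Or.inr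
        (res_scP hF m n k x.1 x.2 a ha)) ?_
      rintro a t (h | h)
      · simp [baseReg] at h
      · obtain ⟨j, t', h | h | h⟩ := wr_scP hF m n k x.1 x.2 _ h <;> simp at h
    · refine ord_mon k _ _ _ (fun r hr => Or.inl (Or.inl hr)) ?_ ?_
      · intro a ha t ht
        exact Or.inr ((wr_pow k _ _ _).2 ⟨a, ha, t, ht, rfl⟩)
      · rintro l t ((h | h) | h)
        · simp [baseReg] at h
        · obtain ⟨j, t', h | h | h⟩ := wr_scP hF m n k x.1 x.2 _ h <;> simp at h
        · rw [wr_pow] at h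
          obtain ⟨a, -, t, -, h⟩ := h
          simp at h
  · intro r hr
    unfold V1 at hr
    rw [TV1ORD.wr_append, TV1ORD.wr_append] at hr
    unfold PreHd
    rcases hr with h | h | h
    · obtain ⟨j, t', rfl | rfl | rfl⟩ := wr_scP hF m n k x.1 x.2 _ h <;> simp
    · rw [wr_pow] at h
      obtain ⟨a, -, t, -, rfl⟩ := h
      exact Or.inl rfl
    · rw [mon_eq, mem_wr_range] at h
      obtain ⟨l, -, h⟩ := h
      rw [wr_blk] at h
      obtain ⟨t, -, rfl⟩ := h
      exact Or.inr (Or.inl rfl)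
  · intro r hr
    unfold V1 at hr ⊢
    simp only [List.mem_map, List.mem_range, exps_len] at hr
    obtain ⟨l, hl, rfl⟩ := hr
    rw [TV1ORD.wr_append, TV1ORD.wr_append, mon_eq]
    right
    right
    rw [mem_wr_range]
    exact ⟨l, hl, (wr_blk _ _ _ _ _).2 ⟨3 * k, le_rfl, rfl⟩⟩
  · unfold V1 N1
    simp only [List.length_map, List.length_range, exps_len]

end Pool.Agent.W920.FD
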