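import Pool.Agent.W920.FD.Stm

set_option autoImplicit false

/-! # Sizes: the program for the monomials -/

namespace Pool.Agent.W920.FD

open Pool.Agent.NPC Pool.Agent.H558R2 Pool.Agent.H622R3.SM Pool.Agent.W920.FC

namespace TV1SZ

/-- `v * D ^ e` is an integer of absolute value at most `X * 2 ^ (lam * e)`. -/
def IQ (D lam e X : ℕ) (v : ℝ) : Prop :=
  ∃ z : ℤ, z.natAbs ≤ X * 2 ^ (lam * e) ∧ v * ((D ^ e : ℕ) : ℝ) = z

theorem iq_mul {D lam e f X Y : ℕ} {v w : ℝ} (hv : IQ D lam e X v) (hw : IQ D lam f Y w) :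
    IQ D lam (e + f) (X * Y) (v * w) := by
  obtain ⟨z, hz, hz'⟩ := hv
  obtain ⟨y, hy, hy'⟩ := hw
  refine ⟨z * y, ?_, ?_⟩
  · rw [Int.natAbs_mul, mul_add, pow_add]
    calc z.natAbs * y.natAbs ≤ (X * 2 ^ (lam * e)) * (Y * 2 ^ (lam * f)) := Nat.mul_le_mul hz hy
      _ = X * Y * (2 ^ (lam * e) * 2 ^ (lam * f)) := by ring
  · push_cast at hz' hy' ⊢
    rw [← hz', ← hy', pow_add]
    ring

theorem iq_one {D lam : ℕ} : IQ D lam 0 1 1 := ⟨1, by simp, by simp⟩

theorem iq_pow {D lam e X : ℕ} {v : ℝ} (hv : IQ D lam e X v) (s : ℕ) :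
    IQ D lam (e * s) (X ^ s) (v ^ s) := by
  induction s with
  | zero => simpa using iq_one
  | succ s ih =>
    have := iq_mul ih hv
    rw [pow_succ, pow_succ, mul_add, mul_one]
    exact this

theorem iq_pad {D lam e f X : ℕ} {v : ℝ} (hD : D ≤ 2 ^ lam) (hv : IQ D lam e X v) (h : e ≤ f) :
    IQ D lam f X v := by
  obtain ⟨z, hz, hz'⟩ := hv
  obtain ⟨t, rfl⟩ := Nat.exists_eq_add_of_le h
  refine ⟨z * (D ^ t : ℕ), ?_, ?_⟩
  · rw [Int.natAbs_mul, Int.natAbs_natCast, mul_add, pow_add, ← mul_assoc]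
    refine Nat.mul_le_mul hz ?_
    rw [pow_mul]
    exact Nat.pow_le_pow_left hD t
  · push_cast at hz' ⊢
    rw [← hz', pow_add]
    ring

theorem iq_mono {D lam e X Y : ℕ} {v : ℝ} (hv : IQ D lam e X v) (h : X ≤ Y) : IQ D lam e Y v := by
  obtain ⟨z, hz, hz'⟩ := hv
  exact ⟨z, hz.trans (Nat.mul_le_mul_right _ h), hz'⟩

theorem iq_add {D lam e X Y : ℕ} {v w : ℝ} (hv : IQ D lam e X v) (hw : IQ D lam e Y w) :
    IQ D lam e (X + Y) (v + w) := by
  obtain ⟨z, hz, hz'⟩ := hv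
  obtain ⟨y, hy, hy'⟩ := hw
  refine ⟨z + y, ?_, ?_⟩
  · rw [add_mul]
    exact (Int.natAbs_add_le z y).trans (Nat.add_le_add hz hy)
  · push_cast at hz' hy' ⊢
    rw [← hz', ← hy']
    ring

theorem iq_zero {D lam e X : ℕ} : IQ D lam e X 0 := ⟨0, by simp, by simp⟩

theorem iq_int {D lam e X : ℕ} {v : ℝ} (hv : IQ D lam e X v) (a : ℤ) :
    IQ D lam e (a.natAbs * X) ((a : ℝ) * v) := by
  obtain ⟨z, hz, hz'⟩ := hv
  refine ⟨a * z, ?_, ?_⟩
  · rw [Int.natAbs_mul, mul_assoc]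
    exact Nat.mul_le_mul_left _ hz
  · push_cast at hz' ⊢
    rw [← hz']
    ring

theorem iq_prod {D lam E X : ℕ} (r : ℕ) (f : ℕ → ℝ) (h : ∀ i < r, IQ D lam E X (f i)) :
    IQ D lam (r * E) (X ^ r) (∏ i ∈ Finset.range r, f i) := by
  induction r with
  | zero => simpa using iq_one
  | succ r ih =>
    rw [Finset.prod_range_succ, pow_succ, add_mul, one_mul]
    exact iq_mul (ih fun i hi => h i (by omega)) (h r (by omega))

theorem iq_sum {D lam e X : ℕ} (r : ℕ) (f : ℕ → ℝ) (h : ∀ i < r, IQ D lam e X (f i)) :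
    IQ D lam e (r * X) (∑ i ∈ Finset.range r, f i) := by
  induction r with
  | zero => simpa using iq_zero
  | succ r ih =>
    rw [Finset.sum_range_succ, add_mul, one_mul]
    exact iq_add (ih fun i hi => h i (by omega)) (h r (by omega))

theorem iq_qb {D lam e X β : ℕ} {v : ℝ} (hD1 : 1 ≤ D) (hD : D ≤ 2 ^ lam) (hX : 1 ≤ X)
    (hv : IQ D lam e X v) (h2 : X * 2 ^ (lam * e) ≤ 2 ^ β) : QB β v := by
  obtain ⟨z, hz, hz'⟩ := hv
  refine ⟨D ^ e, z, Nat.one_le_pow _ _ hD1, ?_, hz.trans h2, hz'⟩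
  refine le_trans ?_ h2
  refine le_trans ?_ (Nat.le_mul_of_pos_left _ hX)
  rw [pow_mul]
  exact Nat.pow_le_pow_left hD e

/-- the exponents are at most `m` -/
theorem exps_le (m j : ℕ) : ∀ e ∈ exps m j, ∀ i, e.getD i 0 ≤ m := by
  induction j with
  | zero =>
    intro e he i
    simp only [exps, List.mem_singleton] at he
    subst he
    simp
  | succ j ih =>
    intro e he i
    simp only [exps, List.mem_flatMap, List.mem_map, List.mem_range] at he
    obtain ⟨d, hd, e', he', rfl⟩ := he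
    cases i with
    | zero => simpa using (by omega : d ≤ m)
    | succ i => simpa using ih e' he' i

theorem exps_getD_le (m j l i : ℕ) : ((exps m j).getD l []).getD i 0 ≤ m := by
  by_cases h : l < (exps m j).length
  · rw [List.getD_eq_getElem _ _ h]
    exact exps_le m j _ (List.getElem_mem h) i
  · have h0 : (exps m j).getD l [] = [] := List.getD_eq_default _ _ (by omega)
    rw [h0]
    simp

theorem breg_base (d : ℕ) : breg d ∈ baseReg := by
  unfold breg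
  split_ifs <;> simp [baseReg]

theorem slotR_base (k : ℕ) (c : Cand) (u d : ℕ) (hu : u < 2 * k) : slotR k c u d ∈ baseReg := by
  unfold slotR
  split_ifs <;> simp [baseReg]

/-- the registers of the entries are base registers -/
theorem V0_base (m n : ℕ) (c : Cand) (l : ℕ) : (V0 m n c).2.getD l [3] ∈ baseReg := by
  by_cases hl : l < (V0 m n c).2.length
  · rw [List.getD_eq_getElem _ _ hl]
    have h := List.getElem_mem hl
    generalize (V0 m n c).2[l] = r at h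
    unfold V0 at h
    rw [List.mem_cons, List.mem_map] at h
    rcases h with rfl | ⟨p, hp, rfl⟩ <;> simp [baseReg]
  · rw [List.getD_eq_default _ _ (by omega)]
    simp [baseReg]

theorem base_iq {D lam : ℕ} {g : Reg → ℝ}
    (h : ∀ r ∈ baseReg, ∃ z : ℤ, z.natAbs ≤ 2 ^ lam ∧ g r * D = z) (r : Reg) (hr : r ∈ baseReg) :
    IQ D lam 1 1 (g r) := by
  obtain ⟨z, hz, hz'⟩ := h r hr
  exact ⟨z, by simpa using hz, by simpa using hz'⟩

theorem small_getD {B : ℕ} {C : List ℤ} (h : SmallL B C) (i : ℕ) :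
    (C.getD i 0).natAbs ≤ 2 ^ B := by
  by_cases hi : i < C.length
  · rw [List.getD_eq_getElem _ _ hi]
    exact h _ (List.getElem_mem hi)
  · rw [List.getD_eq_default _ _ (by omega)]
    simp

theorem rec_small {k m n : ℕ} {x : Cand × List (List ℤ × ℕ)} (h : RecOK k m n x) (r : ℕ) :
    SmallL ((P0 k (m + n) + 1) * k) (x.2.getD r ([], 0)).1 := by
  by_cases hr : r < x.2.length
  · rw [List.getD_eq_getElem _ _ hr]
    exact (h.2 _ (List.getElem_mem hr)).1
  · rw [List.getD_eq_default _ _ (by omega)]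
    intro y hy
    simp at hy

section

variable {k m n D lam : ℕ} {g : Reg → ℝ} {x : Cand × List (List ℤ × ℕ)}
  (h : ∀ r ∈ baseReg, ∃ z : ℤ, z.natAbs ≤ 2 ^ lam ∧ g r * D = z) (hR : RecOK k m n x)

include h hR

theorem iq_scv (r : ℕ) : IQ D lam 1 ((V0 m n x.1).2.length * 2 ^ ((P0 k (m + n) + 1) * k))
    (scv m n g x r) := by
  unfold scv evF
  refine iq_sum _ _ fun i _ => ?_
  have h1 : IQ D lam 1 1 (w0 m n g x.1 i) := base_iq h _ (V0_base m n x.1 i)
  have h2 := iq_int h1 ((x.2.getD r ([], 0)).1.getD i 0)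
  refine iq_mono h2 ?_
  rw [mul_one]
  exact small_getD (rec_small hR r) i

theorem iq_slot (hD : D ≤ 2 ^ lam) {Y : ℕ} (hY1 : 1 ≤ Y)
    (hY : (V0 m n x.1).2.length * 2 ^ ((P0 k (m + n) + 1) * k) ≤ Y)
    (u d : ℕ) (hd : d ≤ m + n) :
    IQ D lam (m + n + 1) (Y ^ (m + n)) (slotV k m n g x u d) := by
  unfold slotV
  split_ifs with hu
  · refine iq_mono (iq_pad hD (base_iq h _ (slotR_base k x.1 u d hu)) (by omega)) ?_
    exact Nat.one_le_pow _ _ hY1
  · refine iq_mono (iq_pad hD (iq_pow (iq_scv h hR (u - 2 * k)) d) (by omega)) ?_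
    exact (Nat.pow_le_pow_left hY d).trans (Nat.pow_le_pow_right hY1 hd)

theorem iq_mon (hD : D ≤ 2 ^ lam) {Y : ℕ} (hY1 : 1 ≤ Y)
    (hY : (V0 m n x.1).2.length * 2 ^ ((P0 k (m + n) + 1) * k) ≤ Y)
    (e : List ℕ) (he : ∀ i, e.getD i 0 ≤ m + n) (t : ℕ) (ht : t ≤ 3 * k) :
    IQ D lam (1 + 3 * k * (m + n + 1)) (Y ^ (3 * k * (m + n)))
      (g (breg (e.getD 0 0)) * ∏ i ∈ Finset.range t, slotV k m n g x i (e.getD (i + 1) 0)) := by
  have h1 := iq_prod (D := D) (lam := lam) t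
    (fun i => slotV k m n g x i (e.getD (i + 1) 0))
    (fun i _ => iq_slot h hR hD hY1 hY i _ (he (i + 1)))
  have h2 := iq_mul (base_iq h _ (breg_base (e.getD 0 0))) h1
  refine iq_mono (iq_pad hD h2 ?_) ?_
  · have := Nat.mul_le_mul_right (m + n + 1) ht
    omega
  · rw [one_mul, ← pow_mul]
    refine Nat.pow_le_pow_right hY1 ?_
    rw [mul_comm]
    exact Nat.mul_le_mul_right _ ht

theorem iq_pw (hD : D ≤ 2 ^ lam) {Y : ℕ} (hY1 : 1 ≤ Y)
    (hY : (V0 m n x.1).2.length * 2 ^ ((P0 k (m + n) + 1) * k) ≤ Y)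
    (r t : ℕ) (ht : t ≤ m + n) (hk : 1 ≤ k) :
    IQ D lam (1 + 3 * k * (m + n + 1)) (Y ^ (3 * k * (m + n))) (scv m n g x r ^ t) := by
  have h1 : m + n ≤ 3 * k * (m + n) := Nat.le_mul_of_pos_left _ (by omega)
  have h2 : m + n + 1 ≤ 3 * k * (m + n + 1) := Nat.le_mul_of_pos_left _ (by omega)
  refine iq_mono (iq_pad hD (iq_pow (iq_scv h hR r) t) (by omega)) ?_
  exact (Nat.pow_le_pow_left hY t).trans (Nat.pow_le_pow_right hY1 (by omega))

end

/-- the polynomial -/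
noncomputable def pol (k : ℕ) (q : Polynomial ℕ) : Polynomial ℕ :=
  Polynomial.C (3 * k) * Polynomial.X * (Polynomial.X * Polynomial.X + 1 + q) +
    Polynomial.X * (1 + Polynomial.C (3 * k) * (Polynomial.X + 1)) +
    (q + Polynomial.X + Polynomial.X * Polynomial.X + 3)

theorem pol_eval (k : ℕ) (q : Polynomial ℕ) (s : ℕ) : (pol k q).eval s =
    3 * k * s * (s * s + 1 + q.eval s) + s * (1 + 3 * k * (s + 1)) +
      (q.eval s + s + s * s + 3) := by
  simp [pol]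

/-- the destinations of the powers and monomials -/
theorem dst_pow (k s N : ℕ) : ∀ I ∈ powP k s N, ∃ r t, r < k ∧ t ≤ s ∧ I.dst = [30, r, t] := by
  intro I hI
  unfold powP at hI
  rw [List.mem_flatMap] at hI
  obtain ⟨r, hr, hI⟩ := hI
  rw [List.mem_range] at hr
  rw [List.mem_cons, List.mem_map] at hI
  rcases hI with rfl | ⟨t, ht, rfl⟩
  · exact ⟨r, 0, hr, Nat.zero_le _, rfl⟩
  · rw [List.mem_range] at ht
    exact ⟨r, t + 1, hr, ht, rfl⟩

theorem dst_mon (k s : ℕ) (c : Cand) : ∀ I ∈ monP k s c, ∃ l t, t ≤ 3 * k ∧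
    I.dst = [31, l, t] := by
  intro I hI
  unfold monP at hI
  rw [List.mem_flatMap] at hI
  obtain ⟨e, he, hI⟩ := hI
  rw [List.mem_cons, List.mem_map] at hI
  rcases hI with rfl | ⟨r, hr, rfl⟩
  · exact ⟨e.2, 0, Nat.zero_le _, rfl⟩
  · rw [List.mem_range] at hr
    exact ⟨e.2, r + 1, hr, rfl⟩

theorem form_val (k m n : ℕ) (g : Reg → ℝ) (x : Cand × List (List ℤ × ℕ)) (r : ℕ) :
    FormVal (vt k m n g x) 52 r (V0 m n x.1).2.length (w0 m n g x.1)
      (x.2.getD r ([], 0)).1 := by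
  refine ⟨fun l _ => rfl, fun l _ t => ⟨rfl, rfl⟩⟩

/-- the arithmetic of the bounds -/
theorem bound {k s lam B S : ℕ} (hs : s ≤ S) (hl : lam ≤ S) :
    (2 ^ (S * S + 1 + B)) ^ (3 * k * s) * 2 ^ (lam * (1 + 3 * k * (s + 1))) ≤
      2 ^ (3 * k * S * (S * S + 1 + B) + S * (1 + 3 * k * (S + 1)) + (B + S + S * S + 3)) := by
  rw [← pow_mul, ← pow_add]
  refine Nat.pow_le_pow_right (by norm_num) ?_
  have h1 : (S * S + 1 + B) * (3 * k * s) ≤ 3 * k * S * (S * S + 1 + B) := by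
    rw [mul_comm]
    exact Nat.mul_le_mul_right _ (Nat.mul_le_mul_left _ hs)
  have h2 : lam * (1 + 3 * k * (s + 1)) ≤ S * (1 + 3 * k * (S + 1)) := by
    refine Nat.mul_le_mul hl ?_
    have := Nat.mul_le_mul_left (3 * k) (Nat.succ_le_succ hs)
    simp only [Nat.succ_eq_add_one] at this
    omega
  omega

end TV1SZ

open TV1SZ in
theorem t_V1SZ : ∀ k, S_FORM → S_VOK0 → S_PB k → S_V1SZ k := by
  intro k hF hV hP
  obtain ⟨q0, hV⟩ := hV
  obtain ⟨q1, hP⟩ := hP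
  refine ⟨pol k q1, ?_⟩
  intro m n lam g x hBase hRB hR
  obtain ⟨D, hD1, hD, h⟩ := hRB
  rw [pol_eval]
  set S := m + n + lam with hS
  set B := (P0 k (m + n) + 1) * k with hB
  have hB1 : B ≤ q1.eval S := by
    refine le_trans ?_ (eval_mono q1 (show m + n ≤ S by omega))
    exact (hP m n).2.2.2.2.2.2.2.2.2.2.2.1
  have hs : m + n ≤ S := by omega
  have hl : lam ≤ S := by omega
  have hN : (V0 m n x.1).2.length ≤ m * n + 1 := (hV m n g x.1 hBase).2
  have hmn : m * n ≤ S * S := Nat.mul_le_mul (by omega) (by omega)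
  set Y := 2 ^ (S * S + 1 + q1.eval S) with hY
  have hY1 : 1 ≤ Y := Nat.one_le_two_pow
  have hYl : (V0 m n x.1).2.length * 2 ^ ((P0 k (m + n) + 1) * k) ≤ Y := by
    rw [hY, pow_add]
    refine Nat.mul_le_mul ?_ (Nat.pow_le_pow_right (by norm_num) hB1)
    have h3 : S * S + 1 < 2 ^ (S * S + 1) := Nat.lt_two_pow_self
    omega
  have hX1 : 1 ≤ Y ^ (3 * k * (m + n)) := Nat.one_le_pow _ _ hY1
  have hbd := bound (k := k) (s := m + n) (lam := lam) (B := q1.eval S) hs hl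
  have hβ : 2 ^ lam ≤ 2 ^ (3 * k * S * (S * S + 1 + q1.eval S) + S * (1 + 3 * k * (S + 1)) +
      (q1.eval S + S + S * S + 3)) := Nat.pow_le_pow_right (by norm_num) (by omega)
  refine ⟨?_, ?_⟩
  · intro I hI
    have hI' : I ∈ scP k (V0 m n x.1) x.2 ++ (powP k (m + n) (V0 m n x.1).2.length ++
      monP k (m + n) x.1) := hI
    rw [List.mem_append, List.mem_append] at hI'
    rcases hI' with hI | hI | hI
    · unfold scP at hI
      rw [List.mem_flatMap] at hI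
      obtain ⟨r, hr, hI⟩ := hI
      obtain ⟨z, hz, hz'⟩ := hF.2.1 (vt k m n g x) 52 r (V0 m n x.1).2 (w0 m n g x.1)
        (x.2.getD r ([], 0)).1 D B lam (form_val k m n g x r) (rec_small hR r)
        (fun l _ => h _ (V0_base m n x.1 l)) I hI
      refine ⟨D, z, hD1, hD.trans hβ, hz.trans ?_, hz'⟩
      exact Nat.pow_le_pow_right (by norm_num) (by omega)
    · obtain ⟨r, t, hr, ht, h1⟩ := dst_pow _ _ _ I hI
      rw [h1]
      exact iq_qb hD1 hD hX1 (iq_pw h hR hD hY1 hYl r t ht (by omega)) hbd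
    · obtain ⟨l, t, ht, h1⟩ := dst_mon _ _ _ I hI
      rw [h1]
      exact iq_qb hD1 hD hX1 (iq_mon h hR hD hY1 hYl _ (fun i => exps_getD_le _ _ _ _) t ht) hbd
  · refine ⟨D ^ (1 + 3 * k * (m + n + 1)), Nat.one_le_pow _ _ hD1, ?_, ?_⟩
    · refine le_trans ?_ hbd
      refine le_trans ?_ (Nat.le_mul_of_pos_left _ hX1)
      rw [pow_mul 2 lam]
      exact Nat.pow_le_pow_left hD _
    · intro l _
      obtain ⟨z, hz, hz'⟩ := iq_mon h hR hD hY1 hYl ((exps (m + n) (3 * k + 1)).getD l [])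
        (fun i => exps_getD_le _ _ _ _) (3 * k) le_rfl
      exact ⟨z, hz.trans hbd, hz'⟩

end Pool.Agent.W920.FD
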