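import Pool.Agent.W920.FD.Stm

set_option autoImplicit false

/-! # The vector of the entries is fine -/

namespace Pool.Agent.W920.FD

open Pool.Agent.NPC Pool.Agent.H558R2 Pool.Agent.H622R3.SM Pool.Agent.W920.FC

namespace TVOK0

lemma poss_length (m n : ℕ) : (poss m n).length = m * n := by
  unfold poss
  rw [List.length_flatMap]
  simp

lemma V0_length (m n : ℕ) (c : Cand) : (V0 m n c).2.length ≤ m * n + 1 := by
  unfold V0
  simp only [List.length_cons, List.length_map]
  have h := List.length_filter_le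
    (fun p : ℕ × ℕ => !(decide (p.1 ∈ c.1)) && !(decide (p.2 ∈ c.2))) (poss m n)
  rw [poss_length] at h
  omega

lemma V0_mem (m n : ℕ) (c : Cand) : ∀ r ∈ (V0 m n c).2, r ∈ baseReg := by
  intro r hr
  unfold V0 at hr
  simp only [List.mem_cons, List.mem_map] at hr
  rcases hr with h | ⟨p, _, h⟩
  · subst h
    show ([3] : List ℕ).headD 0 < 4
    simp
  · subst h
    show ([0, p.1, p.2] : List ℕ).headD 0 < 4
    simp

end TVOK0

open TVOK0

theorem t_VOK0 : S_VOK0 := by
  refine ⟨1 + Polynomial.X + Polynomial.X ^ 2, fun m n g c _ => ?_⟩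
  have hev : ∀ x : ℕ, (1 + Polynomial.X + Polynomial.X ^ 2 : Polynomial ℕ).eval x
      = 1 + x + x ^ 2 := by
    intro x; simp
  have hlen := V0_length m n c
  refine ⟨⟨?_, ?_, ?_, ?_, ?_, ?_, ?_, ?_⟩, hlen⟩
  · exact trivial
  · intro r hr
    simp [V0, wr] at hr
  · intro r hr
    exact Or.inl (V0_mem m n c r hr)
  · simp [V0]
  · rw [hev]
    nlinarith [hlen, Nat.zero_le m, Nat.zero_le n, Nat.zero_le (m * n), Nat.zero_le (m ^ 2),
      Nat.zero_le (n ^ 2)]
  · simp [V0]
  · refine ⟨g, fun r _ => rfl, ?_, fun l _ => rfl⟩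
    intro I hI
    simp [V0] at hI
  · intro lam hR
    obtain ⟨D, h1, h2, h3⟩ := hR
    have hle : lam ≤ (1 + Polynomial.X + Polynomial.X ^ 2 : Polynomial ℕ).eval (m + n + lam) := by
      rw [hev]
      nlinarith [Nat.zero_le ((m + n + lam) ^ 2)]
    have hpow : 2 ^ lam ≤ 2 ^ (1 + Polynomial.X + Polynomial.X ^ 2 : Polynomial ℕ).eval
        (m + n + lam) := Nat.pow_le_pow_right (by norm_num) hle
    refine ⟨D, h1, h2.trans hpow, ?_⟩
    intro l hl
    have hmem : (V0 m n c).2.getD l [3] ∈ baseReg := by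
      apply V0_mem m n c
      rw [List.getD_eq_getElem _ _ hl]
      exact List.getElem_mem hl
    obtain ⟨z, hz1, hz2⟩ := h3 _ hmem
    exact ⟨z, hz1.trans hpow, hz2⟩

end Pool.Agent.W920.FD
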