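import Pool.Agent.W920.FD.Stm

set_option autoImplicit false

/-!
# The vector of the monomials is fine (assembly)
-/

namespace Pool.Agent.W920.FD

open Pool.Agent.NPC Pool.Agent.H558R2 Pool.Agent.H622R3.SM Pool.Agent.W920.FC

namespace TVOK1

theorem QB_mono {β β' : ℕ} (h : β ≤ β') {v : ℝ} (hv : QB β v) : QB β' v := by
  obtain ⟨E, z, h1, h2, h3, h4⟩ := hv
  have hp : 2 ^ β ≤ 2 ^ β' := Nat.pow_le_pow_right (by norm_num) h
  exact ⟨E, z, h1, h2.trans hp, h3.trans hp, h4⟩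

theorem CD_mono {β β' N : ℕ} (h : β ≤ β') {w : ℕ → ℝ} {D : ℕ} (hv : CD N w D β) :
    CD N w D β' := by
  obtain ⟨h1, h2, h3⟩ := hv
  have hp : 2 ^ β ≤ 2 ^ β' := Nat.pow_le_pow_right (by norm_num) h
  refine ⟨h1, h2.trans hp, fun l hl => ?_⟩
  obtain ⟨z, hz, hz'⟩ := h3 l hl
  exact ⟨z, hz.trans hp, hz'⟩

end TVOK1

open TVOK1 in
theorem t_VOK1 : ∀ k, S_V1ORD → S_V1EQ → S_V1SZ k → S_V1LEN k → S_PB k → S_VOK1 k := by
  intro k hord heq hsz hlen hpb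
  obtain ⟨q1, h1⟩ := hsz
  obtain ⟨q2, h2⟩ := hlen
  obtain ⟨q3, h3⟩ := hpb
  refine ⟨q1 + q2 + q3, fun m n g x hg hx => ?_⟩
  obtain ⟨o1, o2, o3, o4⟩ := hord k m n x
  obtain ⟨e1, e2, e3⟩ := heq k m n g x hg
  have he : ∀ S, q1.eval S ≤ (q1 + q2 + q3).eval S ∧ q2.eval S ≤ (q1 + q2 + q3).eval S ∧
      q3.eval S ≤ (q1 + q2 + q3).eval S := by
    intro S
    rw [Polynomial.eval_add, Polynomial.eval_add]
    refine ⟨?_, ?_, ?_⟩ <;> omega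
  refine ⟨o1, o2, fun r hr => Or.inr (o3 r hr), (h2 m n x hx).trans (he _).2.1, ?_, ?_,
    ⟨vt k m n g x, e1, fun I hI => ⟨e2 I hI, fun lam hlam => ?_⟩, e3⟩, fun lam hlam => ?_⟩
  · rw [o4]
    exact (h3 m n).2.2.2.1.trans (he _).2.2
  · rw [o4]
    exact Nat.one_le_pow _ _ (Nat.succ_pos _)
  · exact QB_mono (he _).1 ((h1 m n lam g x hg hlam hx).1 I hI)
  · obtain ⟨D, hD⟩ := (h1 m n lam g x hg hlam hx).2
    rw [o4]
    exact ⟨D, CD_mono (he _).1 hD⟩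

end Pool.Agent.W920.FD
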