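import Pool.Agent.W920.FD.Stm

/-! # The monomials -/

set_option autoImplicit false

namespace Pool.Agent.W920.FD

open Pool.Agent.NPC Pool.Agent.H558R2 Pool.Agent.H622R3.SM Pool.Agent.W920.FC

namespace TW1

theorem length_exps (m : ℕ) : ∀ j, (exps m j).length = (m + 1) ^ j
  | 0 => rfl
  | j + 1 => by
    have ih := length_exps m j
    simp [exps, List.length_flatMap, ih, pow_succ, mul_comm]

theorem mem_exps (m : ℕ) : ∀ (j : ℕ) (e : List ℕ),
    e.length = j → (∀ d ∈ e, d ≤ m) → e ∈ exps m j
  | 0, e, h, _ => by
    rw [List.length_eq_zero_iff.1 h]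
    simp [exps]
  | j + 1, e, h, h2 => by
    cases e with
    | nil => simp at h
    | cons d e' =>
      simp only [exps, List.mem_flatMap, List.mem_range, List.mem_map]
      refine ⟨d, by have := h2 d (by simp); omega, e', mem_exps m j e' (by simpa using h) ?_, rfl⟩
      intro x hx
      exact h2 x (by simp [hx])

theorem getD_exps_zero (m : ℕ) : ∀ j, (exps m j).getD 0 [] = List.replicate j 0
  | 0 => rfl
  | j + 1 => by
    have ih := getD_exps_zero m j
    have hl := length_exps m j
    cases hE : exps m j with
    | nil =>
      rw [hE] at hl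
      have h2 : 0 < (m + 1) ^ j := Nat.pos_of_ne_zero (pow_ne_zero _ (by omega))
      rw [← hl] at h2
      exact absurd h2 (lt_irrefl _)
    | cons a l =>
      rw [hE] at ih
      have e1 : a = List.replicate j 0 := by simpa using ih
      have : exps m (j + 1) = (List.range (m + 1)).flatMap fun d =>
          (exps m j).map fun e => d :: e := rfl
      rw [this, hE, List.range_succ_eq_map]
      simp [e1, List.replicate_succ]

theorem getD_rep (j i : ℕ) : (List.replicate j 0).getD i 0 = 0 := by
  rw [List.getD_eq_getElem?_getD, List.getElem?_replicate]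
  split_ifs <;> rfl

end TW1

open TW1 in
theorem t_W1 : S_W1 := by
  intro k m n g x hB
  constructor
  · unfold w1
    rw [getD_exps_zero]
    unfold mon1
    rw [getD_rep]
    have e0 : g (breg 0) = 1 := by
      unfold breg
      rw [if_pos rfl]
      exact hB.1
    rw [e0, one_mul]
    refine Finset.prod_eq_one fun t _ => ?_
    rw [getD_rep]
    unfold slotV
    split_ifs with h
    · unfold slotR
      by_cases h1 : t < k
      · rw [if_pos h1, if_pos rfl]
        exact hB.1
      · rw [if_neg h1, if_pos h, if_pos rfl]
        exact hB.1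
    · exact pow_zero _
  · intro e he1 he2
    have hm := mem_exps (m + n) (3 * k + 1) e he1 he2
    obtain ⟨l, hl, hle⟩ := List.getElem_of_mem hm
    refine ⟨l, ?_, ?_⟩
    · rw [length_exps] at hl
      exact hl
    · unfold w1
      rw [List.getD_eq_getElem _ _ hl, hle]

end Pool.Agent.W920.FD
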