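import Pool.Agent.W920.FC.T_BIS
import Pool.Agent.W920.FC.T_BITS
import Pool.Agent.W920.FC.T_CERT
import Pool.Agent.W920.FC.T_CMP
import Pool.Agent.W920.FC.T_DIR
import Pool.Agent.W920.FC.T_FEAS
import Pool.Agent.W920.FC.T_FT
import Pool.Agent.W920.FC.T_KERSTEP
import Pool.Agent.W920.FC.T_LINPOLYB
import Pool.Agent.W920.FC.T_ORD1
import Pool.Agent.W920.FC.T_ORD2A
import Pool.Agent.W920.FC.T_ORD2B
import Pool.Agent.W920.FC.T_OUT
import Pool.Agent.W920.FC.T_PERC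
import Pool.Agent.W920.FC.T_PP34
import Pool.Agent.W920.FC.T_PP5
import Pool.Agent.W920.FC.T_PROJ
import Pool.Agent.W920.FC.T_PT
import Pool.Agent.W920.FC.T_PTITER
import Pool.Agent.W920.FC.T_PU4
import Pool.Agent.W920.FC.T_RUN
import Pool.Agent.W920.FC.T_SDA
import Pool.Agent.W920.FC.T_SORT
import Pool.Agent.W920.FC.T_TT
import Pool.Agent.W920.FD.T_BD
import Pool.Agent.W920.FD.T_BF
import Pool.Agent.W920.FD.T_EQM
import Pool.Agent.W920.FD.T_EQR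
import Pool.Agent.W920.FD.T_FN
import Pool.Agent.W920.FD.T_FORD
import Pool.Agent.W920.FD.T_FORM
import Pool.Agent.W920.FD.T_GD
import Pool.Agent.W920.FD.T_HVFR
import Pool.Agent.W920.FD.T_HVP
import Pool.Agent.W920.FD.T_I0
import Pool.Agent.W920.FD.T_LD
import Pool.Agent.W920.FD.T_LEN
import Pool.Agent.W920.FD.T_MIN
import Pool.Agent.W920.FD.T_MINP
import Pool.Agent.W920.FD.T_NX
import Pool.Agent.W920.FD.T_P1
import Pool.Agent.W920.FD.T_P3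
import Pool.Agent.W920.FD.T_P4
import Pool.Agent.W920.FD.T_PB
import Pool.Agent.W920.FD.T_Q1
import Pool.Agent.W920.FD.T_Q3
import Pool.Agent.W920.FD.T_Q4
import Pool.Agent.W920.FD.T_QF
import Pool.Agent.W920.FD.T_QFIN
import Pool.Agent.W920.FD.T_QP
import Pool.Agent.W920.FD.T_QS
import Pool.Agent.W920.FD.T_QSTG
import Pool.Agent.W920.FD.T_QV
import Pool.Agent.W920.FD.T_RANK
import Pool.Agent.W920.FD.T_RD
import Pool.Agent.W920.FD.T_STGS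
import Pool.Agent.W920.FD.T_SZ1
import Pool.Agent.W920.FD.T_SZ2
import Pool.Agent.W920.FD.T_SZ3
import Pool.Agent.W920.FD.T_SZ4
import Pool.Agent.W920.FD.T_TRY
import Pool.Agent.W920.FD.T_V1EQ
import Pool.Agent.W920.FD.T_V1LEN
import Pool.Agent.W920.FD.T_V1ORD
import Pool.Agent.W920.FD.T_V1SZ
import Pool.Agent.W920.FD.T_VOK0
import Pool.Agent.W920.FD.T_VOK1
import Pool.Agent.W920.FD.T_W1
import Pool.Agent.W920.FD.Final

set_option autoImplicit false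

/-! All parts together. -/

namespace Pool.Agent.W920.FD

open Pool.Agent.W920.FC

theorem main (k : ℕ) : S_FINAL k := by
  obtain ⟨hBND, hBATCH, hITER, hMONO⟩ := t_TT
  obtain ⟨hOUT, hCTRL⟩ := t_OUT
  have hLIN := t_LINPOLYB.1
  obtain ⟨hPP3, hPP4⟩ := t_PP34
  obtain ⟨hKER, hSTEP⟩ := t_KERSTEP
  have hA := t_ORD2A t_ORD1
  have hORD2 : Pool.Agent.W920.FC.S_ORD2 := ⟨hA.1, t_ORD2B t_ORD1, hA.2⟩
  have hEQR := t_EQR t_FORM
  have hSZ1 := t_SZ1 t_FORM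
  have hLEN := t_LEN t_FORM
  have hHV := t_HVFR t_FORD hEQR hSZ1 hLEN
  have hHVP := t_HVP t_ORD1 hORD2 t_FORD hEQR t_EQM hSZ1 t_SZ2 t_SZ3 t_SZ4 hLEN
  have hSDA := t_SDA t_DIR
  have hBD := t_BD hSDA hLIN
  have hFN := t_FN hSDA hBD hLIN
  have hSTGS := t_STGS hBND hBATCH hITER hMONO hHV.1 hLIN t_CMP t_BIS hFN
  have hGD := t_GD t_FT
  have hPB := t_PB k
  have hTRY := t_TRY k hBND hBATCH hMONO hSTGS hHV.1 t_RANK t_VOK0 hPB
  have hP1 := t_P1 k hBND hITER hMONO hTRY hPB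
  have hV1ORD := t_V1ORD t_FORD
  have hV1EQ := t_V1EQ t_FORM
  have hV1SZ := t_V1SZ k t_FORM t_VOK0 hPB
  have hV1LEN := t_V1LEN k t_FORM t_VOK0 hPB
  have hVOK1 := t_VOK1 k hV1ORD hV1EQ hV1SZ hV1LEN hPB
  have hMIN := t_MIN (t_MINP t_W1)
  have hP3 := t_P3 hBND hBATCH hMONO hHV.2 (t_LD hLIN) t_SORT
  have hBF := t_BF t_CERT hMIN
  have hPERC := t_PERC t_PROJ hSTEP
  have hNX := t_NX hKER hPERC
  have hRD := t_RD hBND hBATCH hITER hMONO hHVP hKER hPERC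
  have hP4 := t_P4 hBND hITER hMONO hRD hNX t_I0
  have hPP5 := t_PP5 hPP3 hPP4
  have hQFIN := t_QFIN hPP3 hPP4 hPP5
  have hQSTG := t_QSTG hOUT t_PT t_PTITER t_QF hPP3 hPP4 hQFIN
  have hQS := t_QS hOUT t_PT t_PTITER hBD hQSTG
  have hQV := t_QV k t_QF
  have hQ1 := t_Q1 k hOUT t_PT t_PTITER t_QF hBD hQS hQV t_VOK0
  have hQ3 := t_Q3 t_PT t_QF hPP3 hPP4
  have hQ4 := t_Q4 hOUT t_PT t_PTITER (t_QP t_QF) (t_PU4 hPP4)
  exact t_FINAL k t_RUN hBND hMONO t_PT hCTRL t_BITS t_FEAS hP1 hV1ORD hVOK1 t_W1 hSTGS hGD hP3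
    hP4 hBF hPB hQ1 hQV hQS hQ3 hQ4

end Pool.Agent.W920.FD
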