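import Pool.Agent.W920.FC.Stm

set_option autoImplicit false

/-!
# Linear feasibility for matrices whose entries are small combinations of few reals: the algorithm

The class: outside at most `k` rows and at most `k` columns, the entries of `A` are integer
combinations of `k` real numbers, unknown to the algorithm, with coefficients of at most
`(m + n) ^ k` binary digits; the right-hand side is arbitrary.

1. For every choice of `k` rows and `k` columns, `k` stages of simultaneous Diophantine
   approximation are applied to the vector of the other entries. If the residue vanishes, its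
   entries are small integer combinations of the `k` scales found.
2. The same procedure for the vector of all monomials: powers of the scales, times at most one
   entry of each exceptional row and column and of the right-hand side.
3. The ladder, sorted. 4. The rescaled perceptron algorithm.
-/

namespace Pool.Agent.W920.FD

open Pool.Agent.NPC Pool.Agent.H558R2 Pool.Agent.H622R3.SM Pool.Agent.W920.FC

/-- A vector: a program, and the registers of the coordinates. -/
abbrev VS : Type := List Instr × List Reg

/-! ### Programs -/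

/-- The multiple `|a|` times the register `r`, in `[hd + 1, c, l, t]`, `t` being the number of
binary digits of `|a|`. -/
def mulP (hd c l : ℕ) (r : Reg) (a : ℤ) : List Instr :=
  (⟨Op.add, [hd + 1, c, l, 0], [3], [3]⟩ : Instr) ::
    a.natAbs.bits.reverse.zipIdx.flatMap fun p =>
      [(⟨Op.add, [hd + 2, c, l, p.2], [hd + 1, c, l, p.2], [hd + 1, c, l, p.2]⟩ : Instr),
        ⟨Op.add, [hd + 1, c, l, p.2 + 1], [hd + 2, c, l, p.2], if p.1 then r else [3]⟩]

/-- The form `C` of the registers `regs`, as number `c`, in `[hd, c, N]`, partial sums in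
`[hd, c, l]`. -/
def formP (hd c : ℕ) (regs : List Reg) (C : List ℤ) : List Instr :=
  (⟨Op.add, [hd, c, 0], [3], [3]⟩ : Instr) ::
    (List.range regs.length).flatMap fun l => mulP hd c l (regs.getD l [3]) (C.getD l 0) ++
      [if C.getD l 0 < 0 then
        (⟨Op.sub, [hd, c, l + 1], [hd, c, l],
          [hd + 1, c, l, (C.getD l 0).natAbs.bits.length]⟩ : Instr)
      else ⟨Op.add, [hd, c, l + 1], [hd, c, l],
          [hd + 1, c, l, (C.getD l 0).natAbs.bits.length]⟩]

/-- The ratios of forms, in `[35, j]`. -/
def ratP (regs : List Reg) (L : List (List ℤ × List ℤ)) : List Instr :=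
  L.zipIdx.flatMap fun p => formP 32 (2 * p.2) regs p.1.1 ++
    (formP 32 (2 * p.2 + 1) regs p.1.2 ++
    [(⟨Op.div, [35, p.2], [32, 2 * p.2, regs.length], [32, 2 * p.2 + 1, regs.length]⟩ : Instr)])

/-- The value of a form. -/
def fQ (V : VS) (C : List ℤ) : Qry := (V.1 ++ formP 32 0 V.2 C, [32, 0, V.2.length])

/-- Comparison of two ratios. -/
def rQ (V : VS) (u v : List ℤ × List ℤ) : Qry :=
  (V.1 ++ (ratP V.2 [u, v] ++ [(⟨Op.sub, [20], [35, 0], [35, 1]⟩ : Instr)]), [20])

/-- The common part of the queries of the perceptron algorithm. -/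
def perP (V : VS) (m n : ℕ) (L : List (List ℤ × List ℤ)) (drop : List Bool) : List Instr :=
  V.1 ++ (ratP V.2 L ++ (matProg m n ++ (gramProg m n drop ++ flProg (cK m n))))

/-- The sign of a coefficient. -/
def cQ (V : VS) (m n : ℕ) (L : List (List ℤ × List ℤ)) (drop : List Bool) (k' : ℕ) : Qry :=
  (perP V m n L drop, [10, k'])

/-- The sign of a scalar product. -/
def dQ (V : VS) (m n : ℕ) (L : List (List ℤ × List ℤ)) (drop : List Bool) (y : List ℕ)
    (r j : ℕ) : Qry :=
  (perP V m n L drop ++ (numProg (cT m n) ++ dotProg (cK m n) r j y), [42, cK m n])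

/-! ### Stages of simultaneous Diophantine approximation -/

/-- Comparison of the absolute values of all forms. -/
def cmpQs (V : VS) (F : List (List ℤ)) : List Qry :=
  ((List.range V.2.length).map fun l => fQ V (F.getD l [])) ++
    (List.range V.2.length).flatMap fun l => (List.range V.2.length).flatMap fun l' =>
      [fQ V (fcomb V.2.length 1 (F.getD l []) (-1) (F.getD l' [])),
        fQ V (fcomb V.2.length 1 (F.getD l []) 1 (F.getD l' []))]

/-- One step of the bisections. -/
def bisQs (V : VS) (P : ℕ) (F : List (List ℤ)) (sg : List ℤ) (best : ℕ) (s : ℕ × List ℕ) :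
    List Qry :=
  (List.range V.2.length).map fun l => fQ V (fcomb V.2.length
    (2 ^ P * sg.getD l 0) (F.getD l [])
    (-(((s.2.getD l 0 + s.1 / 2 : ℕ) : ℤ) * sg.getD best 0)) (F.getD best []))

/-- The end of a stage. -/
def finish (N E : ℕ) (s : S2) (sg : List ℤ) (best : ℕ) (a : List ℕ) : S2 :=
  if sg.all fun x => decide (x = 0) then s
  else
    let F := s.2.1
    let r := sda N E ((List.range N).map fun l => if l = best then 2 ^ ((N + 1) * E)
      else a.getD l 0)
    (s.1 ++ [(fcomb N (sg.getD best 0) (F.getD best []) 0 [], s.2.2 * r.1)],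
      ((List.range N).map fun l => fcomb N (r.1 : ℤ) (F.getD l [])
        (-(sg.getD l 0 * sg.getD best 0 * r.2.getD l 0)) (F.getD best []), s.2.2 * r.1))

/-- One stage, with the precision `E`. -/
def stage (V : VS) (E : ℕ) (s : S2) : TT S2 :=
  bnd (batch (cmpQs V s.2.1)) fun o =>
    bnd (iter (fun t => bnd (batch (bisQs V ((V.2.length + 1) * E) s.2.1 (sgOf V.2.length o)
        (bestOf V.2.length o) t)) fun o' => ret (bisUpd V.2.length t o'))
      ((V.2.length + 1) * E)
        (2 ^ ((V.2.length + 1) * E), (List.range V.2.length).map fun _ => 0)) fun t =>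
      ret (finish V.2.length E s (sgOf V.2.length o) (bestOf V.2.length o) t.2)

/-- `J` stages. -/
def stages (V : VS) (E J : ℕ) : TT S2 := iter (stage V E) J ([], (unitF V.2.length, 1))

/-! ### The exceptional rows and columns -/

/-- A choice of exceptional rows and columns. -/
abbrev Cand : Type := List ℕ × List ℕ

/-- All choices of `k` rows and `k` columns (the indices `m` and `n` stand for nothing). -/
def cands (k m n : ℕ) : List Cand :=
  (exps m k).flatMap fun R => (exps n k).map fun C => (R, C)

/-- The vector of the entries outside the exceptional rows and columns, and `0`. -/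
def V0 (m n : ℕ) (c : Cand) : VS :=
  ([], [3] :: ((poss m n).filter fun p => !(decide (p.1 ∈ c.1)) && !(decide (p.2 ∈ c.2))).map
    fun p => [0, p.1, p.2])

/-- A test whether the residue is zero. -/
def zeroQs (V : VS) (F : List (List ℤ)) : List Qry :=
  (List.range V.2.length).map fun l => fQ V (F.getD l [])

/-- One choice of exceptional rows and columns is tested. -/
def tryC (k m n E : ℕ) (st : ℕ × List (Cand × List (List ℤ × ℕ))) :
    TT (ℕ × List (Cand × List (List ℤ × ℕ))) :=
  bnd (stages (V0 m n ((cands k m n).getD st.1 ([], []))) E k) fun s =>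
    bnd (batch (zeroQs (V0 m n ((cands k m n).getD st.1 ([], []))) s.2.1)) fun o =>
      ret (st.1 + 1, if o.all fun x => decide (x = none) then
        st.2 ++ [((cands k m n).getD st.1 ([], []), s.1)] else st.2)

/-- The choices for which the residue vanishes, with the records. -/
def T1 (k m n E : ℕ) : TT (List (Cand × List (List ℤ × ℕ))) :=
  bnd (iter (tryC k m n E) (cands k m n).length (0, [])) fun st => ret st.2

/-! ### The monomials -/

/-- The register of the factor number `d` of the slot number `u`: slots `0, ..., k - 1` for the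
exceptional rows, slots `k, ..., 2 k - 1` for the exceptional columns, slots `2 k, ..., 3 k - 1`
for the powers of the scales. -/
def slotR (k : ℕ) (c : Cand) (u d : ℕ) : Reg :=
  if u < k then (if d = 0 then [2] else [0, c.1.getD u 0, d - 1])
  else if u < 2 * k then (if d = 0 then [2] else [0, d - 1, c.2.getD (u - k) 0])
  else [30, u - 2 * k, d]

/-- The scales `[52, r, N]`. -/
def scP (k : ℕ) (V : VS) (recs : List (List ℤ × ℕ)) : List Instr :=
  (List.range k).flatMap fun r => formP 52 r V.2 (recs.getD r ([], 0)).1

/-- Their powers `[30, r, t]`. -/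
def powP (k s N : ℕ) : List Instr :=
  (List.range k).flatMap fun r => (⟨Op.add, [30, r, 0], [2], [3]⟩ : Instr) ::
    (List.range s).map fun t => (⟨Op.mul, [30, r, t + 1], [30, r, t], [52, r, N]⟩ : Instr)

/-- The monomials `[31, l, 3 k]`, partial products `[31, l, t]`. -/
def monP (k s : ℕ) (c : Cand) : List Instr :=
  (exps s (3 * k + 1)).zipIdx.flatMap fun p =>
    (⟨Op.add, [31, p.2, 0], breg (p.1.getD 0 0), [3]⟩ : Instr) ::
      (List.range (3 * k)).map fun t =>
        (⟨Op.mul, [31, p.2, t + 1], [31, p.2, t], slotR k c t (p.1.getD (t + 1) 0)⟩ : Instr)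

/-- The vector of the monomials. -/
def V1 (k m n : ℕ) (x : Cand × List (List ℤ × ℕ)) : VS :=
  (scP k (V0 m n x.1) x.2 ++ (powP k (m + n) (V0 m n x.1).2.length ++ monP k (m + n) x.1),
    (List.range (exps (m + n) (3 * k + 1)).length).map fun l => [31, l, 3 * k])

/-! ### The ladder and the perceptron algorithm -/

/-- The ladder, before sorting. -/
def lad0 (N Q : ℕ) (recs : List (List ℤ × ℕ)) : List (List ℤ × List ℤ) :=
  recs.flatMap fun a => recs.flatMap fun b => (List.range (2 * Q + 1)).map fun e =>
    (fcomb N ((b.2 : ℤ) * 2 ^ e) a.1 0 [], fcomb N ((a.2 : ℤ) * 2 ^ Q) b.1 0 [])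

/-- Comparison of all pairs. -/
def sortQs (V : VS) (L : List (List ℤ × List ℤ)) : List Qry :=
  L.flatMap fun u => L.map fun v => rQ V u v

/-- The sorted ladder. -/
def T3 (V : VS) (Q : ℕ) (recs : List (List ℤ × ℕ)) : TT (List (List ℤ × List ℤ)) :=
  bnd (batch (sortQs V (lad0 V.2.length Q recs))) fun o => ret (sortL (lad0 V.2.length Q recs) o)

/-- The queries of a step of the perceptron algorithm. -/
def perQs (V : VS) (m n : ℕ) (L : List (List ℤ × List ℤ)) (drop : List Bool) (y : List ℕ) :
    List Qry :=
  ((List.range (cK m n)).map fun k' => cQ V m n L drop k') ++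
    (List.range (cK m n + 1)).flatMap fun r => (List.range (cK m n)).map fun j =>
      dQ V m n L drop y r j

/-- A round. -/
def round (V : VS) (m n : ℕ) (Lad : List (List ℤ × List ℤ)) (s : List ℕ × Bool) :
    TT (List ℕ × Bool) :=
  bnd (iter (fun t => bnd (batch (perQs V m n (wts m n Lad s.1) (drops m n Lad s.1) t.1))
    fun o => ret (perUpd (cK m n) (drops m n Lad s.1) t o)) (cT m n)
      ((List.range (cK m n)).map fun _ => 0, s.2)) fun t => ret (nextIdx m n s.1 t.1, t.2)

/-- The perceptron algorithm with at most `R` rounds. -/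
def T4 (V : VS) (m n R : ℕ) (Lad : List (List ℤ × List ℤ)) : TT Bool :=
  bnd (iter (round V m n Lad) R ((List.range (m + (n + n))).map fun _ => 0, false)) fun s =>
    ret s.2

/-! ### The parameters (`s = m + n`) -/

/-- The norm of the relations among the entries, as a power of two. -/
def h0 (k s : ℕ) : ℕ := k * s ^ k + (k + 1) * (k + 1)

/-- The precision for the entries. -/
def E0 (k s : ℕ) : ℕ := h0 k s + 2 * (s * s + 1) + 4

/-- The number of digits for the entries. -/
def P0 (k s : ℕ) : ℕ := (s * s + 2) * E0 k s

/-- The norm of the minors, as forms of the monomials, as a power of two. -/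
def h1 (k s : ℕ) : ℕ := s * s + s * (k + P0 k s * (k * k + 1))

/-- The number of monomials. -/
def N1 (k s : ℕ) : ℕ := (s + 1) ^ (3 * k + 1)

/-- The precision for the monomials. -/
def E1 (k s : ℕ) : ℕ := h1 k s + 2 * N1 k s + 4

/-- The number of digits for the monomials. -/
def P1 (k s : ℕ) : ℕ := (N1 k s + 1) * E1 k s

/-- The exponents of the ladder. -/
def Q1 (k s : ℕ) : ℕ := h1 k s + P1 k s + 3

/-- The length of the ladder, at most. -/
def Z1 (k s : ℕ) : ℕ := N1 k s * (N1 k s * (2 * Q1 k s + 1))

/-- The number of rounds. -/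
def R1 (k m n : ℕ) : ℕ := cK m n * Z1 k (m + n) + 1

/-- The computation after the exceptional rows and columns have been found. -/
def TB (k m n : ℕ) (x : Cand × List (List ℤ × ℕ)) : TT Bool :=
  bnd (stages (V1 k m n x) (E1 k (m + n)) (N1 k (m + n))) fun s =>
    bnd (T3 (V1 k m n x) (Q1 k (m + n)) s.1) fun Lad => T4 (V1 k m n x) m n (R1 k m n) Lad

/-- The computation. -/
def TA (k m n : ℕ) : TT Bool :=
  bnd (T1 k m n (E0 k (m + n))) fun res => TB k m n ((res.head?).getD (([], []), []))

/-- The algorithm. -/
def alg (k : ℕ) : Alg := algOf (TA k)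

end Pool.Agent.W920.FD
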