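import Pool.Agent.W920.FD.Defs

set_option autoImplicit false

/-!
# Linear feasibility for matrices whose entries are small combinations of few reals: statements
-/

namespace Pool.Agent.W920.FD

open Pool.Agent.NPC Pool.Agent.H558R2 Pool.Agent.H622R3.SM Pool.Agent.W920.FC

/-! ### Programs for forms -/

/-- The registers used by the programs computing vectors. -/
def PreHd (r : Reg) : Prop := r.headD 0 = 30 ∨ r.headD 0 = 31 ∨ r.headD 0 = 52 ∨ r.headD 0 = 53 ∨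
  r.headD 0 = 54

/-- The valuation has the intended values on the registers of a form. -/
def FormVal (X : Reg → ℝ) (hd c N : ℕ) (w : ℕ → ℝ) (C : List ℤ) : Prop :=
  (∀ l ≤ N, X [hd, c, l] = ∑ i ∈ Finset.range l, (C.getD i 0 : ℝ) * w i) ∧
  ∀ l < N, ∀ t, X [hd + 1, c, l, t] = (((C.getD l 0).natAbs /
      2 ^ (((C.getD l 0).natAbs.bits).length - t) : ℕ) : ℝ) * w l ∧
    X [hd + 2, c, l, t] = 2 * ((((C.getD l 0).natAbs /
      2 ^ (((C.getD l 0).natAbs.bits).length - t) : ℕ) : ℝ) * w l)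

/-- Forms: equations, sizes, lengths. -/
def S_FORM : Prop :=
  (∀ (X : Reg → ℝ) (hd c : ℕ) (regs : List Reg) (w : ℕ → ℝ) (C : List ℤ),
    FormVal X hd c regs.length w C → X [3] = 0 → (∀ l < regs.length, X (regs.getD l [3]) = w l) →
    ∀ I ∈ formP hd c regs C, Eqn X I) ∧
  (∀ (X : Reg → ℝ) (hd c : ℕ) (regs : List Reg) (w : ℕ → ℝ) (C : List ℤ) (D B β : ℕ),
    FormVal X hd c regs.length w C → SmallL B C →
    (∀ l < regs.length, ∃ z : ℤ, z.natAbs ≤ 2 ^ β ∧ w l * D = z) →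
    ∀ I ∈ formP hd c regs C, ∃ z : ℤ, z.natAbs ≤ 2 ^ (B + β + regs.length + 2) ∧
      X I.dst * D = z) ∧
  (∀ (hd c : ℕ) (regs : List Reg) (C : List ℤ) (B : ℕ), SmallL B C →
    (formP hd c regs C).length ≤ 1 + regs.length * (2 * B + 4))

/-- Forms and ratios: order. -/
def S_FORD : Prop :=
  (∀ (hd c : ℕ) (regs : List Reg) (C : List ℤ) (S : Set Reg), baseReg ⊆ S → (∀ r ∈ regs, r ∈ S) →
    (∀ r ∈ S, ∀ t, r ≠ hd :: c :: t ∧ r ≠ (hd + 1) :: c :: t ∧ r ≠ (hd + 2) :: c :: t) →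
    Ord S (formP hd c regs C) ∧
    (∀ r ∈ wr (formP hd c regs C), ∃ t, r = hd :: c :: t ∨ r = (hd + 1) :: c :: t ∨
      r = (hd + 2) :: c :: t) ∧
    [hd, c, regs.length] ∈ wr (formP hd c regs C)) ∧
  (∀ (regs : List Reg) (L : List (List ℤ × List ℤ)) (S : Set Reg), baseReg ⊆ S →
    (∀ r ∈ regs, r ∈ S) → (∀ r ∈ S, r.headD 0 < 32 ∨ 35 < r.headD 0) →
    Ord S (ratP regs L) ∧ (∀ r ∈ wr (ratP regs L), 32 ≤ r.headD 0 ∧ r.headD 0 ≤ 35) ∧
    ∀ j < L.length, [35, j] ∈ wr (ratP regs L))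

/-- The parameters of the programs. -/
structure Pa : Type where
  /-- the number of rows -/
  m : ℕ
  /-- the number of variables -/
  n : ℕ
  /-- the base registers -/
  g : Reg → ℝ
  /-- the vector -/
  V : VS
  /-- its coordinates -/
  w : ℕ → ℝ
  /-- a valuation for the program of the vector -/
  U : Reg → ℝ
  /-- the ratios -/
  L : List (List ℤ × List ℤ)
  /-- the columns dropped -/
  drop : List Bool
  /-- the vector of the perceptron algorithm -/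
  y : List ℕ
  /-- the number of the matrix -/
  r : ℕ
  /-- the row -/
  j : ℕ

/-- The form number `c`. -/
def Pa.fm (p : Pa) (c : ℕ) : List ℤ :=
  if c % 2 = 0 then (p.L.getD (c / 2) ([], [])).1 else (p.L.getD (c / 2) ([], [])).2

/-- The weights. -/
noncomputable def Pa.W (p : Pa) (j : ℕ) : ℝ := rt p.V.2.length p.w (p.L.getD j ([], []))

/-- The Gram matrix. -/
noncomputable def Pa.G (p : Pa) : Matrix (Fin (cK p.m p.n)) (Fin (cK p.m p.n)) ℝ :=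
  GMat p.m p.n p.g p.W p.drop

/-- The valuation `U` is right. -/
def Pa.OK (p : Pa) : Prop := Base p.g ∧ (∀ r ∈ baseReg, p.U r = p.g r) ∧
  (∀ r ∈ p.V.2, r ∈ baseReg ∨ PreHd r) ∧ ∀ l < p.V.2.length, p.U (p.V.2.getD l [3]) = p.w l

/-- The values of all registers. -/
noncomputable def vr (p : Pa) : Reg → ℝ
  | [20] => p.W 0 - p.W 1
  | [32, c, l] => ∑ i ∈ Finset.range l, ((p.fm c).getD i 0 : ℝ) * p.w i
  | [33, c, l, t] => ((((p.fm c).getD l 0).natAbs /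
      2 ^ ((((p.fm c).getD l 0).natAbs.bits).length - t) : ℕ) : ℝ) * p.w l
  | [34, c, l, t] => 2 * (((((p.fm c).getD l 0).natAbs /
      2 ^ ((((p.fm c).getD l 0).natAbs.bits).length - t) : ℕ) : ℝ) * p.w l)
  | [35, j] => p.W j
  | [36, i, j] => Rv p.m p.n p.g i j
  | [37, i, j] => Rv p.m p.n p.g i j * p.W j
  | [38, j, l, i] => (Rv p.m p.n p.g i j * p.W j) * (Rv p.m p.n p.g i l * p.W l)
  | [39, j, l, i] => ∑ i' ∈ Finset.range i,
      (Rv p.m p.n p.g i' j * p.W j) * (Rv p.m p.n p.g i' l * p.W l)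
  | [4, i, j] => ent p.G i j
  | [5, k] => (k : ℝ)
  | [6, k, i, j] => ent (flN p.G k) i j
  | [7, k, i, j, l] => ent p.G i l * ent (flN p.G k) l j
  | [8, k, i, j, l] => ∑ l' ∈ Finset.range l, ent p.G i l' * ent (flN p.G k) l' j
  | [9, k, i] => ∑ i' ∈ Finset.range i, ∑ l ∈ Finset.range (cK p.m p.n),
      ent p.G i' l * ent (flN p.G k) l i'
  | [10, k] => cVal p.G k
  | [40, t] => (t : ℝ)
  | [41, l] => ent (flN p.G p.r) p.j l * (p.y.getD l 0 : ℕ)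
  | [42, l] => ∑ l' ∈ Finset.range l, ent (flN p.G p.r) p.j l' * (p.y.getD l' 0 : ℕ)
  | r => p.U r

/-- Equations: forms and ratios. -/
def S_EQR : Prop := ∀ p : Pa, p.OK →
  (∀ c, ∀ I ∈ formP 32 c p.V.2 (p.fm c), Eqn (vr p) I) ∧
  ((∀ u ∈ p.L, evF p.V.2.length p.w u.2 ≠ 0) → ∀ I ∈ ratP p.V.2 p.L, Eqn (vr p) I)

/-- Equations: Gram matrix, Faddeev-LeVerrier, scalar product. -/
def S_EQM : Prop := ∀ p : Pa, p.OK →
  (∀ I ∈ matProg p.m p.n ++ gramProg p.m p.n p.drop, Eqn (vr p) I) ∧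
  (∀ I ∈ flProg (cK p.m p.n), Eqn (vr p) I) ∧
  ∀ T : ℕ, ∀ I ∈ numProg T ++ dotProg (cK p.m p.n) p.r p.j p.y, Eqn (vr p) I

/-- The coordinates have the common denominator `D`. -/
def CD (N : ℕ) (w : ℕ → ℝ) (D β : ℕ) : Prop := 1 ≤ D ∧ D ≤ 2 ^ β ∧
  ∀ l < N, ∃ z : ℤ, z.natAbs ≤ 2 ^ β ∧ w l * D = z

/-- Sizes: forms and ratios, and a common denominator of the weighted matrix. -/
def S_SZ1 : Prop := ∃ q : Polynomial ℕ, ∀ (p : Pa) (B β D : ℕ), p.OK → CD p.V.2.length p.w D β →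
  SmallP B p.L →
  (∀ c, ∀ I ∈ formP 32 c p.V.2 (p.fm c), QB (q.eval (p.V.2.length + B + β)) (vr p I.dst)) ∧
  ((∀ u ∈ p.L, evF p.V.2.length p.w u.2 ≠ 0) → ∀ I ∈ ratP p.V.2 p.L,
    QB (q.eval (p.V.2.length + B + β)) (vr p I.dst))

/-- Sizes: a common denominator of the weighted matrix. -/
def S_SZ2 : Prop := ∃ q : Polynomial ℕ, ∀ (p : Pa) (B β D : ℕ), p.OK → CD p.V.2.length p.w D β →
  RB β p.g → SmallP B p.L → p.L.length = cK p.m p.n →
  (∀ u ∈ p.L, evF p.V.2.length p.w u.2 ≠ 0) →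
  ∃ E : ℕ, 1 ≤ E ∧ E ≤ 2 ^ q.eval (p.m + p.n + p.V.2.length + B + β) ∧
    ∀ i < p.m, ∀ j < cK p.m p.n, ∃ z : ℤ,
      z.natAbs ≤ 2 ^ q.eval (p.m + p.n + p.V.2.length + B + β) ∧
      (Rv p.m p.n p.g i j * p.W j) * E = z

/-- Sizes: the Gram matrix, from a common denominator of the weighted matrix. -/
def S_SZ3 : Prop := ∃ q : Polynomial ℕ, ∀ (p : Pa) (β : ℕ) (E : ℕ), p.OK → RB β p.g →
  1 ≤ E → E ≤ 2 ^ β →
  (∀ i < p.m, ∀ j < cK p.m p.n, ∃ z : ℤ, z.natAbs ≤ 2 ^ β ∧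
    (Rv p.m p.n p.g i j * p.W j) * E = z) →
  (∀ I ∈ matProg p.m p.n ++ gramProg p.m p.n p.drop, QB (q.eval (p.m + p.n + β)) (vr p I.dst)) ∧
  ∀ i j, ∃ z : ℤ, z.natAbs ≤ 2 ^ q.eval (p.m + p.n + β) ∧ p.G i j * ((E * E : ℕ) : ℝ) = z

/-- Sizes: Faddeev-LeVerrier and scalar products, from a common denominator of the matrix. -/
def S_SZ4 : Prop := ∃ q : Polynomial ℕ, ∀ (p : Pa) (β : ℕ) (E : ℕ), p.OK →
  1 ≤ E → E ≤ 2 ^ β → (∀ i j, ∃ z : ℤ, z.natAbs ≤ 2 ^ β ∧ p.G i j * E = z) →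
  (∀ l < cK p.m p.n, p.y.getD l 0 ≤ cT p.m p.n) →
  (∀ I ∈ flProg (cK p.m p.n), QB (q.eval (p.m + p.n + β)) (vr p I.dst)) ∧
  (p.r ≤ cK p.m p.n → ∀ I ∈ numProg (cT p.m p.n) ++ dotProg (cK p.m p.n) p.r p.j p.y,
    QB (q.eval (p.m + p.n + β)) (vr p I.dst))

/-- The lengths of the programs are polynomial. -/
def S_LEN : Prop := ∀ pB : Polynomial ℕ, ∃ q : Polynomial ℕ, ∀ (S : ℕ) (V : VS),
  V.1.length ≤ pB.eval S → V.2.length ≤ pB.eval S →
  (∀ C : List ℤ, SmallL (pB.eval S) C → (fQ V C).1.length ≤ q.eval S) ∧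
  (∀ u v : List ℤ × List ℤ, SmallP (pB.eval S) [u, v] → (rQ V u v).1.length ≤ q.eval S) ∧
  (∀ (m n : ℕ) (L : List (List ℤ × List ℤ)) (drop : List Bool) (y : List ℕ) (k' r j : ℕ),
    m + n ≤ S → L.length = cK m n → SmallP (pB.eval S) L →
    (cQ V m n L drop k').1.length ≤ q.eval S ∧ (dQ V m n L drop y r j).1.length ≤ q.eval S)

/-! ### Vectors, and the values of the queries -/

/-- The vector `V` has the coordinates `w`, and everything is of polynomial size. -/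
def VOK (q : Polynomial ℕ) (S : ℕ) (g : Reg → ℝ) (V : VS) (w : ℕ → ℝ) : Prop :=
  Ord baseReg V.1 ∧ (∀ r ∈ wr V.1, PreHd r) ∧ (∀ r ∈ V.2, r ∈ baseReg ∨ r ∈ wr V.1) ∧
  V.1.length ≤ q.eval S ∧ V.2.length ≤ q.eval S ∧ 1 ≤ V.2.length ∧
  (∃ U : Reg → ℝ, (∀ r ∈ baseReg, U r = g r) ∧ (∀ I ∈ V.1, Eqn U I ∧ Gd q S g (U I.dst)) ∧
    ∀ l < V.2.length, U (V.2.getD l [3]) = w l) ∧
  ∀ lam, RB lam g → ∃ D : ℕ, CD V.2.length w D (q.eval (S + lam))

/-- Queries for forms. -/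
def S_HVF : Prop := ∀ qV pB : Polynomial ℕ, ∃ q : Polynomial ℕ, ∀ (S : ℕ) (g : Reg → ℝ) (V : VS)
  (w : ℕ → ℝ) (C : List ℤ), Base g → VOK qV S g V w → SmallL (pB.eval S) C →
  HasVal g (Gd q S g) (fQ V C) (evF V.2.length w C) ∧ (fQ V C).1.length ≤ q.eval S

/-- Queries for ratios. -/
def S_HVR : Prop := ∀ qV pB : Polynomial ℕ, ∃ q : Polynomial ℕ, ∀ (S : ℕ) (g : Reg → ℝ) (V : VS)
  (w : ℕ → ℝ) (u v : List ℤ × List ℤ), Base g → VOK qV S g V w → SmallP (pB.eval S) [u, v] →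
  evF V.2.length w u.2 ≠ 0 → evF V.2.length w v.2 ≠ 0 →
  HasVal g (Gd q S g) (rQ V u v) (rt V.2.length w u - rt V.2.length w v) ∧
  (rQ V u v).1.length ≤ q.eval S

/-- Queries of the perceptron algorithm. -/
def S_HVP : Prop := ∀ qV pB : Polynomial ℕ, ∃ q : Polynomial ℕ, ∀ (m n : ℕ) (g : Reg → ℝ)
  (V : VS) (w : ℕ → ℝ) (L : List (List ℤ × List ℤ)) (drop : List Bool) (y : List ℕ), Base g →
  VOK qV (m + n) g V w → SmallP (pB.eval (m + n)) L → L.length = cK m n →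
  (∀ u ∈ L, evF V.2.length w u.2 ≠ 0) → (∀ l < cK m n, y.getD l 0 ≤ cT m n) →
  List.Forall₂ (HasVal g (Gd q (m + n) g)) (perQs V m n L drop y)
    (perVals (GMat m n g (fun j => rt V.2.length w (L.getD j ([], []))) drop) y) ∧
  ((perQs V m n L drop y).map fun q => q.1.length + 1).sum ≤ q.eval (m + n)

/-! ### Stages -/

/-- Sizes of the states after `j` stages. -/
def Bd2 (N E j : ℕ) (s : S2) : Prop :=
  s.1.length ≤ j ∧ (∀ a ∈ s.1, a.1.length = N ∧ SmallL (((N + 1) * E + 1) * j) a.1 ∧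
    a.2 ≤ 2 ^ (((N + 1) * E) * j)) ∧
  s.2.1.length = N ∧ (∀ C ∈ s.2.1, C.length = N ∧ SmallL (((N + 1) * E + 1) * j) C) ∧
  s.2.2 ≤ 2 ^ (((N + 1) * E) * j)

/-- Sizes: the end of a stage. -/
def S_BD : Prop := ∀ (N E j : ℕ) (s : S2) (sg : List ℤ) (best : ℕ) (a : List ℕ),
  2 * N + 4 ≤ E → sg.length = N → (∀ x ∈ sg, x.natAbs ≤ 1) → Bd2 N E j s →
  Bd2 N E (j + 1) (finish N E s sg best a)

/-- The scale of the record number `i`. -/
noncomputable def scl (N : ℕ) (w : ℕ → ℝ) (recs : List (List ℤ × ℕ)) (i : ℕ) : ℝ :=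
  evF N w (recs.getD i ([], 0)).1 / (recs.getD i ([], 0)).2

/-- The state `s` represents `w` after `j` stages. -/
def Inv2 (N E h : ℕ) (w : ℕ → ℝ) (j : ℕ) (s : S2) : Prop :=
  Bd2 N E j s ∧ 1 ≤ s.2.2 ∧ (∀ a ∈ s.1, 1 ≤ a.2 ∧ 0 < evF N w a.1) ∧
  (min j N ≤ ((Finset.range N).filter fun l => evF N w (s.2.1.getD l []) = 0).card) ∧
  (s.1.length = j ∨ ∀ l < N, evF N w (s.2.1.getD l []) = 0) ∧
  ∃ (v : ℕ → ℕ → ℤ) (piv : ℕ → ℕ),
    (∀ i < s.1.length, ∀ l < N, (v i l).natAbs ≤ 2 ^ ((N + 1) * E)) ∧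
    (∀ l < N, w l = ∑ i ∈ Finset.range s.1.length, scl N w s.1 i * v i l +
      evF N w (s.2.1.getD l []) / s.2.2) ∧
    (∀ i < s.1.length, ∀ l < N, |w l - ∑ i' ∈ Finset.range (i + 1), scl N w s.1 i' * v i' l| ≤
      scl N w s.1 i / 2 ^ (h + 1)) ∧
    ∀ i < s.1.length, piv i < N ∧ v i (piv i) ≠ 0 ∧ evF N w (s.2.1.getD (piv i) []) = 0 ∧
      ∀ i' < s.1.length, i < i' → v i' (piv i) = 0

/-- The end of a stage, semantically. -/
def S_FN : Prop := ∀ (N E h : ℕ) (w : ℕ → ℝ) (j : ℕ) (s : S2) (sg : List ℤ) (best : ℕ)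
  (a : List ℕ), 1 ≤ N → h + 2 * N + 4 ≤ E → Inv2 N E h w j s →
  sg.length = N → (∀ l < N, (sg.getD l 0 : ℤ) =
    (SignType.sign (evF N w (s.2.1.getD l [])) : ℤ)) →
  best < N → (∀ l < N, |evF N w (s.2.1.getD l [])| ≤ |evF N w (s.2.1.getD best [])|) →
  (evF N w (s.2.1.getD best []) ≠ 0 → ∀ l < N, l ≠ best →
    a.getD l 0 < 2 ^ ((N + 1) * E) ∧
    (a.getD l 0 : ℝ) * |evF N w (s.2.1.getD best [])| ≤
      2 ^ ((N + 1) * E) * |evF N w (s.2.1.getD l [])| ∧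
    2 ^ ((N + 1) * E) * |evF N w (s.2.1.getD l [])| ≤
      ((a.getD l 0 : ℝ) + 1) * |evF N w (s.2.1.getD best [])|) →
  Inv2 N E h w (j + 1) (finish N E s sg best a)

/-- All stages. -/
def S_STGS : Prop := ∀ qV pE : Polynomial ℕ, ∃ q : Polynomial ℕ, ∀ (S : ℕ) (g : Reg → ℝ) (V : VS)
  (w : ℕ → ℝ) (E h J : ℕ), Base g → VOK qV S g V w → h + 2 * V.2.length + 4 ≤ E →
  E ≤ pE.eval S → J ≤ pE.eval S →
  ∃ s : S2, Inv2 V.2.length E h w J s ∧ Runs g (Gd q S g) (stages V E J) s (q.eval S)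

/-- The records describe the scales of the small forms. -/
def Good2 (N h P B : ℕ) (w : ℕ → ℝ) (recs : List (List ℤ × ℕ)) : Prop :=
  recs.length ≤ N ∧ (∀ a ∈ recs, SmallL B a.1 ∧ a.2 ≤ 2 ^ B) ∧
  (∀ a ∈ recs, 1 ≤ a.2 ∧ 0 < evF N w a.1) ∧
  ∀ y : ℕ → ℤ, ∑ l ∈ Finset.range N, (y l).natAbs ≤ 2 ^ h →
    ∑ l ∈ Finset.range N, (y l : ℝ) * w l = 0 ∨ ∃ a ∈ recs,
      evF N w a.1 / a.2 ≤ 2 * |∑ l ∈ Finset.range N, (y l : ℝ) * w l| ∧
      |∑ l ∈ Finset.range N, (y l : ℝ) * w l| ≤ 2 ^ (h + P + 1) * (evF N w a.1 / a.2)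

/-- From the invariant to the scales. -/
def S_GD : Prop := ∀ (N E h : ℕ) (w : ℕ → ℝ) (s : S2), Inv2 N E h w N s →
  Good2 N h ((N + 1) * E) (((N + 1) * E + 1) * N) w s.1

/-- Small combinations of `k` reals: the residue vanishes after `k` stages. -/
def S_RANK : Prop := ∀ (k B N E h : ℕ) (w : ℕ → ℝ) (s : S2) (θ : ℕ → ℝ) (M : ℕ → ℕ → ℤ),
  Inv2 N E h w k s → (∀ r < k, ∀ l < N, (M r l).natAbs ≤ 2 ^ B) →
  (∀ l < N, w l = ∑ r ∈ Finset.range k, θ r * M r l) → k * B + (k + 1) * (k + 1) ≤ h →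
  ∀ l < N, evF N w (s.2.1.getD l []) = 0

/-! ### Phase 1 -/

/-- The vector of the entries. -/
noncomputable def w0 (m n : ℕ) (g : Reg → ℝ) (c : Cand) (l : ℕ) : ℝ := g ((V0 m n c).2.getD l [3])

/-- The vector of the entries is fine. -/
def S_VOK0 : Prop := ∃ q : Polynomial ℕ, ∀ (m n : ℕ) (g : Reg → ℝ) (c : Cand), Base g →
  VOK q (m + n) g (V0 m n c) (w0 m n g c) ∧ (V0 m n c).2.length ≤ m * n + 1

/-- The unnormalised scale number `r`. -/
noncomputable def scv (m n : ℕ) (g : Reg → ℝ) (x : Cand × List (List ℤ × ℕ)) (r : ℕ) : ℝ :=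
  evF (V0 m n x.1).2.length (w0 m n g x.1) (x.2.getD r ([], 0)).1

/-- The records are small. -/
def RecOK (k m n : ℕ) (x : Cand × List (List ℤ × ℕ)) : Prop :=
  x.2.length ≤ k ∧ ∀ a ∈ x.2, SmallL ((P0 k (m + n) + 1) * k) a.1 ∧ 1 ≤ a.2 ∧
    a.2 ≤ 2 ^ (P0 k (m + n) * k)

/-- A good choice of exceptional rows and columns, with records. -/
def GoodC (k m n : ℕ) (g : Reg → ℝ) (x : Cand × List (List ℤ × ℕ)) : Prop :=
  x.1.1.length = k ∧ x.1.2.length = k ∧ RecOK k m n x ∧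
  ∃ v : ℕ → ℕ → ℕ → ℤ, (∀ r < k, ∀ i < m, ∀ j < n, (v r i j).natAbs ≤ 2 ^ P0 k (m + n)) ∧
    ∀ i < m, ∀ j < n, i ∉ x.1.1 → j ∉ x.1.2 → g [0, i, j] =
      ∑ r ∈ Finset.range x.2.length, scv m n g x r / (x.2.getD r ([], 0)).2 * v r i j

/-- The class of matrices: outside at most `k` rows and `k` columns, the entries are integer
combinations of `k` reals, the coefficients being at most `2 ^ ((m + n) ^ k)`. -/
def Comb (k m n : ℕ) (A : Matrix (Fin m) (Fin n) ℝ) : Prop :=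
  ∃ (R : Finset (Fin m)) (C : Finset (Fin n)) (θ : Fin k → ℝ)
    (M : Fin k → Matrix (Fin m) (Fin n) ℤ), R.card ≤ k ∧ C.card ≤ k ∧
    (∀ r i j, |M r i j| ≤ 2 ^ ((m + n) ^ k)) ∧ ∀ i ∉ R, ∀ j ∉ C, A i j = ∑ r, θ r * M r i j

/-- Phase 1: one choice. -/
def S_TRY (k : ℕ) : Prop := ∃ q : Polynomial ℕ, ∀ (m n : ℕ) (A : Matrix (Fin m) (Fin n) ℝ)
  (b : Fin m → ℝ) (st : ℕ × List (Cand × List (List ℤ × ℕ))), st.1 < (cands k m n).length →
  (∀ x ∈ st.2, GoodC k m n (start A b) x) →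
  ∃ st', Runs (start A b) (Gd q (m + n) (start A b)) (tryC k m n (E0 k (m + n)) st) st'
      (q.eval (m + n)) ∧ st'.1 = st.1 + 1 ∧ (∀ x ∈ st'.2, GoodC k m n (start A b) x) ∧
    (st.2 ≠ [] → st'.2 ≠ []) ∧
    ((∃ (θ : ℕ → ℝ) (M : ℕ → ℕ → ℕ → ℤ), (∀ r < k, ∀ i < m, ∀ j < n,
      (M r i j).natAbs ≤ 2 ^ ((m + n) ^ k)) ∧ ∀ i < m, ∀ j < n,
      i ∉ ((cands k m n).getD st.1 ([], [])).1 → j ∉ ((cands k m n).getD st.1 ([], [])).2 →
      start A b [0, i, j] = ∑ r ∈ Finset.range k, θ r * M r i j) → st'.2 ≠ [])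

/-- Phase 1. -/
def S_P1 (k : ℕ) : Prop := ∃ q : Polynomial ℕ, ∀ (m n : ℕ) (A : Matrix (Fin m) (Fin n) ℝ)
  (b : Fin m → ℝ), Comb k m n A → ∃ res,
  Runs (start A b) (Gd q (m + n) (start A b)) (T1 k m n (E0 k (m + n))) res (q.eval (m + n)) ∧
  GoodC k m n (start A b) ((res.head?).getD (([], []), []))

/-! ### The monomials -/

/-- The value of the factor number `d` of the slot number `u`. -/
noncomputable def slotV (k m n : ℕ) (g : Reg → ℝ) (x : Cand × List (List ℤ × ℕ)) (u d : ℕ) : ℝ :=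
  if u < 2 * k then g (slotR k x.1 u d) else scv m n g x (u - 2 * k) ^ d

/-- The monomial with the exponents `e`. -/
noncomputable def mon1 (k m n : ℕ) (g : Reg → ℝ) (x : Cand × List (List ℤ × ℕ)) (e : List ℕ) : ℝ :=
  g (breg (e.getD 0 0)) * ∏ t ∈ Finset.range (3 * k), slotV k m n g x t (e.getD (t + 1) 0)

/-- The monomial number `l`. -/
noncomputable def w1 (k m n : ℕ) (g : Reg → ℝ) (x : Cand × List (List ℤ × ℕ)) (l : ℕ) : ℝ :=
  mon1 k m n g x ((exps (m + n) (3 * k + 1)).getD l [])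

/-- The values of the registers of the program for the monomials. -/
noncomputable def vt (k m n : ℕ) (g : Reg → ℝ) (x : Cand × List (List ℤ × ℕ)) : Reg → ℝ
  | [52, r, l] => ∑ i ∈ Finset.range l, (((x.2.getD r ([], 0)).1.getD i 0 : ℤ) : ℝ) *
      w0 m n g x.1 i
  | [53, r, l, t] => (((((x.2.getD r ([], 0)).1.getD l 0).natAbs /
      2 ^ ((((x.2.getD r ([], 0)).1.getD l 0).natAbs.bits).length - t) : ℕ) : ℝ)) *
      w0 m n g x.1 l
  | [54, r, l, t] => 2 * ((((((x.2.getD r ([], 0)).1.getD l 0).natAbs /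
      2 ^ ((((x.2.getD r ([], 0)).1.getD l 0).natAbs.bits).length - t) : ℕ) : ℝ)) *
      w0 m n g x.1 l)
  | [30, r, t] => scv m n g x r ^ t
  | [31, l, t] => g (breg (((exps (m + n) (3 * k + 1)).getD l []).getD 0 0)) *
      ∏ i ∈ Finset.range t, slotV k m n g x i
        (((exps (m + n) (3 * k + 1)).getD l []).getD (i + 1) 0)
  | r => g r

/-- The program for the monomials: order. -/
def S_V1ORD : Prop := ∀ (k m n : ℕ) (x : Cand × List (List ℤ × ℕ)),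
  Ord baseReg (V1 k m n x).1 ∧ (∀ r ∈ wr (V1 k m n x).1, PreHd r) ∧
  (∀ r ∈ (V1 k m n x).2, r ∈ wr (V1 k m n x).1) ∧ (V1 k m n x).2.length = N1 k (m + n)

/-- The program for the monomials: equations. -/
def S_V1EQ : Prop := ∀ (k m n : ℕ) (g : Reg → ℝ) (x : Cand × List (List ℤ × ℕ)), Base g →
  (∀ r ∈ baseReg, vt k m n g x r = g r) ∧
  (∀ I ∈ (V1 k m n x).1, Eqn (vt k m n g x) I) ∧
  ∀ l < (V1 k m n x).2.length, vt k m n g x ((V1 k m n x).2.getD l [3]) = w1 k m n g x l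

/-- The program for the monomials: sizes. -/
def S_V1SZ (k : ℕ) : Prop := ∃ q : Polynomial ℕ, ∀ (m n lam : ℕ) (g : Reg → ℝ)
  (x : Cand × List (List ℤ × ℕ)), Base g → RB lam g → RecOK k m n x →
  (∀ I ∈ (V1 k m n x).1, QB (q.eval (m + n + lam)) (vt k m n g x I.dst)) ∧
  ∃ D : ℕ, CD (N1 k (m + n)) (w1 k m n g x) D (q.eval (m + n + lam))

/-- The program for the monomials: length. -/
def S_V1LEN (k : ℕ) : Prop := ∃ q : Polynomial ℕ, ∀ (m n : ℕ)
  (x : Cand × List (List ℤ × ℕ)), RecOK k m n x → (V1 k m n x).1.length ≤ q.eval (m + n)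

/-- The vector of the monomials is fine. -/
def S_VOK1 (k : ℕ) : Prop := ∃ q : Polynomial ℕ, ∀ (m n : ℕ) (g : Reg → ℝ)
  (x : Cand × List (List ℤ × ℕ)), Base g → RecOK k m n x →
  VOK q (m + n) g (V1 k m n x) (w1 k m n g x)

/-- The monomial number `0` is `1`, and all exponents occur. -/
def S_W1 : Prop := ∀ (k m n : ℕ) (g : Reg → ℝ) (x : Cand × List (List ℤ × ℕ)), Base g →
  w1 k m n g x 0 = 1 ∧ ∀ e : List ℕ, e.length = 3 * k + 1 → (∀ d ∈ e, d ≤ m + n) →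
    ∃ l < N1 k (m + n), w1 k m n g x l = mon1 k m n g x e

/-- The number of the column of `A` which occurs, up to the sign, in a column of the system. -/
def colN (m n : ℕ) (o : Option (Fin (m + (n + n)))) : Option ℕ :=
  o.bind fun p => if (p : ℕ) < m then none
    else if (p : ℕ) < m + n then some (p - m) else some (p - m - n)

/-- One product of the Leibniz formula of a minor. -/
def S_MINP : Prop := ∀ (k m n : ℕ) (A : Matrix (Fin m) (Fin n) ℝ) (b : Fin m → ℝ)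
  (x : Cand × List (List ℤ × ℕ)), 1 ≤ m → GoodC k m n (start A b) x →
  ∀ β : Fin m → Option (Fin (m + (n + n))), (∀ i j, β i = none → β j = none → i = j) →
  (∀ i j c, colN m n (β i) = some c → colN m n (β j) = some c → i = j) →
  ∀ σ : Equiv.Perm (Fin m), ∃ y : ℕ → ℤ,
    ∑ l ∈ Finset.range (N1 k (m + n)), (y l).natAbs ≤
      2 ^ (m * (k + P0 k (m + n) * (k * k + 1))) ∧
    (((∏ r ∈ Finset.range x.2.length, (x.2.getD r ([], 0)).2 : ℕ) : ℝ)) ^ m *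
        ∏ j, wmat A b (σ j) (β j) =
      ∑ l ∈ Finset.range (N1 k (m + n)), (y l : ℝ) * w1 k m n (start A b) x l

/-- The minors are small integer forms of the monomials, up to a positive factor. -/
def S_MIN : Prop := ∀ (k m n : ℕ) (A : Matrix (Fin m) (Fin n) ℝ) (b : Fin m → ℝ)
  (x : Cand × List (List ℤ × ℕ)), 1 ≤ m → GoodC k m n (start A b) x →
  ∃ c : ℝ, 0 < c ∧ ∀ β : Fin m → Option (Fin (m + (n + n))),
    (∀ i j, β i = none → β j = none → i = j) →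
    ∃ y : ℕ → ℤ, ∑ l ∈ Finset.range (N1 k (m + n)), (y l).natAbs ≤ 2 ^ h1 k (m + n) ∧
      c * dd (wmat A b) β =
        ∑ l ∈ Finset.range (N1 k (m + n)), (y l : ℝ) * w1 k m n (start A b) x l

/-! ### The ladder -/

/-- The ladder contains an upper bound, within a factor `2`, of every ratio of small forms. -/
def LadG (N h : ℕ) (w : ℕ → ℝ) (Lad : List (List ℤ × List ℤ)) : Prop :=
  ∀ y y' : ℕ → ℤ, ∑ l ∈ Finset.range N, (y l).natAbs ≤ 2 ^ h →
    ∑ l ∈ Finset.range N, (y' l).natAbs ≤ 2 ^ h →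
    ∑ l ∈ Finset.range N, (y l : ℝ) * w l ≠ 0 → ∑ l ∈ Finset.range N, (y' l : ℝ) * w l ≠ 0 →
    ∃ u ∈ Lad, rt N w u / 2 < |∑ l ∈ Finset.range N, (y l : ℝ) * w l| /
        |∑ l ∈ Finset.range N, (y' l : ℝ) * w l| ∧
      |∑ l ∈ Finset.range N, (y l : ℝ) * w l| /
        |∑ l ∈ Finset.range N, (y' l : ℝ) * w l| ≤ rt N w u

/-- The ladder before sorting. -/
def S_LD : Prop := ∀ (N h P B Q : ℕ) (w : ℕ → ℝ) (recs : List (List ℤ × ℕ)),
  Good2 N h P B w recs → Q = h + P + 3 →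
  (lad0 N Q recs).length ≤ N * (N * (2 * Q + 1)) ∧ SmallP (2 * B + 2 * Q + 1) (lad0 N Q recs) ∧
  (∀ u ∈ lad0 N Q recs, 0 < evF N w u.1 ∧ 0 < evF N w u.2) ∧ LadG N h w (lad0 N Q recs)

/-- The sorted ladder. -/
def Good3 (N h Z B : ℕ) (w : ℕ → ℝ) (Lad : List (List ℤ × List ℤ)) : Prop :=
  Lad.length ≤ Z ∧ SmallP B Lad ∧ (∀ u ∈ Lad, 0 < evF N w u.1 ∧ 0 < evF N w u.2) ∧
  (Lad.Pairwise fun u v => rt N w v ≤ rt N w u) ∧ LadG N h w Lad

/-- Phase 3. -/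
def S_P3 : Prop := ∀ qV pB : Polynomial ℕ, ∃ q : Polynomial ℕ, ∀ (S : ℕ) (g : Reg → ℝ) (V : VS)
  (w : ℕ → ℝ) (h P B Q : ℕ) (recs : List (List ℤ × ℕ)), Base g → VOK qV S g V w →
  Good2 V.2.length h P B w recs → Q = h + P + 3 → B ≤ pB.eval S → Q ≤ pB.eval S →
  ∃ Lad, Good3 V.2.length h (V.2.length * (V.2.length * (2 * Q + 1))) (2 * B + 2 * Q + 1) w Lad ∧
    Runs g (Gd q S g) (T3 V Q recs) Lad (q.eval S)

/-! ### Phase 4 -/

/-- A solution whose coordinates are zero or close to an element of the ladder. -/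
def SolB (N m n : ℕ) (g : Reg → ℝ) (w : ℕ → ℝ) (Lad : List (List ℤ × List ℤ)) (x : ℕ → ℝ) : Prop :=
  (∀ j < cK m n, 0 ≤ x j) ∧ x (m + (n + n)) = 1 ∧
  (∀ i < m, ∑ j ∈ Finset.range (cK m n), Rv m n g i j * x j = 0) ∧
  ∀ j < m + (n + n), x j = 0 ∨ ∃ u ∈ Lad, rt N w u / 2 < x j ∧ x j ≤ rt N w u

/-- A feasible system has a solution close to the ladder. -/
def S_BF : Prop := ∀ (k m n : ℕ) (A : Matrix (Fin m) (Fin n) ℝ) (b : Fin m → ℝ)
  (x : Cand × List (List ℤ × ℕ)) (Lad : List (List ℤ × List ℤ)), 1 ≤ m →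
  GoodC k m n (start A b) x →
  LadG (N1 k (m + n)) (h1 k (m + n)) (w1 k m n (start A b) x) Lad →
  (∃ z : Fin n → ℝ, b ≤ A.mulVec z) →
  ∃ z : ℕ → ℝ, SolB (N1 k (m + n)) m n (start A b) (w1 k m n (start A b) x) Lad z

/-- The weights described by `idx`. -/
noncomputable def Wt (N m n : ℕ) (w : ℕ → ℝ) (Lad : List (List ℤ × List ℤ)) (idx : List ℕ)
    (j : ℕ) : ℝ := rt N w ((wts m n Lad idx).getD j ([], []))

/-- The solution `x` is bounded by the weights. -/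
def InvX (N m n : ℕ) (w : ℕ → ℝ) (Lad : List (List ℤ × List ℤ)) (idx : List ℕ) (x : ℕ → ℝ) : Prop :=
  ∀ j < m + (n + n), x j ≤ Wt N m n w Lad idx j

/-- The end of a round: with the result `t` of the perceptron algorithm. -/
def S_NX : Prop := ∀ (N h Z B m n : ℕ) (g : Reg → ℝ) (w : ℕ → ℝ) (Lad : List (List ℤ × List ℤ))
  (idx : List ℕ) (b : Bool) (t : List ℕ × Bool), 1 ≤ N → w 0 = 1 → Good3 N h Z B w Lad →
  IdxOK m n Lad idx →
  t = perSt m n (GMat m n g (Wt N m n w Lad idx) (drops m n Lad idx)) (drops m n Lad idx) b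
    (cT m n) →
  IdxOK m n Lad (nextIdx m n idx t.1) ∧ (b = true → t.2 = true) ∧
  (b = false → t.2 = true → SolE m n g) ∧
  (b = false → t.2 = false → ∀ x : ℕ → ℝ, SolB N m n g w Lad x → InvX N m n w Lad idx x →
    InvX N m n w Lad (nextIdx m n idx t.1) x ∧ (nextIdx m n idx t.1).sum = idx.sum + 1)

/-- The initial weights. -/
def S_I0 : Prop := ∀ (N h Z B m n : ℕ) (g : Reg → ℝ) (w : ℕ → ℝ) (Lad : List (List ℤ × List ℤ)),
  Good3 N h Z B w Lad →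
  IdxOK m n Lad ((List.range (m + (n + n))).map fun _ => 0) ∧
  (∀ x : ℕ → ℝ, SolB N m n g w Lad x →
    InvX N m n w Lad ((List.range (m + (n + n))).map fun _ => 0) x) ∧
  ∀ idx, IdxOK m n Lad idx → idx.sum ≤ (m + (n + n)) * Lad.length

/-- A round. -/
def S_RD : Prop := ∀ qV pB : Polynomial ℕ, ∃ q : Polynomial ℕ, ∀ (m n : ℕ) (g : Reg → ℝ) (V : VS)
  (w : ℕ → ℝ) (h Z B : ℕ) (Lad : List (List ℤ × List ℤ)) (idx : List ℕ) (b : Bool), Base g →
  VOK qV (m + n) g V w → w 0 = 1 → Good3 V.2.length h Z B w Lad → B ≤ pB.eval (m + n) →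
  IdxOK m n Lad idx →
  Runs g (Gd q (m + n) g) (round V m n Lad (idx, b))
    (nextIdx m n idx (perSt m n (GMat m n g (Wt V.2.length m n w Lad idx)
        (drops m n Lad idx)) (drops m n Lad idx) b (cT m n)).1,
      (perSt m n (GMat m n g (Wt V.2.length m n w Lad idx)
        (drops m n Lad idx)) (drops m n Lad idx) b (cT m n)).2) (q.eval (m + n))

/-- Phase 4. -/
def S_P4 : Prop := ∀ qV pB : Polynomial ℕ, ∃ q : Polynomial ℕ, ∀ (m n : ℕ) (g : Reg → ℝ) (V : VS)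
  (w : ℕ → ℝ) (h Z B R : ℕ) (Lad : List (List ℤ × List ℤ)), Base g →
  VOK qV (m + n) g V w → w 0 = 1 → Good3 V.2.length h Z B w Lad → B ≤ pB.eval (m + n) →
  R = cK m n * Z + 1 → R ≤ pB.eval (m + n) → ∃ b : Bool,
  Runs g (Gd q (m + n) g) (T4 V m n R Lad) b (q.eval (m + n)) ∧ (b = true → SolE m n g) ∧
  ((∃ x, SolB V.2.length m n g w Lad x) → b = true)

/-! ### Polynomial time -/

/-- Queries in polynomial time. -/
def S_QF : Prop := ∀ (α : Type) [TEnc α] (V : α → VS), Poly V →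
  (∀ (hd : ℕ) (c : α → ℕ) (regs : α → List Reg) (C : α → List ℤ), Poly c → Poly regs → Poly C →
    Poly (fun a => formP hd (c a) (regs a) (C a))) ∧
  (∀ C : α → List ℤ, Poly C → Poly (fun a => fQ (V a) (C a))) ∧
  (∀ u v : α → List ℤ × List ℤ, Poly u → Poly v → Poly (fun a => rQ (V a) (u a) (v a)))

/-- Queries of the perceptron algorithm in polynomial time. -/
def S_QP : Prop := ∀ (α : Type) [TEnc α] (U W : α → List Unit) (V : α → VS)
  (L : α → List (List ℤ × List ℤ)) (drop : α → List Bool) (y : α → List ℕ), Poly U → Poly W →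
  Poly V → Poly L → Poly drop → Poly y →
  Poly (fun a => perQs (V a) (U a).length (W a).length (L a) (drop a) (y a))

/-- The end of a stage in polynomial time. -/
def S_QFIN : Prop := ∀ (α : Type) [TEnc α] (n e : α → ℕ) (s : α → S2) (sg : α → List ℤ)
  (best : α → ℕ) (a : α → List ℕ), UPoly n → UPoly e → Poly s → Poly sg → Poly best → Poly a →
  Poly (fun x => finish (n x) (e x) (s x) (sg x) (best x) (a x))

/-- A stage in polynomial time. -/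
def S_QSTG : Prop := ∀ (α : Type) [TEnc α] (V : α → VS) (e : α → ℕ) (s : α → S2), Poly V →
  UPoly e → Poly s → PT (fun a => stage (V a) (e a) (s a))

/-- Stages in polynomial time. -/
def S_QS : Prop := ∀ (α : Type) [TEnc α] (V : α → VS) (e j : α → ℕ), Poly V →
  UPoly e → UPoly j → (∀ a, 2 * (V a).2.length + 4 ≤ e a) →
  PT (fun a => stages (V a) (e a) (j a))

/-- The vectors and sizes in polynomial time. -/
def S_QV (k : ℕ) : Prop := ∀ (α : Type) [TEnc α] (U W : α → List Unit), Poly U → Poly W →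
  Poly (fun a => cands k (U a).length (W a).length) ∧
  (∀ c : α → Cand, Poly c → Poly (fun a => V0 (U a).length (W a).length (c a))) ∧
  (∀ x : α → Cand × List (List ℤ × ℕ), Poly x →
    Poly (fun a => V1 k (U a).length (W a).length (x a))) ∧
  UPoly (fun a => E0 k ((U a).length + (W a).length)) ∧
  UPoly (fun a => E1 k ((U a).length + (W a).length)) ∧
  UPoly (fun a => N1 k ((U a).length + (W a).length)) ∧
  UPoly (fun a => Q1 k ((U a).length + (W a).length)) ∧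
  UPoly (fun a => R1 k (U a).length (W a).length)

/-- Phase 1 in polynomial time. -/
def S_Q1 (k : ℕ) : Prop := ∀ (α : Type) [TEnc α] (U W : α → List Unit), Poly U → Poly W →
  PT (fun a => T1 k (U a).length (W a).length (E0 k ((U a).length + (W a).length)))

/-- Phase 3 in polynomial time. -/
def S_Q3 : Prop := ∀ (α : Type) [TEnc α] (V : α → VS) (q : α → ℕ)
  (recs : α → List (List ℤ × ℕ)), Poly V → UPoly q → Poly recs →
  PT (fun a => T3 (V a) (q a) (recs a))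

/-- Phase 4 in polynomial time. -/
def S_Q4 : Prop := ∀ (α : Type) [TEnc α] (U W : α → List Unit) (V : α → VS) (r : α → ℕ)
  (Lad : α → List (List ℤ × List ℤ)), Poly U → Poly W → Poly V → UPoly r → Poly Lad →
  PT (fun a => T4 (V a) (U a).length (W a).length (r a) (Lad a))

/-- All sizes are polynomial. -/
def S_PB (k : ℕ) : Prop := ∃ q : Polynomial ℕ, ∀ m n : ℕ, E0 k (m + n) ≤ q.eval (m + n) ∧
  P0 k (m + n) ≤ q.eval (m + n) ∧ h1 k (m + n) ≤ q.eval (m + n) ∧ N1 k (m + n) ≤ q.eval (m + n) ∧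
  E1 k (m + n) ≤ q.eval (m + n) ∧ P1 k (m + n) ≤ q.eval (m + n) ∧ Q1 k (m + n) ≤ q.eval (m + n) ∧
  Z1 k (m + n) ≤ q.eval (m + n) ∧ R1 k m n ≤ q.eval (m + n) ∧
  (P1 k (m + n) + 1) * N1 k (m + n) ≤ q.eval (m + n) ∧ (cands k m n).length ≤ q.eval (m + n) ∧
  (P0 k (m + n) + 1) * k ≤ q.eval (m + n) ∧ cK m n ≤ q.eval (m + n) ∧ cT m n ≤ q.eval (m + n) ∧
  m + n ≤ q.eval (m + n) ∧ k ≤ q.eval (m + n)

/-! ### The result -/

/-- The main theorem. -/
def S_FINAL (k : ℕ) : Prop := PolyControl (alg k) ∧ OracleFree (alg k) ∧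
  StronglyPolynomialOn (fun m n A _ => Comb k m n A) (alg k)

end Pool.Agent.W920.FD
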