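import Pool.Agent.W920.FD.Stm

set_option autoImplicit false

/-!
# Equations of the programs: forms and ratios
-/

namespace Pool.Agent.W920.FD

open Pool.Agent.NPC Pool.Agent.H558R2 Pool.Agent.H622R3.SM Pool.Agent.W920.FC

namespace TEQR

theorem vr_pre (p : Pa) (r : Reg) (hr : r ∈ baseReg ∨ PreHd r) : vr p r = p.U r := by
  have hr' : r.headD 0 < 4 ∨ PreHd r := hr
  unfold PreHd at hr'
  unfold vr
  split <;> first | rfl | (exfalso; simp at hr')

theorem vr_zero (p : Pa) (h : p.OK) : vr p [3] = 0 := by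
  have h3 : ([3] : Reg) ∈ baseReg := by
    show (3 : ℕ) < 4
    norm_num
  rw [vr_pre p [3] (Or.inl h3), h.2.1 [3] h3, h.1.2]

theorem vr_reg (p : Pa) (h : p.OK) (l : ℕ) (hl : l < p.V.2.length) :
    vr p (p.V.2.getD l [3]) = p.w l := by
  rw [vr_pre p _ ?_, h.2.2.2 l hl]
  apply h.2.2.1
  rw [List.getD_eq_getElem _ _ hl]
  exact List.getElem_mem hl

theorem formVal (p : Pa) (c : ℕ) : FormVal (vr p) 32 c p.V.2.length p.w (p.fm c) :=
  ⟨fun _ _ => rfl, fun _ _ _ => ⟨rfl, rfl⟩⟩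

theorem form_eqs (hF : S_FORM) (p : Pa) (h : p.OK) (c : ℕ) :
    ∀ I ∈ formP 32 c p.V.2 (p.fm c), Eqn (vr p) I :=
  hF.1 (vr p) 32 c p.V.2 p.w (p.fm c) (formVal p c) (vr_zero p h) (vr_reg p h)

theorem vr_32 (p : Pa) (c l : ℕ) : vr p [32, c, l] =
    ∑ i ∈ Finset.range l, ((p.fm c).getD i 0 : ℝ) * p.w i := rfl

theorem vr_35 (p : Pa) (j : ℕ) : vr p [35, j] = p.W j := rfl

theorem eqn_div {V : Reg → ℝ} {d a b : Reg} (h : V d = V a / V b) (h' : V b ≠ 0) :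
    Eqn V ⟨Op.div, d, a, b⟩ := ⟨h, fun _ => h'⟩

theorem zipIdx_getD {α : Type} (l : List α) (d : α) (q : α × ℕ) (hq : q ∈ l.zipIdx) :
    q.2 < l.length ∧ l.getD q.2 d = q.1 := by
  obtain ⟨a, i⟩ := q
  rw [List.mk_mem_zipIdx_iff_getElem?] at hq
  obtain ⟨h1, h2⟩ := List.getElem?_eq_some_iff.1 hq
  exact ⟨h1, by rw [List.getD_eq_getElem?_getD, hq]; rfl⟩

theorem fm_even (p : Pa) (j : ℕ) : p.fm (2 * j) = (p.L.getD j ([], [])).1 := by
  unfold Pa.fm
  rw [if_pos (by omega), Nat.mul_div_cancel_left _ (by norm_num)]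

theorem fm_odd (p : Pa) (j : ℕ) : p.fm (2 * j + 1) = (p.L.getD j ([], [])).2 := by
  unfold Pa.fm
  have e : (2 * j + 1) / 2 = j := by omega
  rw [if_neg (by omega), e]

theorem rat_eqs (hF : S_FORM) (p : Pa) (h : p.OK)
    (h0 : ∀ u ∈ p.L, evF p.V.2.length p.w u.2 ≠ 0) :
    ∀ I ∈ ratP p.V.2 p.L, Eqn (vr p) I := by
  intro I hI
  unfold ratP at hI
  rw [List.mem_flatMap] at hI
  obtain ⟨q, hq, hI⟩ := hI
  obtain ⟨h1, h2⟩ := zipIdx_getD _ ([], []) q hq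
  have hmem : q.1 ∈ p.L := by
    rw [← h2, List.getD_eq_getElem _ _ h1]
    exact List.getElem_mem h1
  rw [List.mem_append, List.mem_append, List.mem_singleton] at hI
  have f1 : q.1.1 = p.fm (2 * q.2) := by rw [fm_even, h2]
  have f2 : q.1.2 = p.fm (2 * q.2 + 1) := by rw [fm_odd, h2]
  rcases hI with hI | hI | rfl
  · rw [f1] at hI
    exact form_eqs hF p h _ I hI
  · rw [f2] at hI
    exact form_eqs hF p h _ I hI
  · have e1 : vr p [32, 2 * q.2, p.V.2.length] = evF p.V.2.length p.w q.1.1 := by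
      rw [vr_32, ← f1]; rfl
    have e2 : vr p [32, 2 * q.2 + 1, p.V.2.length] = evF p.V.2.length p.w q.1.2 := by
      rw [vr_32, ← f2]; rfl
    apply eqn_div
    · rw [e1, e2, vr_35]
      unfold Pa.W rt
      rw [h2]
    · rw [e2]
      exact h0 _ hmem

end TEQR

theorem t_EQR : S_FORM → S_EQR :=
  fun hF p h => ⟨TEQR.form_eqs hF p h, TEQR.rat_eqs hF p h⟩

end Pool.Agent.W920.FD
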