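import Pool.Agent.W920.FD.Stm

set_option autoImplicit false

/-!
# Phase 3: the sorted ladder
-/

namespace Pool.Agent.W920.FD

open Pool.Agent.NPC Pool.Agent.H558R2 Pool.Agent.H622R3.SM Pool.Agent.W920.FC

namespace TP3

theorem fa {α γ δ : Type} {R : γ → δ → Prop} (a : α → α → γ) (b : α → α → δ) (L' : List α) :
    ∀ L : List α, (∀ u ∈ L, ∀ v ∈ L', R (a u v) (b u v)) →
    List.Forall₂ R (L.flatMap fun u => L'.map fun v => a u v)
      (L.flatMap fun u => L'.map fun v => b u v)
  | [], _ => by simp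
  | u :: L, h => by
    rw [List.flatMap_cons, List.flatMap_cons]
    refine List.rel_append ?_ (fa a b L' L fun u hu => h u (List.mem_cons_of_mem _ hu))
    rw [List.forall₂_map_left_iff, List.forall₂_map_right_iff, List.forall₂_same]
    intro v hv
    exact h u List.mem_cons_self v hv

theorem lenfm {α γ : Type} (a : α → α → γ) (L' : List α) :
    ∀ L : List α, (L.flatMap fun u => L'.map fun v => a u v).length = L.length * L'.length
  | [] => by simp
  | u :: L => by
    rw [List.flatMap_cons, List.length_append, lenfm a L' L, List.length_map, List.length_cons]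
    ring

theorem QB_mono {β β' : ℕ} (h : β ≤ β') {v : ℝ} (hv : QB β v) : QB β' v := by
  obtain ⟨E, z, h1, h2, h3, h4⟩ := hv
  have h5 : 2 ^ β ≤ 2 ^ β' := Nat.pow_le_pow_right (by norm_num) h
  exact ⟨E, z, h1, h2.trans h5, h3.trans h5, h4⟩

theorem Gd_mono {p q : Polynomial ℕ} (h : ∀ x, p.eval x ≤ q.eval x) {S : ℕ} {g : Reg → ℝ} {v : ℝ}
    (hv : Gd p S g v) : Gd q S g v := fun lam hl => QB_mono (h _) (hv lam hl)

theorem SmallL_mono {B B' : ℕ} (h : B ≤ B') {L : List ℤ} (hL : SmallL B L) : SmallL B' L :=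
  fun x hx => (hL x hx).trans (Nat.pow_le_pow_right (by norm_num) h)

end TP3

open TP3 in
theorem t_P3 : S_BND → S_BATCH → S_MONO → S_HVR → S_LD → S_SORT → S_P3 := by
  intro hBND hBATCH hMONO hHVR hLD hSORT qV pB
  obtain ⟨qv, hqv⟩ := hHVR qV (2 * pB + 2 * pB + 1)
  refine ⟨(qV * (qV * (2 * pB + 1))) * (qV * (qV * (2 * pB + 1))) * (qv + 1) + qv,
    fun S g V w h P B Q recs hg hV hG2 hQ hB hQ' => ?_⟩
  obtain ⟨l1, l2, l3, l4⟩ := hLD V.2.length h P B Q w recs hG2 hQ
  set L := lad0 V.2.length Q recs with hL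
  set f : List ℤ × List ℤ → ℝ := rt V.2.length w with hf
  set vs : List ℝ := L.flatMap fun u => L.map fun v => f u - f v with hvs
  obtain ⟨s1, s2⟩ := hSORT L f
  have hN : V.2.length ≤ qV.eval S := hV.2.2.2.2.1
  have b2 : 2 * B + 2 * Q + 1 ≤ (2 * pB + 2 * pB + 1 : Polynomial ℕ).eval S := by
    simp only [Polynomial.eval_add, Polynomial.eval_mul, Polynomial.eval_ofNat,
      Polynomial.eval_one]
    omega
  have b1 : V.2.length * (V.2.length * (2 * Q + 1)) ≤
      (qV * (qV * (2 * pB + 1)) : Polynomial ℕ).eval S := by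
    simp only [Polynomial.eval_add, Polynomial.eval_mul, Polynomial.eval_ofNat,
      Polynomial.eval_one]
    exact Nat.mul_le_mul hN (Nat.mul_le_mul hN (by omega))
  have hq : ∀ u ∈ L, ∀ v ∈ L, HasVal g (Gd qv S g) (rQ V u v) (f u - f v) ∧
      (rQ V u v).1.length ≤ qv.eval S := by
    intro u hu v hv
    refine hqv S g V w u v hg hV ?_ (l3 u hu).2.ne' (l3 v hv).2.ne'
    intro x hx
    have hx' : x ∈ L := by
      rcases List.mem_cons.1 hx with rfl | hx
      · exact hu
      · rcases List.mem_cons.1 hx with rfl | hx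
        · exact hv
        · exact absurd hx List.not_mem_nil
    exact ⟨SmallL_mono b2 (l2 x hx').1, SmallL_mono b2 (l2 x hx').2⟩
  have hfa : List.Forall₂ (HasVal g (Gd qv S g)) (sortQs V L) vs :=
    fa _ _ L L fun u hu v hv => (hq u hu v hv).1
  have hrun := hBATCH g (Gd qv S g) (sortQs V L) vs hfa
  have hret : Runs g (Gd qv S g) (ret (sortL L (vs.map signOut))) (sortL L (vs.map signOut)) 0 :=
    Runs.done _ _ _ fun _ => rfl
  have hall := hBND _ _ g (Gd qv S g) (batch (sortQs V L)) (fun o => ret (sortL L o))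
    (vs.map signOut) (sortL L (vs.map signOut)) _ 0 hrun hret
  refine ⟨sortL L (vs.map signOut), ⟨?_, ?_, ?_, ?_, ?_⟩, ?_⟩
  · rw [s1.length_eq]
    exact l1
  · intro u hu
    exact l2 u (s1.mem_iff.1 hu)
  · intro u hu
    exact l3 u (s1.mem_iff.1 hu)
  · exact s2
  · intro y y' h1 h2 h3 h4
    obtain ⟨u, hu, hu'⟩ := l4 y y' h1 h2 h3 h4
    exact ⟨u, s1.mem_iff.2 hu, hu'⟩
  · refine hMONO _ g (Gd qv S g) _ _ _ _ _ ?_ ?_ hall
    · intro v hv
      refine Gd_mono (fun x => ?_) hv
      rw [Polynomial.eval_add]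
      exact Nat.le_add_left _ _
    · rw [add_zero, Polynomial.eval_add, Polynomial.eval_mul (q := qv + 1), Polynomial.eval_mul,
        Polynomial.eval_add (p := qv), Polynomial.eval_one]
      refine le_trans ?_ (Nat.le_add_right _ _)
      have h1 : ((sortQs V L).map fun q => q.1.length + 1).sum ≤
          ((sortQs V L).map fun q => q.1.length + 1).length • (qv.eval S + 1) := by
        refine List.sum_le_card_nsmul _ _ fun x hx => ?_
        obtain ⟨q, hq1, rfl⟩ := List.mem_map.1 hx
        unfold sortQs at hq1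
        obtain ⟨u, hu, hq2⟩ := List.mem_flatMap.1 hq1
        obtain ⟨v, hv, rfl⟩ := List.mem_map.1 hq2
        exact Nat.succ_le_succ (hq u hu v hv).2
      refine le_trans h1 ?_
      have h2 : (sortQs V L).length = L.length * L.length := lenfm _ L L
      rw [List.length_map, h2, smul_eq_mul]
      exact Nat.mul_le_mul_right _ (Nat.mul_le_mul (l1.trans b1) (l1.trans b1))

end Pool.Agent.W920.FD
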