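import Pool.Agent.W920.FD.Stm

set_option autoImplicit false

/-!
# All stages of simultaneous Diophantine approximation
-/

namespace Pool.Agent.W920.FD

open Pool.Agent.NPC Pool.Agent.H558R2 Pool.Agent.H622R3.SM Pool.Agent.W920.FC

namespace TSTGS

theorem forall2_flatMap {α β γ : Type} {R : β → γ → Prop} (l : List α) (f : α → List β)
    (g : α → List γ) (h : ∀ a ∈ l, List.Forall₂ R (f a) (g a)) :
    List.Forall₂ R (l.flatMap f) (l.flatMap g) := by
  induction l with
  | nil => simp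
  | cons a l ih =>
    rw [List.flatMap_cons, List.flatMap_cons]
    exact List.rel_append (h a (by simp)) (ih fun b hb => h b (List.mem_cons_of_mem _ hb))

theorem forall2_map {α β γ : Type} {R : β → γ → Prop} (l : List α) (f : α → β) (g : α → γ)
    (h : ∀ a ∈ l, R (f a) (g a)) : List.Forall₂ R (l.map f) (l.map g) := by
  rw [List.forall₂_map_left_iff, List.forall₂_map_right_iff, List.forall₂_same]
  exact h

theorem sum_le (qs : List Qry) (L : ℕ) (h : ∀ q ∈ qs, q.1.length ≤ L) :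
    (qs.map fun q => q.1.length + 1).sum ≤ qs.length * (L + 1) := by
  induction qs with
  | nil => simp
  | cons q qs ih =>
    rw [List.map_cons, List.sum_cons, List.length_cons]
    have h1 := h q (by simp)
    have h2 := ih fun q hq => h q (List.mem_cons_of_mem _ hq)
    nlinarith

theorem len_cmp (V : VS) (F : List (List ℤ)) :
    (cmpQs V F).length = V.2.length + V.2.length * (V.2.length * 2) := by
  simp [cmpQs, List.length_flatMap]

theorem len_bis (V : VS) (P : ℕ) (F : List (List ℤ)) (sg : List ℤ) (best : ℕ)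
    (s : ℕ × List ℕ) : (bisQs V P F sg best s).length = V.2.length := by
  simp [bisQs]

theorem smallL_mono {B B' : ℕ} {L : List ℤ} (h : SmallL B L) (hB : B ≤ B') : SmallL B' L :=
  fun x hx => (h x hx).trans (Nat.pow_le_pow_right (by norm_num) hB)

theorem small_getD {B : ℕ} (F : List (List ℤ)) (h : ∀ C ∈ F, SmallL B C) (l : ℕ) :
    SmallL B (F.getD l []) := by
  by_cases hl : l < F.length
  · rw [List.getD_eq_getElem _ _ hl]
    exact h _ (List.getElem_mem hl)
  · rw [List.getD_eq_default _ _ (by omega)]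
    intro x hx
    simp at hx

theorem runs_ret {β : Type} (g : Reg → ℝ) (G : ℝ → Prop) (b : β) : Runs g G (ret b) b 0 :=
  Runs.done (ret b) b 0 fun _ => rfl

theorem sign_abs (x : ℝ) : ((SignType.sign x : ℤ) : ℝ) * x = |x| := by
  rcases lt_trichotomy x 0 with h | h | h
  · rw [sign_neg h, abs_of_neg h]
    simp
  · rw [h]
    simp
  · rw [sign_pos h, abs_of_pos h]
    simp

theorem sign_le (x : ℝ) : ((SignType.sign x : ℤ)).natAbs ≤ 1 := by
  rcases lt_trichotomy x 0 with h | h | h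
  · rw [sign_neg h]
    simp
  · rw [h]
    simp
  · rw [sign_pos h]
    simp

theorem gd_mono {q1 q : Polynomial ℕ} (h : ∀ x, q1.eval x ≤ q.eval x) (S : ℕ) (g : Reg → ℝ)
    (v : ℝ) (hv : Gd q1 S g v) : Gd q S g v := by
  intro lam hl
  obtain ⟨E, z, h1, h2, h3, h4⟩ := hv lam hl
  have h5 : 2 ^ q1.eval (S + lam) ≤ 2 ^ q.eval (S + lam) :=
    Nat.pow_le_pow_right (by norm_num) (h _)
  exact ⟨E, z, h1, h2.trans h5, h3.trans h5, h4⟩

/-- The comparisons. -/
theorem runs_cmp (hba : S_BATCH) (V : VS) (w : ℕ → ℝ) (F : List (List ℤ))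
    (g : Reg → ℝ) (G : ℝ → Prop) (L B : ℕ) (hl : S_LIN)
    (hF : ∀ l, SmallL B (F.getD l []))
    (hv : ∀ C : List ℤ, SmallL (B + 1) C →
      HasVal g G (fQ V C) (evF V.2.length w C) ∧ (fQ V C).1.length ≤ L) :
    ∃ c, c ≤ (V.2.length + V.2.length * (V.2.length * 2)) * (L + 1) ∧
      Runs g G (batch (cmpQs V F)) ((cmpVals V.2.length
        (fun l => evF V.2.length w (F.getD l []))).map signOut) c := by
  have hcomb : ∀ (l l' : ℕ) (d : ℤ), d.natAbs ≤ 1 →
      SmallL (B + 1) (fcomb V.2.length 1 (F.getD l []) d (F.getD l' [])) := by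
    intro l l' d hd
    have h := (hl V.2.length w 1 d (F.getD l []) (F.getD l' [])).2.2.2 B 0 (hF l)
      (hF l') (by simp) (by simpa using hd)
    simpa using h
  refine ⟨_, ?_, hba g G (cmpQs V F) _ ?_⟩
  · refine (sum_le _ L ?_).trans (by rw [len_cmp])
    intro q hq
    unfold cmpQs at hq
    rcases List.mem_append.1 hq with hq | hq
    · obtain ⟨l, -, rfl⟩ := List.mem_map.1 hq
      exact (hv _ (smallL_mono (hF l) (by omega))).2
    · obtain ⟨l, -, hq⟩ := List.mem_flatMap.1 hq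
      obtain ⟨l', -, hq⟩ := List.mem_flatMap.1 hq
      rcases List.mem_cons.1 hq with rfl | hq
      · exact (hv _ (hcomb l l' (-1) (by simp))).2
      · rw [List.mem_singleton] at hq
        subst hq
        exact (hv _ (hcomb l l' 1 (by simp))).2
  · unfold cmpQs cmpVals
    refine List.rel_append ?_ ?_
    · exact forall2_map _ _ _ fun l _ => (hv _ (smallL_mono (hF l) (by omega))).1
    · refine forall2_flatMap _ _ _ fun l _ => forall2_flatMap _ _ _ fun l' _ => ?_
      have h1 := (hv _ (hcomb l l' (-1) (by simp))).1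
      have h2 := (hv _ (hcomb l l' 1 (by simp))).1
      rw [(hl V.2.length w 1 (-1) (F.getD l []) (F.getD l' [])).1] at h1
      rw [(hl V.2.length w 1 1 (F.getD l []) (F.getD l' [])).1] at h2
      refine List.Forall₂.cons ?_ (List.Forall₂.cons ?_ List.Forall₂.nil)
      · convert h1 using 1
        push_cast
        ring
      · convert h2 using 1
        push_cast
        ring

/-- A step of the bisections. -/
theorem runs_bis (hba : S_BATCH) (V : VS) (w : ℕ → ℝ) (P : ℕ) (F : List (List ℤ))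
    (g : Reg → ℝ) (G : ℝ → Prop) (L B : ℕ) (hl : S_LIN)
    (hF : ∀ l, SmallL B (F.getD l []))
    (hv : ∀ C : List ℤ, SmallL (B + (P + 1) + 1) C →
      HasVal g G (fQ V C) (evF V.2.length w C) ∧ (fQ V C).1.length ≤ L)
    (sg : List ℤ) (best : ℕ) (hb : best < V.2.length)
    (hsg : ∀ l < V.2.length, sg.getD l 0 =
      (SignType.sign (evF V.2.length w (F.getD l [])) : ℤ))
    (t : ℕ × List ℕ) (ht1 : t.1 ≤ 2 ^ P) (ht2 : ∀ l, t.2.getD l 0 ≤ 2 ^ P) :
    ∃ c, c ≤ V.2.length * (L + 1) ∧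
      Runs g G (batch (bisQs V P F sg best t))
        (((List.range V.2.length).map fun l => 2 ^ P *
          |evF V.2.length w (F.getD l [])| - ((t.2.getD l 0 + t.1 / 2 : ℕ) : ℝ) *
          |evF V.2.length w (F.getD best [])|).map signOut) c := by
  have hsg1 : ∀ l < V.2.length, (sg.getD l 0).natAbs ≤ 1 := by
    intro l hl'
    rw [hsg l hl']
    exact sign_le _
  have hcomb : ∀ l < V.2.length, SmallL (B + (P + 1) + 1) (fcomb V.2.length
      (2 ^ P * sg.getD l 0) (F.getD l [])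
      (-(((t.2.getD l 0 + t.1 / 2 : ℕ) : ℤ) * sg.getD best 0)) (F.getD best [])) := by
    intro l hl'
    refine (hl V.2.length w _ _ (F.getD l []) (F.getD best [])).2.2.2 B
      (P + 1) (hF l) (hF best) ?_ ?_
    · rw [Int.natAbs_mul, Int.natAbs_pow]
      have h1 := hsg1 l hl'
      have h2 : 2 ^ P ≤ 2 ^ (P + 1) := Nat.pow_le_pow_right (by norm_num) (by omega)
      calc (2 : ℤ).natAbs ^ P * (sg.getD l 0).natAbs ≤ 2 ^ P * 1 :=
            Nat.mul_le_mul (le_of_eq rfl) h1
        _ ≤ _ := by omega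
    · rw [Int.natAbs_neg, Int.natAbs_mul, Int.natAbs_natCast]
      have h1 := hsg1 best hb
      have h2 : t.2.getD l 0 + t.1 / 2 ≤ 2 ^ (P + 1) := by
        have h3 := ht2 l
        have h4 : 2 ^ (P + 1) = 2 ^ P + 2 ^ P := by ring
        omega
      calc (t.2.getD l 0 + t.1 / 2) * (sg.getD best 0).natAbs ≤ 2 ^ (P + 1) * 1 :=
            Nat.mul_le_mul h2 h1
        _ = _ := by ring
  refine ⟨_, ?_, hba g G (bisQs V P F sg best t) _ ?_⟩
  · refine (sum_le _ L ?_).trans (by rw [len_bis])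
    intro q hq
    unfold bisQs at hq
    obtain ⟨l, hlr, rfl⟩ := List.mem_map.1 hq
    exact (hv _ (hcomb l (List.mem_range.1 hlr))).2
  · unfold bisQs
    refine forall2_map _ _ _ fun l hlr => ?_
    have hl' := List.mem_range.1 hlr
    have h1 := (hv _ (hcomb l hl')).1
    rw [(hl V.2.length w _ _ (F.getD l []) (F.getD best [])).1] at h1
    convert h1 using 1
    rw [← sign_abs (evF V.2.length w (F.getD l [])),
      ← sign_abs (evF V.2.length w (F.getD best [])), ← hsg l hl', ← hsg best hb]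
    obtain ⟨M, hM⟩ : ∃ M : ℕ, M = t.2.getD l 0 + t.1 / 2 := ⟨_, rfl⟩
    rw [← hM]
    push_cast
    ring

/-- One stage. -/
theorem stg (hbnd : S_BND) (hba : S_BATCH) (hit : S_ITER) (hmo : S_MONO) (hl : S_LIN)
    (hcmp : S_CMP) (hbis : S_BIS) (hfn : S_FN) (g : Reg → ℝ) (G : ℝ → Prop) (V : VS)
    (w : ℕ → ℝ) (E h B L j : ℕ) (s : S2) (hN1 : 1 ≤ V.2.length) (hE : h + 2 * V.2.length + 4 ≤ E)
    (hB : ((V.2.length + 1) * E + 1) * j ≤ B)
    (hv : ∀ C : List ℤ, SmallL (B + ((V.2.length + 1) * E + 1) + 1) C →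
      HasVal g G (fQ V C) (evF V.2.length w C) ∧ (fQ V C).1.length ≤ L)
    (hinv : Inv2 V.2.length E h w j s) :
    ∃ s' : S2, Inv2 V.2.length E h w (j + 1) s' ∧ Runs g G (stage V E s) s'
      ((V.2.length + V.2.length * (V.2.length * 2)) * (L + 1) +
        (V.2.length + 1) * E * (V.2.length * (L + 1))) := by
  obtain ⟨P, hP⟩ : ∃ P, P = (V.2.length + 1) * E := ⟨_, rfl⟩
  obtain ⟨x, hx⟩ : ∃ x : ℕ → ℝ, x = fun l => evF V.2.length w (s.2.1.getD l []) := ⟨_, rfl⟩
  have hF : ∀ l, SmallL B (s.2.1.getD l []) := by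
    refine small_getD _ fun C hC => smallL_mono (hinv.1.2.2.2.1 C hC).2 hB
  rw [← hP] at hv
  obtain ⟨c1, hc1, hr1⟩ := runs_cmp hba V w s.2.1 g G L _ hl hF
    (fun C hC => hv C (smallL_mono hC (by omega)))
  rw [← hx] at hr1
  obtain ⟨o, ho⟩ : ∃ o, o = (cmpVals V.2.length x).map signOut := ⟨_, rfl⟩
  rw [← ho] at hr1
  obtain ⟨hs1, hs2, hs3, hs4⟩ := hcmp V.2.length x hN1
  rw [← ho] at hs1 hs2 hs3 hs4
  obtain ⟨sg, hsg⟩ : ∃ sg, sg = sgOf V.2.length o := ⟨_, rfl⟩
  obtain ⟨best, hbest⟩ : ∃ best, best = bestOf V.2.length o := ⟨_, rfl⟩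
  rw [← hsg] at hs1 hs2
  rw [← hbest] at hs3 hs4
  have hsx : ∀ l < V.2.length, sg.getD l 0 =
      (SignType.sign (evF V.2.length w (s.2.1.getD l [])) : ℤ) := by
    intro l hl'
    rw [hs2 l hl', hx]
  obtain ⟨st, hst⟩ : ∃ st : ℕ → ℕ × List ℕ, st = bisSt V.2.length P (fun l => |x l|)
    |x best| := ⟨_, rfl⟩
  have hst0 : st 0 = (2 ^ P, (List.range V.2.length).map fun _ => 0) := by
    rw [hst]
    rfl
  obtain ⟨hbi1, hbi2⟩ := hbis V.2.length P (fun l => |x l|) |x best|
  rw [← hst] at hbi1 hbi2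
  have hstep : ∀ i < P, Runs g G
      (bnd (batch (bisQs V P s.2.1 sg best (st i))) fun o' =>
        ret (bisUpd V.2.length (st i) o')) (st (i + 1)) (V.2.length * (L + 1)) := by
    intro i hi
    obtain ⟨h1, h2⟩ := hbi1 i hi.le
    obtain ⟨c2, hc2, hr2⟩ := runs_bis hba V w P s.2.1 g G L _ hl hF hv sg best
      hs3 hsx (st i) h1 h2
    have h3 := hbnd _ _ g G (batch (bisQs V P s.2.1 sg best (st i)))
      (fun o' => ret (bisUpd V.2.length (st i) o')) _ _ _ _ hr2 (runs_ret g _ _)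
    have h4 : bisUpd V.2.length (st i) (((List.range V.2.length).map fun l => 2 ^ P *
          |evF V.2.length w (s.2.1.getD l [])| -
            (((st i).2.getD l 0 + (st i).1 / 2 : ℕ) : ℝ) *
          |evF V.2.length w (s.2.1.getD best [])|).map signOut) = st (i + 1) := by
      rw [hst, hx]
      rfl
    rw [h4] at h3
    exact hmo _ g _ _ _ _ _ _ (fun v hv => hv) (by omega) h3
  have hiter := hit _ g G (fun t => bnd (batch (bisQs V P s.2.1 sg best t))
    fun o' => ret (bisUpd V.2.length t o')) st P _ hstep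
  rw [hst0] at hiter
  have h5 := hbnd _ _ g G _ (fun t => ret (finish V.2.length E s sg best t.2)) _ _ _ _
    hiter (runs_ret g _ _)
  have h6 := hbnd _ _ g G (batch (cmpQs V s.2.1)) (fun o =>
    bnd (iter (fun t => bnd (batch (bisQs V P s.2.1 (sgOf V.2.length o) (bestOf V.2.length o) t))
      fun o' => ret (bisUpd V.2.length t o')) P
        (2 ^ P, (List.range V.2.length).map fun _ => 0)) fun t =>
      ret (finish V.2.length E s (sgOf V.2.length o) (bestOf V.2.length o) t.2)) o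
    (finish V.2.length E s sg best (st P).2) _ _ hr1 (by
      rw [← hsg, ← hbest]
      exact h5)
  refine ⟨finish V.2.length E s sg best (st P).2, ?_, ?_⟩
  · refine hfn V.2.length E h w j s sg best _ hN1 hE hinv hs1 hsx hs3 ?_ ?_
    · intro l hl'
      have h := hs4 l hl'
      rw [hx] at h
      exact h
    · intro hne l hl' _
      have hX : 0 < |x best| := by
        rw [hx]
        exact abs_pos.2 hne
      have h := hbi2 hX l hl' (abs_nonneg _) (hs4 l hl')
      rw [hx] at h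
      rw [← hP]
      exact h
  · subst hP
    exact hmo _ g _ _ _ _ _ _ (fun v hv => hv) (by omega) h6

/-- The initial state. -/
theorem init (hl : S_LIN) (N E h : ℕ) (w : ℕ → ℝ) : Inv2 N E h w 0 ([], (unitF N, 1)) := by
  refine ⟨⟨le_rfl, ?_, ?_, ?_, ?_⟩, le_rfl, ?_, ?_, Or.inl rfl, fun _ _ => 0, fun _ => 0, ?_, ?_,
    ?_, ?_⟩
  · intro a ha
    simp at ha
  · simp [unitF]
  · intro C hC
    unfold unitF at hC
    obtain ⟨l, -, rfl⟩ := List.mem_map.1 hC
    refine ⟨by simp, ?_⟩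
    intro x hx
    obtain ⟨l', -, rfl⟩ := List.mem_map.1 hx
    split_ifs <;> simp
  · simp
  · intro a ha
    simp at ha
  · simp
  · intro i hi
    simp at hi
  · intro l hl'
    rw [(hl N w 0 0 [] []).2.2.1 l hl']
    simp
  · intro i hi
    simp at hi
  · intro i hi
    simp at hi

end TSTGS

open TSTGS in
theorem t_STGS : S_BND → S_BATCH → S_ITER → S_MONO → S_HVF → S_LIN → S_CMP → S_BIS → S_FN →
    S_STGS := by
  intro hbnd hba hit hmo hvf hl hcmp hbis hfn qV pE
  obtain ⟨q1, hq1⟩ := hvf qV (((qV + 1) * pE + 1) * pE + ((qV + 1) * pE + 1) + 1)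
  refine ⟨q1 + pE * ((qV + qV * (qV * 2)) * (q1 + 1) + (qV + 1) * pE * (qV * (q1 + 1))), ?_⟩
  intro S g V w E h J hg hV hE hEp hJp
  have hNp : V.2.length ≤ qV.eval S := hV.2.2.2.2.1
  have hN1 : 1 ≤ V.2.length := hV.2.2.2.2.2.1
  obtain ⟨L, hL⟩ : ∃ L, L = q1.eval S := ⟨_, rfl⟩
  have hv : ∀ C : List ℤ, SmallL (((V.2.length + 1) * E + 1) * J +
      ((V.2.length + 1) * E + 1) + 1) C →
      HasVal g (Gd q1 S g) (fQ V C) (evF V.2.length w C) ∧ (fQ V C).1.length ≤ L := by
    intro C hC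
    rw [hL]
    refine hq1 S g V w C hg hV (smallL_mono hC ?_)
    simp only [Polynomial.eval_add, Polynomial.eval_mul, Polynomial.eval_one]
    gcongr
  classical
  choose! nx hnx1 hnx2 using fun (j : ℕ) (s : S2) (hj : j < J)
    (hI : Inv2 V.2.length E h w j s) =>
      stg hbnd hba hit hmo hl hcmp hbis hfn g (Gd q1 S g) V w E h
        (((V.2.length + 1) * E + 1) * J) L j s hN1 hE (Nat.mul_le_mul le_rfl hj.le) hv hI
  obtain ⟨s, hs0, hs⟩ : ∃ s : ℕ → S2, s 0 = ([], (unitF V.2.length, 1)) ∧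
      ∀ i, s (i + 1) = nx i (s i) :=
    ⟨fun i => Nat.rec ([], (unitF V.2.length, 1)) (fun i x => nx i x) i, rfl, fun _ => rfl⟩
  have hI : ∀ i, i ≤ J → Inv2 V.2.length E h w i (s i) := by
    intro i
    induction i with
    | zero =>
      intro _
      rw [hs0]
      exact init hl _ _ _ _
    | succ i ih =>
      intro hi
      rw [hs]
      exact hnx1 i (s i) (by omega) (ih (by omega))
  have hR := hit S2 g (Gd q1 S g) (stage V E) s J _
    (fun i hi => by
      rw [hs]
      exact hnx2 i (s i) hi (hI i hi.le))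
  rw [hs0] at hR
  refine ⟨s J, hI J le_rfl, ?_⟩
  refine hmo _ g _ _ _ _ _ _ (fun v hv => gd_mono (fun y => ?_) _ _ _ hv) ?_ hR
  · rw [Polynomial.eval_add]
    omega
  · simp only [Polynomial.eval_add, Polynomial.eval_mul, Polynomial.eval_ofNat,
      Polynomial.eval_one]
    rw [← hL]
    refine le_trans ?_ (Nat.le_add_left _ _)
    gcongr

end Pool.Agent.W920.FD
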